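import Pool.Agent.Lib.MP_a8cbfa_co.PoDef

set_option autoImplicit false
set_option linter.unusedSectionVars false

open Finset Filter Topology

namespace Pool.Agent.Lib.MP_a8cbfa_co

/-! ### Lower bounds for the main terms -/

lemma two_pow_le_middle (n : ℕ) : (2 : ℝ) ^ n ≤ ((n : ℝ) + 1) * (n.choose (n / 2) : ℝ) := by
  have h1 : 2 ^ n ≤ (n + 1) * n.choose (n / 2) := by
    rw [← Nat.sum_range_choose n]
    calc ∑ m ∈ range (n + 1), n.choose m ≤ ∑ _m ∈ range (n + 1), n.choose (n / 2) :=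
          Finset.sum_le_sum fun m _ => Nat.choose_le_middle m n
      _ = (n + 1) * n.choose (n / 2) := by simp
  exact_mod_cast h1

lemma mid_exp (n : ℕ) : (n : ℝ) ^ 2 / 4 - 1 / 4 ≤ ((n / 2 * (n - n / 2) : ℕ) : ℝ) := by
  obtain ⟨m, hm | hm⟩ : ∃ m, n = 2 * m ∨ n = 2 * m + 1 := ⟨n / 2, by omega⟩
  · have h1 : n / 2 = m := by omega
    have h2 : n - n / 2 = m := by omega
    rw [h2, h1, hm]
    push_cast
    nlinarith
  · have h1 : n / 2 = m := by omega
    have h2 : n - n / 2 = m + 1 := by omega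
    rw [h2, h1, hm]
    push_cast
    nlinarith

lemma term_lower (n : ℕ) (k : ℕ) (w : ℝ) (hk : w ≤ k) :
    pw ((n : ℝ) ^ 2 / 4 - 1 / 4 + n + w) / ((n : ℝ) + 1) ≤
      (n.choose (n / 2) : ℝ) * 2 ^ k * 2 ^ (n / 2 * (n - n / 2)) := by
  have h1 := two_pow_le_middle n
  have h2 := mid_exp n
  rw [div_le_iff₀ (by positivity)]
  have h3 : pw ((n : ℝ) ^ 2 / 4 - 1 / 4 + n + w) ≤
      2 ^ (n / 2 * (n - n / 2)) * 2 ^ n * 2 ^ k := by
    rw [pw_add, pw_add]
    have e1 : pw ((n : ℝ) ^ 2 / 4 - 1 / 4) ≤ 2 ^ (n / 2 * (n - n / 2)) := by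
      rw [← pw_nat]
      exact pw_mono h2
    have e2 : pw w ≤ 2 ^ k := by
      rw [← pw_nat]
      exact pw_mono hk
    have e3 : pw (n : ℝ) = 2 ^ n := pw_nat n
    rw [e3]
    have p1 := pw_nonneg ((n : ℝ) ^ 2 / 4 - 1 / 4)
    have p2 := pw_nonneg w
    gcongr
  calc pw ((n : ℝ) ^ 2 / 4 - 1 / 4 + n + w)
      ≤ 2 ^ (n / 2 * (n - n / 2)) * 2 ^ n * 2 ^ k := h3
    _ ≤ 2 ^ (n / 2 * (n - n / 2)) * (((n : ℝ) + 1) * (n.choose (n / 2) : ℝ)) * 2 ^ k := by
        gcongr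
    _ = (n.choose (n / 2) : ℝ) * 2 ^ k * 2 ^ (n / 2 * (n - n / 2)) * ((n : ℝ) + 1) := by ring

lemma TT_lower' (n : ℕ) : pw ((n : ℝ) ^ 2 / 4 + 3 * n / 2 - 1) / ((n : ℝ) + 1) ≤ TT n := by
  have hk : (n : ℝ) / 2 ≤ ((n - n / 2 : ℕ) : ℝ) := by
    have h1 : n ≤ 2 * (n - n / 2) := by omega
    have h2 : (n : ℝ) ≤ 2 * ((n - n / 2 : ℕ) : ℝ) := by exact_mod_cast h1
    linarith
  have h1 := term_lower n (n - n / 2) (n / 2) hk
  have h2 : (n.choose (n / 2) : ℝ) * 2 ^ (n - n / 2) * 2 ^ (n / 2 * (n - n / 2)) ≤ TT n := by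
    unfold TT
    exact Finset.single_le_sum (f := fun b => (n.choose b : ℝ) * 2 ^ (n - b) * 2 ^ (b * (n - b)))
      (fun i _ => by positivity) (Finset.mem_range.2 (by omega))
  have h3 : pw ((n : ℝ) ^ 2 / 4 + 3 * n / 2 - 1) ≤ pw ((n : ℝ) ^ 2 / 4 - 1 / 4 + n + n / 2) :=
    pw_mono (by linarith)
  calc pw ((n : ℝ) ^ 2 / 4 + 3 * n / 2 - 1) / ((n : ℝ) + 1)
      ≤ pw ((n : ℝ) ^ 2 / 4 - 1 / 4 + n + n / 2) / ((n : ℝ) + 1) := by gcongr
    _ ≤ TT n := h1.trans h2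

lemma TA_lower' (n : ℕ) : pw ((n : ℝ) ^ 2 / 4 + 2 * n - 1) / ((n : ℝ) + 1) ≤ TA n := by
  have h1 := term_lower n n n le_rfl
  have h2 : (n.choose (n / 2) : ℝ) * 2 ^ n * 2 ^ (n / 2 * (n - n / 2)) ≤ TA n := by
    unfold TA
    exact Finset.single_le_sum (f := fun b => (n.choose b : ℝ) * 2 ^ n * 2 ^ (b * (n - b)))
      (fun i _ => by positivity) (Finset.mem_range.2 (by omega))
  have h3 : pw ((n : ℝ) ^ 2 / 4 + 2 * n - 1) ≤ pw ((n : ℝ) ^ 2 / 4 - 1 / 4 + n + n) :=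
    pw_mono (by linarith)
  calc pw ((n : ℝ) ^ 2 / 4 + 2 * n - 1) / ((n : ℝ) + 1)
      ≤ pw ((n : ℝ) ^ 2 / 4 - 1 / 4 + n + n) / ((n : ℝ) + 1) := by gcongr
    _ ≤ TA n := h1.trans h2

lemma TT_pos (n : ℕ) : 0 < TT n :=
  lt_of_lt_of_le (div_pos (pw_pos _) (by positivity)) (TT_lower' n)

lemma TA_pos (n : ℕ) : 0 < TA n :=
  lt_of_lt_of_le (div_pos (pw_pos _) (by positivity)) (TA_lower' n)

lemma div_sq_le (x : ℝ) (hx : 0 ≤ x) (n : ℕ) : x / ((n : ℝ) + 1) ^ 2 ≤ x / ((n : ℝ) + 1) := by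
  have h1 : (1 : ℝ) ≤ (n : ℝ) + 1 := by
    have : (0 : ℝ) ≤ n := Nat.cast_nonneg n
    linarith
  gcongr
  nlinarith

theorem TT_lower (n : ℕ) (_hn : 1 ≤ n) :
    pw ((n : ℝ) ^ 2 / 4 + 3 * n / 2 - 1) / ((n : ℝ) + 1) ^ 2 ≤ TT n :=
  (div_sq_le _ (pw_nonneg _) n).trans (TT_lower' n)

theorem TA_lower (n : ℕ) (_hn : 1 ≤ n) :
    pw ((n : ℝ) ^ 2 / 4 + 2 * n - 1) / ((n : ℝ) + 1) ^ 2 ≤ TA n :=
  (div_sq_le _ (pw_nonneg _) n).trans (TA_lower' n)

/-! ### The theta constants -/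

/-- The theta weight `2 ^ (a j - j ^ 2)`. -/
noncomputable def th (a : ℤ) (j : ℤ) : ℝ := (2 : ℝ) ^ (a * j - j ^ 2)

lemma th_pos (a j : ℤ) : 0 < th a j := by
  unfold th
  positivity

lemma hasSum_geom (x : ℝ) (h0 : 0 ≤ x) (h1 : x < 1) :
    HasSum (fun j : ℤ => x ^ j.natAbs) ((1 - x)⁻¹ + x * (1 - x)⁻¹) := by
  have h2 : HasSum (fun n : ℕ => x ^ n) (1 - x)⁻¹ := hasSum_geometric_of_lt_one h0 h1
  refine HasSum.of_nat_of_neg_add_one (f := fun j : ℤ => x ^ j.natAbs) ?_ ?_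
  · simpa using h2
  · have e : (fun n : ℕ => x ^ (-((n : ℤ) + 1)).natAbs) = fun n : ℕ => x * x ^ n := by
      funext n
      have : (-((n : ℤ) + 1)).natAbs = n + 1 := by omega
      rw [this, pow_succ']
    rw [e]
    exact h2.mul_left x

lemma abs_eq_natAbs (j : ℤ) : |j| = (j.natAbs : ℤ) := by
  simp

lemma th_le_geom (a j : ℤ) (ha : |a| ≤ 1) : th a j ≤ 2 * (1 / 2 : ℝ) ^ j.natAbs := by
  have e : 2 * (1 / 2 : ℝ) ^ j.natAbs = (2 : ℝ) ^ (1 - (j.natAbs : ℤ)) := by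
    rw [zpow_sub₀ (by norm_num), zpow_one, zpow_natCast, one_div, inv_pow]
    rfl
  rw [e]
  unfold th
  refine zpow_le_zpow_right₀ (by norm_num) ?_
  rw [← abs_eq_natAbs]
  have h1 : a * j ≤ |j| := by
    calc a * j ≤ |a * j| := le_abs_self _
      _ = |a| * |j| := abs_mul a j
      _ ≤ 1 * |j| := by gcongr
      _ = |j| := one_mul _
  have h2 : j ^ 2 = |j| ^ 2 := (sq_abs j).symm
  rw [h2]
  have h3 : 0 ≤ |j| := abs_nonneg j
  nlinarith [sq_nonneg (|j| - 1)]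

lemma summable_half : Summable (fun j : ℤ => 2 * (1 / 2 : ℝ) ^ j.natAbs) :=
  ((hasSum_geom (1 / 2) (by norm_num) (by norm_num)).summable).mul_left 2

lemma th_summable (a : ℤ) (ha : |a| ≤ 1) : Summable (th a) :=
  Summable.of_nonneg_of_le (fun j => (th_pos a j).le) (fun j => th_le_geom a j ha) summable_half

/-- The theta constant. -/
noncomputable def Th (a : ℤ) : ℝ := ∑' j : ℤ, th a j

lemma Th_neg (a : ℤ) : Th (-a) = Th a := by
  unfold Th
  rw [← (Equiv.neg ℤ).tsum_eq]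
  refine tsum_congr fun j => ?_
  unfold th
  simp

lemma Icc_four : Finset.Icc (-4 : ℤ) 4 = {-4, -3, -2, -1, 0, 1, 2, 3, 4} := by decide

lemma Th_zero_lower : (2.128936 : ℝ) ≤ Th 0 := by
  have h1 : ∑ j ∈ Finset.Icc (-4 : ℤ) 4, th 0 j ≤ Th 0 :=
    (th_summable 0 (by norm_num)).sum_le_tsum _ (fun j _ => (th_pos 0 j).le)
  refine le_trans ?_ h1
  rw [Icc_four]
  simp [th]
  norm_num

lemma Th_one_upper : Th 1 ≤ (2.5317414 : ℝ) := by
  have hg := hasSum_geom (1 / 16) (by norm_num) (by norm_num)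
  have hsum : Summable fun j : ℤ => (1 / 16 : ℝ) ^ j.natAbs - th 1 j :=
    hg.summable.sub (th_summable 1 (by norm_num))
  have h1 : ∑ j ∈ Finset.Icc (-4 : ℤ) 4, ((1 / 16 : ℝ) ^ j.natAbs - th 1 j) ≤
      ∑' j : ℤ, ((1 / 16 : ℝ) ^ j.natAbs - th 1 j) := by
    refine hsum.sum_le_tsum _ fun j hj => ?_
    rw [sub_nonneg]
    have e : (1 / 16 : ℝ) ^ j.natAbs = (2 : ℝ) ^ (-4 * (j.natAbs : ℤ)) := by
      rw [zpow_mul, zpow_natCast]
      norm_num
    rw [e]
    unfold th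
    refine zpow_le_zpow_right₀ (by norm_num) ?_
    rw [← abs_eq_natAbs, ← sq_abs j]
    have h2 : 5 ≤ |j| := by
      rw [Finset.mem_Icc] at hj
      by_contra hcon
      push Not at hcon
      exact hj (by
        have h3 : |j| ≤ 4 := by omega
        rw [abs_le] at h3
        exact ⟨by linarith [h3.1], h3.2⟩)
    have h3 : j ≤ |j| := le_abs_self j
    nlinarith
  rw [hg.summable.tsum_sub (th_summable 1 (by norm_num)), hg.tsum_eq, Icc_four] at h1
  simp [th] at h1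
  have e : Th 1 = ∑' x : ℤ, (2 : ℝ) ^ (x - x ^ 2) := by
    unfold Th
    refine tsum_congr fun j => ?_
    unfold th
    rw [one_mul]
  rw [← e] at h1
  norm_num at h1 ⊢
  linarith

lemma theta_ne : Th 0 * (Real.sqrt 2 * Th 0) ≠ Th 1 * Th 1 := by
  have h1 := Th_zero_lower
  have h2 := Th_one_upper
  have h3 : 0 ≤ Th 1 := tsum_nonneg fun j => (th_pos 1 j).le
  have h4 : (1.41421356 : ℝ) ≤ Real.sqrt 2 := by
    rw [Real.le_sqrt (by norm_num) (by norm_num)]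
    norm_num
  have h5 : Th 1 * Th 1 ≤ 2.5317414 * 2.5317414 := mul_le_mul h2 h2 h3 (by norm_num)
  have h6 : (2.128936 : ℝ) * 2.128936 ≤ Th 0 * Th 0 := mul_le_mul h1 h1 (by norm_num) (by linarith)
  have h7 : (1.41421356 : ℝ) * (2.128936 * 2.128936) ≤ Real.sqrt 2 * (Th 0 * Th 0) :=
    mul_le_mul h4 h6 (by norm_num) (Real.sqrt_nonneg 2)
  intro h
  have h8 : Real.sqrt 2 * (Th 0 * Th 0) = Th 1 * Th 1 := by
    rw [← h]
    ring
  norm_num at h5 h7
  linarith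

/-! ### Ratios of binomial coefficients -/

/-- The normalised binomial coefficient. -/
noncomputable def cr (e m : ℕ) (j : ℤ) : ℝ :=
  if 0 ≤ (m : ℤ) + j then
    ((2 * m + e).choose ((m : ℤ) + j).toNat : ℝ) / ((2 * m + e).choose m : ℝ) else 0

lemma choose_mid_pos (e m : ℕ) : (0 : ℝ) < ((2 * m + e).choose m : ℝ) := by
  exact_mod_cast Nat.choose_pos (by omega)

lemma cr_nonneg (e m : ℕ) (j : ℤ) : 0 ≤ cr e m j := by
  unfold cr
  split_ifs
  · positivity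
  · exact le_rfl

lemma cr_le_one (e m : ℕ) (he : e ≤ 1) (j : ℤ) : cr e m j ≤ 1 := by
  unfold cr
  split_ifs
  · rw [div_le_one (choose_mid_pos e m)]
    have h1 := Nat.choose_le_middle ((m : ℤ) + j).toNat (2 * m + e)
    have h2 : (2 * m + e) / 2 = m := by omega
    rw [h2] at h1
    exact_mod_cast h1
  · exact zero_le_one

lemma tendsto_ratio (a b : ℝ) :
    Tendsto (fun m : ℕ => ((m : ℝ) + a) / ((m : ℝ) + b)) atTop (𝓝 1) := by
  have h1 : Tendsto (fun m : ℕ => (m : ℝ) + b) atTop atTop :=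
    tendsto_atTop_add_const_right _ _ tendsto_natCast_atTop_atTop
  have h2 : Tendsto (fun m : ℕ => 1 + (a - b) / ((m : ℝ) + b)) atTop (𝓝 (1 + 0)) :=
    tendsto_const_nhds.add (tendsto_const_nhds.div_atTop h1)
  rw [add_zero] at h2
  refine h2.congr' ?_
  filter_upwards [h1.eventually_gt_atTop 0] with m hm
  field_simp
  ring

lemma cr_step (e m : ℕ) (j : ℤ) (h1 : 0 ≤ (m : ℤ) + j) (h2 : j ≤ m) :
    cr e m (j + 1) * ((m : ℝ) + (j + 1)) = cr e m j * ((m : ℝ) + (e - j)) := by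
  unfold cr
  rw [if_pos h1, if_pos (by linarith)]
  obtain ⟨k, hk⟩ := Int.eq_ofNat_of_zero_le h1
  have e1 : ((m : ℤ) + j).toNat = k := by omega
  have e2 : ((m : ℤ) + (j + 1)).toNat = k + 1 := by omega
  rw [e1, e2]
  have h3 := Nat.choose_succ_right_eq (2 * m + e) k
  have h4 : (((2 * m + e - k : ℕ) : ℤ) : ℝ) = (m : ℝ) + (e - j) := by
    have : ((2 * m + e - k : ℕ) : ℤ) = m + (e - j) := by omega
    rw [this]
    push_cast
    ring
  have h5 : ((k : ℝ) + 1) = (m : ℝ) + (j + 1) := by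
    have : ((k : ℤ) : ℝ) = ((m + j : ℤ) : ℝ) := by rw [← hk]
    push_cast at this
    linarith
  have h6 : ((2 * m + e).choose (k + 1) : ℝ) * ((m : ℝ) + (j + 1)) =
      ((2 * m + e).choose k : ℝ) * ((m : ℝ) + (e - j)) := by
    rw [← h5, ← h4]
    exact_mod_cast h3
  rw [div_mul_eq_mul_div, div_mul_eq_mul_div, h6]

lemma tendsto_cr (e : ℕ) (j : ℤ) : Tendsto (fun m => cr e m j) atTop (𝓝 1) := by
  have hlarge : ∀ i : ℤ, ∀ᶠ m : ℕ in atTop, i < (m : ℤ) := by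
    intro i
    filter_upwards [eventually_gt_atTop i.toNat] with m hm
    omega
  refine Int.induction_on j ?_ ?_ ?_
  · refine tendsto_const_nhds.congr' ?_
    filter_upwards with m
    unfold cr
    rw [if_pos (by omega)]
    have : ((m : ℤ) + 0).toNat = m := by omega
    rw [this, div_self (choose_mid_pos e m).ne']
  · intro i hi
    have h1 := hi.mul (tendsto_ratio ((e : ℝ) - (i : ℤ)) ((i : ℤ) + 1))
    rw [mul_one] at h1
    refine h1.congr' ?_
    filter_upwards [hlarge i] with m hm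
    have h2 := cr_step e m i (by omega) (by omega)
    have h3 : (0 : ℝ) < (m : ℝ) + ((i : ℤ) + 1) := by positivity
    rw [← mul_div_assoc, ← h2, mul_div_assoc, div_self h3.ne', mul_one]
  · intro i hi
    have h1 := hi.mul (tendsto_ratio ((-(i : ℤ) - 1 : ℤ) + 1) ((e : ℝ) - (-(i : ℤ) - 1 : ℤ)))
    rw [mul_one] at h1
    refine h1.congr' ?_
    filter_upwards [hlarge (i + 1)] with m hm
    have h2 := cr_step e m (-(i : ℤ) - 1) (by omega) (by omega)
    rw [sub_add_cancel] at h2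
    have h3 : (0 : ℝ) < (m : ℝ) + ((e : ℝ) - (-(i : ℤ) - 1 : ℤ)) := by
      push_cast
      have : (0 : ℝ) ≤ (e : ℝ) := Nat.cast_nonneg e
      have : (0 : ℝ) ≤ (i : ℝ) := Nat.cast_nonneg i
      have : (0 : ℝ) ≤ (m : ℝ) := Nat.cast_nonneg m
      linarith
    rw [← mul_div_assoc, h2, mul_div_assoc, div_self h3.ne', mul_one]

/-! ### The main terms as theta sums -/

lemma hasSum_cr (e m : ℕ) (a : ℤ) : HasSum (fun j : ℤ => cr e m j * th a j)
    (∑ b ∈ range (2 * m + e + 1), ((2 * m + e).choose b : ℝ) / ((2 * m + e).choose m : ℝ) *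
      th a ((b : ℤ) - m)) := by
  have hinj : Set.InjOn (fun b : ℕ => (b : ℤ) - m) (range (2 * m + e + 1) : Set ℕ) := by
    intro x _ y _ h
    simp only at h
    omega
  have h1 : ∑ b ∈ range (2 * m + e + 1),
      ((2 * m + e).choose b : ℝ) / ((2 * m + e).choose m : ℝ) * th a ((b : ℤ) - m) =
      ∑ j ∈ (range (2 * m + e + 1)).image (fun b : ℕ => (b : ℤ) - m), cr e m j * th a j := by
    rw [Finset.sum_image hinj]
    refine Finset.sum_congr rfl fun b _ => ?_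
    unfold cr
    rw [if_pos (by omega)]
    have : ((m : ℤ) + ((b : ℤ) - m)).toNat = b := by omega
    rw [this]
  rw [h1]
  refine hasSum_sum_of_ne_finset_zero fun j hj => ?_
  have h2 : cr e m j = 0 := by
    unfold cr
    split_ifs with h
    · obtain ⟨k, hk⟩ := Int.eq_ofNat_of_zero_le h
      have e1 : ((m : ℤ) + j).toNat = k := by omega
      rw [e1]
      have h3 : 2 * m + e < k := by
        by_contra hcon
        push Not at hcon
        apply hj
        rw [Finset.mem_image]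
        exact ⟨k, Finset.mem_range.2 (by omega), by omega⟩
      rw [Nat.choose_eq_zero_of_lt h3]
      simp
    · rfl
  rw [h2, zero_mul]

lemma tendsto_sum (e : ℕ) (he : e ≤ 1) (a : ℤ) (ha : |a| ≤ 1) :
    Tendsto (fun m : ℕ => ∑ b ∈ range (2 * m + e + 1),
      ((2 * m + e).choose b : ℝ) / ((2 * m + e).choose m : ℝ) * th a ((b : ℤ) - m)) atTop
      (𝓝 (Th a)) := by
  have h1 : Tendsto (fun m : ℕ => ∑' j : ℤ, cr e m j * th a j) atTop (𝓝 (∑' j : ℤ, th a j)) := by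
    refine tendsto_tsum_of_dominated_convergence (th_summable a ha) (fun j => ?_) ?_
    · have := (tendsto_cr e j).mul_const (th a j)
      rwa [one_mul] at this
    · refine Eventually.of_forall fun m j => ?_
      rw [Real.norm_eq_abs, abs_of_nonneg (mul_nonneg (cr_nonneg e m j) (th_pos a j).le)]
      exact mul_le_of_le_one_left (th_pos a j).le (cr_le_one e m he j)
  refine h1.congr fun m => ?_
  exact (hasSum_cr e m a).tsum_eq

lemma pow_split (e m b : ℕ) (hb : b ≤ 2 * m + e) :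
    (2 : ℝ) ^ (b * (2 * m + e - b)) = 2 ^ (m * (m + e)) * th e ((b : ℤ) - m) := by
  unfold th
  rw [← zpow_natCast, ← zpow_natCast, ← zpow_add₀ (by norm_num)]
  congr 1
  push_cast [Nat.cast_sub hb]
  ring

lemma TA_eq (e m : ℕ) : TA (2 * m + e) = 2 ^ (2 * m + e) * 2 ^ (m * (m + e)) *
    ((2 * m + e).choose m : ℝ) * ∑ b ∈ range (2 * m + e + 1),
      ((2 * m + e).choose b : ℝ) / ((2 * m + e).choose m : ℝ) * th e ((b : ℤ) - m) := by
  unfold TA
  rw [Finset.mul_sum]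
  refine Finset.sum_congr rfl fun b hb => ?_
  rw [pow_split e m b (by rw [Finset.mem_range] at hb; omega)]
  have := (choose_mid_pos e m).ne'
  field_simp

lemma TT_eq (e m : ℕ) : TT (2 * m + e) = 2 ^ (m + e) * 2 ^ (m * (m + e)) *
    ((2 * m + e).choose m : ℝ) * ∑ b ∈ range (2 * m + e + 1),
      ((2 * m + e).choose b : ℝ) / ((2 * m + e).choose m : ℝ) *
        th ((e : ℤ) - 1) ((b : ℤ) - m) := by
  unfold TT
  rw [Finset.mul_sum]
  refine Finset.sum_congr rfl fun b hb => ?_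
  have hb' : b ≤ 2 * m + e := by rw [Finset.mem_range] at hb; omega
  rw [pow_split e m b hb']
  have h1 : (2 : ℝ) ^ (2 * m + e - b) * th e ((b : ℤ) - m) =
      2 ^ (m + e) * th ((e : ℤ) - 1) ((b : ℤ) - m) := by
    unfold th
    rw [← zpow_natCast, ← zpow_natCast, ← zpow_add₀ (by norm_num), ← zpow_add₀ (by norm_num)]
    congr 1
    push_cast [Nat.cast_sub hb']
    ring
  have := (choose_mid_pos e m).ne'
  calc ((2 * m + e).choose b : ℝ) * 2 ^ (2 * m + e - b) * (2 ^ (m * (m + e)) * th e ((b : ℤ) - m))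
      = ((2 * m + e).choose b : ℝ) * 2 ^ (m * (m + e)) *
        (2 ^ (2 * m + e - b) * th e ((b : ℤ) - m)) := by ring
    _ = _ := by
      rw [h1]
      field_simp

lemma Th_pos (a : ℤ) (ha : |a| ≤ 1) : 0 < Th a :=
  (th_summable a ha).tsum_pos (fun j => (th_pos a j).le) 0 (th_pos a 0)

lemma tendsto_TA_div_TT (e : ℕ) (he : e ≤ 1) :
    Tendsto (fun m : ℕ => TA (2 * m + e) / (TT (2 * m + e) * 2 ^ m)) atTop
      (𝓝 (Th e / Th ((e : ℤ) - 1))) := by
  have ha : |(e : ℤ)| ≤ 1 := by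
    rw [abs_of_nonneg (by positivity)]
    exact_mod_cast he
  have ha' : |(e : ℤ) - 1| ≤ 1 := by
    rw [abs_le]
    constructor <;> omega
  have h1 := (tendsto_sum e he e ha).div (tendsto_sum e he ((e : ℤ) - 1) ha')
    (Th_pos _ ha').ne'
  refine h1.congr fun m => ?_
  rw [TA_eq, TT_eq]
  have := (choose_mid_pos e m).ne'
  have e1 : (2 : ℝ) ^ (2 * m + e) = 2 ^ (m + e) * 2 ^ m := by
    rw [← pow_add]
    congr 1
    omega
  rw [e1]
  set X := ∑ b ∈ range (2 * m + e + 1),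
      ((2 * m + e).choose b : ℝ) / ((2 * m + e).choose m : ℝ) * th e ((b : ℤ) - m)
  set Y := ∑ b ∈ range (2 * m + e + 1),
      ((2 * m + e).choose b : ℝ) / ((2 * m + e).choose m : ℝ) * th ((e : ℤ) - 1) ((b : ℤ) - m)
  have h2 : (2 : ℝ) ^ (m + e) ≠ 0 := by positivity
  have h3 : (2 : ℝ) ^ m ≠ 0 := by positivity
  have h4 : (2 : ℝ) ^ (m * (m + e)) ≠ 0 := by positivity
  change X / Y = _
  by_cases hY : Y = 0
  · rw [hY]
    simp
  · field_simp

theorem not_equiv (p S : ℕ → ℝ) (hp : Tendsto (fun n => p n / TT n) atTop (nhds 1))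
    (hS : Tendsto (fun n => S n / TA n) atTop (nhds 1)) :
    ¬ ∃ C : ℝ, 0 < C ∧ Asymptotics.IsEquivalent atTop (fun n => S n / p n)
      (fun n : ℕ => C * (2 : ℝ) ^ ((n : ℝ) / 2)) := by
  rintro ⟨C, hC, hE⟩
  have hne : ∀ᶠ n : ℕ in atTop, C * (2 : ℝ) ^ ((n : ℝ) / 2) ≠ 0 :=
    Eventually.of_forall fun n => by positivity
  have h1 : Tendsto (fun n : ℕ => S n / p n / (C * (2 : ℝ) ^ ((n : ℝ) / 2))) atTop (𝓝 1) :=
    (Asymptotics.isEquivalent_iff_tendsto_one hne).1 hE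
  -- the ratio of the main terms
  have h2 : Tendsto (fun n : ℕ => TA n / (TT n * (2 : ℝ) ^ ((n : ℝ) / 2))) atTop (𝓝 C) := by
    have h3 := (h1.mul (hp.div hS one_ne_zero)).mul_const C
    simp only [one_div, inv_one, mul_one, one_mul] at h3
    have hp0 : ∀ᶠ n in atTop, p n / TT n ≠ 0 := hp.eventually_ne one_ne_zero
    have hS0 : ∀ᶠ n in atTop, S n / TA n ≠ 0 := hS.eventually_ne one_ne_zero
    refine h3.congr' ?_
    filter_upwards [hp0, hS0] with n hpn hSn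
    have a1 : p n ≠ 0 := fun h => hpn (by rw [h, zero_div])
    have a2 : S n ≠ 0 := fun h => hSn (by rw [h, zero_div])
    have a3 := (TT_pos n).ne'
    have a4 := (TA_pos n).ne'
    have a5 : (2 : ℝ) ^ ((n : ℝ) / 2) ≠ 0 := by positivity
    simp only [Pi.div_apply]
    field_simp
  -- even subsequence
  have hev : Th 0 / Th 1 = C := by
    have h4 := tendsto_TA_div_TT 0 (by norm_num)
    have e1 : Th (((0 : ℕ) : ℤ) - 1) = Th 1 := by
      rw [← Th_neg 1]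
      congr 1
    rw [e1] at h4
    have h5 : Tendsto (fun m : ℕ => 2 * m) atTop atTop :=
      tendsto_id.const_mul_atTop' (by norm_num)
    have h6 := h2.comp h5
    refine tendsto_nhds_unique h4 (h6.congr fun m => ?_)
    simp only [Function.comp, add_zero]
    congr 2
    push_cast
    rw [mul_div_cancel_left₀ _ (two_ne_zero), Real.rpow_natCast]
  have hodd : Th 1 / Th 0 / Real.sqrt 2 = C := by
    have h4 := (tendsto_TA_div_TT 1 le_rfl).div_const (Real.sqrt 2)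
    have e1 : Th (((1 : ℕ) : ℤ) - 1) = Th 0 := by
      congr 1
    rw [e1] at h4
    have h5 : Tendsto (fun m : ℕ => 2 * m + 1) atTop atTop :=
      tendsto_atTop_mono (fun m => by simp only [id]; omega) tendsto_id
    have h6 := h2.comp h5
    refine tendsto_nhds_unique h4 (h6.congr fun m => ?_)
    simp only [Function.comp]
    have e2 : (2 : ℝ) ^ (((2 * m + 1 : ℕ) : ℝ) / 2) = 2 ^ m * Real.sqrt 2 := by
      push_cast
      rw [add_div, mul_div_cancel_left₀ _ (two_ne_zero), Real.rpow_add (by norm_num),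
        Real.rpow_natCast, Real.sqrt_eq_rpow]
    rw [e2, div_div, mul_assoc]
  have t0 := Th_pos 0 (by norm_num)
  have t1 := Th_pos 1 (by norm_num)
  have s2 : 0 < Real.sqrt 2 := Real.sqrt_pos.2 (by norm_num)
  apply theta_ne
  have h7 : Th 0 / Th 1 = Th 1 / Th 0 / Real.sqrt 2 := by rw [hev, hodd]
  rw [div_div, div_eq_div_iff t1.ne' (by positivity)] at h7
  linarith

end Pool.Agent.Lib.MP_a8cbfa_co
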