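import Pool.Agent.Lib.MP_a8cbfa_co.Classes

set_option autoImplicit false
set_option linter.unusedSectionVars false

open Finset

namespace Pool.Agent.Lib.MP_a8cbfa_co

variable {α : Type*} [Fintype α] [DecidableEq α]

/-! The exceptional configurations in Case I, at a pair of vertices. -/

def B0 (r : α → α → Bool) (E U V : Finset α) (s : ℕ) (x : α) : Prop :=
  x ∈ E ∧ (nb r x ∩ U).card < s ∧ (nb r x ∩ V).card < s

def B1 (r : α → α → Bool) (E U : Finset α) (s : ℕ) (a c : α) : Prop :=
  a ≠ c ∧ a ∉ U ∧ c ∈ E ∧ s ≤ (nb r a ∩ U).card ∧ s ≤ (nb r c ∩ U).card ∧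
    Disjoint (nb r a ∩ U) (nb r c)

def B2 (r : α → α → Bool) (U V : Finset α) (a c : α) : Prop :=
  a ≠ c ∧ a ∈ V ∧ c ∈ V ∧ Disjoint (nb r a ∩ U) (nb r c)

def B3 (r : α → α → Bool) (E V : Finset α) (s : ℕ) (a c : α) : Prop :=
  a ≠ c ∧ a ∉ V ∧ c ∈ E ∧ s ≤ (nb r a ∩ V).card ∧ s ≤ (nb r c ∩ V).card ∧
    Disjoint (nb r a ∩ V) (nb r c)

def B4 (r : α → α → Bool) (U V : Finset α) (a c : α) : Prop :=
  a ≠ c ∧ a ∈ U ∧ c ∈ U ∧ Disjoint (nb r a ∩ V) (nb r c)

def B5 (r : α → α → Bool) (E V Y : Finset α) (k1 s : ℕ) (x : α) : Prop :=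
  x ∈ E ∧ s ≤ (nb r x ∩ V).card ∧ (nb r x ∩ Y).card < k1

def B6 (r : α → α → Bool) (E V Y : Finset α) (k1 s : ℕ) (x : α) : Prop :=
  x ∈ E ∧ s ≤ (nb r x ∩ V).card ∧ (nb r x ∩ (V \ Y)).card < k1

/-- The union of all exceptional configurations at the pair `(a, c)`. -/
def BadAt (r : α → α → Bool) (E U V Y : Finset α) (k1 s : ℕ) (a c : α) : Prop :=
  B0 r E U V s a ∨ B1 r E U s a c ∨ B2 r U V a c ∨ B3 r E V s a c ∨ B4 r U V a c ∨
    B5 r E V Y k1 s a ∨ B6 r E V Y k1 s a

lemma Str.nbU_eq {n e k1 s g : ℕ} {E U V X Y : Finset α} (hgeo : Geo n e E U V)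
    {r r' : α → α → Bool} (h : Str r E U V X Y k1 s g) (_h' : Str r' E U V X Y k1 s g)
    {a c : α} (hac : a ≠ c) (ha : a ∉ U) (hc : c ∈ E)
    (hcc : ∀ z ∈ (E ∪ U).erase c, cd E V r z = cd E V r' z) : nb r a ∩ U = nb r' a ∩ U := by
  by_cases haE : a ∈ E
  · have := hcc a (mem_erase.mpr ⟨hac, mem_union_left _ haE⟩)
    unfold cd at this
    rw [if_pos haE, if_pos haE, Prod.mk.injEq] at this
    unfold nb
    rw [this.1, this.2]
  · have haV : a ∈ V := by
      rcases h.bip.mem_cases (mem_univ a) with h1 | h1 | h1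
      · exact absurd h1 haE
      · exact absurd h1 ha
      · exact h1
    have key : ∀ u ∈ U, nb r u ∩ V = nb r' u ∩ V := by
      intro u hu
      have huE : u ∉ E := fun h1 => disjoint_left.mp hgeo.disjE h1 hu
      have huc : u ≠ c := by rintro rfl; exact huE hc
      have := hcc u (mem_erase.mpr ⟨huc, mem_union_right _ hu⟩)
      unfold cd at this
      rw [if_neg huE, if_neg huE, Prod.mk.injEq] at this
      exact this.1
    ext u
    rw [mem_inter, mem_inter]
    constructor
    · rintro ⟨h1, h2⟩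
      have h3 : a ∈ nb r u ∩ V := mem_inter.mpr ⟨nb_symm h1, haV⟩
      rw [key u h2, mem_inter] at h3
      exact ⟨nb_symm h3.1, h2⟩
    · rintro ⟨h1, h2⟩
      have h3 : a ∈ nb r' u ∩ V := mem_inter.mpr ⟨nb_symm h1, haV⟩
      rw [← key u h2, mem_inter] at h3
      exact ⟨nb_symm h3.1, h2⟩

lemma Str.nbV_eq {k1 s g : ℕ} {E U V X Y : Finset α}
    {r r' : α → α → Bool} (h : Str r E U V X Y k1 s g)
    {a c : α} (hac : a ≠ c) (ha : a ∉ V)
    (hcc : ∀ z ∈ (E ∪ U).erase c, cd E V r z = cd E V r' z) : nb r a ∩ V = nb r' a ∩ V := by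
  by_cases haE : a ∈ E
  · have := hcc a (mem_erase.mpr ⟨hac, mem_union_left _ haE⟩)
    unfold cd at this
    rw [if_pos haE, if_pos haE, Prod.mk.injEq] at this
    unfold nb
    rw [this.1, this.2]
  · have haU : a ∈ U := by
      rcases h.bip.mem_cases (mem_univ a) with h1 | h1 | h1
      · exact absurd h1 haE
      · exact h1
      · exact absurd h1 ha
    have := hcc a (mem_erase.mpr ⟨hac, mem_union_right _ haU⟩)
    unfold cd at this
    rw [if_neg haE, if_neg haE, Prod.mk.injEq] at this
    exact this.1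

open Classical in
/-- Posets with the given structure and a given property. -/
noncomputable def strP (E U V Y : Finset α) (k1 s g : ℕ) (p : (α → α → Bool) → Prop) :
    Finset (α → α → Bool) :=
  univ.filter (fun r => Str r E U V ∅ Y k1 s g ∧ p r)

lemma mem_strP {E U V Y : Finset α} {k1 s g : ℕ} {p : (α → α → Bool) → Prop}
    {r : α → α → Bool} : r ∈ strP E U V Y k1 s g p ↔ Str r E U V ∅ Y k1 s g ∧ p r := by
  simp [strP]

lemma card_B0 {n e k1 s g : ℕ} (hp : Prm n e k1 s g) {E U V : Finset α}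
    (h : Geo n e E U V) (Y : Finset α) (a : α) :
    ((strP E U V Y k1 s g (fun r => B0 r E U V s a)).card : ℝ) ≤ pw (tot E U V n e k1 - s) := by
  by_cases ha : a ∈ E
  · apply h.card_specialE hp ∅ Y _ (fun r hr => (mem_strP.mp hr).1) a ha
      (fun _ => univ.powerset.filter (fun Z => (Z ∩ U).card < s ∧ (Z ∩ V).card < s))
    · intro r hr
      obtain ⟨_, _, h2, h3⟩ := mem_strP.mp hr
      rw [mem_filter, mem_powerset]
      exact ⟨subset_univ _, h2, h3⟩
    · intro r _ r' _ _
      rfl
    · intro r _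
      refine (card_inter_lt_both univ E U V s n e (by rw [card_univ, h.hn]) h.he h.union
        hp.h64).trans (pw_mono ?_)
      have h2 := h.half hp
      have h3 : 64 * (s : ℝ) ≤ n := by exact_mod_cast hp.h64
      have h4 := lg_nonneg n
      have h5 : (0 : ℝ) ≤ k1 * lg n := by positivity
      have h6 : (0 : ℝ) ≤ n := Nat.cast_nonneg n
      linarith
  · have : strP E U V Y k1 s g (fun r => B0 r E U V s a) = ∅ := by
      rw [eq_empty_iff_forall_notMem]
      intro r hr
      exact ha (mem_strP.mp hr).2.1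
    rw [this, card_empty, Nat.cast_zero]
    exact pw_nonneg _

/-- If the vertex `x` sees `V` well, it sees `U` badly. -/
lemma Str.small_of_large {k1 s g : ℕ} (hs1 : 1 ≤ s) {E U V X Y : Finset α}
    {r : α → α → Bool} (h : Str r E U V X Y k1 s g) {x : α} (hx : s ≤ (nb r x ∩ V).card) :
    (nb r x ∩ U).card < k1 := by
  by_contra hcon
  rw [not_lt] at hcon
  obtain ⟨z, hz, t, ht, htz⟩ := h.expU.exists_adj (T := nb r x ∩ V) inter_subset_right hx hs1
    (Z := nb r x ∩ U) inter_subset_right hcon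
  rw [mem_inter] at hz ht
  exact disjoint_left.mp (h.po.isTF.disj x z hz.1) ht.1 htz

lemma Str.small_of_large' {k1 s g : ℕ} (hs1 : 1 ≤ s) {E U V X Y : Finset α}
    {r : α → α → Bool} (h : Str r E U V X Y k1 s g) {x : α} (hx : s ≤ (nb r x ∩ U).card) :
    (nb r x ∩ V).card < k1 := by
  by_contra hcon
  rw [not_lt] at hcon
  obtain ⟨z, hz, t, ht, htz⟩ := h.expV.exists_adj (T := nb r x ∩ U) inter_subset_right hx hs1
    (Z := nb r x ∩ V) inter_subset_right hcon
  rw [mem_inter] at hz ht
  exact disjoint_left.mp (h.po.isTF.disj x z hz.1) ht.1 htz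

lemma card_B1 {n e k1 s g : ℕ} (hp : Prm n e k1 s g) {E U V : Finset α}
    (h : Geo n e E U V) (Y : Finset α) (a c : α) :
    ((strP E U V Y k1 s g (fun r => B1 r E U s a c)).card : ℝ) ≤
      pw (tot E U V n e k1 - s) := by
  classical
  by_cases hcon : a ≠ c ∧ a ∉ U ∧ c ∈ E
  · obtain ⟨hac, ha, hc⟩ := hcon
    apply h.card_specialE hp ∅ Y _ (fun r hr => (mem_strP.mp hr).1) c hc
      (fun r => univ.filter (fun Z => (Z ∩ V).card < k1 ∧ Disjoint (nb r a ∩ U) Z))
    · intro r hr
      obtain ⟨h1, _, _, _, h2, h3, h4⟩ := mem_strP.mp hr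
      rw [mem_filter]
      exact ⟨mem_univ _, h1.small_of_large' hp.hs1 h3, h4⟩
    · intro r hr r' hr' hcc
      have := (mem_strP.mp hr).1.nbU_eq h (mem_strP.mp hr').1 hac ha hc hcc
      rw [this]
    · intro r hr
      obtain ⟨h1, _, _, _, h2, h3, h4⟩ := mem_strP.mp hr
      refine (card_free_small E (U \ (nb r a ∩ U)) V k1 n e _ h.hn h.he ?_).trans (pw_mono ?_)
      · intro Z hZ
        rw [mem_filter] at hZ
        obtain ⟨_, h5, h6⟩ := hZ
        refine ⟨?_, h5⟩
        intro z hz
        rw [mem_union, mem_union, mem_sdiff]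
        rcases h1.bip.mem_cases (mem_univ z) with h7 | h7 | h7
        · exact Or.inl h7
        · exact Or.inr (Or.inl ⟨h7, fun h8 => disjoint_left.mp h6 h8 hz⟩)
        · exact Or.inr (Or.inr h7)
      · have h5 : (U \ (nb r a ∩ U)).card + s ≤ U.card := by
          rw [card_sdiff_of_subset inter_subset_right]
          have : (nb r a ∩ U).card ≤ U.card := card_le_card inter_subset_right
          omega
        have h6 : ((U \ (nb r a ∩ U)).card : ℝ) + s ≤ U.card := by exact_mod_cast h5
        have h7 := le_max_left (U.card : ℝ) V.card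
        have h8 := lg_nonneg n
        have h9 : (0 : ℝ) ≤ k1 * lg n := by positivity
        linarith
  · have : strP E U V Y k1 s g (fun r => B1 r E U s a c) = ∅ := by
      rw [eq_empty_iff_forall_notMem]
      intro r hr
      obtain ⟨_, h1, h2, h3, _⟩ := mem_strP.mp hr
      exact hcon ⟨h1, h2, h3⟩
    rw [this, card_empty, Nat.cast_zero]
    exact pw_nonneg _

lemma card_B2 {n e k1 s g : ℕ} (hp : Prm n e k1 s g) {E U V : Finset α}
    (h : Geo n e E U V) (Y : Finset α) (a c : α) :
    ((strP E U V Y k1 s g (fun r => B2 r U V a c)).card : ℝ) ≤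
      pw (tot E U V n e k1 - s) := by
  by_cases hcon : a ≠ c ∧ a ∈ V ∧ c ∈ V
  · obtain ⟨hac, ha, hc⟩ := hcon
    apply h.card_pairV hp ∅ Y _ (fun r hr => (mem_strP.mp hr).1) a c ha hc hac
    intro r hr u hu h1 h2
    obtain ⟨_, _, _, _, h3⟩ := mem_strP.mp hr
    exact disjoint_left.mp h3 (mem_inter.mpr ⟨nb_symm h1, hu⟩) (nb_symm h2)
  · have : strP E U V Y k1 s g (fun r => B2 r U V a c) = ∅ := by
      rw [eq_empty_iff_forall_notMem]
      intro r hr
      obtain ⟨_, h1, h2, h3, _⟩ := mem_strP.mp hr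
      exact hcon ⟨h1, h2, h3⟩
    rw [this, card_empty, Nat.cast_zero]
    exact pw_nonneg _

lemma card_B3 {n e k1 s g : ℕ} (hp : Prm n e k1 s g) {E U V : Finset α}
    (h : Geo n e E U V) (Y : Finset α) (a c : α) :
    ((strP E U V Y k1 s g (fun r => B3 r E V s a c)).card : ℝ) ≤
      pw (tot E U V n e k1 - s) := by
  classical
  by_cases hcon : a ≠ c ∧ a ∉ V ∧ c ∈ E
  · obtain ⟨hac, ha, hc⟩ := hcon
    apply h.card_specialE hp ∅ Y _ (fun r hr => (mem_strP.mp hr).1) c hc
      (fun r => univ.filter (fun Z => (Z ∩ U).card < k1 ∧ Disjoint (nb r a ∩ V) Z))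
    · intro r hr
      obtain ⟨h1, _, _, _, h2, h3, h4⟩ := mem_strP.mp hr
      rw [mem_filter]
      exact ⟨mem_univ _, h1.small_of_large hp.hs1 h3, h4⟩
    · intro r hr r' hr' hcc
      have := (mem_strP.mp hr).1.nbV_eq hac ha hcc
      rw [this]
    · intro r hr
      obtain ⟨h1, _, _, _, h2, h3, h4⟩ := mem_strP.mp hr
      refine (card_free_small E (V \ (nb r a ∩ V)) U k1 n e _ h.hn h.he ?_).trans (pw_mono ?_)
      · intro Z hZ
        rw [mem_filter] at hZ
        obtain ⟨_, h5, h6⟩ := hZ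
        refine ⟨?_, h5⟩
        intro z hz
        rw [mem_union, mem_union, mem_sdiff]
        rcases h1.bip.mem_cases (mem_univ z) with h7 | h7 | h7
        · exact Or.inl h7
        · exact Or.inr (Or.inr h7)
        · exact Or.inr (Or.inl ⟨h7, fun h8 => disjoint_left.mp h6 h8 hz⟩)
      · have h5 : (V \ (nb r a ∩ V)).card + s ≤ V.card := by
          rw [card_sdiff_of_subset inter_subset_right]
          have : (nb r a ∩ V).card ≤ V.card := card_le_card inter_subset_right
          omega
        have h6 : ((V \ (nb r a ∩ V)).card : ℝ) + s ≤ V.card := by exact_mod_cast h5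
        have h7 := le_max_right (U.card : ℝ) V.card
        have h8 := lg_nonneg n
        have h9 : (0 : ℝ) ≤ k1 * lg n := by positivity
        linarith
  · have : strP E U V Y k1 s g (fun r => B3 r E V s a c) = ∅ := by
      rw [eq_empty_iff_forall_notMem]
      intro r hr
      obtain ⟨_, h1, h2, h3, _⟩ := mem_strP.mp hr
      exact hcon ⟨h1, h2, h3⟩
    rw [this, card_empty, Nat.cast_zero]
    exact pw_nonneg _

lemma card_B4 {n e k1 s g : ℕ} (hp : Prm n e k1 s g) {E U V : Finset α}
    (h : Geo n e E U V) (Y : Finset α) (a c : α) :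
    ((strP E U V Y k1 s g (fun r => B4 r U V a c)).card : ℝ) ≤
      pw (tot E U V n e k1 - s) := by
  classical
  by_cases hcon : a ≠ c ∧ a ∈ U ∧ c ∈ U
  · obtain ⟨hac, ha, hc⟩ := hcon
    have haV : a ∉ V := fun h1 => disjoint_left.mp h.disj ha h1
    apply h.card_specialU hp ∅ Y _ (fun r hr => (mem_strP.mp hr).1) c hc
      (fun r => V \ (nb r a ∩ V))
    · intro r hr
      obtain ⟨h1, _, _, _, h4⟩ := mem_strP.mp hr
      intro z hz
      rw [mem_inter] at hz
      rw [mem_sdiff]
      exact ⟨hz.2, fun h5 => disjoint_left.mp h4 h5 hz.1⟩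
    · intro r hr r' hr' hcc
      have := (mem_strP.mp hr).1.nbV_eq hac haV hcc
      rw [this]
    · intro r hr
      obtain ⟨h1, _, _, _, h4⟩ := mem_strP.mp hr
      rw [card_sdiff_of_subset inter_subset_right]
      have h5 : (nb r a ∩ V).card ≤ V.card := card_le_card inter_subset_right
      have h6 := h1.degU a ha
      have h7 := hp.hsg
      omega
  · have : strP E U V Y k1 s g (fun r => B4 r U V a c) = ∅ := by
      rw [eq_empty_iff_forall_notMem]
      intro r hr
      obtain ⟨_, h1, h2, h3, _⟩ := mem_strP.mp hr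
      exact hcon ⟨h1, h2, h3⟩
    rw [this, card_empty, Nat.cast_zero]
    exact pw_nonneg _

lemma card_B5 {n e k1 s g : ℕ} (hp : Prm n e k1 s g) {E U V : Finset α}
    (h : Geo n e E U V) (Y : Finset α) (hYV : Y ⊆ V) (hY1 : s ≤ Y.card) (a : α) :
    ((strP E U V Y k1 s g (fun r => B5 r E V Y k1 s a)).card : ℝ) ≤
      pw (tot E U V n e k1 - s) := by
  classical
  by_cases ha : a ∈ E
  · apply h.card_specialE hp ∅ Y _ (fun r hr => (mem_strP.mp hr).1) a ha
      (fun _ => univ.filter (fun Z => (Z ∩ U).card < k1 ∧ (Z ∩ Y).card < k1))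
    · intro r hr
      obtain ⟨h1, _, h2, h3⟩ := mem_strP.mp hr
      rw [mem_filter]
      exact ⟨mem_univ _, h1.small_of_large hp.hs1 h2, h3⟩
    · intro r _ r' _ _
      rfl
    · intro r hr
      have hr1 := (mem_strP.mp hr).1
      refine (card_free_small E (V \ Y) (U ∪ Y) (2 * k1) n e _ h.hn h.he ?_).trans (pw_mono ?_)
      · intro Z hZ
        rw [mem_filter] at hZ
        obtain ⟨_, h5, h6⟩ := hZ
        constructor
        · intro z _
          rw [mem_union, mem_union, mem_sdiff, mem_union]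
          rcases hr1.bip.mem_cases (mem_univ z) with h7 | h7 | h7
          · exact Or.inl h7
          · exact Or.inr (Or.inr (Or.inl h7))
          · by_cases h8 : z ∈ Y
            · exact Or.inr (Or.inr (Or.inr h8))
            · exact Or.inr (Or.inl ⟨h7, h8⟩)
        · rw [inter_union_distrib_left]
          have := card_union_le (Z ∩ U) (Z ∩ Y)
          omega
      · have h5 : (V \ Y).card + s ≤ V.card := by
          rw [card_sdiff_of_subset hYV]
          have : Y.card ≤ V.card := card_le_card hYV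
          omega
        have h6 : ((V \ Y).card : ℝ) + s ≤ V.card := by exact_mod_cast h5
        have h7 := le_max_right (U.card : ℝ) V.card
        push_cast
        linarith
  · have : strP E U V Y k1 s g (fun r => B5 r E V Y k1 s a) = ∅ := by
      rw [eq_empty_iff_forall_notMem]
      intro r hr
      exact ha (mem_strP.mp hr).2.1
    rw [this, card_empty, Nat.cast_zero]
    exact pw_nonneg _

lemma card_B6 {n e k1 s g : ℕ} (hp : Prm n e k1 s g) {E U V : Finset α}
    (h : Geo n e E U V) (Y : Finset α) (hYV : Y ⊆ V) (hY2 : s ≤ (V \ Y).card) (a : α) :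
    ((strP E U V Y k1 s g (fun r => B6 r E V Y k1 s a)).card : ℝ) ≤
      pw (tot E U V n e k1 - s) := by
  classical
  by_cases ha : a ∈ E
  · apply h.card_specialE hp ∅ Y _ (fun r hr => (mem_strP.mp hr).1) a ha
      (fun _ => univ.filter (fun Z => (Z ∩ U).card < k1 ∧ (Z ∩ (V \ Y)).card < k1))
    · intro r hr
      obtain ⟨h1, _, h2, h3⟩ := mem_strP.mp hr
      rw [mem_filter]
      exact ⟨mem_univ _, h1.small_of_large hp.hs1 h2, h3⟩
    · intro r _ r' _ _
      rfl
    · intro r hr
      have hr1 := (mem_strP.mp hr).1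
      refine (card_free_small E Y (U ∪ (V \ Y)) (2 * k1) n e _ h.hn h.he ?_).trans (pw_mono ?_)
      · intro Z hZ
        rw [mem_filter] at hZ
        obtain ⟨_, h5, h6⟩ := hZ
        constructor
        · intro z _
          rw [mem_union, mem_union, mem_union, mem_sdiff]
          rcases hr1.bip.mem_cases (mem_univ z) with h7 | h7 | h7
          · exact Or.inl h7
          · exact Or.inr (Or.inr (Or.inl h7))
          · by_cases h8 : z ∈ Y
            · exact Or.inr (Or.inl h8)
            · exact Or.inr (Or.inr (Or.inr ⟨h7, h8⟩))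
        · rw [inter_union_distrib_left]
          have := card_union_le (Z ∩ U) (Z ∩ (V \ Y))
          omega
      · have h5 : Y.card + s ≤ V.card := by
          have h8 := card_sdiff_of_subset hYV
          have : Y.card ≤ V.card := card_le_card hYV
          omega
        have h6 : ((Y.card : ℕ) : ℝ) + s ≤ V.card := by exact_mod_cast h5
        have h7 := le_max_right (U.card : ℝ) V.card
        push_cast
        linarith
  · have : strP E U V Y k1 s g (fun r => B6 r E V Y k1 s a) = ∅ := by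
      rw [eq_empty_iff_forall_notMem]
      intro r hr
      exact ha (mem_strP.mp hr).2.1
    rw [this, card_empty, Nat.cast_zero]
    exact pw_nonneg _

/-- All bad posets for a fixed structure. -/
lemma card_badStr {n e k1 s g : ℕ} (hp : Prm n e k1 s g) {E U V : Finset α}
    (h : Geo n e E U V) (Y : Finset α) (hYV : Y ⊆ V) (hY1 : s ≤ Y.card)
    (hY2 : s ≤ (V \ Y).card) :
    ((strP E U V Y k1 s g (fun r => ∃ a c, BadAt r E U V Y k1 s a c)).card : ℝ) ≤
      pw (tot E U V n e k1 - s + 3 + 2 * lg n) := by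
  classical
  have h1 := card_le_union (s := strP E U V Y k1 s g (fun r => ∃ a c, BadAt r E U V Y k1 s a c))
    (t := (univ : Finset (Fin 7 × α × α)))
    (fun b => if b.1 = 0 then strP E U V Y k1 s g (fun r => B0 r E U V s b.2.1)
      else if b.1 = 1 then strP E U V Y k1 s g (fun r => B1 r E U s b.2.1 b.2.2)
      else if b.1 = 2 then strP E U V Y k1 s g (fun r => B2 r U V b.2.1 b.2.2)
      else if b.1 = 3 then strP E U V Y k1 s g (fun r => B3 r E V s b.2.1 b.2.2)
      else if b.1 = 4 then strP E U V Y k1 s g (fun r => B4 r U V b.2.1 b.2.2)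
      else if b.1 = 5 then strP E U V Y k1 s g (fun r => B5 r E V Y k1 s b.2.1)
      else strP E U V Y k1 s g (fun r => B6 r E V Y k1 s b.2.1))
    (by
      intro r hr
      obtain ⟨hstr, a, c, hb⟩ := mem_strP.mp hr
      rcases hb with hb | hb | hb | hb | hb | hb | hb
      · refine ⟨(0, a, c), mem_univ _, ?_⟩
        simp only [if_true]
        exact mem_strP.mpr ⟨hstr, hb⟩
      · refine ⟨(1, a, c), mem_univ _, ?_⟩
        rw [if_neg (show ¬ ((1 : Fin 7) = 0) by decide),
          if_pos rfl]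
        exact mem_strP.mpr ⟨hstr, hb⟩
      · refine ⟨(2, a, c), mem_univ _, ?_⟩
        rw [if_neg (show ¬ ((2 : Fin 7) = 0) by decide),
          if_neg (show ¬ ((2 : Fin 7) = 1) by decide),
          if_pos rfl]
        exact mem_strP.mpr ⟨hstr, hb⟩
      · refine ⟨(3, a, c), mem_univ _, ?_⟩
        rw [if_neg (show ¬ ((3 : Fin 7) = 0) by decide),
          if_neg (show ¬ ((3 : Fin 7) = 1) by decide),
          if_neg (show ¬ ((3 : Fin 7) = 2) by decide),
          if_pos rfl]
        exact mem_strP.mpr ⟨hstr, hb⟩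
      · refine ⟨(4, a, c), mem_univ _, ?_⟩
        rw [if_neg (show ¬ ((4 : Fin 7) = 0) by decide),
          if_neg (show ¬ ((4 : Fin 7) = 1) by decide),
          if_neg (show ¬ ((4 : Fin 7) = 2) by decide),
          if_neg (show ¬ ((4 : Fin 7) = 3) by decide),
          if_pos rfl]
        exact mem_strP.mpr ⟨hstr, hb⟩
      · refine ⟨(5, a, c), mem_univ _, ?_⟩
        rw [if_neg (show ¬ ((5 : Fin 7) = 0) by decide),
          if_neg (show ¬ ((5 : Fin 7) = 1) by decide),
          if_neg (show ¬ ((5 : Fin 7) = 2) by decide),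
          if_neg (show ¬ ((5 : Fin 7) = 3) by decide),
          if_neg (show ¬ ((5 : Fin 7) = 4) by decide),
          if_pos rfl]
        exact mem_strP.mpr ⟨hstr, hb⟩
      · refine ⟨(6, a, c), mem_univ _, ?_⟩
        rw [if_neg (show ¬ ((6 : Fin 7) = 0) by decide),
          if_neg (show ¬ ((6 : Fin 7) = 1) by decide),
          if_neg (show ¬ ((6 : Fin 7) = 2) by decide),
          if_neg (show ¬ ((6 : Fin 7) = 3) by decide),
          if_neg (show ¬ ((6 : Fin 7) = 4) by decide),
          if_neg (show ¬ ((6 : Fin 7) = 5) by decide)]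
        exact mem_strP.mpr ⟨hstr, hb⟩)
    (pw (tot E U V n e k1 - s))
    (by
      rintro ⟨i, a, c⟩ _
      simp only
      split_ifs
      · exact card_B0 hp h Y a
      · exact card_B1 hp h Y a c
      · exact card_B2 hp h Y a c
      · exact card_B3 hp h Y a c
      · exact card_B4 hp h Y a c
      · exact card_B5 hp h Y hYV hY1 a
      · exact card_B6 hp h Y hYV hY2 a)
  refine h1.trans ?_
  rw [card_univ, Fintype.card_prod, Fintype.card_prod, Fintype.card_fin, h.hn]
  have h2 : ((7 * (n * n) : ℕ) : ℝ) ≤ pw (3 + 2 * lg n) := by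
    have e1 : pw (3 + 2 * lg n) = 8 * (((n : ℝ) + 1) * ((n : ℝ) + 1)) := by
      rw [pw_add, two_mul, pw_add, pw_lg]
      congr 1
      unfold pw
      norm_num
    rw [e1]
    push_cast
    have h0 : (0 : ℝ) ≤ n := Nat.cast_nonneg n
    nlinarith
  calc pw (tot E U V n e k1 - s) * ((7 * (n * n) : ℕ) : ℝ) ≤
        pw (tot E U V n e k1 - s) * pw (3 + 2 * lg n) :=
        mul_le_mul_of_nonneg_left h2 (pw_nonneg _)
    _ = pw (tot E U V n e k1 - s + 3 + 2 * lg n) := by
        rw [← pw_add]
        congr 1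
        ring

end Pool.Agent.Lib.MP_a8cbfa_co
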