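import Pool.Agent.Lib.MP_a8cbfa_co.Code

set_option autoImplicit false
set_option linter.unusedSectionVars false

open Finset

namespace Pool.Agent.Lib.MP_a8cbfa_co

variable {α : Type*} [Fintype α] [DecidableEq α]

/-- Numerical hypotheses for the poset count. -/
structure Prm (n e k1 s g : ℕ) : Prop where
  hs1 : 1 ≤ s
  hsg : s ≤ g
  h64 : 64 * s ≤ n
  hk1 : 1 ≤ k1
  hks : k1 ≤ s
  hen : 8 * e ≤ n

/-- Geometric hypotheses. -/
structure Geo (n e : ℕ) (E U V : Finset α) : Prop where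
  hn : Fintype.card α = n
  he : E.card ≤ e
  union : U ∪ V = univ \ E
  disj : Disjoint U V
  hU : n ≤ 4 * U.card
  hV : n ≤ 4 * V.card

open Classical in
noncomputable def strSet (E U V X Y : Finset α) (k1 s g : ℕ) : Finset (α → α → Bool) :=
  univ.filter (fun r => Str r E U V X Y k1 s g)

lemma mem_strSet {E U V X Y : Finset α} {k1 s g : ℕ} {r : α → α → Bool} :
    r ∈ strSet E U V X Y k1 s g ↔ Str r E U V X Y k1 s g := by
  simp [strSet]

/-- The cost of an exceptional vertex, apart from `max |U| |V|`. -/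
noncomputable def QQ (n e k1 : ℕ) : ℝ := 2 * e + 6 + 4 * (k1 * lg n)

lemma QQ_nonneg (n e k1 : ℕ) : 0 ≤ QQ n e k1 := by
  unfold QQ
  have := lg_nonneg n
  positivity

/-- Local bound. -/
noncomputable def Bz (E U V : Finset α) (n e k1 : ℕ) (z : α) : ℝ :=
  if z ∈ E then pw (QQ n e k1 + max (U.card : ℝ) V.card) else pw V.card

lemma Bz_nonneg (E U V : Finset α) (n e k1 : ℕ) (z : α) : 0 ≤ Bz E U V n e k1 z := by
  unfold Bz
  split_ifs <;> exact pw_nonneg _

/-- Total exponent. -/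
noncomputable def tot (E U V : Finset α) (n e k1 : ℕ) : ℝ :=
  (U.card : ℝ) * V.card + E.card * (QQ n e k1 + max (U.card : ℝ) V.card)

lemma Geo.disjE {n e : ℕ} {E U V : Finset α} (h : Geo n e E U V) : Disjoint E U := by
  rw [disjoint_left]
  intro x hx hx2
  have : x ∈ univ \ E := by rw [← h.union]; exact mem_union_left _ hx2
  exact (mem_sdiff.mp this).2 hx

lemma Geo.disjEV {n e : ℕ} {E U V : Finset α} (h : Geo n e E U V) : Disjoint E V := by
  rw [disjoint_left]
  intro x hx hx2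
  have : x ∈ univ \ E := by rw [← h.union]; exact mem_union_right _ hx2
  exact (mem_sdiff.mp this).2 hx

lemma Geo.cards {n e : ℕ} {E U V : Finset α} (h : Geo n e E U V) :
    E.card + U.card + V.card = n := by
  have h1 : (U ∪ V).card = U.card + V.card := card_union_of_disjoint h.disj
  rw [h.union, card_sdiff_of_subset (subset_univ E), card_univ, h.hn] at h1
  have h2 : E.card ≤ n := by rw [← h.hn]; exact card_le_univ E
  omega

lemma Geo.prod_Bz {n e : ℕ} {E U V : Finset α} (h : Geo n e E U V) (k1 : ℕ) :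
    ∏ z ∈ E ∪ U, Bz E U V n e k1 z = pw (tot E U V n e k1) := by
  rw [prod_union h.disjE]
  have h1 : ∏ z ∈ E, Bz E U V n e k1 z = pw (QQ n e k1 + max (U.card : ℝ) V.card) ^ E.card := by
    rw [← prod_const]
    apply prod_congr rfl
    intro z hz
    unfold Bz
    rw [if_pos hz]
  have h2 : ∏ z ∈ U, Bz E U V n e k1 z = pw V.card ^ U.card := by
    rw [← prod_const]
    apply prod_congr rfl
    intro z hz
    unfold Bz
    rw [if_neg (fun hz2 => disjoint_left.mp h.disjE hz2 hz)]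
  rw [h1, h2, ← pw_nat_mul, ← pw_nat_mul, ← pw_add]
  unfold tot
  congr 1
  ring

/-- Default local families. -/
noncomputable def Fz (E U V X Y : Finset α) (k1 s : ℕ) (z : α) : Finset (Finset α × Finset α) :=
  if z ∈ E then oriSet U V X Y k1 (attSet univ U V k1 s) else V.powerset ×ˢ {∅}

lemma Str.mem_Fz {n e k1 s g : ℕ} (hp : Prm n e k1 s g) {E U V X Y : Finset α}
    {r : α → α → Bool} (h : Str r E U V X Y k1 s g) (z : α) :
    cd E V r z ∈ Fz E U V X Y k1 s z := by
  unfold Fz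
  split_ifs with hz
  · exact h.mem_oriSet hp.hs1 hp.hsg z hz _
      (mem_attSet h.po.isTF hp.hs1 h.expU h.expV z)
  · unfold cd
    rw [if_neg hz, mem_product, mem_powerset, mem_singleton]
    exact ⟨inter_subset_right, rfl⟩

lemma Geo.half {n e k1 s g : ℕ} (hp : Prm n e k1 s g) {E U V : Finset α} (h : Geo n e E U V) :
    (7 / 16 : ℝ) * n ≤ max (U.card : ℝ) V.card := by
  have h1 : (E.card : ℝ) + U.card + V.card = n := by exact_mod_cast h.cards
  have h2 : (E.card : ℝ) ≤ e := by exact_mod_cast h.he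
  have h3 : 8 * (e : ℝ) ≤ n := by exact_mod_cast hp.hen
  have h4 := le_max_left (U.card : ℝ) V.card
  have h5 := le_max_right (U.card : ℝ) V.card
  linarith

lemma Geo.card_Fz {n e k1 s g : ℕ} (hp : Prm n e k1 s g) {E U V : Finset α}
    (h : Geo n e E U V) (X Y : Finset α) (z : α) :
    ((Fz E U V X Y k1 s z).card : ℝ) ≤ Bz E U V n e k1 z := by
  unfold Fz Bz
  split_ifs with hz
  · refine (card_oriSet E U V X Y k1 n e _ hp.hk1 h.hn h.union h.he).trans ?_
    have h2 := h.half hp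
    have hn0 : (0 : ℝ) ≤ n := Nat.cast_nonneg n
    have h1 := card_attSet univ E U V k1 s n e (max (U.card : ℝ) V.card)
      (by rw [card_univ, h.hn]) h.he h.union hp.h64 (le_max_left _ _) (le_max_right _ _)
      (by linarith)
    refine (mul_le_mul_of_nonneg_right h1 (pw_nonneg _)).trans ?_
    rw [← pw_add]
    apply pw_mono
    unfold QQ
    have := lg_nonneg n
    have hk : 0 ≤ (k1 : ℝ) * lg n := by positivity
    linarith
  · rw [card_product, card_powerset, card_singleton, pw_nat]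
    push_cast
    rw [mul_one]

/-- General bound. -/
lemma Geo.card_strSet {n e k1 s g : ℕ} (hp : Prm n e k1 s g) {E U V : Finset α}
    (h : Geo n e E U V) (X Y : Finset α) :
    ((strSet E U V X Y k1 s g).card : ℝ) ≤ pw (tot E U V n e k1) := by
  have h1 := card_prod (strSet E U V X Y k1 s g) (E ∪ U) (cd E V)
    (fun r hr r' hr' hc => (mem_strSet.mp hr).eq_of_code (mem_strSet.mp hr') hc)
    (Fz E U V X Y k1 s) (fun r hr z _ => (mem_strSet.mp hr).mem_Fz hp z)
  refine h1.trans ?_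
  rw [← h.prod_Bz k1]
  exact prod_le_prod (fun _ _ => Nat.cast_nonneg _) (fun z _ => h.card_Fz hp X Y z)

/-- Bound with a special vertex. -/
lemma Geo.card_special {n e k1 s g : ℕ} (hp : Prm n e k1 s g) {E U V : Finset α}
    (h : Geo n e E U V) (X Y : Finset α) (𝓡 : Finset (α → α → Bool))
    (h𝓡 : ∀ r ∈ 𝓡, Str r E U V X Y k1 s g) (z0 : α) (hz0 : z0 ∈ E ∪ U)
    (G : (α → α → Bool) → Finset (Finset α × Finset α))
    (hG : ∀ r ∈ 𝓡, cd E V r z0 ∈ G r)
    (hdep : ∀ r ∈ 𝓡, ∀ r' ∈ 𝓡, (∀ z ∈ (E ∪ U).erase z0, cd E V r z = cd E V r' z) → G r = G r')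
    (hc : ∀ r ∈ 𝓡, ((G r).card : ℝ) ≤ pw (-(s : ℝ)) * Bz E U V n e k1 z0) :
    (𝓡.card : ℝ) ≤ pw (tot E U V n e k1 - s) := by
  have hB := Bz_nonneg E U V n e k1
  have h1 := card_prod_special 𝓡 (E ∪ U) (cd E V)
    (fun r hr r' hr' hc => (h𝓡 r hr).eq_of_code (h𝓡 r' hr') hc)
    (Fz E U V X Y k1 s) (fun r hr z _ => (h𝓡 r hr).mem_Fz hp z) z0 G
    (pw (-(s : ℝ)) * Bz E U V n e k1 z0) (mul_nonneg (pw_nonneg _) (hB z0)) hG hdep hc
  refine h1.trans ?_
  calc pw (-(s : ℝ)) * Bz E U V n e k1 z0 *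
        ∏ z ∈ (E ∪ U).erase z0, ((Fz E U V X Y k1 s z).card : ℝ) ≤
      pw (-(s : ℝ)) * Bz E U V n e k1 z0 * ∏ z ∈ (E ∪ U).erase z0, Bz E U V n e k1 z := by
        apply mul_le_mul_of_nonneg_left _ (mul_nonneg (pw_nonneg _) (hB z0))
        exact prod_le_prod (fun _ _ => Nat.cast_nonneg _) (fun z _ => h.card_Fz hp X Y z)
    _ = pw (-(s : ℝ)) * ∏ z ∈ E ∪ U, Bz E U V n e k1 z := by
        rw [mul_assoc, mul_prod_erase _ _ hz0]
    _ = pw (tot E U V n e k1 - s) := by
        rw [h.prod_Bz k1, ← pw_add]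
        congr 1
        ring

/-- Bound with a special exceptional vertex. -/
lemma Geo.card_specialE {n e k1 s g : ℕ} (hp : Prm n e k1 s g) {E U V : Finset α}
    (h : Geo n e E U V) (X Y : Finset α) (𝓡 : Finset (α → α → Bool))
    (h𝓡 : ∀ r ∈ 𝓡, Str r E U V X Y k1 s g) (z0 : α) (hz0 : z0 ∈ E)
    (𝒵 : (α → α → Bool) → Finset (Finset α))
    (hG : ∀ r ∈ 𝓡, nb r z0 ∈ 𝒵 r)
    (hdep : ∀ r ∈ 𝓡, ∀ r' ∈ 𝓡, (∀ z ∈ (E ∪ U).erase z0, cd E V r z = cd E V r' z) → 𝒵 r = 𝒵 r')
    (hc : ∀ r ∈ 𝓡, ((𝒵 r).card : ℝ) ≤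
      pw (e + 2 * (k1 * lg n) + max (U.card : ℝ) V.card - s)) :
    (𝓡.card : ℝ) ≤ pw (tot E U V n e k1 - s) := by
  apply h.card_special hp X Y 𝓡 h𝓡 z0 (mem_union_left _ hz0)
    (fun r => oriSet U V X Y k1 (𝒵 r))
  · intro r hr
    exact (h𝓡 r hr).mem_oriSet hp.hs1 hp.hsg z0 hz0 _ (hG r hr)
  · intro r hr r' hr' hcc
    rw [hdep r hr r' hr' hcc]
  · intro r hr
    refine (card_oriSet E U V X Y k1 n e _ hp.hk1 h.hn h.union h.he).trans ?_
    refine (mul_le_mul_of_nonneg_right (hc r hr) (pw_nonneg _)).trans ?_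
    unfold Bz
    rw [if_pos hz0, ← pw_add, ← pw_add]
    apply pw_mono
    unfold QQ
    linarith

/-- Bound with a special ordinary vertex. -/
lemma Geo.card_specialU {n e k1 s g : ℕ} (hp : Prm n e k1 s g) {E U V : Finset α}
    (h : Geo n e E U V) (X Y : Finset α) (𝓡 : Finset (α → α → Bool))
    (h𝓡 : ∀ r ∈ 𝓡, Str r E U V X Y k1 s g) (z0 : α) (hz0 : z0 ∈ U)
    (A : (α → α → Bool) → Finset α)
    (hG : ∀ r ∈ 𝓡, nb r z0 ∩ V ⊆ A r)
    (hdep : ∀ r ∈ 𝓡, ∀ r' ∈ 𝓡, (∀ z ∈ (E ∪ U).erase z0, cd E V r z = cd E V r' z) → A r = A r')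
    (hc : ∀ r ∈ 𝓡, (A r).card + s ≤ V.card) :
    (𝓡.card : ℝ) ≤ pw (tot E U V n e k1 - s) := by
  have hz1 : z0 ∉ E := fun h1 => disjoint_left.mp h.disjE h1 hz0
  apply h.card_special hp X Y 𝓡 h𝓡 z0 (mem_union_right _ hz0)
    (fun r => (A r).powerset ×ˢ {∅})
  · intro r hr
    unfold cd
    rw [if_neg hz1, mem_product, mem_powerset, mem_singleton]
    exact ⟨hG r hr, rfl⟩
  · intro r hr r' hr' hcc
    rw [hdep r hr r' hr' hcc]
  · intro r hr
    unfold Bz
    rw [if_neg hz1, ← pw_add, card_product, card_powerset, card_singleton, mul_one]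
    have h1 := hc r hr
    have h2 : (((A r).card : ℝ)) + s ≤ V.card := by exact_mod_cast h1
    push_cast
    rw [← pw_nat]
    apply pw_mono
    linarith

/-- Bound when two vertices of `V` have no common neighbour in `U`. -/
lemma Geo.card_pairV {n e k1 s g : ℕ} (hp : Prm n e k1 s g) {E U V : Finset α}
    (h : Geo n e E U V) (X Y : Finset α) (𝓡 : Finset (α → α → Bool))
    (h𝓡 : ∀ r ∈ 𝓡, Str r E U V X Y k1 s g) (a c : α) (ha : a ∈ V) (hcV : c ∈ V) (hac : a ≠ c)
    (hno : ∀ r ∈ 𝓡, ∀ u ∈ U, a ∈ nb r u → c ∈ nb r u → False) :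
    (𝓡.card : ℝ) ≤ pw (tot E U V n e k1 - s) := by
  classical
  set F : α → Finset (Finset α × Finset α) := fun z => if z ∈ E then
    oriSet U V X Y k1 (attSet univ U V k1 s) else
      ((V.powerset \ Icc {a, c} V) ×ˢ {∅}) with hF
  have h1 := card_prod 𝓡 (E ∪ U) (cd E V)
    (fun r hr r' hr' hc => (h𝓡 r hr).eq_of_code (h𝓡 r' hr') hc) F
    (by
      intro r hr z hz
      have h2 := (h𝓡 r hr).mem_Fz hp z
      rw [hF]
      unfold Fz at h2
      simp only
      split_ifs at h2 ⊢ with hzE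
      · exact h2
      · have hzU : z ∈ U := by
          rcases mem_union.mp hz with hz | hz
          · exact absurd hz hzE
          · exact hz
        rw [mem_product] at h2 ⊢
        refine ⟨?_, h2.2⟩
        rw [mem_sdiff]
        refine ⟨h2.1, ?_⟩
        intro hI
        rw [mem_Icc] at hI
        have h3 : ({a, c} : Finset α) ⊆ nb r z ∩ V := by
          have := hI.1
          unfold cd at this
          rw [if_neg hzE] at this
          exact this
        have h4 := h3 (mem_insert_self a _)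
        have h5 := h3 (mem_insert_of_mem (mem_singleton_self c))
        exact hno r hr z hzU (mem_inter.mp h4).1 (mem_inter.mp h5).1)
  refine h1.trans ?_
  have hsub : ({a, c} : Finset α) ⊆ V := by
    intro x hx
    rw [mem_insert, mem_singleton] at hx
    rcases hx with rfl | rfl <;> assumption
  have hc2 : ({a, c} : Finset α).card = 2 := card_pair hac
  have hV2 : 2 ≤ V.card := by rw [← hc2]; exact card_le_card hsub
  have h34 : ((V.powerset \ Icc {a, c} V).card : ℝ) = 3 / 4 * pw V.card := by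
    have hs : Icc ({a, c} : Finset α) V ⊆ V.powerset := by
      intro S hS
      rw [mem_Icc] at hS
      exact mem_powerset.mpr hS.2
    rw [card_sdiff_of_subset hs, card_powerset, card_Icc_finset hsub, hc2, pw_nat]
    have h3 : 2 ^ (V.card - 2) ≤ 2 ^ V.card := Nat.pow_le_pow_right (by norm_num) (Nat.sub_le _ _)
    rw [Nat.cast_sub h3]
    obtain ⟨t, ht⟩ : ∃ t, V.card = t + 2 := ⟨V.card - 2, by omega⟩
    rw [ht]
    simp only [Nat.add_sub_cancel]
    push_cast
    ring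
  have h2 : ∀ z ∈ E ∪ U, ((F z).card : ℝ) ≤ Bz E U V n e k1 z *
      (if z ∈ E then 1 else 3 / 4) := by
    intro z _
    have h3 := h.card_Fz hp X Y z
    rw [hF]
    unfold Fz Bz at h3
    unfold Bz
    simp only
    split_ifs at h3 ⊢ with hzE
    · rw [mul_one]; exact h3
    · rw [card_product, card_singleton, mul_one, h34]
      exact le_of_eq (by ring)
  refine (prod_le_prod (fun _ _ => Nat.cast_nonneg _) h2).trans ?_
  rw [prod_mul_distrib, h.prod_Bz k1]
  have h4 : ∏ z ∈ E ∪ U, (if z ∈ E then (1 : ℝ) else 3 / 4) = (3 / 4) ^ U.card := by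
    rw [prod_union h.disjE]
    have e1 : ∏ z ∈ E, (if z ∈ E then (1 : ℝ) else 3 / 4) = 1 := by
      apply prod_eq_one
      intro z hz
      rw [if_pos hz]
    have e2 : ∏ z ∈ U, (if z ∈ E then (1 : ℝ) else 3 / 4) = (3 / 4) ^ U.card := by
      rw [← prod_const]
      apply prod_congr rfl
      intro z hz
      rw [if_neg (fun h1 => disjoint_left.mp h.disjE h1 hz)]
    rw [e1, e2, one_mul]
  rw [h4]
  have h5 : (3 / 4 : ℝ) ^ U.card ≤ pw (-(s : ℝ)) := by
    calc (3 / 4 : ℝ) ^ U.card ≤ (pw (-(2 / 5))) ^ U.card :=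
          pow_le_pow_left₀ (by norm_num) three_quarters_le _
      _ = pw (-(2 / 5) * U.card) := by rw [pw_mul_nat]
      _ ≤ pw (-(s : ℝ)) := by
          apply pw_mono
          have h6 : (n : ℝ) ≤ 4 * U.card := by exact_mod_cast h.hU
          have h7 : 64 * (s : ℝ) ≤ n := by exact_mod_cast hp.h64
          have h8 : (0 : ℝ) ≤ s := Nat.cast_nonneg s
          linarith
  calc pw (tot E U V n e k1) * (3 / 4) ^ U.card ≤ pw (tot E U V n e k1) * pw (-(s : ℝ)) :=
        mul_le_mul_of_nonneg_left h5 (pw_nonneg _)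
    _ = pw (tot E U V n e k1 - s) := by
        rw [← pw_add]
        congr 1

end Pool.Agent.Lib.MP_a8cbfa_co
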