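import Pool.Agent.Lib.MP_a8cbfa_co.Str

set_option autoImplicit false
set_option linter.unusedSectionVars false

open Finset

namespace Pool.Agent.Lib.MP_a8cbfa_co

variable {α : Type*} [Fintype α] [DecidableEq α]

/-- Local data of a vertex. -/
noncomputable def cd (E V : Finset α) (r : α → α → Bool) (z : α) : Finset α × Finset α :=
  if z ∈ E then (upN r z, dnN r z) else (nb r z ∩ V, ∅)

lemma Str.cov_of_code {r r' : α → α → Bool} {E U V X Y : Finset α} {k1 s g : ℕ}
    (h : Str r E U V X Y k1 s g) (h' : Str r' E U V X Y k1 s g)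
    (hc : ∀ z ∈ E ∪ U, cd E V r z = cd E V r' z) (x y : α) (hxy : cov r x y) : cov r' x y := by
  have hE : ∀ z ∈ E, upN r z = upN r' z ∧ dnN r z = dnN r' z := by
    intro z hz
    have := hc z (mem_union_left _ hz)
    unfold cd at this
    rw [if_pos hz, if_pos hz] at this
    exact ⟨congrArg Prod.fst this, congrArg Prod.snd this⟩
  have hU : ∀ z ∈ U, nb r z ∩ V = nb r' z ∩ V := by
    intro z hz
    have := hc z (mem_union_right _ hz)
    have hz2 : z ∉ E := by
      intro hcon
      have h1 : z ∈ univ \ E := by rw [← h.bip.union]; exact mem_union_left _ hz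
      exact (mem_sdiff.mp h1).2 hcon
    unfold cd at this
    rw [if_neg hz2, if_neg hz2] at this
    exact congrArg Prod.fst this
  rcases h.bip.mem_cases (mem_univ x) with hx | hx | hx
  · have := (hE x hx).1
    rw [← mem_upN, ← this, mem_upN]
    exact hxy
  · rcases h.bip.mem_cases (mem_univ y) with hy | hy | hy
    · have := (hE y hy).2
      rw [← mem_dnN, ← this, mem_dnN]
      exact hxy
    · exact absurd hy (disjoint_left.mp (h.bip.hU x hx) (mem_nb.mpr (Or.inl hxy)))
    · have h1 : y ∈ nb r x ∩ V := mem_inter.mpr ⟨mem_nb.mpr (Or.inl hxy), hy⟩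
      have h2 := h1
      rw [hU x hx] at h2
      rw [mem_inter] at h1 h2
      have h3 := h.ori x hx y hy h1.1
      have h4 := h'.ori x hx y hy h2.1
      have h5 : ¬ cov r y x := fun h6 => h.po.cov_asymm h6 hxy
      have h6 : ¬ cov r' y x := by rw [h4, ← h3]; exact h5
      exact IsPo.mem_nb_not_cov (nb_symm h2.1) h6
  · rcases h.bip.mem_cases (mem_univ y) with hy | hy | hy
    · have := (hE y hy).2
      rw [← mem_dnN, ← this, mem_dnN]
      exact hxy
    · have h1 : x ∈ nb r y ∩ V := mem_inter.mpr ⟨mem_nb.mpr (Or.inr hxy), hx⟩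
      have h2 := h1
      rw [hU y hy] at h2
      rw [mem_inter] at h1 h2
      rw [h'.ori y hy x hx h2.1, ← h.ori y hy x hx h1.1]
      exact hxy
    · exact absurd hy (disjoint_left.mp (h.bip.hV x hx) (mem_nb.mpr (Or.inl hxy)))

lemma Str.eq_of_code {r r' : α → α → Bool} {E U V X Y : Finset α} {k1 s g : ℕ}
    (h : Str r E U V X Y k1 s g) (h' : Str r' E U V X Y k1 s g)
    (hc : ∀ z ∈ E ∪ U, cd E V r z = cd E V r' z) : r = r' :=
  h.po.eq_of_cov h'.po (fun x y => ⟨h.cov_of_code h' hc x y,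
    h'.cov_of_code h (fun z hz => (hc z hz).symm) x y⟩)

/-- Product bound. -/
lemma card_prod {ρ β : Type*} (𝓡 : Finset ρ) (I : Finset α) (code : ρ → α → β)
    (hinj : ∀ r ∈ 𝓡, ∀ r' ∈ 𝓡, (∀ z ∈ I, code r z = code r' z) → r = r')
    (F : α → Finset β) (hF : ∀ r ∈ 𝓡, ∀ z ∈ I, code r z ∈ F z) :
    (𝓡.card : ℝ) ≤ ∏ z ∈ I, ((F z).card : ℝ) := by
  classical
  have h1 : 𝓡.card ≤ (Fintype.piFinset (fun z : I => F z.val)).card := by
    apply card_le_card_of_injOn (fun r (z : I) => code r z.val)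
    · intro r hr
      rw [mem_coe, Fintype.mem_piFinset]
      exact fun z => hF r hr z.val z.2
    · intro r hr r' hr' h
      exact hinj r hr r' hr' (fun z hz => congrFun h ⟨z, hz⟩)
  rw [Fintype.card_piFinset, prod_coe_sort I (fun z => (F z).card)] at h1
  have h2 : (𝓡.card : ℝ) ≤ ((∏ z ∈ I, (F z).card : ℕ) : ℝ) := by exact_mod_cast h1
  push_cast at h2
  exact h2

/-- Product bound with one special vertex whose family may depend on all other data. -/
lemma card_prod_special {ρ β : Type*} (𝓡 : Finset ρ) (I : Finset α) (code : ρ → α → β)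
    (hinj : ∀ r ∈ 𝓡, ∀ r' ∈ 𝓡, (∀ z ∈ I, code r z = code r' z) → r = r')
    (F : α → Finset β) (hF : ∀ r ∈ 𝓡, ∀ z ∈ I, code r z ∈ F z) (z0 : α)
    (G : ρ → Finset β) (c : ℝ) (hc0 : 0 ≤ c) (hG : ∀ r ∈ 𝓡, code r z0 ∈ G r)
    (hdep : ∀ r ∈ 𝓡, ∀ r' ∈ 𝓡, (∀ z ∈ I.erase z0, code r z = code r' z) → G r = G r')
    (hc : ∀ r ∈ 𝓡, ((G r).card : ℝ) ≤ c) :
    (𝓡.card : ℝ) ≤ c * ∏ z ∈ I.erase z0, ((F z).card : ℝ) := by
  classical
  have h1 := card_le_real (s := 𝓡) (t := Fintype.piFinset (fun z : (I.erase z0 : Finset α) =>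
    F z.val)) (fun r (z : (I.erase z0 : Finset α)) => code r z.val)
    (by
      intro r hr
      rw [Fintype.mem_piFinset]
      exact fun z => hF r hr z.val (mem_of_mem_erase z.2)) c
    (by
      intro b _
      rcases (𝓡.filter (fun r => (fun (z : (I.erase z0 : Finset α)) => code r z.val) = b)).eq_empty_or_nonempty
        with he | ⟨r1, hr1⟩
      · rw [he]
        simpa using hc0
      · rw [mem_filter] at hr1
        have h2 : (𝓡.filter (fun r => (fun (z : (I.erase z0 : Finset α)) => code r z.val) = b)).card ≤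
            (G r1).card := by
          apply card_le_card_of_injOn (fun r => code r z0)
          · intro r hr
            rw [mem_coe, mem_filter] at hr
            have h3 : G r = G r1 := hdep r hr.1 r1 hr1.1 (fun z hz =>
              congrFun (hr.2.trans hr1.2.symm) ⟨z, hz⟩)
            rw [mem_coe, ← h3]
            exact hG r hr.1
          · intro r hr r' hr' h
            rw [mem_coe, mem_filter] at hr hr'
            apply hinj r hr.1 r' hr'.1
            intro z hz
            by_cases hz0 : z = z0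
            · rw [hz0]; exact h
            · exact congrFun (hr.2.trans hr'.2.symm) ⟨z, mem_erase.mpr ⟨hz0, hz⟩⟩
        exact (by exact_mod_cast h2 : _ ≤ ((G r1).card : ℝ)).trans (hc r1 hr1.1))
  refine h1.trans (le_of_eq ?_)
  rw [Fintype.card_piFinset, prod_coe_sort (I.erase z0) (fun z => (F z).card)]
  push_cast
  rfl

/-! ### Local families for exceptional vertices -/

/-- Orientation constraint on one side. -/
def OrC (P D Y : Finset α) (k1 : ℕ) : Prop :=
  (D ⊆ Y ∧ Disjoint P Y) ∨ D.card < k1 ∨ P.card < k1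

open Classical in
/-- Possible `(up, down)` pairs whose union is in `𝒵`. -/
noncomputable def oriSet (U V X Y : Finset α) (k1 : ℕ) (𝒵 : Finset (Finset α)) :
    Finset (Finset α × Finset α) :=
  univ.filter (fun p => p.1 ∪ p.2 ∈ 𝒵 ∧ Disjoint p.1 p.2 ∧ OrC (p.1 ∩ V) (p.2 ∩ V) Y k1 ∧
    OrC (p.2 ∩ U) (p.1 ∩ U) X k1)

lemma mem_oriSet {U V X Y : Finset α} {k1 : ℕ} {𝒵 : Finset (Finset α)}
    {p : Finset α × Finset α} : p ∈ oriSet U V X Y k1 𝒵 ↔ p.1 ∪ p.2 ∈ 𝒵 ∧ Disjoint p.1 p.2 ∧
      OrC (p.1 ∩ V) (p.2 ∩ V) Y k1 ∧ OrC (p.2 ∩ U) (p.1 ∩ U) X k1 := by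
  simp [oriSet]

open Classical in
/-- Code for the orientation on one side. -/
noncomputable def orCode (P D Y : Finset α) (k1 : ℕ) : Fin 3 × Finset α :=
  if D ⊆ Y ∧ Disjoint P Y then (0, ∅) else if D.card < k1 then (1, D) else (2, P)

lemma orCode_mem {P D Y W : Finset α} {k1 : ℕ} (hk1 : 1 ≤ k1) (h : OrC P D Y k1) (hP : P ⊆ W)
    (hD : D ⊆ W) : orCode P D Y k1 ∈ (univ : Finset (Fin 3)) ×ˢ smallSets W k1 := by
  unfold orCode
  split_ifs with h1 h2
  · rw [mem_product, mem_smallSets]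
    exact ⟨mem_univ _, empty_subset _, by rw [card_empty]; omega⟩
  · rw [mem_product, mem_smallSets]
    exact ⟨mem_univ _, hD, h2⟩
  · rw [mem_product, mem_smallSets]
    refine ⟨mem_univ _, hP, ?_⟩
    rcases h with h | h | h
    · exact absurd h h1
    · exact absurd h h2
    · exact h

lemma orCode_inj {P D P' D' Y : Finset α} {k1 : ℕ} (hu : P ∪ D = P' ∪ D') (hd : Disjoint P D)
    (hd' : Disjoint P' D') (h : orCode P D Y k1 = orCode P' D' Y k1) : P = P' := by
  have e1 : ∀ {P D : Finset α}, Disjoint P D → P = (P ∪ D) \ D := by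
    intro P D hd
    rw [union_sdiff_right, sdiff_eq_self_of_disjoint hd]
  have e2 : ∀ {P D : Finset α}, D ⊆ Y → Disjoint P Y → P = (P ∪ D) \ Y := by
    intro P D h1 h2
    rw [union_sdiff_distrib, sdiff_eq_self_of_disjoint h2, sdiff_eq_empty_iff_subset.mpr h1,
      union_empty]
  unfold orCode at h
  split_ifs at h with h1 h2 h3 h4 h5 h6 h7 h8
  all_goals first
    | (rw [e2 h1.1 h1.2, e2 h2.1 h2.2, hu])
    | (simp only [Prod.mk.injEq] at h; exact absurd h.1 (by decide))
    | skip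
  all_goals try simp only [Prod.mk.injEq, true_and] at h
  · rw [e1 hd, e1 hd', hu, h]
  · exact h

lemma card_oriSet (E U V X Y : Finset α) (k1 n e : ℕ) (𝒵 : Finset (Finset α)) (hk1 : 1 ≤ k1)
    (hn : Fintype.card α = n) (hUV : U ∪ V = univ \ E) (he : E.card ≤ e) :
    ((oriSet U V X Y k1 𝒵).card : ℝ) ≤ 𝒵.card * pw (e + 4 + 2 * (k1 * lg n)) := by
  classical
  have h1 : (oriSet U V X Y k1 𝒵).card ≤ (𝒵 ×ˢ (E.powerset ×ˢ
      (((univ : Finset (Fin 3)) ×ˢ smallSets V k1) ×ˢ
      ((univ : Finset (Fin 3)) ×ˢ smallSets U k1)))).card := by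
    apply card_le_card_of_injOn (fun p => (p.1 ∪ p.2, p.1 ∩ E,
      orCode (p.1 ∩ V) (p.2 ∩ V) Y k1, orCode (p.2 ∩ U) (p.1 ∩ U) X k1))
    · rintro ⟨P, D⟩ hp
      rw [mem_coe, mem_oriSet] at hp
      obtain ⟨h1, h2, h3, h4⟩ := hp
      simp only [mem_coe, mem_product, mem_powerset] at *
      refine ⟨h1, inter_subset_right, ?_, ?_⟩
      · have := orCode_mem hk1 h3 (W := V) inter_subset_right inter_subset_right
        rw [mem_product] at this
        exact this
      · have := orCode_mem hk1 h4 (W := U) inter_subset_right inter_subset_right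
        rw [mem_product] at this
        exact this
    · rintro ⟨P, D⟩ hp ⟨P', D'⟩ hp' heq
      rw [mem_coe, mem_oriSet] at hp hp'
      obtain ⟨_, h2, _, _⟩ := hp
      obtain ⟨_, h2', _, _⟩ := hp'
      simp only at h2 h2'
      simp only [Prod.mk.injEq] at heq
      obtain ⟨e1, e2, e3, e4⟩ := heq
      have uV : (P ∩ V) ∪ (D ∩ V) = (P' ∩ V) ∪ (D' ∩ V) := by
        rw [← union_inter_distrib_right, ← union_inter_distrib_right, e1]
      have uU : (D ∩ U) ∪ (P ∩ U) = (D' ∩ U) ∪ (P' ∩ U) := by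
        rw [← union_inter_distrib_right, ← union_inter_distrib_right, union_comm D P,
          union_comm D' P', e1]
      have dV : Disjoint (P ∩ V) (D ∩ V) :=
        disjoint_of_subset_left inter_subset_left (disjoint_of_subset_right inter_subset_left h2)
      have dV' : Disjoint (P' ∩ V) (D' ∩ V) :=
        disjoint_of_subset_left inter_subset_left (disjoint_of_subset_right inter_subset_left h2')
      have dU : Disjoint (D ∩ U) (P ∩ U) :=
        disjoint_of_subset_left inter_subset_left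
          (disjoint_of_subset_right inter_subset_left h2.symm)
      have dU' : Disjoint (D' ∩ U) (P' ∩ U) :=
        disjoint_of_subset_left inter_subset_left
          (disjoint_of_subset_right inter_subset_left h2'.symm)
      have f1 : P ∩ V = P' ∩ V := orCode_inj uV dV dV' e3
      have f2 : D ∩ U = D' ∩ U := orCode_inj uU dU dU' e4
      have f3 : P ∩ U = P' ∩ U := by
        have g1 : P ∩ U = ((D ∩ U) ∪ (P ∩ U)) \ (D ∩ U) := by
          rw [union_sdiff_left, sdiff_eq_self_of_disjoint dU.symm]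
        have g2 : P' ∩ U = ((D' ∩ U) ∪ (P' ∩ U)) \ (D' ∩ U) := by
          rw [union_sdiff_left, sdiff_eq_self_of_disjoint dU'.symm]
        rw [g1, g2, uU, f2]
      have key : ∀ Q : Finset α, Q = (Q ∩ E) ∪ ((Q ∩ U) ∪ (Q ∩ V)) := by
        intro Q
        rw [← inter_union_distrib_left, hUV, ← inter_union_distrib_left,
          union_sdiff_of_subset (subset_univ E), inter_univ]
      have f4 : P = P' := by rw [key P, key P', e2, f3, f1]
      have f5 : D = D' := by
        have g1 : D = (P ∪ D) \ P := by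
          rw [union_sdiff_left, sdiff_eq_self_of_disjoint h2.symm]
        have g2 : D' = (P' ∪ D') \ P' := by
          rw [union_sdiff_left, sdiff_eq_self_of_disjoint h2'.symm]
        rw [g1, g2, e1, f4]
      rw [f4, f5]
  simp only [card_product, card_powerset, card_univ, Fintype.card_fin] at h1
  have hcn : ∀ A : Finset α, A.card ≤ n := by
    intro A
    rw [← hn]
    exact card_le_univ A
  have h2 := card_smallSets_le_pw V k1 n (hcn V)
  have h3 := card_smallSets_le_pw U k1 n (hcn U)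
  calc ((oriSet U V X Y k1 𝒵).card : ℝ) ≤ ((𝒵.card * (2 ^ E.card * (3 * (smallSets V k1).card *
        (3 * (smallSets U k1).card))) : ℕ) : ℝ) := by exact_mod_cast h1
    _ = 𝒵.card * (pw E.card * (3 * (smallSets V k1).card * (3 * (smallSets U k1).card))) := by
        rw [pw_nat]; push_cast; rfl
    _ ≤ 𝒵.card * (pw e * (4 * pw (k1 * lg n) * (4 * pw (k1 * lg n)))) := by
        have h5 : pw (E.card : ℝ) ≤ pw (e : ℝ) := pw_mono (by exact_mod_cast he)
        have h6 := pw_nonneg ((k1 : ℝ) * lg n)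
        have h7 := pw_nonneg (e : ℝ)
        have h8 : (0 : ℝ) ≤ 𝒵.card := Nat.cast_nonneg _
        have h9 : (3 : ℝ) ≤ 4 := by norm_num
        gcongr
    _ = 𝒵.card * pw (e + 4 + 2 * (k1 * lg n)) := by
        have h4 : pw 4 = 16 := by unfold pw; norm_num
        have h5 : pw (e + 4 + 2 * (k1 * lg n)) = pw e * 16 * (pw (k1 * lg n) * pw (k1 * lg n)) := by
          rw [← h4, ← pw_add, ← pw_add, ← pw_add]
          congr 1
          ring
        rw [h5]
        ring

/-- Sets that are free on `E` and `A` and small on `B`. -/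
lemma card_free_small (E A B : Finset α) (k' n e : ℕ) (𝒵 : Finset (Finset α))
    (hn : Fintype.card α = n) (he : E.card ≤ e)
    (h : ∀ Z ∈ 𝒵, Z ⊆ E ∪ (A ∪ B) ∧ (Z ∩ B).card < k') :
    (𝒵.card : ℝ) ≤ pw (e + A.card + k' * lg n) := by
  classical
  have h1 : 𝒵.card ≤ (E.powerset ×ˢ (A.powerset ×ˢ smallSets B k')).card := by
    apply card_le_card_of_injOn (fun Z => (Z ∩ E, Z ∩ A, Z ∩ B))
    · intro Z hZ
      have h2 := h Z hZ
      simp only [mem_coe, mem_product, mem_powerset, mem_smallSets]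
      exact ⟨inter_subset_right, inter_subset_right, inter_subset_right, h2.2⟩
    · intro Z hZ Z' hZ' heq
      simp only [Prod.mk.injEq] at heq
      obtain ⟨e1, e2, e3⟩ := heq
      have key : ∀ Q ∈ 𝒵, Q = (Q ∩ E) ∪ ((Q ∩ A) ∪ (Q ∩ B)) := by
        intro Q hQ
        rw [← inter_union_distrib_left, ← inter_union_distrib_left]
        exact (inter_eq_left.mpr (h Q hQ).1).symm
      rw [key Z hZ, key Z' hZ', e1, e2, e3]
  simp only [card_product, card_powerset] at h1
  have h2 := card_smallSets_le_pw B k' n (by rw [← hn]; exact card_le_univ B)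
  calc (𝒵.card : ℝ) ≤ ((2 ^ E.card * (2 ^ A.card * (smallSets B k').card) : ℕ) : ℝ) := by
        exact_mod_cast h1
    _ = pw E.card * (pw A.card * (smallSets B k').card) := by
        rw [pw_nat, pw_nat]; push_cast; rfl
    _ ≤ pw e * (pw A.card * pw (k' * lg n)) := by
        have h5 : pw (E.card : ℝ) ≤ pw (e : ℝ) := pw_mono (by exact_mod_cast he)
        have h6 := pw_nonneg (A.card : ℝ)
        have h7 := pw_nonneg (e : ℝ)
        gcongr
    _ = pw (e + A.card + k' * lg n) := by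
        rw [← pw_add, ← pw_add]
        congr 1
        ring

/-! ### Orientation constraints -/

lemma Str.orV {r : α → α → Bool} {E U V X Y : Finset α} {k1 s g : ℕ}
    (h : Str r E U V X Y k1 s g) (hs1 : 1 ≤ s) (hsg : s ≤ g) (x : α) :
    OrC (upN r x ∩ V) (dnN r x ∩ V) Y k1 := by
  classical
  unfold OrC
  by_contra hcon
  rw [not_or, not_or, not_lt, not_lt, not_and_or] at hcon
  obtain ⟨h1, h2, h3⟩ := hcon
  -- a lower and an upper neighbour with a common neighbour in `U`
  have key : ∀ d ∈ dnN r x ∩ V, ∀ p ∈ upN r x ∩ V, ∀ t ∈ U, t ∈ nb r d → t ∈ nb r p →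
      d ∈ Y ∧ p ∉ Y := by
    intro d hd p hp t ht htd htp
    rw [mem_inter, mem_dnN] at hd
    rw [mem_inter, mem_upN] at hp
    have h4 : slt r d p := h.po.strans hd.1.1 hp.1.1
    obtain ⟨h5, h6⟩ := h.po.between h4 htd htp
    have h7 := (h.ori t ht d hd.2 (nb_symm htd)).mp h5
    have h8 : ¬ cov r p t := fun h9 => h.po.cov_asymm h6 h9
    rw [h.ori t ht p hp.2 (nb_symm htp), not_or] at h8
    rcases h7 with h7 | h7
    · exact absurd h7 h8.1
    · exact ⟨h7, h8.2⟩
  rcases h1 with h1 | h1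
  · rw [not_subset] at h1
    obtain ⟨d, hd, hdY⟩ := h1
    have hdV := (mem_inter.mp hd).2
    obtain ⟨p, hp, t, ht, htp⟩ := h.expV.exists_adj (T := nb r d ∩ U) inter_subset_right
      (hsg.trans (h.degV d hdV)) hs1 (Z := upN r x ∩ V) inter_subset_right h3
    rw [mem_inter] at ht
    exact hdY (key d hd p hp t ht.2 ht.1 htp).1
  · rw [not_disjoint_iff] at h1
    obtain ⟨p, hp, hpY⟩ := h1
    have hpV := (mem_inter.mp hp).2
    obtain ⟨d, hd, t, ht, htd⟩ := h.expV.exists_adj (T := nb r p ∩ U) inter_subset_right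
      (hsg.trans (h.degV p hpV)) hs1 (Z := dnN r x ∩ V) inter_subset_right h2
    rw [mem_inter] at ht
    exact (key d hd p hp t ht.2 htd ht.1).2 hpY

lemma Str.orU {r : α → α → Bool} {E U V X Y : Finset α} {k1 s g : ℕ}
    (h : Str r E U V X Y k1 s g) (hs1 : 1 ≤ s) (hsg : s ≤ g) (x : α) :
    OrC (dnN r x ∩ U) (upN r x ∩ U) X k1 := by
  classical
  unfold OrC
  by_contra hcon
  rw [not_or, not_or, not_lt, not_lt, not_and_or] at hcon
  obtain ⟨h1, h2, h3⟩ := hcon
  have key : ∀ d ∈ dnN r x ∩ U, ∀ p ∈ upN r x ∩ U, ∀ t ∈ V, t ∈ nb r d → t ∈ nb r p →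
      d ∉ X ∧ p ∈ X := by
    intro d hd p hp t ht htd htp
    rw [mem_inter, mem_dnN] at hd
    rw [mem_inter, mem_upN] at hp
    have h4 : slt r d p := h.po.strans hd.1.1 hp.1.1
    obtain ⟨h5, h6⟩ := h.po.between h4 htd htp
    have h7 := (h.ori p hp.2 t ht htp).mp h6
    have h8 : ¬ cov r t d := fun h9 => h.po.cov_asymm h5 h9
    rw [h.ori d hd.2 t ht htd, not_or] at h8
    rcases h7 with h7 | h7
    · exact ⟨h8.1, h7⟩
    · exact absurd h7 h8.2
  rcases h1 with h1 | h1
  · rw [not_subset] at h1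
    obtain ⟨p, hp, hpX⟩ := h1
    have hpU := (mem_inter.mp hp).2
    obtain ⟨d, hd, t, ht, htd⟩ := h.expU.exists_adj (T := nb r p ∩ V) inter_subset_right
      (hsg.trans (h.degU p hpU)) hs1 (Z := dnN r x ∩ U) inter_subset_right h3
    rw [mem_inter] at ht
    exact hpX (key d hd p hp t ht.2 htd ht.1).2
  · rw [not_disjoint_iff] at h1
    obtain ⟨d, hd, hdX⟩ := h1
    have hdU := (mem_inter.mp hd).2
    obtain ⟨p, hp, t, ht, htp⟩ := h.expU.exists_adj (T := nb r d ∩ V) inter_subset_right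
      (hsg.trans (h.degU d hdU)) hs1 (Z := upN r x ∩ U) inter_subset_right h2
    rw [mem_inter] at ht
    exact (key d hd p hp t ht.2 ht.1 htp).1 hdX

lemma Str.mem_oriSet {r : α → α → Bool} {E U V X Y : Finset α} {k1 s g : ℕ}
    (h : Str r E U V X Y k1 s g) (hs1 : 1 ≤ s) (hsg : s ≤ g) (x : α) (hx : x ∈ E)
    (𝒵 : Finset (Finset α)) (hZ : nb r x ∈ 𝒵) : cd E V r x ∈ oriSet U V X Y k1 𝒵 := by
  unfold cd
  rw [if_pos hx, Pool.Agent.Lib.MP_a8cbfa_co.mem_oriSet]
  refine ⟨hZ, ?_, h.orV hs1 hsg x, h.orU hs1 hsg x⟩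
  rw [disjoint_left]
  intro y hy hy2
  rw [mem_upN] at hy
  rw [mem_dnN] at hy2
  exact h.po.cov_asymm hy hy2

end Pool.Agent.Lib.MP_a8cbfa_co
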