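import Pool.Agent.Lib.MP_a8cbfa_co.PoDef

set_option autoImplicit false
set_option linter.unusedSectionVars false

open Finset

namespace Pool.Agent.Lib.MP_a8cbfa_co

variable {α : Type*} [Fintype α] [DecidableEq α]

/-- Three-layer poset with bottom `A`, middle `B`, top the rest. -/
def mkPo (B A : Finset α) (R : α → Finset α) (x y : α) : Bool :=
  decide (x = y ∨ (x ∈ A ∧ y ∈ B ∧ x ∈ R y) ∨ (x ∈ B ∧ y ∉ A ∧ y ∉ B ∧ y ∈ R x) ∨
    (x ∈ A ∧ y ∉ A ∧ y ∉ B))

lemma mkPo_iff {B A : Finset α} {R : α → Finset α} {x y : α} : mkPo B A R x y = true ↔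
    (x = y ∨ (x ∈ A ∧ y ∈ B ∧ x ∈ R y) ∨ (x ∈ B ∧ y ∉ A ∧ y ∉ B ∧ y ∈ R x) ∨
    (x ∈ A ∧ y ∉ A ∧ y ∉ B)) := by
  unfold mkPo
  rw [decide_eq_true_eq]

lemma mkPo_po {B A : Finset α} (R : α → Finset α) (hd : ∀ x ∈ A, x ∉ B) :
    IsPo (mkPo B A R) := by
  refine ⟨?_, ?_, ?_⟩
  · intro x
    rw [mkPo_iff]
    exact Or.inl rfl
  · intro x y h1 h2
    rw [mkPo_iff] at h1 h2
    have h3 := hd x
    have h4 := hd y
    rcases h1 with h1 | h1 | h1 | h1
    · exact h1
    · rcases h2 with h2 | h2 | h2 | h2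
      · exact h2.symm
      · exact absurd h2.2.1 (h3 h1.1)
      · exact absurd h1.1 h2.2.1
      · exact absurd h2.1 (fun h5 => h4 h5 h1.2.1)
    · rcases h2 with h2 | h2 | h2 | h2
      · exact h2.symm
      · exact absurd h2.1 h1.2.1
      · exact absurd h2.1 h1.2.2.1
      · exact absurd h2.1 h1.2.1
    · rcases h2 with h2 | h2 | h2 | h2
      · exact h2.symm
      · exact absurd h2.1 h1.2.1
      · exact absurd h2.1 h1.2.2
      · exact absurd h2.1 h1.2.1
  · intro x y z h1 h2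
    rw [mkPo_iff] at h1 h2 ⊢
    have h3 := hd x
    have h4 := hd y
    rcases h1 with h1 | h1 | h1 | h1
    · rw [h1]; exact h2
    · rcases h2 with h2 | h2 | h2 | h2
      · rw [← h2]; exact Or.inr (Or.inl h1)
      · exact absurd h1.2.1 (h4 h2.1)
      · exact Or.inr (Or.inr (Or.inr ⟨h1.1, h2.2.1, h2.2.2.1⟩))
      · exact absurd h1.2.1 (h4 h2.1)
    · rcases h2 with h2 | h2 | h2 | h2
      · rw [← h2]; exact Or.inr (Or.inr (Or.inl h1))
      · exact absurd h2.1 h1.2.1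
      · exact absurd h2.1 h1.2.2.1
      · exact absurd h2.1 h1.2.1
    · rcases h2 with h2 | h2 | h2 | h2
      · rw [← h2]; exact Or.inr (Or.inr (Or.inr h1))
      · exact absurd h2.1 h1.2.1
      · exact absurd h2.1 h1.2.2
      · exact absurd h2.1 h1.2.1

lemma mkPo_anti {B A : Finset α} (R : α → Finset α) (hd : ∀ x ∈ A, x ∉ B) {F : Finset α}
    (hF : F ⊆ B) : IsAnti (mkPo B A R) F := by
  intro x hx y hy h
  rw [mkPo_iff] at h
  have h1 := hF hx
  have h2 := hF hy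
  rcases h with h | h | h | h
  · exact h
  · exact absurd h1 (hd x h.1)
  · exact absurd h2 h.2.2.1
  · exact absurd h1 (hd x h.1)

/-- Validity of the layer data. -/
structure LayOk (B A : Finset α) (R : α → Finset α) : Prop where
  ne : B.Nonempty
  dis : ∀ x ∈ A, x ∉ B
  sub : ∀ b ∈ B, ∀ x ∈ R b, x ∉ B
  lo : ∀ b ∈ B, ∃ x ∈ R b, x ∈ A
  up : ∀ b ∈ B, ∃ x ∈ R b, x ∉ A
  out : ∀ b, b ∉ B → R b = ∅

lemma LayOk.mem_B {B A : Finset α} {R : α → Finset α} (h : LayOk B A R) (x : α) :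
    x ∈ B ↔ (∃ y, y ≠ x ∧ mkPo B A R y x = true) ∧ ∃ y, x ≠ y ∧ mkPo B A R x y = true := by
  simp only [mkPo_iff]
  constructor
  · intro hx
    obtain ⟨y, hy, hyA⟩ := h.lo x hx
    obtain ⟨z, hz, hzA⟩ := h.up x hx
    refine ⟨⟨y, ?_, Or.inr (Or.inl ⟨hyA, hx, hy⟩)⟩, ⟨z, ?_, ?_⟩⟩
    · rintro rfl
      exact h.dis y hyA hx
    · rintro rfl
      exact h.sub x hx x hz hx
    · exact Or.inr (Or.inr (Or.inl ⟨hx, hzA, h.sub x hx z hz, hz⟩))
  · rintro ⟨⟨y, hyx, hy⟩, ⟨z, hxz, hz⟩⟩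
    rcases hy with hy | hy | hy | hy
    · exact absurd hy hyx
    · exact hy.2.1
    · rcases hz with hz | hz | hz | hz
      · exact absurd hz hxz
      · exact absurd hz.1 hy.2.1
      · exact hz.1
      · exact absurd hz.1 hy.2.1
    · rcases hz with hz | hz | hz | hz
      · exact absurd hz hxz
      · exact absurd hz.1 hy.2.1
      · exact hz.1
      · exact absurd hz.1 hy.2.1

lemma LayOk.mem_A {B A : Finset α} {R : α → Finset α} (h : LayOk B A R) (x : α) :
    x ∈ A ↔ x ∉ B ∧ ∃ y, x ≠ y ∧ mkPo B A R x y = true := by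
  simp only [mkPo_iff]
  constructor
  · intro hx
    refine ⟨h.dis x hx, ?_⟩
    obtain ⟨b, hb⟩ := h.ne
    obtain ⟨z, hz, hzA⟩ := h.up b hb
    have hzB := h.sub b hb z hz
    refine ⟨z, ?_, Or.inr (Or.inr (Or.inr ⟨hx, hzA, hzB⟩))⟩
    rintro rfl
    exact hzA hx
  · rintro ⟨hx, ⟨z, hxz, hz⟩⟩
    rcases hz with hz | hz | hz | hz
    · exact absurd hz hxz
    · exact hz.1
    · exact absurd hz.1 hx
    · exact hz.1

lemma LayOk.mem_R {B A : Finset α} {R : α → Finset α} (h : LayOk B A R) {b : α} (hb : b ∈ B)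
    (x : α) : x ∈ R b ↔ x ≠ b ∧ (mkPo B A R x b = true ∨ mkPo B A R b x = true) := by
  simp only [mkPo_iff]
  have hbA : b ∉ A := fun h1 => h.dis b h1 hb
  constructor
  · intro hx
    have hxB := h.sub b hb x hx
    refine ⟨?_, ?_⟩
    · rintro rfl
      exact hxB hb
    · by_cases hxA : x ∈ A
      · exact Or.inl (Or.inr (Or.inl ⟨hxA, hb, hx⟩))
      · exact Or.inr (Or.inr (Or.inr (Or.inl ⟨hb, hxA, hxB, hx⟩)))
  · rintro ⟨hxb, h1 | h1⟩
    · rcases h1 with h1 | h1 | h1 | h1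
      · exact absurd h1 hxb
      · exact h1.2.2
      · exact absurd hb h1.2.2.1
      · exact absurd hb h1.2.2
    · rcases h1 with h1 | h1 | h1 | h1
      · exact absurd h1.symm hxb
      · exact absurd h1.1 hbA
      · exact h1.2.2.2
      · exact absurd h1.1 hbA

lemma LayOk.inj {B A B' A' : Finset α} {R R' : α → Finset α} (h : LayOk B A R)
    (h' : LayOk B' A' R') (he : mkPo B A R = mkPo B' A' R') : B = B' ∧ A = A' ∧ R = R' := by
  have e1 : B = B' := by
    ext x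
    rw [h.mem_B, h'.mem_B, he]
  have e2 : A = A' := by
    ext x
    rw [h.mem_A, h'.mem_A, he, e1]
  refine ⟨e1, e2, ?_⟩
  funext b
  by_cases hb : b ∈ B
  · ext x
    rw [h.mem_R hb, h'.mem_R (e1 ▸ hb), he]
  · rw [h.out b hb, h'.out b (e1 ▸ hb)]

/-- Sets meeting both `A` and `C`. -/
def gS (A C : Finset α) : Finset (Finset α) :=
  (A ∪ C).powerset.filter (fun S => (S ∩ A).Nonempty ∧ (S ∩ C).Nonempty)

lemma card_gS {A C : Finset α} (hd : Disjoint A C) :
    ((2 : ℝ) ^ A.card - 1) * (2 ^ C.card - 1) ≤ ((gS A C).card : ℝ) := by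
  have h1 : ((A.powerset.erase ∅) ×ˢ (C.powerset.erase ∅)).card ≤ (gS A C).card := by
    have e1 : ∀ S T : Finset α, S ⊆ A → T ⊆ C → (S ∪ T) ∩ A = S := by
      intro S T hS hT
      rw [union_inter_distrib_right, inter_eq_left.mpr hS,
        disjoint_iff_inter_eq_empty.mp (disjoint_of_subset_left hT hd.symm), union_empty]
    have e2 : ∀ S T : Finset α, S ⊆ A → T ⊆ C → (S ∪ T) ∩ C = T := by
      intro S T hS hT
      rw [union_inter_distrib_right, inter_eq_left.mpr hT,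
        disjoint_iff_inter_eq_empty.mp (disjoint_of_subset_left hS hd), empty_union]
    apply card_le_card_of_injOn (fun p => p.1 ∪ p.2)
    · rintro ⟨S, T⟩ hp
      simp only [mem_coe, mem_product, mem_erase, mem_powerset] at hp
      obtain ⟨⟨h1, h2⟩, h3, h4⟩ := hp
      rw [mem_coe, gS, mem_filter, mem_powerset]
      simp only
      rw [e1 S T h2 h4, e2 S T h2 h4]
      exact ⟨union_subset_union h2 h4, nonempty_iff_ne_empty.mpr h1, nonempty_iff_ne_empty.mpr h3⟩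
    · rintro ⟨S, T⟩ hp ⟨S', T'⟩ hp' he
      simp only [mem_coe, mem_product, mem_erase, mem_powerset] at hp hp'
      simp only at he
      obtain ⟨⟨_, h2⟩, _, h4⟩ := hp
      obtain ⟨⟨_, h2'⟩, _, h4'⟩ := hp'
      have f1 := e1 S T h2 h4
      have f2 := e2 S T h2 h4
      have f1' := e1 S' T' h2' h4'
      have f2' := e2 S' T' h2' h4'
      rw [he] at f1 f2
      rw [Prod.mk.injEq]
      exact ⟨f1.symm.trans f1', f2.symm.trans f2'⟩
  rw [card_product, card_erase_of_mem (empty_mem_powerset _),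
    card_erase_of_mem (empty_mem_powerset _), card_powerset, card_powerset] at h1
  have h2 : (((2 ^ A.card - 1) * (2 ^ C.card - 1) : ℕ) : ℝ) ≤ (gS A C).card := by
    exact_mod_cast h1
  rw [Nat.cast_mul, Nat.cast_sub Nat.one_le_two_pow, Nat.cast_sub Nat.one_le_two_pow] at h2
  push_cast at h2
  exact h2

/-- The relation part of the data. -/
def rS (B A : Finset α) : Finset (α → Finset α) :=
  Fintype.piFinset (fun b => if b ∈ B then gS A (Bᶜ \ A) else {∅})

lemma rS_ok {B A : Finset α} {R : α → Finset α} (hB : B.Nonempty) (hA : A ⊆ Bᶜ)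
    (hR : R ∈ rS B A) : LayOk B A R := by
  rw [rS, Fintype.mem_piFinset] at hR
  have hb : ∀ b ∈ B, R b ∈ gS A (Bᶜ \ A) := by
    intro b hb
    have := hR b
    rwa [if_pos hb] at this
  refine ⟨hB, fun x hx => mem_compl.mp (hA hx), ?_, ?_, ?_, ?_⟩
  · intro b hb1 x hx
    have := hb b hb1
    rw [gS, mem_filter, mem_powerset, union_sdiff_of_subset hA] at this
    exact mem_compl.mp (this.1 hx)
  · intro b hb1
    have := hb b hb1
    rw [gS, mem_filter] at this
    obtain ⟨x, hx⟩ := this.2.1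
    rw [mem_inter] at hx
    exact ⟨x, hx.1, hx.2⟩
  · intro b hb1
    have := hb b hb1
    rw [gS, mem_filter] at this
    obtain ⟨x, hx⟩ := this.2.2
    rw [mem_inter, mem_sdiff] at hx
    exact ⟨x, hx.1, hx.2.2⟩
  · intro b hb1
    have := hR b
    rw [if_neg hb1, mem_singleton] at this
    exact this

lemma card_rS {B A : Finset α} (hA : A ⊆ Bᶜ) :
    (((2 : ℝ) ^ A.card - 1) * (2 ^ (Bᶜ.card - A.card) - 1)) ^ B.card ≤ ((rS B A).card : ℝ) := by
  have h1 : (rS B A).card = (gS A (Bᶜ \ A)).card ^ B.card := by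
    rw [rS, Fintype.card_piFinset]
    rw [← prod_const]
    have : ∀ b : α, (if b ∈ B then gS A (Bᶜ \ A) else ({∅} : Finset (Finset α))).card =
        if b ∈ B then (gS A (Bᶜ \ A)).card else 1 := by
      intro b
      split_ifs
      · rfl
      · exact card_singleton _
    simp only [this]
    rw [prod_ite_mem, univ_inter]
  rw [h1]
  push_cast
  have h2 := card_gS (A := A) (C := Bᶜ \ A) disjoint_sdiff
  rw [card_sdiff_of_subset hA] at h2
  apply pow_le_pow_left₀ _ h2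
  apply mul_nonneg
  · have : (1 : ℝ) ≤ 2 ^ A.card := one_le_pow₀ (by norm_num)
    linarith
  · have : (1 : ℝ) ≤ 2 ^ (Bᶜ.card - A.card) := one_le_pow₀ (by norm_num)
    linarith

/-- Lower bound for the number of pairs (poset, antichain), in combinatorial form. -/
lemma sum_le_pairs (𝒦 : Finset ((α → α → Bool) × Finset α))
    (h𝒦 : ∀ r F, IsPo r → IsAnti r F → (r, F) ∈ 𝒦) :
    ∑ B ∈ (univ : Finset (Finset α)).erase ∅, ∑ A ∈ Bᶜ.powerset,
      2 ^ B.card * (rS B A).card ≤ 𝒦.card := by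
  have h1 : (((univ : Finset (Finset α)).erase ∅).sigma (fun B => Bᶜ.powerset.sigma (fun A =>
      B.powerset ×ˢ rS B A))).card ≤ 𝒦.card := by
    apply card_le_card_of_injOn (fun p => (mkPo p.1 p.2.1 p.2.2.2, p.2.2.1))
    · rintro ⟨B, A, F, R⟩ hp
      simp only [mem_coe, mem_sigma, mem_erase, mem_univ, and_true, mem_powerset,
        mem_product] at hp
      obtain ⟨h1, h2, h3, h4⟩ := hp
      have hok := rS_ok (nonempty_iff_ne_empty.mpr h1) h2 h4
      exact h𝒦 _ _ (mkPo_po R hok.dis) (mkPo_anti R hok.dis h3)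
    · rintro ⟨B, A, F, R⟩ hp ⟨B', A', F', R'⟩ hp' he
      simp only [mem_coe, mem_sigma, mem_erase, mem_univ, and_true, mem_powerset,
        mem_product] at hp hp'
      obtain ⟨h1, h2, h3, h4⟩ := hp
      obtain ⟨h1', h2', h3', h4'⟩ := hp'
      have hok := rS_ok (nonempty_iff_ne_empty.mpr h1) h2 h4
      have hok' := rS_ok (nonempty_iff_ne_empty.mpr h1') h2' h4'
      simp only [Prod.mk.injEq] at he
      obtain ⟨e1, e2, e3⟩ := hok.inj hok' he.1
      obtain rfl := e1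
      obtain rfl := e2
      obtain rfl := e3
      obtain rfl := he.2
      rfl
  refine le_trans (le_of_eq ?_) h1
  rw [card_sigma]
  apply sum_congr rfl
  intro B _
  rw [card_sigma]
  apply sum_congr rfl
  intro A _
  rw [card_product, card_powerset]

lemma sum_le_posets (𝒦 : Finset (α → α → Bool)) (h𝒦 : ∀ r, IsPo r → r ∈ 𝒦) :
    ∑ B ∈ (univ : Finset (Finset α)).erase ∅, ∑ A ∈ Bᶜ.powerset,
      1 ^ B.card * (rS B A).card ≤ 𝒦.card := by
  have h1 : (((univ : Finset (Finset α)).erase ∅).sigma (fun B => Bᶜ.powerset.sigma (fun A =>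
      rS B A))).card ≤ 𝒦.card := by
    apply card_le_card_of_injOn (fun p => mkPo p.1 p.2.1 p.2.2)
    · rintro ⟨B, A, R⟩ hp
      simp only [mem_coe, mem_sigma, mem_erase, mem_univ, and_true, mem_powerset] at hp
      obtain ⟨h1, h2, h4⟩ := hp
      have hok := rS_ok (nonempty_iff_ne_empty.mpr h1) h2 h4
      exact h𝒦 _ (mkPo_po R hok.dis)
    · rintro ⟨B, A, R⟩ hp ⟨B', A', R'⟩ hp' he
      simp only [mem_coe, mem_sigma, mem_erase, mem_univ, and_true, mem_powerset] at hp hp'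
      obtain ⟨h1, h2, h4⟩ := hp
      obtain ⟨h1', h2', h4'⟩ := hp'
      have hok := rS_ok (nonempty_iff_ne_empty.mpr h1) h2 h4
      have hok' := rS_ok (nonempty_iff_ne_empty.mpr h1') h2' h4'
      obtain ⟨e1, e2, e3⟩ := hok.inj hok' he
      obtain rfl := e1
      obtain rfl := e2
      obtain rfl := e3
      rfl
  refine le_trans (le_of_eq ?_) h1
  rw [card_sigma]
  apply sum_congr rfl
  intro B _
  rw [card_sigma]
  apply sum_congr rfl
  intro A _
  rw [one_pow, one_mul]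

/-- Bernoulli-type estimate. -/
lemma bern (a c b : ℕ) : (2 : ℝ) ^ ((a + c) * b) * (1 - b * ((1 / 2) ^ a + (1 / 2) ^ c)) ≤
    (((2 : ℝ) ^ a - 1) * (2 ^ c - 1)) ^ b := by
  have hx0 : (0 : ℝ) ≤ (1 / 2) ^ a := by positivity
  have hx1 : ((1 : ℝ) / 2) ^ a ≤ 1 := pow_le_one₀ (by norm_num) (by norm_num)
  have hy0 : (0 : ℝ) ≤ (1 / 2) ^ c := by positivity
  have hy1 : ((1 : ℝ) / 2) ^ c ≤ 1 := pow_le_one₀ (by norm_num) (by norm_num)
  have e1 : (2 : ℝ) ^ a - 1 = 2 ^ a * (1 - (1 / 2) ^ a) := by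
    rw [mul_sub, mul_one, ← mul_pow]
    norm_num
  have e2 : (2 : ℝ) ^ c - 1 = 2 ^ c * (1 - (1 / 2) ^ c) := by
    rw [mul_sub, mul_one, ← mul_pow]
    norm_num
  rw [e1, e2]
  generalize ((1 : ℝ) / 2) ^ a = x at hx0 hx1
  generalize ((1 : ℝ) / 2) ^ c = y at hy0 hy1
  have e3 : (2 ^ a * (1 - x) * (2 ^ c * (1 - y))) ^ b =
      2 ^ ((a + c) * b) * ((1 - x) * (1 - y)) ^ b := by
    rw [pow_mul, ← mul_pow, pow_add]
    congr 1
    ring
  rw [e3]
  apply mul_le_mul_of_nonneg_left _ (by positivity)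
  have h1 := one_add_mul_le_pow (a := -(x + y - x * y)) (by nlinarith) b
  have h2 : (1 + -(x + y - x * y)) = (1 - x) * (1 - y) := by ring
  rw [h2] at h1
  refine le_trans ?_ h1
  have hb : (0 : ℝ) ≤ b := Nat.cast_nonneg b
  have : 0 ≤ (b : ℝ) * (x * y) := by positivity
  nlinarith

/-- Error term in the lower bounds. -/
noncomputable def TE (w : ℕ) (n : ℕ) : ℝ :=
  2 ^ n + ∑ b ∈ range (n + 1), (n.choose b : ℝ) *
    ((w : ℝ) ^ b * 2 ^ (b * (n - b)) * (2 * b * (3 / 2) ^ (n - b)))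

lemma lower_main (w n : ℕ) (hn : Fintype.card α = n) :
    ∑ b ∈ range (n + 1), (n.choose b : ℝ) * ((w : ℝ) ^ b * 2 ^ (b * (n - b)) * 2 ^ (n - b)) -
      TE w n ≤
    ((∑ B ∈ (univ : Finset (Finset α)).erase ∅, ∑ A ∈ Bᶜ.powerset,
      w ^ B.card * (rS B A).card : ℕ) : ℝ) := by
  push_cast
  have h1 : ∀ B : Finset α, (w : ℝ) ^ B.card * 2 ^ (B.card * (n - B.card)) *
      (2 ^ (n - B.card) - 2 * B.card * (3 / 2) ^ (n - B.card)) ≤
      ∑ A ∈ Bᶜ.powerset, (w : ℝ) ^ B.card * ((rS B A).card : ℝ) := by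
    intro B
    have hBc : Bᶜ.card = n - B.card := by rw [card_compl, hn]
    have h2 : ∀ A ∈ Bᶜ.powerset, (w : ℝ) ^ B.card * (2 ^ ((n - B.card) * B.card) *
        (1 - B.card * ((1 / 2) ^ A.card + (1 / 2) ^ (Bᶜ.card - A.card)))) ≤
        (w : ℝ) ^ B.card * ((rS B A).card : ℝ) := by
      intro A hA
      rw [mem_powerset] at hA
      apply mul_le_mul_of_nonneg_left _ (by positivity)
      have h3 := bern A.card (Bᶜ.card - A.card) B.card
      have h4 : A.card + (Bᶜ.card - A.card) = n - B.card := by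
        have := card_le_card hA
        omega
      rw [h4] at h3
      exact h3.trans (card_rS hA)
    refine le_trans (le_of_eq ?_) (sum_le_sum h2)
    rw [← mul_sum, ← mul_sum, sum_sub_distrib, ← mul_sum, sum_add_distrib]
    have s1 := Finset.sum_pow_mul_eq_add_pow (1 / 2 : ℝ) 1 Bᶜ
    have s2 := Finset.sum_pow_mul_eq_add_pow (1 : ℝ) (1 / 2) Bᶜ
    simp only [one_pow, mul_one, one_mul] at s1 s2
    rw [s1, s2, sum_const, card_powerset, hBc, nsmul_eq_mul, mul_one]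
    push_cast
    have : (1 / 2 + 1 : ℝ) = 3 / 2 := by norm_num
    have h5 : (1 + 1 / 2 : ℝ) = 3 / 2 := by norm_num
    rw [this, h5, mul_comm (n - B.card) B.card]
    ring
  have h2 : ∑ B : Finset α, (w : ℝ) ^ B.card * 2 ^ (B.card * (n - B.card)) *
      (2 ^ (n - B.card) - 2 * B.card * (3 / 2) ^ (n - B.card)) =
      ∑ b ∈ range (n + 1), (n.choose b : ℝ) * ((w : ℝ) ^ b * 2 ^ (b * (n - b)) *
        (2 ^ (n - b) - 2 * b * (3 / 2) ^ (n - b))) := by
    have h4 := sum_powerset_apply_card (fun b => (w : ℝ) ^ b * 2 ^ (b * (n - b)) *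
        (2 ^ (n - b) - 2 * b * (3 / 2) ^ (n - b))) (x := (univ : Finset α))
    rw [powerset_univ, card_univ, hn] at h4
    rw [h4]
    apply sum_congr rfl
    intro b _
    rw [nsmul_eq_mul]
  have h3 : ∑ B : Finset α, (w : ℝ) ^ B.card * 2 ^ (B.card * (n - B.card)) *
      (2 ^ (n - B.card) - 2 * B.card * (3 / 2) ^ (n - B.card)) =
      2 ^ n + ∑ B ∈ (univ : Finset (Finset α)).erase ∅,
        (w : ℝ) ^ B.card * 2 ^ (B.card * (n - B.card)) *
        (2 ^ (n - B.card) - 2 * B.card * (3 / 2) ^ (n - B.card)) := by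
    rw [← add_sum_erase _ _ (mem_univ (∅ : Finset α))]
    congr 1
    simp
  have h4 : ∑ B ∈ (univ : Finset (Finset α)).erase ∅,
        (w : ℝ) ^ B.card * 2 ^ (B.card * (n - B.card)) *
        (2 ^ (n - B.card) - 2 * B.card * (3 / 2) ^ (n - B.card)) ≤
      ∑ B ∈ (univ : Finset (Finset α)).erase ∅, ∑ A ∈ Bᶜ.powerset,
        (w : ℝ) ^ B.card * ((rS B A).card : ℝ) := sum_le_sum (fun B _ => h1 B)
  refine le_trans (le_of_eq ?_) h4
  unfold TE
  have h5 : ∑ b ∈ range (n + 1), (n.choose b : ℝ) * ((w : ℝ) ^ b * 2 ^ (b * (n - b)) *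
        (2 ^ (n - b) - 2 * b * (3 / 2) ^ (n - b))) =
      ∑ b ∈ range (n + 1), (n.choose b : ℝ) * ((w : ℝ) ^ b * 2 ^ (b * (n - b)) * 2 ^ (n - b)) -
      ∑ b ∈ range (n + 1), (n.choose b : ℝ) *
        ((w : ℝ) ^ b * 2 ^ (b * (n - b)) * (2 * b * (3 / 2) ^ (n - b))) := by
    rw [← sum_sub_distrib]
    apply sum_congr rfl
    intro b _
    ring
  linarith

lemma pNum_ge (n : ℕ) : TT n - TE 1 n ≤ pNum n := by
  classical
  unfold pNum
  rw [Nat.card_eq_fintype_card, Fintype.card_subtype]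
  have h1 := lower_main (α := Fin n) 1 n (Fintype.card_fin n)
  have h2 := sum_le_posets ((univ : Finset (Fin n → Fin n → Bool)).filter (fun r => IsPo r))
    (fun r hr => mem_filter.mpr ⟨mem_univ _, hr⟩)
  have h3 : ((∑ B ∈ (univ : Finset (Finset (Fin n))).erase ∅, ∑ A ∈ Bᶜ.powerset,
      1 ^ B.card * (rS B A).card : ℕ) : ℝ) ≤
      (((univ : Finset (Fin n → Fin n → Bool)).filter (fun r => IsPo r)).card : ℝ) := by
    exact_mod_cast h2
  have h4 : TT n = ∑ b ∈ range (n + 1), (n.choose b : ℝ) *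
      (((1 : ℕ) : ℝ) ^ b * 2 ^ (b * (n - b)) * 2 ^ (n - b)) := by
    unfold TT
    apply sum_congr rfl
    intro b _
    push_cast
    rw [one_pow]
    ring
  rw [h4]
  exact h1.trans h3

lemma sNum_ge (n : ℕ) : TA n - TE 2 n ≤ sNum n := by
  classical
  unfold sNum
  rw [Nat.card_eq_fintype_card, Fintype.card_subtype]
  have h1 := lower_main (α := Fin n) 2 n (Fintype.card_fin n)
  have h2 := sum_le_pairs ((univ : Finset ((Fin n → Fin n → Bool) × Finset (Fin n))).filter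
    (fun p => IsPo p.1 ∧ IsAnti p.1 p.2))
    (fun r F hr hF => mem_filter.mpr ⟨mem_univ _, hr, hF⟩)
  have h3 : ((∑ B ∈ (univ : Finset (Finset (Fin n))).erase ∅, ∑ A ∈ Bᶜ.powerset,
      2 ^ B.card * (rS B A).card : ℕ) : ℝ) ≤
      (((univ : Finset ((Fin n → Fin n → Bool) × Finset (Fin n))).filter
        (fun p => IsPo p.1 ∧ IsAnti p.1 p.2)).card : ℝ) := by
    exact_mod_cast h2
  have h4 : TA n = ∑ b ∈ range (n + 1), (n.choose b : ℝ) *
      (((2 : ℕ) : ℝ) ^ b * 2 ^ (b * (n - b)) * 2 ^ (n - b)) := by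
    unfold TA
    apply sum_congr rfl
    intro b hb
    rw [mem_range] at hb
    have e : (2 : ℝ) ^ n = 2 ^ b * 2 ^ (n - b) := by
      rw [← pow_add]
      congr 1
      omega
    push_cast
    rw [e]
    ring
  rw [h4]
  exact h1.trans h3

end Pool.Agent.Lib.MP_a8cbfa_co
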