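import Pool.Agent.Lib.MP_a8cbfa_co.KRCount
import Pool.Agent.Lib.MP_a8cbfa_co.Lower

set_option autoImplicit false
set_option linter.unusedSectionVars false

open Finset Filter

namespace Pool.Agent.Lib.MP_a8cbfa_co

lemma two_pow_le_choose (n : ℕ) : (2 : ℝ) ^ n ≤ ((n : ℝ) + 1) * (n.choose (n / 2) : ℝ) := by
  have h1 : 2 ^ n ≤ (n + 1) * n.choose (n / 2) := by
    rw [← Nat.sum_range_choose n]
    calc ∑ m ∈ range (n + 1), n.choose m ≤ ∑ _m ∈ range (n + 1), n.choose (n / 2) :=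
          sum_le_sum (fun m _ => Nat.choose_le_middle m n)
      _ = (n + 1) * n.choose (n / 2) := by rw [sum_const, card_range, smul_eq_mul]
  exact_mod_cast h1

lemma mid_prod (n : ℕ) : (n : ℝ) ^ 2 / 4 - 1 / 4 ≤ ((n / 2 * (n - n / 2) : ℕ) : ℝ) := by
  obtain ⟨m, hm | hm⟩ := Nat.even_or_odd' n
  · have h1 : n / 2 = m := by omega
    have h2 : n - m = m := by omega
    rw [h1, h2, hm]
    push_cast
    nlinarith
  · have h1 : n / 2 = m := by omega
    have h2 : n - m = m + 1 := by omega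
    rw [h1, h2, hm]
    push_cast
    nlinarith

lemma mid_half (n : ℕ) : (n : ℝ) / 2 ≤ ((n - n / 2 : ℕ) : ℝ) := by
  have h1 : n ≤ 2 * (n - n / 2) := by omega
  have h2 : (n : ℝ) ≤ 2 * ((n - n / 2 : ℕ) : ℝ) := by exact_mod_cast h1
  linarith

lemma TT_ge (n : ℕ) : pw ((n : ℝ) ^ 2 / 4 + 3 * n / 2 - 1 / 4) ≤ ((n : ℝ) + 1) * TT n := by
  have h1 : (n.choose (n / 2) : ℝ) * 2 ^ (n - n / 2) * 2 ^ (n / 2 * (n - n / 2)) ≤ TT n := by
    unfold TT
    exact single_le_sum (f := fun b => (n.choose b : ℝ) * 2 ^ (n - b) * 2 ^ (b * (n - b)))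
      (fun b _ => by positivity) (mem_range.mpr (by omega))
  have h2 : pw ((n : ℝ) ^ 2 / 4 + 3 * n / 2 - 1 / 4) ≤
      2 ^ n * (2 ^ (n - n / 2) * 2 ^ (n / 2 * (n - n / 2))) := by
    rw [← pw_nat, ← pw_nat, ← pw_nat, ← pw_add, ← pw_add]
    apply pw_mono
    have := mid_prod n
    have := mid_half n
    linarith
  have h3 := two_pow_le_choose n
  calc pw ((n : ℝ) ^ 2 / 4 + 3 * n / 2 - 1 / 4) ≤
      2 ^ n * (2 ^ (n - n / 2) * 2 ^ (n / 2 * (n - n / 2))) := h2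
    _ ≤ (((n : ℝ) + 1) * (n.choose (n / 2) : ℝ)) *
        (2 ^ (n - n / 2) * 2 ^ (n / 2 * (n - n / 2))) :=
        mul_le_mul_of_nonneg_right h3 (by positivity)
    _ = ((n : ℝ) + 1) * ((n.choose (n / 2) : ℝ) * 2 ^ (n - n / 2) *
        2 ^ (n / 2 * (n - n / 2))) := by ring
    _ ≤ ((n : ℝ) + 1) * TT n := mul_le_mul_of_nonneg_left h1 (by positivity)

lemma TA_ge (n : ℕ) : pw ((n : ℝ) ^ 2 / 4 + 2 * n - 1 / 4) ≤ ((n : ℝ) + 1) * TA n := by
  have h1 : (n.choose (n / 2) : ℝ) * 2 ^ n * 2 ^ (n / 2 * (n - n / 2)) ≤ TA n := by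
    unfold TA
    exact single_le_sum (f := fun b => (n.choose b : ℝ) * 2 ^ n * 2 ^ (b * (n - b)))
      (fun b _ => by positivity) (mem_range.mpr (by omega))
  have h2 : pw ((n : ℝ) ^ 2 / 4 + 2 * n - 1 / 4) ≤
      2 ^ n * (2 ^ n * 2 ^ (n / 2 * (n - n / 2))) := by
    rw [← pw_nat, ← pw_nat, ← pw_add, ← pw_add]
    apply pw_mono
    have := mid_prod n
    linarith
  have h3 := two_pow_le_choose n
  calc pw ((n : ℝ) ^ 2 / 4 + 2 * n - 1 / 4) ≤
      2 ^ n * (2 ^ n * 2 ^ (n / 2 * (n - n / 2))) := h2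
    _ ≤ (((n : ℝ) + 1) * (n.choose (n / 2) : ℝ)) *
        (2 ^ n * 2 ^ (n / 2 * (n - n / 2))) :=
        mul_le_mul_of_nonneg_right h3 (by positivity)
    _ = ((n : ℝ) + 1) * ((n.choose (n / 2) : ℝ) * 2 ^ n *
        2 ^ (n / 2 * (n - n / 2))) := by ring
    _ ≤ ((n : ℝ) + 1) * TA n := mul_le_mul_of_nonneg_left h1 (by positivity)

lemma sum_choose_le (n : ℕ) (f : ℕ → ℝ) (M : ℝ) (h : ∀ b ≤ n, f b ≤ pw M) :
    ∑ b ∈ range (n + 1), (n.choose b : ℝ) * f b ≤ pw (n + M) := by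
  calc ∑ b ∈ range (n + 1), (n.choose b : ℝ) * f b ≤
      ∑ b ∈ range (n + 1), (n.choose b : ℝ) * pw M := by
        apply sum_le_sum
        intro b hb
        rw [mem_range] at hb
        exact mul_le_mul_of_nonneg_left (h b (by omega)) (Nat.cast_nonneg _)
    _ = pw (n + M) := by
        rw [← sum_mul, pw_add, pw_nat]
        congr 1
        have := Nat.sum_range_choose n
        exact_mod_cast this

lemma three_le : (3 : ℝ) ≤ pw (8 / 5) := by
  unfold pw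
  have h4 : ((3 : ℝ) ^ (5 : ℕ)) ≤ 2 ^ (8 : ℕ) := by norm_num
  calc (3 : ℝ) = ((3 : ℝ) ^ (5 : ℕ)) ^ ((1 : ℝ) / 5) := by
        rw [← Real.rpow_natCast, ← Real.rpow_mul (by norm_num)]
        norm_num
    _ ≤ ((2 : ℝ) ^ (8 : ℕ)) ^ ((1 : ℝ) / 5) := Real.rpow_le_rpow (by positivity) h4 (by norm_num)
    _ = 2 ^ ((8 : ℝ) / 5) := by
        rw [← Real.rpow_natCast, ← Real.rpow_mul (by norm_num)]
        norm_num

lemma TB_le (n : ℕ) : TB n ≤ pw ((n : ℝ) ^ 2 / 4 + 9 * n / 5 + 1) := by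
  unfold TB
  refine (sum_choose_le n _ ((n : ℝ) ^ 2 / 4 + 4 * n / 5 + 1) ?_).trans (pw_mono (by linarith))
  intro b hb
  have h1 : ((n - b : ℕ) : ℝ) = n - b := by rw [Nat.cast_sub hb]
  calc (3 : ℝ) ^ (n - b) * 2 ^ (b * (n - b)) ≤ pw (8 / 5) ^ (n - b) * 2 ^ (b * (n - b)) := by
        apply mul_le_mul_of_nonneg_right _ (by positivity)
        exact pow_le_pow_left₀ (by norm_num) three_le _
    _ = pw (8 / 5 * ((n : ℝ) - b) + b * ((n : ℝ) - b)) := by
        rw [← pw_mul_nat, ← pw_nat, ← pw_add]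
        push_cast
        rw [h1]
    _ ≤ pw ((n : ℝ) ^ 2 / 4 + 4 * n / 5 + 1) := by
        apply pw_mono
        nlinarith [sq_nonneg ((n : ℝ) - 2 * b - 8 / 5)]

lemma TE_le (w : ℕ) (δ : ℝ) (hδ0 : 0 ≤ δ) (hδ1 : δ ≤ 1) (hw : (w : ℝ) ≤ pw δ) (n : ℕ) :
    TE w n ≤ 2 * pw ((n : ℝ) ^ 2 / 4 + (13 / 10 + δ / 2) * n + 2 + lg n) := by
  have hlg := lg_nonneg n
  have hn0 : (0 : ℝ) ≤ n := Nat.cast_nonneg n
  unfold TE
  have h1 : (2 : ℝ) ^ n ≤ pw ((n : ℝ) ^ 2 / 4 + (13 / 10 + δ / 2) * n + 2 + lg n) := by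
    rw [← pw_nat]
    apply pw_mono
    nlinarith
  have h2 : ∑ b ∈ range (n + 1), (n.choose b : ℝ) *
      ((w : ℝ) ^ b * 2 ^ (b * (n - b)) * (2 * b * (3 / 2) ^ (n - b))) ≤
      pw ((n : ℝ) ^ 2 / 4 + (13 / 10 + δ / 2) * n + 2 + lg n) := by
    refine (sum_choose_le n _ ((n : ℝ) ^ 2 / 4 + (3 / 10 + δ / 2) * n + 2 + lg n) ?_).trans
      (pw_mono (by linarith))
    intro b hb
    have h1 : ((n - b : ℕ) : ℝ) = n - b := by rw [Nat.cast_sub hb]
    have hbn : (b : ℝ) ≤ n := by exact_mod_cast hb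
    have hb0 : (0 : ℝ) ≤ b := Nat.cast_nonneg b
    calc (w : ℝ) ^ b * 2 ^ (b * (n - b)) * (2 * b * (3 / 2) ^ (n - b)) ≤
        pw δ ^ b * 2 ^ (b * (n - b)) * (2 * ((n : ℝ) + 1) * pw (3 / 5) ^ (n - b)) := by
          have e1 : (w : ℝ) ^ b ≤ pw δ ^ b := pow_le_pow_left₀ (Nat.cast_nonneg _) hw _
          have e2 : (3 / 2 : ℝ) ^ (n - b) ≤ pw (3 / 5) ^ (n - b) :=
            pow_le_pow_left₀ (by norm_num) three_halves_le _
          have e3 : (b : ℝ) ≤ n + 1 := by linarith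
          have e4 : 0 ≤ pw δ ^ b * 2 ^ (b * (n - b)) := by
            have := pw_nonneg δ
            positivity
          gcongr
      _ = pw (δ * b + b * ((n : ℝ) - b) + (1 + lg n + 3 / 5 * ((n : ℝ) - b))) := by
          rw [pw_add, pw_add, pw_add, pw_add, pw_one, pw_lg, pw_mul_nat]
          rw [← h1, pw_mul_nat (3 / 5), ← Nat.cast_mul, pw_nat]
      _ ≤ pw ((n : ℝ) ^ 2 / 4 + (3 / 10 + δ / 2) * n + 2 + lg n) := by
          apply pw_mono
          nlinarith [sq_nonneg ((n : ℝ) - 2 * b + δ - 3 / 5)]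
  linarith

/-- The common error function. -/
noncomputable def er (n : ℕ) : ℝ := ((n : ℝ) + 1) ^ 2 * pw (-(1 / 300000) * n)

lemma er_nonneg (n : ℕ) : 0 ≤ er n := by
  unfold er
  have := pw_nonneg (-(1 / 300000) * (n : ℝ))
  positivity

lemma er_tendsto : Tendsto er atTop (nhds 0) := by
  have hr : |pw (-(1 / 300000))| < 1 := by
    rw [abs_of_nonneg (pw_nonneg _)]
    unfold pw
    exact Real.rpow_lt_one_of_one_lt_of_neg (by norm_num) (by norm_num)
  have h1 := tendsto_pow_const_mul_const_pow_of_abs_lt_one 2 hr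
  have h2 := h1.comp (tendsto_add_atTop_nat 1)
  have h3 := h2.mul_const (pw (-(1 / 300000)))⁻¹
  rw [zero_mul] at h3
  refine h3.congr ?_
  intro n
  have hne : pw (-(1 / 300000)) ≠ 0 := (pw_pos _).ne'
  simp only [Function.comp]
  unfold er
  rw [pw_mul_nat, pow_succ (pw (-(1 / 300000))) n]
  push_cast
  field_simp

lemma TT_pos (n : ℕ) : 0 < TT n := by
  have h1 := TT_ge n
  have h2 := pw_pos ((n : ℝ) ^ 2 / 4 + 3 * n / 2 - 1 / 4)
  have h3 : (0 : ℝ) < (n : ℝ) + 1 := by positivity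
  by_contra hcon
  rw [not_lt] at hcon
  nlinarith

lemma TA_pos (n : ℕ) : 0 < TA n := by
  have h1 := TA_ge n
  have h2 := pw_pos ((n : ℝ) ^ 2 / 4 + 2 * n - 1 / 4)
  have h3 : (0 : ℝ) < (n : ℝ) + 1 := by positivity
  by_contra hcon
  rw [not_lt] at hcon
  nlinarith

/-- A term with smaller exponent is dominated by `er n * TT n`. -/
lemma le_er_TT (n : ℕ) (x c : ℝ) (h : x + 1 / 4 + n / 300000 ≤ (n : ℝ) ^ 2 / 4 + 3 * n / 2 + c + lg n) :
    pw x ≤ pw c * (er n * TT n) := by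
  have h1 := TT_ge n
  have hn : (0 : ℝ) < (n : ℝ) + 1 := by positivity
  calc pw x ≤ pw (c + (lg n + (-(1 / 300000) * n + ((n : ℝ) ^ 2 / 4 + 3 * n / 2 - 1 / 4)))) := by
        apply pw_mono
        linarith
    _ = pw c * (((n : ℝ) + 1) * (pw (-(1 / 300000) * n) *
          pw ((n : ℝ) ^ 2 / 4 + 3 * n / 2 - 1 / 4))) := by
        rw [pw_add, pw_add, pw_add, pw_lg]
    _ ≤ pw c * (((n : ℝ) + 1) * (pw (-(1 / 300000) * n) * (((n : ℝ) + 1) * TT n))) := by
        have e1 := pw_nonneg c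
        have e2 := pw_nonneg (-(1 / 300000) * (n : ℝ))
        gcongr
    _ = pw c * (er n * TT n) := by
        unfold er
        ring

lemma le_er_TA (n : ℕ) (x c : ℝ) (h : x + 1 / 4 + n / 300000 ≤ (n : ℝ) ^ 2 / 4 + 2 * n + c + lg n) :
    pw x ≤ pw c * (er n * TA n) := by
  have h1 := TA_ge n
  have hn : (0 : ℝ) < (n : ℝ) + 1 := by positivity
  calc pw x ≤ pw (c + (lg n + (-(1 / 300000) * n + ((n : ℝ) ^ 2 / 4 + 2 * n - 1 / 4)))) := by
        apply pw_mono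
        linarith
    _ = pw c * (((n : ℝ) + 1) * (pw (-(1 / 300000) * n) *
          pw ((n : ℝ) ^ 2 / 4 + 2 * n - 1 / 4))) := by
        rw [pw_add, pw_add, pw_add, pw_lg]
    _ ≤ pw c * (((n : ℝ) + 1) * (pw (-(1 / 300000) * n) * (((n : ℝ) + 1) * TA n))) := by
        have e1 := pw_nonneg c
        have e2 := pw_nonneg (-(1 / 300000) * (n : ℝ))
        gcongr
    _ = pw c * (er n * TA n) := by
        unfold er
        ring

lemma tendsto_of_bounds {f : ℕ → ℝ} {K : ℝ} (n0 : ℕ) (h1 : ∀ n ≥ n0, f n ≤ 1 + K * er n)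
    (h2 : ∀ n ≥ n0, 1 - K * er n ≤ f n) : Tendsto f atTop (nhds 1) := by
  have e1 : Tendsto (fun n => 1 + K * er n) atTop (nhds 1) := by
    have := (er_tendsto.const_mul K).const_add 1
    simpa using this
  have e2 : Tendsto (fun n => 1 - K * er n) atTop (nhds 1) := by
    have := (er_tendsto.const_mul K).const_sub 1
    simpa using this
  apply tendsto_of_tendsto_of_tendsto_of_le_of_le' e2 e1
  · filter_upwards [eventually_ge_atTop n0] with n hn using h2 n hn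
  · filter_upwards [eventually_ge_atTop n0] with n hn using h1 n hn

theorem pNum_tendsto : Tendsto (fun n => pNum n / TT n) atTop (nhds 1) := by
  obtain ⟨n0, M, hM, hbound⟩ := nonKR_bound
  apply tendsto_of_bounds (K := 2 * pw 3 + M * pw 1) n0
  · intro n hn
    have hT := TT_pos n
    have her := er_nonneg n
    have h1 := pNum_le n
    have h2 := hbound (Fin n) (by rw [Fintype.card_fin]; exact hn)
    rw [Fintype.card_fin] at h2
    have hlg := lg_nonneg n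
    have h3 := le_er_TT n ((n : ℝ) ^ 2 / 4 + 3 * n / 2 - n / 300000) 1 (by linarith)
    rw [div_le_iff₀ hT]
    have h4 : M * pw ((n : ℝ) ^ 2 / 4 + 3 * n / 2 - n / 300000) ≤ M * (pw 1 * (er n * TT n)) :=
      mul_le_mul_of_nonneg_left h3 hM
    have h5 : 0 ≤ 2 * pw 3 * (er n * TT n) := by
      have := pw_nonneg 3
      positivity
    nlinarith
  · intro n hn
    have hT := TT_pos n
    have her := er_nonneg n
    have h1 := pNum_ge n
    have h2 := TE_le 1 0 le_rfl (by norm_num) (by rw [pw_zero]; norm_num) n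
    have hn0 : (0 : ℝ) ≤ n := Nat.cast_nonneg n
    have h3 := le_er_TT n ((n : ℝ) ^ 2 / 4 + (13 / 10 + 0 / 2) * n + 2 + lg n) 3 (by linarith)
    rw [le_div_iff₀ hT]
    have h5 : 0 ≤ M * (pw 1 * (er n * TT n)) := by
      have := pw_nonneg 1
      positivity
    nlinarith

theorem sNum_tendsto : Tendsto (fun n => sNum n / TA n) atTop (nhds 1) := by
  obtain ⟨n0, M, hM, hbound⟩ := nonKR_bound
  apply tendsto_of_bounds (K := 3 * pw 3 + M * pw 3) n0
  · intro n hn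
    have hT := TA_pos n
    have her := er_nonneg n
    have h1 := sNum_le n
    have h2 := hbound (Option (Fin n)) (by rw [Fintype.card_option, Fintype.card_fin]; omega)
    rw [Fintype.card_option, Fintype.card_fin] at h2
    push_cast at h2
    have hlg := lg_nonneg n
    have hn0 : (0 : ℝ) ≤ n := Nat.cast_nonneg n
    have h3 := le_er_TA n (((n : ℝ) + 1) ^ 2 / 4 + 3 * ((n : ℝ) + 1) / 2 -
      ((n : ℝ) + 1) / 300000) 3 (by nlinarith)
    have h6 := TB_le n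
    have h7 := le_er_TA n ((n : ℝ) ^ 2 / 4 + 9 * n / 5 + 1) 3 (by linarith)
    rw [div_le_iff₀ hT]
    have h4 := mul_le_mul_of_nonneg_left h3 hM
    have h5 : 0 ≤ 2 * pw 3 * (er n * TA n) := by
      have := pw_nonneg 3
      positivity
    nlinarith
  · intro n hn
    have hT := TA_pos n
    have her := er_nonneg n
    have h1 := sNum_ge n
    have h2 := TE_le 2 1 (by norm_num) le_rfl (by rw [pw_one]; norm_num) n
    have hn0 : (0 : ℝ) ≤ n := Nat.cast_nonneg n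
    have h3 := le_er_TA n ((n : ℝ) ^ 2 / 4 + (13 / 10 + 1 / 2) * n + 2 + lg n) 3 (by linarith)
    rw [le_div_iff₀ hT]
    have h5 : 0 ≤ M * (pw 3 * (er n * TA n)) := by
      have := pw_nonneg 3
      positivity
    have h6 : 0 ≤ pw 3 * (er n * TA n) := by
      have := pw_nonneg 3
      positivity
    nlinarith

end Pool.Agent.Lib.MP_a8cbfa_co
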