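import Pool.Agent.Lib.MP_a8cbfa_co.NonKR

set_option autoImplicit false
set_option linter.unusedSectionVars false

open Finset

namespace Pool.Agent.Lib.MP_a8cbfa_co

section General

variable {β : Type*} [Fintype β] [DecidableEq β]

lemma KRf.cov_of_code {r r' : β → β → Bool} {B A : Finset β} (h : KRf r B A) (h' : KRf r' B A)
    (hc : ∀ b ∈ B, nb r b = nb r' b) (x y : β) (hxy : cov r x y) : cov r' x y := by
  have hd := h.disj
  rw [disjoint_left] at hd
  rcases h.ori x y hxy with ⟨hx, hy⟩ | ⟨hx, hyA, hyB⟩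
  · have h1 : x ∈ nb r y := mem_nb.mpr (Or.inr hxy)
    rw [hc y hy] at h1
    by_contra hcon
    have h2 : cov r' y x := by
      rw [mem_nb] at h1
      tauto
    rcases h'.ori y x h2 with ⟨h3, _⟩ | ⟨_, h3, _⟩
    · exact hd h3 hy
    · exact h3 hx
  · have h1 : y ∈ nb r x := mem_nb.mpr (Or.inl hxy)
    rw [hc x hx] at h1
    by_contra hcon
    have h2 : cov r' y x := by
      rw [mem_nb] at h1
      tauto
    rcases h'.ori y x h2 with ⟨h3, _⟩ | ⟨h3, _, _⟩
    · exact hyA h3
    · exact hyB h3

lemma KRf.eq_of_code {r r' : β → β → Bool} {B A : Finset β} (h : KRf r B A) (h' : KRf r' B A)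
    (hc : ∀ b ∈ B, nb r b = nb r' b) : r = r' :=
  h.po.eq_of_cov h'.po (fun x y => ⟨h.cov_of_code h' hc x y,
    h'.cov_of_code h (fun z hz => (hc z hz).symm) x y⟩)

lemma KRf.nb_subset {r : β → β → Bool} {B A : Finset β} (h : KRf r B A) {b : β} (hb : b ∈ B) :
    nb r b ⊆ Bᶜ := by
  intro y hy
  have hd := h.disj
  rw [disjoint_left] at hd
  rw [mem_compl]
  rw [mem_nb] at hy
  rcases hy with hy | hy
  · rcases h.ori b y hy with ⟨h1, _⟩ | ⟨_, _, h1⟩
    · exact absurd hb (hd h1)
    · exact h1
  · rcases h.ori y b hy with ⟨h1, _⟩ | ⟨_, _, h1⟩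
    · exact hd h1
    · exact absurd hb h1

open Classical in
/-- Three-layer posets with given layers and an extra property. -/
noncomputable def krP (B A : Finset β) (p : (β → β → Bool) → Prop) : Finset (β → β → Bool) :=
  univ.filter (fun r => KRf r B A ∧ p r)

lemma mem_krP {B A : Finset β} {p : (β → β → Bool) → Prop} {r : β → β → Bool} :
    r ∈ krP B A p ↔ KRf r B A ∧ p r := by
  simp [krP]

lemma card_krP_le (B A : Finset β) (p : (β → β → Bool) → Prop) (F : β → Finset β)
    (hF : ∀ r ∈ krP B A p, ∀ b ∈ B, nb r b ⊆ F b) :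
    ((krP B A p).card : ℝ) ≤ ∏ b ∈ B, (2 : ℝ) ^ (F b).card := by
  have h1 := card_prod (krP B A p) B (fun r b => nb r b)
    (fun r hr r' hr' hc => (mem_krP.mp hr).1.eq_of_code (mem_krP.mp hr').1 hc)
    (fun b => (F b).powerset) (fun r hr b hb => mem_powerset.mpr (hF r hr b hb))
  refine h1.trans (le_of_eq ?_)
  apply prod_congr rfl
  intro b _
  rw [card_powerset]
  push_cast
  rfl

/-- The number of three-layer posets. -/
lemma card_kr_le (n : ℕ) (hn : Fintype.card β = n) (𝒦 : Finset (β → β → Bool))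
    (h𝒦 : ∀ r ∈ 𝒦, ∃ B A, KRf r B A) : (𝒦.card : ℝ) ≤ TT n := by
  classical
  have h1 : 𝒦 ⊆ (univ : Finset (Finset β)).biUnion (fun B => Bᶜ.powerset.biUnion
      (fun A => krP B A (fun _ => True))) := by
    intro r hr
    obtain ⟨B, A, h⟩ := h𝒦 r hr
    rw [mem_biUnion]
    refine ⟨B, mem_univ _, ?_⟩
    rw [mem_biUnion]
    refine ⟨A, ?_, mem_krP.mpr ⟨h, trivial⟩⟩
    rw [mem_powerset]
    intro x hx
    rw [mem_compl]
    exact disjoint_left.mp h.disj hx
  have h2 : (𝒦.card : ℝ) ≤ ∑ B : Finset β, ∑ A ∈ Bᶜ.powerset,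
      ((krP B A (fun _ => True)).card : ℝ) := by
    have := (card_le_card h1).trans (card_biUnion_le.trans (sum_le_sum (fun B _ => card_biUnion_le)))
    exact_mod_cast this
  refine h2.trans ?_
  have h3 : ∀ B : Finset β, ∑ A ∈ Bᶜ.powerset, ((krP B A (fun _ => True)).card : ℝ) ≤
      2 ^ (n - B.card) * 2 ^ (B.card * (n - B.card)) := by
    intro B
    have hBc : Bᶜ.card = n - B.card := by rw [card_compl, hn]
    calc ∑ A ∈ Bᶜ.powerset, ((krP B A (fun _ => True)).card : ℝ) ≤
        ∑ _A ∈ Bᶜ.powerset, (2 : ℝ) ^ (B.card * (n - B.card)) := by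
          apply sum_le_sum
          intro A _
          refine (card_krP_le B A _ (fun _ => Bᶜ)
            (fun r hr b hb => (mem_krP.mp hr).1.nb_subset hb)).trans (le_of_eq ?_)
          rw [prod_const, hBc, ← pow_mul, mul_comm]
      _ = 2 ^ (n - B.card) * 2 ^ (B.card * (n - B.card)) := by
          rw [sum_const, card_powerset, hBc, nsmul_eq_mul]
          push_cast
          rfl
  refine (sum_le_sum (fun B _ => h3 B)).trans (le_of_eq ?_)
  have h4 := sum_powerset_apply_card (fun b => (2 : ℝ) ^ (n - b) * 2 ^ (b * (n - b)))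
    (x := (univ : Finset β))
  rw [powerset_univ, card_univ, hn] at h4
  rw [h4]
  unfold TT
  apply sum_congr rfl
  intro b _
  rw [nsmul_eq_mul]
  ring

end General

/-! ### Posets with a marked maximal element -/

section Opt

variable {α : Type*} [Fintype α] [DecidableEq α]

/-- The point `none` is maximal. -/
def MaxNone (r : Option α → Option α → Bool) : Prop := ∀ y, r none y = true → y = none

/-- The error term for marked posets. -/
noncomputable def TB (n : ℕ) : ℝ :=
  ∑ b ∈ range (n + 1), (n.choose b : ℝ) * (3 ^ (n - b) * 2 ^ (b * (n - b)))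

lemma card_max_le (n : ℕ) (hn : Fintype.card α = n) (𝒦 : Finset (Option α → Option α → Bool))
    (h𝒦 : ∀ r ∈ 𝒦, (∃ B A, KRf r B A) ∧ MaxNone r) : (𝒦.card : ℝ) ≤ TA n + TB n := by
  classical
  set ι : α ↪ Option α := Function.Embedding.some with hι
  have ncov : ∀ {r : Option α → Option α → Bool}, MaxNone r → ∀ y, ¬ cov r none y := by
    intro r hr y hy
    exact hy.1.2 (hr y hy.1.1).symm
  have eqmap : ∀ S : Finset (Option α), none ∉ S → ∃ S0 : Finset α, S = S0.map ι := by
    intro S hS
    refine ⟨S.eraseNone, ?_⟩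
    rw [hι, map_some_eraseNone, erase_eq_of_notMem hS]
  -- the two classes
  set 𝒜 := (univ : Finset (Finset α)).biUnion (fun B => Bᶜ.powerset.biUnion
      (fun A => krP (B.map ι) (A.map ι) (fun _ => True))) with h𝒜
  set ℬ := (univ : Finset (Finset α)).biUnion (fun B => Bᶜ.powerset.biUnion
      (fun A => krP (insertNone B) (A.map ι) (fun r => MaxNone r))) with hℬ
  have hsub : 𝒦 ⊆ 𝒜 ∪ ℬ := by
    intro r hr
    obtain ⟨⟨B, A, h⟩, hmax⟩ := h𝒦 r hr
    have hd := h.disj
    rw [disjoint_left] at hd
    have hnA : none ∉ A := by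
      intro hA
      obtain ⟨y, hy⟩ := h.ne none
      rw [mem_nb] at hy
      rcases hy with hy | hy
      · exact ncov hmax y hy
      · rcases h.ori y none hy with ⟨_, h2⟩ | ⟨_, h2, _⟩
        · exact hd hA h2
        · exact h2 hA
    obtain ⟨A0, rfl⟩ := eqmap A hnA
    rw [mem_union]
    by_cases hB : none ∈ B
    · right
      have hBi : B = insertNone B.eraseNone := by
        rw [insertNone_eraseNone, insert_eq_of_mem hB]
      rw [hℬ, mem_biUnion]
      refine ⟨B.eraseNone, mem_univ _, ?_⟩
      rw [mem_biUnion]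
      refine ⟨A0, ?_, ?_⟩
      · rw [mem_powerset]
        intro x hx
        rw [mem_compl, mem_eraseNone]
        exact hd (mem_map_of_mem ι hx)
      · rw [← hBi]
        exact mem_krP.mpr ⟨h, hmax⟩
    · left
      obtain ⟨B0, rfl⟩ := eqmap B hB
      rw [h𝒜, mem_biUnion]
      refine ⟨B0, mem_univ _, ?_⟩
      rw [mem_biUnion]
      refine ⟨A0, ?_, mem_krP.mpr ⟨h, trivial⟩⟩
      rw [mem_powerset]
      intro x hx
      rw [mem_compl]
      intro hx2
      exact hd (mem_map_of_mem ι hx) (mem_map_of_mem ι hx2)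
  have hA : (𝒜.card : ℝ) ≤ TA n := by
    have h2 : (𝒜.card : ℝ) ≤ ∑ B : Finset α, ∑ A ∈ Bᶜ.powerset,
        ((krP (B.map ι) (A.map ι) (fun _ => True)).card : ℝ) := by
      have : 𝒜.card ≤ _ := card_biUnion_le.trans (sum_le_sum (fun B _ => card_biUnion_le))
      exact_mod_cast this
    refine h2.trans ?_
    have h3 : ∀ B : Finset α, ∑ A ∈ Bᶜ.powerset,
        ((krP (B.map ι) (A.map ι) (fun _ => True)).card : ℝ) ≤
        2 ^ n * 2 ^ (B.card * (n - B.card)) := by
      intro B
      have hBc : Bᶜ.card = n - B.card := by rw [card_compl, hn]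
      have hBn : B.card ≤ n := by rw [← hn]; exact card_le_univ B
      have hBc2 : ((B.map ι)ᶜ).card = n - B.card + 1 := by
        rw [card_compl, card_map, Fintype.card_option, hn]
        omega
      calc ∑ A ∈ Bᶜ.powerset, ((krP (B.map ι) (A.map ι) (fun _ => True)).card : ℝ) ≤
          ∑ _A ∈ Bᶜ.powerset, (2 : ℝ) ^ (B.card * (n - B.card + 1)) := by
            apply sum_le_sum
            intro A _
            refine (card_krP_le (B.map ι) (A.map ι) _ (fun _ => (B.map ι)ᶜ)
              (fun r hr b hb => (mem_krP.mp hr).1.nb_subset hb)).trans (le_of_eq ?_)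
            rw [prod_const, hBc2, card_map, ← pow_mul, mul_comm]
        _ = 2 ^ (n - B.card) * 2 ^ (B.card * (n - B.card + 1)) := by
            rw [sum_const, card_powerset, hBc, nsmul_eq_mul]
            push_cast
            rfl
        _ = 2 ^ n * 2 ^ (B.card * (n - B.card)) := by
            rw [← pow_add, ← pow_add]
            congr 1
            rw [mul_add, mul_one]
            omega
    refine (sum_le_sum (fun B _ => h3 B)).trans (le_of_eq ?_)
    have h4 := sum_powerset_apply_card (fun b => (2 : ℝ) ^ n * 2 ^ (b * (n - b)))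
      (x := (univ : Finset α))
    rw [powerset_univ, card_univ, hn] at h4
    rw [h4]
    unfold TA
    apply sum_congr rfl
    intro b _
    rw [nsmul_eq_mul]
    ring
  have hB : (ℬ.card : ℝ) ≤ TB n := by
    have h2 : (ℬ.card : ℝ) ≤ ∑ B : Finset α, ∑ A ∈ Bᶜ.powerset,
        ((krP (insertNone B) (A.map ι) (fun r => MaxNone r)).card : ℝ) := by
      have : ℬ.card ≤ _ := card_biUnion_le.trans (sum_le_sum (fun B _ => card_biUnion_le))
      exact_mod_cast this
    refine h2.trans ?_
    have h3 : ∀ B : Finset α, ∑ A ∈ Bᶜ.powerset,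
        ((krP (insertNone B) (A.map ι) (fun r => MaxNone r)).card : ℝ) ≤
        3 ^ (n - B.card) * 2 ^ (B.card * (n - B.card)) := by
      intro B
      have hBc : Bᶜ.card = n - B.card := by rw [card_compl, hn]
      have hBn : B.card ≤ n := by rw [← hn]; exact card_le_univ B
      have hBc2 : ((insertNone B)ᶜ).card = n - B.card := by
        rw [card_compl, card_insertNone, Fintype.card_option, hn]
        omega
      have h5 : ∀ A ∈ Bᶜ.powerset,
          ((krP (insertNone B) (A.map ι) (fun r => MaxNone r)).card : ℝ) ≤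
          2 ^ (B.card * (n - B.card)) * 2 ^ A.card := by
        intro A hA
        refine (card_krP_le (insertNone B) (A.map ι) _
          (fun b => if b = none then A.map ι else (insertNone B)ᶜ) ?_).trans (le_of_eq ?_)
        · intro r hr b hb
          obtain ⟨h6, h7⟩ := mem_krP.mp hr
          by_cases hbn : b = none
          · rw [if_pos hbn]
            intro y hy
            rw [hbn, mem_nb] at hy
            rcases hy with hy | hy
            · exact absurd hy (ncov h7 y)
            · rcases h6.ori y none hy with ⟨h8, _⟩ | ⟨_, _, h8⟩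
              · exact h8
              · exact absurd (hbn ▸ hb) h8
          · rw [if_neg hbn]
            exact h6.nb_subset hb
        · have h6 : ∏ b ∈ insertNone B, (2 : ℝ) ^ (if b = none then A.map ι
              else (insertNone B)ᶜ).card = 2 ^ A.card * ∏ b ∈ B, (2 : ℝ) ^ (n - B.card) := by
            rw [prod_insertNone]
            congr 1
            · rw [if_pos rfl, card_map]
            · apply prod_congr rfl
              intro b _
              rw [if_neg (by simp), hBc2]
          rw [h6, prod_const, ← pow_mul, mul_comm (n - B.card) B.card, mul_comm]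
      calc ∑ A ∈ Bᶜ.powerset, ((krP (insertNone B) (A.map ι) (fun r => MaxNone r)).card : ℝ) ≤
          ∑ A ∈ Bᶜ.powerset, (2 : ℝ) ^ (B.card * (n - B.card)) * 2 ^ A.card := sum_le_sum h5
        _ = 2 ^ (B.card * (n - B.card)) * ∑ A ∈ Bᶜ.powerset, (2 : ℝ) ^ A.card := by
            rw [mul_sum]
        _ = 3 ^ (n - B.card) * 2 ^ (B.card * (n - B.card)) := by
            have h6 := Finset.sum_pow_mul_eq_add_pow (2 : ℝ) 1 Bᶜ
            simp only [one_pow, mul_one] at h6
            rw [h6, hBc, mul_comm]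
            norm_num
    refine (sum_le_sum (fun B _ => h3 B)).trans (le_of_eq ?_)
    have h4 := sum_powerset_apply_card (fun b => (3 : ℝ) ^ (n - b) * 2 ^ (b * (n - b)))
      (x := (univ : Finset α))
    rw [powerset_univ, card_univ, hn] at h4
    rw [h4]
    unfold TB
    apply sum_congr rfl
    intro b _
    rw [nsmul_eq_mul]
  have h5 : (𝒦.card : ℝ) ≤ 𝒜.card + ℬ.card := by
    have := (card_le_card hsub).trans (card_union_le _ _)
    exact_mod_cast this
  linarith

/-- Add a new maximal point above an antichain. -/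
def addTop (r : α → α → Bool) (F : Finset α) : Option α → Option α → Bool
  | some x, some y => r x y
  | some x, none => decide (∃ f ∈ F, r x f = true)
  | none, some _ => false
  | none, none => true

lemma addTop_po {r : α → α → Bool} (h : IsPo r) (F : Finset α) : IsPo (addTop r F) := by
  refine ⟨?_, ?_, ?_⟩
  · rintro (_ | x)
    · rfl
    · exact h.1 x
  · rintro (_ | x) (_ | y) h1 h2
    · rfl
    · simp [addTop] at h1
    · simp [addTop] at h2
    · exact congrArg some (h.2.1 x y h1 h2)
  · rintro (_ | x) (_ | y) (_ | z) h1 h2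
    · rfl
    · simp [addTop] at h2
    · simp [addTop] at h1
    · simp [addTop] at h1
    · exact h1
    · simp [addTop] at h2
    · simp only [addTop, decide_eq_true_eq] at h1 h2 ⊢
      obtain ⟨f, hf, h3⟩ := h2
      exact ⟨f, hf, h.2.2 x y f h1 h3⟩
    · exact h.2.2 x y z h1 h2

lemma addTop_max (r : α → α → Bool) (F : Finset α) : MaxNone (addTop r F) := by
  rintro (_ | y) h
  · rfl
  · simp [addTop] at h

lemma addTop_inj {r r' : α → α → Bool} {F F' : Finset α} (h : IsPo r)
    (hF : IsAnti r F) (hF' : IsAnti r' F') (he : addTop r F = addTop r' F') :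
    r = r' ∧ F = F' := by
  have e1 : r = r' := by
    funext x y
    exact congrFun (congrFun he (some x)) (some y)
  subst e1
  refine ⟨rfl, ?_⟩
  have key : ∀ {F F' : Finset α}, IsAnti r F → addTop r F = addTop r F' → F ⊆ F' := by
    intro F F' hF he f hf
    have h1 : ∀ x, (∃ f ∈ F, r x f = true) ↔ (∃ f ∈ F', r x f = true) := by
      intro x
      have := congrFun (congrFun he (some x)) none
      simp only [addTop] at this
      rwa [decide_eq_decide] at this
    obtain ⟨f', hf', h2⟩ := (h1 f).mp ⟨f, hf, h.1 f⟩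
    obtain ⟨f'', hf'', h3⟩ := (h1 f').mpr ⟨f', hf', h.1 f'⟩
    have h4 : f = f'' := hF f hf f'' hf'' (h.2.2 f f' f'' h2 h3)
    subst h4
    have h5 := h.2.1 f f' h2 h3
    rw [h5]
    exact hf'
  exact Subset.antisymm (key hF he) (key hF' he.symm)

end Opt

/-! ### Upper bounds -/

lemma pNum_le (n : ℕ) : pNum n ≤ TT n + (nonKR (Fin n)).card := by
  classical
  unfold pNum
  rw [Nat.card_eq_fintype_card, Fintype.card_subtype]
  set 𝒜 := (univ : Finset (Fin n → Fin n → Bool)).filter (fun r => ∃ B A, KRf r B A) with h𝒜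
  have h1 : (univ : Finset (Fin n → Fin n → Bool)).filter (fun r => IsPo r) ⊆
      𝒜 ∪ nonKR (Fin n) := by
    intro r hr
    rw [mem_filter] at hr
    rw [mem_union, h𝒜, mem_filter, mem_nonKR]
    by_cases h : ∃ B A, KRf r B A
    · exact Or.inl ⟨mem_univ _, h⟩
    · exact Or.inr ⟨hr.2, h⟩
  have h2 := (card_le_card h1).trans (card_union_le _ _)
  have h3 := card_kr_le n (Fintype.card_fin n) 𝒜 (fun r hr => (mem_filter.mp hr).2)
  have h4 : (((univ : Finset (Fin n → Fin n → Bool)).filter (fun r => IsPo r)).card : ℝ) ≤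
      𝒜.card + (nonKR (Fin n)).card := by exact_mod_cast h2
  linarith

lemma sNum_le (n : ℕ) : sNum n ≤ TA n + TB n + (nonKR (Option (Fin n))).card := by
  classical
  unfold sNum
  rw [Nat.card_eq_fintype_card, Fintype.card_subtype]
  set 𝒜 := (univ : Finset (Option (Fin n) → Option (Fin n) → Bool)).filter
    (fun r => (∃ B A, KRf r B A) ∧ MaxNone r) with h𝒜
  have h1 : ((univ : Finset ((Fin n → Fin n → Bool) × Finset (Fin n))).filter
      (fun p => IsPo p.1 ∧ IsAnti p.1 p.2)).card ≤ (𝒜 ∪ nonKR (Option (Fin n))).card := by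
    apply card_le_card_of_injOn (fun p => addTop p.1 p.2)
    · intro p hp
      rw [mem_coe, mem_filter] at hp
      rw [mem_coe, mem_union, h𝒜, mem_filter, mem_nonKR]
      by_cases h : ∃ B A, KRf (addTop p.1 p.2) B A
      · exact Or.inl ⟨mem_univ _, h, addTop_max _ _⟩
      · exact Or.inr ⟨addTop_po hp.2.1 _, h⟩
    · rintro ⟨r, F⟩ hp ⟨r', F'⟩ hp' he
      rw [mem_coe, mem_filter] at hp hp'
      obtain ⟨e1, e2⟩ := addTop_inj hp.2.1 hp.2.2 hp'.2.2 he
      exact Prod.ext e1 e2
  have h2 := h1.trans (card_union_le _ _)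
  have h3 := card_max_le n (Fintype.card_fin n) 𝒜 (fun r hr => (mem_filter.mp hr).2)
  have h4 : (((univ : Finset ((Fin n → Fin n → Bool) × Finset (Fin n))).filter
      (fun p => IsPo p.1 ∧ IsAnti p.1 p.2)).card : ℝ) ≤
      𝒜.card + (nonKR (Option (Fin n))).card := by exact_mod_cast h2
  linarith

end Pool.Agent.Lib.MP_a8cbfa_co
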