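import Pool.Agent.Lib.MP_a8cbfa_co.BadCls

set_option autoImplicit false
set_option linter.unusedSectionVars false

open Finset

namespace Pool.Agent.Lib.MP_a8cbfa_co

variable {α : Type*} [Fintype α] [DecidableEq α]

/-- Three-layer posets: bottom layer `A`, middle layer `B`, top layer the rest. -/
structure KRf (r : α → α → Bool) (B A : Finset α) : Prop where
  po : IsPo r
  disj : Disjoint A B
  ne : ∀ x, (nb r x).Nonempty
  ori : ∀ x y, cov r x y → (x ∈ A ∧ y ∈ B) ∨ (x ∈ B ∧ y ∉ A ∧ y ∉ B)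

/-- Without exceptional configurations a Case I poset has three layers. -/
lemma Str.krf {r : α → α → Bool} {E U V Y : Finset α} {k1 s g : ℕ}
    (h : Str r E U V ∅ Y k1 s g) (hYV : Y ⊆ V) (hs1 : 1 ≤ s) (hsg : s ≤ g)
    (hno : ¬ ∃ a c, BadAt r E U V Y k1 s a c) : ∃ B A, KRf r B A := by
  classical
  have hE : ∀ x ∈ E, s ≤ (nb r x ∩ U).card ∨ s ≤ (nb r x ∩ V).card := by
    intro x hx
    by_contra hcon
    rw [not_or, not_le, not_le] at hcon
    exact hno ⟨x, x, Or.inl ⟨hx, hcon.1, hcon.2⟩⟩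
  set B := U ∪ E.filter (fun x => s ≤ (nb r x ∩ V).card) with hB
  have hUE : ∀ x ∈ U, x ∉ E := by
    intro x hx hx2
    have : x ∈ univ \ E := by rw [← h.bip.union]; exact mem_union_left _ hx
    exact (mem_sdiff.mp this).2 hx2
  have hVE : ∀ x ∈ V, x ∉ E := by
    intro x hx hx2
    have : x ∈ univ \ E := by rw [← h.bip.union]; exact mem_union_right _ hx
    exact (mem_sdiff.mp this).2 hx2
  have hUV : ∀ x ∈ U, x ∉ V := fun x hx hx2 => disjoint_left.mp h.bip.disj hx hx2
  have hdB : ∀ b ∈ B, s ≤ (nb r b ∩ V).card ∧ b ∉ V := by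
    intro b hb
    rw [hB, mem_union, mem_filter] at hb
    rcases hb with hb | ⟨hb1, hb2⟩
    · exact ⟨hsg.trans (h.degU b hb), hUV b hb⟩
    · exact ⟨hb2, fun hb3 => hVE b hb3 hb1⟩
  have hdC : ∀ c, c ∉ B → s ≤ (nb r c ∩ U).card ∧ c ∉ U := by
    intro c hc
    rw [hB, mem_union, mem_filter, not_or] at hc
    refine ⟨?_, hc.1⟩
    rcases h.bip.mem_cases (mem_univ c) with h1 | h1 | h1
    · rcases hE c h1 with h2 | h2
      · exact h2
      · exact absurd ⟨h1, h2⟩ hc.2
    · exact absurd h1 hc.1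
    · exact hsg.trans (h.degV c h1)
  -- common neighbours
  have cB : ∀ b ∈ B, ∀ b' ∈ B, b ≠ b' → ∃ w ∈ V, w ∈ nb r b ∧ w ∈ nb r b' := by
    intro b hb b' hb' hne
    by_contra hcon
    push Not at hcon
    have hd : Disjoint (nb r b ∩ V) (nb r b') := by
      rw [disjoint_left]
      intro w hw hw2
      rw [mem_inter] at hw
      exact hcon w hw.2 hw.1 hw2
    have hd' : Disjoint (nb r b' ∩ V) (nb r b) := by
      rw [disjoint_left]
      intro w hw hw2
      rw [mem_inter] at hw
      exact hcon w hw.2 hw2 hw.1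
    have e1 := hdB b hb
    have e2 := hdB b' hb'
    by_cases h1 : b' ∈ E
    · exact hno ⟨b, b', Or.inr (Or.inr (Or.inr (Or.inl ⟨hne, e1.2, h1, e1.1, e2.1, hd⟩)))⟩
    · by_cases h2 : b ∈ E
      · exact hno ⟨b', b, Or.inr (Or.inr (Or.inr (Or.inl ⟨hne.symm, e2.2, h2, e2.1, e1.1, hd'⟩)))⟩
      · have h3 : b ∈ U := by
          rw [hB, mem_union, mem_filter] at hb
          tauto
        have h4 : b' ∈ U := by
          rw [hB, mem_union, mem_filter] at hb'
          tauto
        exact hno ⟨b, b', Or.inr (Or.inr (Or.inr (Or.inr (Or.inl ⟨hne, h3, h4, hd⟩))))⟩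
  have cC : ∀ c, c ∉ B → ∀ c', c' ∉ B → c ≠ c' → ∃ w ∈ U, w ∈ nb r c ∧ w ∈ nb r c' := by
    intro c hc c' hc' hne
    by_contra hcon
    push Not at hcon
    have hd : Disjoint (nb r c ∩ U) (nb r c') := by
      rw [disjoint_left]
      intro w hw hw2
      rw [mem_inter] at hw
      exact hcon w hw.2 hw.1 hw2
    have hd' : Disjoint (nb r c' ∩ U) (nb r c) := by
      rw [disjoint_left]
      intro w hw hw2
      rw [mem_inter] at hw
      exact hcon w hw.2 hw2 hw.1
    have e1 := hdC c hc
    have e2 := hdC c' hc'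
    by_cases h1 : c' ∈ E
    · exact hno ⟨c, c', Or.inr (Or.inl ⟨hne, e1.2, h1, e1.1, e2.1, hd⟩)⟩
    · by_cases h2 : c ∈ E
      · exact hno ⟨c', c, Or.inr (Or.inl ⟨hne.symm, e2.2, h2, e2.1, e1.1, hd'⟩)⟩
      · have h3 : c ∈ V := by
          rcases h.bip.mem_cases (mem_univ c) with h5 | h5 | h5
          · exact absurd h5 h2
          · exact absurd h5 e1.2
          · exact h5
        have h4 : c' ∈ V := by
          rcases h.bip.mem_cases (mem_univ c') with h5 | h5 | h5
          · exact absurd h5 h1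
          · exact absurd h5 e2.2
          · exact h5
        exact hno ⟨c, c', Or.inr (Or.inr (Or.inl ⟨hne, h3, h4, hd⟩))⟩
  -- orientation of the edges between `B` and `V`
  have hO : ∀ b ∈ B, ∀ w ∈ V, w ∈ nb r b → (cov r w b ↔ w ∈ Y) := by
    intro b hb w hw hwb
    have hb2 := hb
    rw [hB, mem_union, mem_filter] at hb2
    rcases hb2 with hb2 | ⟨hb2, hb3⟩
    · have := h.ori b hb2 w hw hwb
      rw [this]
      simp
    · have hY1 : k1 ≤ (nb r b ∩ Y).card := by
        by_contra hcon
        rw [not_le] at hcon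
        exact hno ⟨b, b, Or.inr (Or.inr (Or.inr (Or.inr (Or.inr (Or.inl ⟨hb2, hb3, hcon⟩)))))⟩
      have hY2 : k1 ≤ (nb r b ∩ (V \ Y)).card := by
        by_contra hcon
        rw [not_le] at hcon
        exact hno ⟨b, b, Or.inr (Or.inr (Or.inr (Or.inr (Or.inr (Or.inr ⟨hb2, hb3, hcon⟩)))))⟩
      by_cases hwY : w ∈ Y
      · obtain ⟨z, hz, t, ht, htz⟩ := h.expV.exists_adj (T := nb r w ∩ U) inter_subset_right
          (hsg.trans (h.degV w hw)) hs1 (Z := nb r b ∩ (V \ Y))
          (inter_subset_right.trans sdiff_subset) hY2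
        rw [mem_inter, mem_sdiff] at hz
        rw [mem_inter] at ht
        have e1 : cov r w t := by
          rw [h.ori t ht.2 w hw (nb_symm ht.1)]
          exact Or.inr hwY
        have e2 : cov r t z := by
          apply IsPo.mem_nb_not_cov htz
          rw [h.ori t ht.2 z hz.2.1 (nb_symm htz)]
          rintro (h5 | h5)
          · simp at h5
          · exact hz.2.2 h5
        have e3 := h.po.strans e1.1 e2.1
        have e4 := (h.po.between e3 (nb_symm hwb) (nb_symm hz.1)).1
        exact ⟨fun _ => hwY, fun _ => e4⟩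
      · refine ⟨fun hc => ?_, fun hc => absurd hc hwY⟩
        exfalso
        obtain ⟨z, hz, t, ht, htz⟩ := h.expV.exists_adj (T := nb r w ∩ U) inter_subset_right
          (hsg.trans (h.degV w hw)) hs1 (Z := nb r b ∩ Y)
          (inter_subset_right.trans hYV) hY1
        rw [mem_inter] at hz ht
        have e1 : cov r z t := by
          rw [h.ori t ht.2 z (hYV hz.2) (nb_symm htz)]
          exact Or.inr hz.2
        have e2 : cov r t w := by
          apply IsPo.mem_nb_not_cov ht.1
          rw [h.ori t ht.2 w hw (nb_symm ht.1)]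
          rintro (h5 | h5)
          · simp at h5
          · exact hwY h5
        have e3 := h.po.strans e1.1 e2.1
        have e4 := (h.po.between e3 (nb_symm hz.1) (nb_symm hwb)).2
        exact h.po.cov_asymm hc e4
  have ne_of_cov : ∀ x y, cov r x y → x ≠ y := fun x y hxy => hxy.1.2
  have tri : ∀ x y w, cov r x y → w ∈ nb r x → w ∈ nb r y → False := by
    intro x y w hxy h1 h2
    exact disjoint_left.mp (h.po.isTF.disj x y (mem_nb.mpr (Or.inl hxy))) h1 h2
  refine ⟨B, univ.filter (fun v => v ∉ B ∧ (upN r v).Nonempty), h.po, ?_, ?_, ?_⟩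
  · rw [disjoint_left]
    intro x hx hx2
    rw [mem_filter] at hx
    exact hx.2.1 hx2
  · intro x
    by_cases hx : x ∈ B
    · have := (hdB x hx).1
      have h1 : 0 < (nb r x ∩ V).card := by omega
      obtain ⟨y, hy⟩ := card_pos.mp h1
      exact ⟨y, (mem_inter.mp hy).1⟩
    · have := (hdC x hx).1
      have h1 : 0 < (nb r x ∩ U).card := by omega
      obtain ⟨y, hy⟩ := card_pos.mp h1
      exact ⟨y, (mem_inter.mp hy).1⟩
  · intro x y hxy
    by_cases hx : x ∈ B
    · by_cases hy : y ∈ B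
      · obtain ⟨w, _, h1, h2⟩ := cB x hx y hy (ne_of_cov x y hxy)
        exact (tri x y w hxy h1 h2).elim
      · right
        refine ⟨hx, ?_, hy⟩
        intro hyA
        rw [mem_filter] at hyA
        obtain ⟨_, _, z, hz⟩ := hyA
        rw [mem_upN] at hz
        by_cases hzB : z ∈ B
        · have hxz : slt r x z := h.po.strans hxy.1 hz.1
          obtain ⟨w, hwV, h1, h2⟩ := cB x hx z hzB hxz.2
          obtain ⟨h3, h4⟩ := h.po.between hxz h1 h2
          have h5 := (hO z hzB w hwV h2).mp h4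
          have h6 := (hO x hx w hwV h1).mpr h5
          exact h.po.cov_asymm h3 h6
        · obtain ⟨w, _, h1, h2⟩ := cC y hy z hzB (ne_of_cov y z hz)
          exact tri y z w hz h1 h2
    · by_cases hy : y ∈ B
      · left
        refine ⟨?_, hy⟩
        rw [mem_filter]
        exact ⟨mem_univ _, hx, ⟨y, mem_upN.mpr hxy⟩⟩
      · obtain ⟨w, _, h1, h2⟩ := cC x hx y hy (ne_of_cov x y hxy)
        exact (tri x y w hxy h1 h2).elim

end Pool.Agent.Lib.MP_a8cbfa_co
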