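import Pool.Agent.Lib.MP_a8cbfa_co.KRForm

set_option autoImplicit false
set_option linter.unusedSectionVars false

open Finset

namespace Pool.Agent.Lib.MP_a8cbfa_co

variable {α : Type*} [Fintype α] [DecidableEq α]

open Classical in
/-- Partial orders that are not of three-layer form. -/
noncomputable def nonKR (α : Type*) [Fintype α] [DecidableEq α] : Finset (α → α → Bool) :=
  univ.filter (fun r => IsPo r ∧ ¬ ∃ B A, KRf r B A)

lemma mem_nonKR {r : α → α → Bool} : r ∈ nonKR α ↔ IsPo r ∧ ¬ ∃ B A, KRf r B A := by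
  simp [nonKR]

lemma Geo.ineq1 {n e : ℕ} {E U V : Finset α} (h : Geo n e E U V) :
    (U.card : ℝ) * V.card + E.card * max (U.card : ℝ) V.card ≤ (n : ℝ) ^ 2 / 4 := by
  have h1 : (E.card : ℝ) + U.card + V.card = n := by exact_mod_cast h.cards
  rw [← h1]
  rcases le_total (U.card : ℝ) V.card with h2 | h2
  · rw [max_eq_right h2]
    nlinarith [sq_nonneg ((U.card : ℝ) + E.card - V.card)]
  · rw [max_eq_left h2]
    nlinarith [sq_nonneg ((V.card : ℝ) + E.card - U.card)]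

lemma Geo.ineq2 {n e : ℕ} {E U V : Finset α} (h : Geo n e E U V) :
    (U.card : ℝ) * V.card + E.card * max (U.card : ℝ) V.card + V.card ≤
      ((n : ℝ) + 1) ^ 2 / 4 := by
  have h1 : (E.card : ℝ) + U.card + V.card = n := by exact_mod_cast h.cards
  rw [← h1]
  rcases le_total (U.card : ℝ) V.card with h2 | h2
  · rw [max_eq_right h2]
    nlinarith [sq_nonneg ((U.card : ℝ) + E.card + 1 - V.card)]
  · rw [max_eq_left h2]
    nlinarith [sq_nonneg ((V.card : ℝ) + E.card + 1 - U.card)]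

open Classical in
/-- Non-three-layer posets with a structure for given `(E, U)`. -/
noncomputable def clsEU (n e k1 s g : ℕ) (E U : Finset α) : Finset (α → α → Bool) :=
  univ.filter (fun r => Geo n e E U ((univ \ E) \ U) ∧
    (∃ X Y, Str r E U ((univ \ E) \ U) X Y k1 s g ∧ XYok n U ((univ \ E) \ U) X Y) ∧
    ¬ ∃ B A, KRf r B A)

lemma mem_clsEU {n e k1 s g : ℕ} {E U : Finset α} {r : α → α → Bool} :
    r ∈ clsEU n e k1 s g E U ↔ Geo n e E U ((univ \ E) \ U) ∧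
    (∃ X Y, Str r E U ((univ \ E) \ U) X Y k1 s g ∧ XYok n U ((univ \ E) \ U) X Y) ∧
    ¬ ∃ B A, KRf r B A := by
  simp [clsEU]

lemma card_clsEU {n e k1 s g : ℕ} (hp : Prm n e k1 s g) (E U : Finset α) :
    ((clsEU n e k1 s g E U).card : ℝ) ≤
      pw ((n : ℝ) ^ 2 / 4 + e * QQ n e k1 + n / 4) +
      (pw ((n : ℝ) ^ 2 / 4 + e * QQ n e k1 + n / 8) +
      pw (((n : ℝ) + 1) ^ 2 / 4 + e * QQ n e k1 - s + 3 + 2 * lg n)) := by
  classical
  set V := (univ \ E) \ U with hV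
  by_cases hgeo : Geo n e E U V
  swap
  · have : clsEU n e k1 s g E U = ∅ := by
      rw [eq_empty_iff_forall_notMem]
      intro r hr
      exact hgeo (mem_clsEU.mp hr).1
    rw [this, card_empty, Nat.cast_zero]
    have h1 := pw_nonneg ((n : ℝ) ^ 2 / 4 + e * QQ n e k1 + n / 4)
    have h2 := pw_nonneg ((n : ℝ) ^ 2 / 4 + e * QQ n e k1 + n / 8)
    have h3 := pw_nonneg (((n : ℝ) + 1) ^ 2 / 4 + e * QQ n e k1 - s + 3 + 2 * lg n)
    linarith
  have hQ := QQ_nonneg n e k1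
  have hEe : (E.card : ℝ) ≤ e := by exact_mod_cast hgeo.he
  have hEQ : (E.card : ℝ) * QQ n e k1 ≤ e * QQ n e k1 := mul_le_mul_of_nonneg_right hEe hQ
  have ht1 : tot E U V n e k1 ≤ (n : ℝ) ^ 2 / 4 + e * QQ n e k1 := by
    have := hgeo.ineq1
    unfold tot
    nlinarith
  have ht2 : tot E U V n e k1 + V.card ≤ ((n : ℝ) + 1) ^ 2 / 4 + e * QQ n e k1 := by
    have := hgeo.ineq2
    unfold tot
    nlinarith
  have hUn : U.card ≤ n := by rw [← hgeo.hn]; exact card_le_univ U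
  have hVn : V.card ≤ n := by rw [← hgeo.hn]; exact card_le_univ V
  -- the three classes
  set 𝒳 := U.powerset.filter (fun S => 64 * S.card < n) with h𝒳
  set 𝒴 := V.powerset.filter (fun S => 64 * S.card < n) with h𝒴
  have c𝒳 := card_frac64 U n hUn
  have c𝒴 := card_frac64 V n hVn
  set A1 := (univ : Finset (α → α → Bool)).filter (fun r => ∃ X ∈ 𝒳, ∃ Y ∈ 𝒴,
    Str r E U V X Y k1 s g) with hA1
  set A2 := (univ : Finset (α → α → Bool)).filter (fun r => ∃ Y ∈ 𝒴,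
    Str r E U V ∅ (V \ Y) k1 s g) with hA2
  set A3 := (univ : Finset (α → α → Bool)).filter (fun r => ∃ Y ⊆ V, s ≤ Y.card ∧
    s ≤ (V \ Y).card ∧ Str r E U V ∅ Y k1 s g ∧ ∃ a c, BadAt r E U V Y k1 s a c) with hA3
  have hsub : clsEU n e k1 s g E U ⊆ A1 ∪ (A2 ∪ A3) := by
    intro r hr
    rw [mem_clsEU] at hr
    obtain ⟨_, ⟨X, Y, hstr, hXY⟩, hno⟩ := hr
    rw [mem_union, mem_union, hA1, hA2, hA3, mem_filter, mem_filter, mem_filter]
    have h64 := hp.h64
    have hs1 := hp.hs1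
    rcases hXY with ⟨hX, hY⟩ | ⟨hX, hY, hX64, hY64⟩
    · subst hX
      by_cases hY1 : s ≤ Y.card
      · by_cases hY2 : s ≤ (V \ Y).card
        · right; right
          refine ⟨mem_univ _, Y, hY, hY1, hY2, hstr, ?_⟩
          by_contra hcon
          exact hno (hstr.krf hY hp.hs1 hp.hsg hcon)
        · right; left
          refine ⟨mem_univ _, V \ Y, ?_, ?_⟩
          · rw [h𝒴, mem_filter, mem_powerset]
            exact ⟨sdiff_subset, by omega⟩
          · rw [Finset.sdiff_sdiff_eq_self hY]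
            exact hstr
      · left
        refine ⟨mem_univ _, ∅, ?_, Y, ?_, hstr⟩
        · rw [h𝒳, mem_filter, mem_powerset, card_empty]
          exact ⟨empty_subset _, by omega⟩
        · rw [h𝒴, mem_filter, mem_powerset]
          exact ⟨hY, by omega⟩
    · left
      refine ⟨mem_univ _, X, ?_, Y, ?_, hstr⟩
      · rw [h𝒳, mem_filter, mem_powerset]
        exact ⟨hX, hX64⟩
      · rw [h𝒴, mem_filter, mem_powerset]
        exact ⟨hY, hY64⟩
  have b1 : (A1.card : ℝ) ≤ pw ((n : ℝ) ^ 2 / 4 + e * QQ n e k1 + n / 4) := by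
    have h1 := card_le_union (s := A1) (t := 𝒳 ×ˢ 𝒴) (fun b => strSet E U V b.1 b.2 k1 s g)
      (by
        intro r hr
        rw [hA1, mem_filter] at hr
        obtain ⟨_, X, hX, Y, hY, hstr⟩ := hr
        exact ⟨(X, Y), mem_product.mpr ⟨hX, hY⟩, mem_strSet.mpr hstr⟩)
      (pw (tot E U V n e k1)) (fun b _ => hgeo.card_strSet hp b.1 b.2)
    refine h1.trans ?_
    rw [card_product]
    push_cast
    calc pw (tot E U V n e k1) * ((𝒳.card : ℝ) * 𝒴.card) ≤
        pw ((n : ℝ) ^ 2 / 4 + e * QQ n e k1) * (pw ((n : ℝ) / 8) * pw ((n : ℝ) / 8)) := by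
          apply mul_le_mul (pw_mono ht1) (mul_le_mul c𝒳 c𝒴 (Nat.cast_nonneg _) (pw_nonneg _))
            (by positivity) (pw_nonneg _)
      _ = pw ((n : ℝ) ^ 2 / 4 + e * QQ n e k1 + n / 4) := by
          rw [← pw_add, ← pw_add]
          congr 1
          ring
  have b2 : (A2.card : ℝ) ≤ pw ((n : ℝ) ^ 2 / 4 + e * QQ n e k1 + n / 8) := by
    have h1 := card_le_union (s := A2) (t := 𝒴) (fun b => strSet E U V ∅ (V \ b) k1 s g)
      (by
        intro r hr
        rw [hA2, mem_filter] at hr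
        obtain ⟨_, Y, hY, hstr⟩ := hr
        exact ⟨Y, hY, mem_strSet.mpr hstr⟩)
      (pw (tot E U V n e k1)) (fun b _ => hgeo.card_strSet hp ∅ (V \ b))
    refine h1.trans ?_
    calc pw (tot E U V n e k1) * (𝒴.card : ℝ) ≤
        pw ((n : ℝ) ^ 2 / 4 + e * QQ n e k1) * pw ((n : ℝ) / 8) :=
          mul_le_mul (pw_mono ht1) c𝒴 (Nat.cast_nonneg _) (pw_nonneg _)
      _ = pw ((n : ℝ) ^ 2 / 4 + e * QQ n e k1 + n / 8) := by
          rw [← pw_add]
  have b3 : (A3.card : ℝ) ≤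
      pw (((n : ℝ) + 1) ^ 2 / 4 + e * QQ n e k1 - s + 3 + 2 * lg n) := by
    have h1 := card_le_union (s := A3) (t := V.powerset) (fun Y => if s ≤ Y.card ∧
        s ≤ (V \ Y).card then
        strP E U V Y k1 s g (fun r => ∃ a c, BadAt r E U V Y k1 s a c) else ∅)
      (by
        intro r hr
        rw [hA3, mem_filter] at hr
        obtain ⟨_, Y, hY, hY1, hY2, hstr, hbad⟩ := hr
        refine ⟨Y, mem_powerset.mpr hY, ?_⟩
        rw [if_pos ⟨hY1, hY2⟩]
        exact mem_strP.mpr ⟨hstr, hbad⟩)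
      (pw (tot E U V n e k1 - s + 3 + 2 * lg n))
      (by
        intro Y hY
        rw [mem_powerset] at hY
        split_ifs with hc
        · exact card_badStr hp hgeo Y hY hc.1 hc.2
        · simp only [card_empty, Nat.cast_zero]
          exact pw_nonneg _)
    refine h1.trans ?_
    rw [card_powerset]
    push_cast
    rw [← pw_nat, ← pw_add]
    apply pw_mono
    linarith
  have h4 : ((clsEU n e k1 s g E U).card : ℝ) ≤ A1.card + (A2.card + A3.card) := by
    have := (card_le_card hsub).trans ((card_union_le _ _).trans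
      (Nat.add_le_add_left (card_union_le _ _) _))
    exact_mod_cast this
  linarith

lemma exists_prm {n k : ℕ} (hg : Good CC n k) :
    Prm n (3 * k + 4 * pk1 k) (pk1 k) (ps n) (n / 60) := by
  have hat := hg.atoms one_le_CC
  have hC : CC = 10 ^ 12 := rfl
  have a4 := hat.a4
  have a5 := hat.a5
  have a6 := hat.a6
  have hK := hat.hK
  rw [hC] at a4 a5 a6 hK
  have hk0 : (0 : ℝ) ≤ k := Nat.cast_nonneg k
  have hkk : (10 : ℝ) ^ 24 * k ≤ n := by nlinarith
  have hkk' : 10 ^ 24 * k ≤ n := by exact_mod_cast hkk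
  have hk1 : 1 ≤ k := by
    have : (1 : ℝ) ≤ k := by linarith
    exact_mod_cast this
  refine ⟨?_, ?_, ?_, ?_, ?_, ?_⟩ <;> try unfold ps
  all_goals try unfold pk1
  all_goals omega

/-- Numerical estimates used below. -/
lemma nonKR_num {K L N e k1 s : ℝ} (hK : 10 ^ 12 ≤ K) (hKL : 10 ^ 12 * L ≤ K)
    (hX : 10 ^ 12 * K ^ 3 ≤ N) (hL : 1 ≤ L) (heR : e = 16777219 * K) (hk1R : k1 = 4194304 * K)
    (hs : N / 262144 - 1 ≤ s) :
    (N ^ 2 / 4 + e * (2 * e + 6 + 4 * (k1 * L)) + N / 4 + ((e + 1) * L + N) ≤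
      N ^ 2 / 4 + 3 * N / 2 - N / 300000) ∧
    (N ^ 2 / 4 + e * (2 * e + 6 + 4 * (k1 * L)) + N / 8 + ((e + 1) * L + N) ≤
      N ^ 2 / 4 + 3 * N / 2 - N / 300000) ∧
    ((N + 1) ^ 2 / 4 + e * (2 * e + 6 + 4 * (k1 * L)) - s + 3 + 2 * L + ((e + 1) * L + N) ≤
      N ^ 2 / 4 + 3 * N / 2 - N / 300000) ∧
    (N ^ 2 / 4 + 2 * N - N * K / 20000 + N * L ≤ N ^ 2 / 4 + 3 * N / 2 - N / 300000) := by
  have hK0 : 0 ≤ K := by linarith
  have hL0 : 0 ≤ L := by linarith
  have t1 : (10 : ℝ) ^ 24 * (K ^ 2 * L) ≤ N := by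
    have h1 : (10 : ℝ) ^ 12 * (K ^ 2 * L) ≤ K ^ 3 := by
      have : K ^ 2 * ((10 : ℝ) ^ 12 * L) ≤ K ^ 2 * K := mul_le_mul_of_nonneg_left hKL (sq_nonneg K)
      calc (10 : ℝ) ^ 12 * (K ^ 2 * L) = K ^ 2 * ((10 : ℝ) ^ 12 * L) := by ring
        _ ≤ K ^ 2 * K := this
        _ = K ^ 3 := by ring
    linarith
  have t2 : K ^ 2 ≤ K ^ 2 * L := by
    have := mul_le_mul_of_nonneg_left hL (sq_nonneg K)
    linarith
  have t5 : K ≤ K ^ 2 := by nlinarith
  have t3 : K * L ≤ K ^ 2 * L := mul_le_mul_of_nonneg_right t5 hL0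
  have t4 : L ≤ K * L := by nlinarith
  have t6 : 1 ≤ K ^ 2 * L := by linarith
  have heQ : e * (2 * e + 6 + 4 * (k1 * L)) ≤ 10 ^ 15 * (K ^ 2 * L) := by
    rw [heR, hk1R]
    have : 16777219 * K * (2 * (16777219 * K) + 6 + 4 * (4194304 * K * L)) =
        (2 * 16777219 ^ 2) * K ^ 2 + (6 * 16777219) * K +
          (16777219 * 4 * 4194304) * (K ^ 2 * L) := by ring
    rw [this]
    linarith
  have heL : (e + 1) * L ≤ 10 ^ 8 * (K ^ 2 * L) := by
    rw [heR]
    have : (16777219 * K + 1) * L = 16777219 * (K * L) + L := by ring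
    rw [this]
    linarith
  have hN0 : 0 ≤ N := by
    have : 0 ≤ K ^ 2 * L := by positivity
    linarith
  have h2 : (N + 1) ^ 2 / 4 = N ^ 2 / 4 + N / 2 + 1 / 4 := by ring
  refine ⟨by linarith, by linarith, ?_, ?_⟩
  · rw [h2]
    linarith
  · have h3 : N * (10 ^ 12 * L) ≤ N * K := mul_le_mul_of_nonneg_left hKL hN0
    have h4 : N * 1 ≤ N * L := mul_le_mul_of_nonneg_left hL hN0
    linarith

lemma card_nonKR_aux {n k : ℕ} (hn : Fintype.card α = n) (hg : Good CC n k) (M : ℝ)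
    (hM : 1 ≤ M) (hIH : IH M (univ : Finset α)) :
    ((nonKR α).card : ℝ) ≤
      (M + 3) * pw ((n : ℝ) ^ 2 / 4 + 3 * n / 2 - n / 300000) := by
  classical
  have hp := exists_prm hg
  set e := 3 * k + 4 * pk1 k with he
  set k1 := pk1 k with hk1
  set s := ps n with hs
  set idx2 := (smallSets (univ : Finset α) (e + 1)) ×ˢ (univ : Finset α).powerset with hidx
  set 𝒢 := (nonKR α).filter (fun r => nb r ∈ badTF univ k) with h𝒢
  set ℋ := (nonKR α).filter (fun r => nb r ∉ badTF univ k) with hℋ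
  have hsplit : ((nonKR α).card : ℝ) = 𝒢.card + ℋ.card := by
    have := card_filter_add_card_filter_not (s := nonKR α) (fun r => nb r ∈ badTF univ k)
    exact_mod_cast this.symm
  have b1 : (𝒢.card : ℝ) ≤ M * pw ((n : ℝ) ^ 2 / 4 + 2 * n - (n : ℝ) * k / 20000) *
      pw (n * lg n) := by
    have h1 := card_posets_le 𝒢 (fun r hr => (mem_nonKR.mp (mem_filter.mp hr).1).1)
      (badTF univ k) (fun r hr => (mem_filter.mp hr).2)
    rw [hn] at h1
    refine h1.trans (mul_le_mul_of_nonneg_right ?_ (pw_nonneg _))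
    exact card_badTF univ n k (by rw [card_univ, hn]) hg M hM hIH
  have b2 : (ℋ.card : ℝ) ≤ (pw ((n : ℝ) ^ 2 / 4 + e * QQ n e k1 + n / 4) +
      (pw ((n : ℝ) ^ 2 / 4 + e * QQ n e k1 + n / 8) +
      pw (((n : ℝ) + 1) ^ 2 / 4 + e * QQ n e k1 - s + 3 + 2 * lg n))) * idx2.card := by
    apply card_le_union (fun b => clsEU n e k1 s (n / 60) b.1 b.2)
    · intro r hr
      rw [hℋ, mem_filter, mem_nonKR] at hr
      obtain ⟨⟨hpo, hno⟩, hbad⟩ := hr
      have hnice : ∃ E U V, NiceG univ k (nb r) E U V := by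
        by_contra hcon
        apply hbad
        unfold badTF
        rw [mem_filter]
        exact ⟨mem_univ _, hpo.isTF, hcon⟩
      obtain ⟨E0, U0, V0, hnice⟩ := hnice
      obtain ⟨E, U, V, X, Y, hstr, hE, hU, hV, hXY⟩ := exists_str hg hn hpo hnice
      have hVeq : (univ \ E) \ U = V := by
        rw [← hstr.bip.union, union_sdiff_left, sdiff_eq_self_of_disjoint hstr.bip.disj.symm]
      refine ⟨(E, U), ?_, ?_⟩
      · rw [hidx, mem_product, mem_smallSets, mem_powerset]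
        exact ⟨⟨subset_univ _, by simp only; omega⟩, subset_univ _⟩
      · rw [mem_clsEU]
        simp only
        rw [hVeq]
        exact ⟨⟨hn, hE, hstr.bip.union, hstr.bip.disj, hU, hV⟩, ⟨X, Y, hstr, hXY⟩, hno⟩
    · rintro ⟨E, U⟩ _
      exact card_clsEU hp E U
  have hidxc : (idx2.card : ℝ) ≤ pw ((e + 1) * lg n + n) := by
    rw [hidx, card_product, card_powerset, card_univ, hn]
    have h1 := card_smallSets_le_pw (univ : Finset α) (e + 1) n (by rw [card_univ, hn])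
    push_cast at h1 ⊢
    rw [pw_add, pw_nat]
    exact mul_le_mul_of_nonneg_right h1 (by positivity)
  -- numerics
  have hat := hg.atoms one_le_CC
  obtain ⟨f1, f2, f3, f4, f5, f6, f7, f8⟩ := nat_facts n
  have hC : CC = 10 ^ 12 := rfl
  have hK := hat.hK
  have hKL := hat.hKL
  have hX := hat.hX
  have hL := hat.hL
  rw [hC] at hK hKL hX
  have heR : (e : ℝ) = 16777219 * (k : ℝ) := by
    rw [he, hk1]
    unfold pk1
    push_cast
    ring
  have hk1R : (k1 : ℝ) = 4194304 * (k : ℝ) := by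
    rw [hk1]
    unfold pk1
    push_cast
    ring
  have hsR : (n : ℝ) / 262144 - 1 ≤ (s : ℝ) := by
    rw [hs]
    linarith
  obtain ⟨n1, n2, n3, n4⟩ := nonKR_num hK hKL hX hL heR hk1R hsR
  unfold QQ at b2
  generalize (n : ℝ) ^ 2 / 4 + 3 * (n : ℝ) / 2 - (n : ℝ) / 300000 = P0 at n1 n2 n3 n4 ⊢
  generalize (e : ℝ) * (2 * (e : ℝ) + 6 + 4 * ((k1 : ℝ) * lg n)) = Q0 at n1 n2 n3 n4 b2
  have c1 : (𝒢.card : ℝ) ≤ M * pw P0 := by
    refine b1.trans ?_
    rw [mul_assoc, ← pw_add]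
    exact mul_le_mul_of_nonneg_left (pw_mono n4) (by linarith)
  have c5 : (ℋ.card : ℝ) ≤ 3 * pw P0 := by
    refine b2.trans ?_
    have h0 := pw_nonneg ((n : ℝ) ^ 2 / 4 + Q0 + n / 4)
    have h1 := pw_nonneg ((n : ℝ) ^ 2 / 4 + Q0 + n / 8)
    have h2 := pw_nonneg (((n : ℝ) + 1) ^ 2 / 4 + Q0 - s + 3 + 2 * lg n)
    have g1 := pw_mono n1
    have g2 := pw_mono n2
    have g3 := pw_mono n3
    rw [pw_add ((n : ℝ) ^ 2 / 4 + Q0 + n / 4)] at g1
    rw [pw_add ((n : ℝ) ^ 2 / 4 + Q0 + n / 8)] at g2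
    rw [pw_add (((n : ℝ) + 1) ^ 2 / 4 + Q0 - s + 3 + 2 * lg n)] at g3
    have h3 := mul_le_mul_of_nonneg_left hidxc
      (add_nonneg h0 (add_nonneg h1 h2))
    refine h3.trans ?_
    generalize pw (((e : ℝ) + 1) * lg n + n) = R0 at g1 g2 g3 ⊢
    nlinarith
  rw [hsplit]
  linarith

/-- The number of posets that are not of three-layer form. -/
theorem nonKR_bound : ∃ (n0 : ℕ) (M : ℝ), 0 ≤ M ∧
    ∀ (α : Type) [Fintype α] [DecidableEq α], n0 ≤ Fintype.card α →
      ((nonKR α).card : ℝ) ≤ M * pw ((Fintype.card α : ℝ) ^ 2 / 4 + 3 * (Fintype.card α) / 2 -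
        (Fintype.card α) / 300000) := by
  obtain ⟨n0, M, hM, hgood, hTF⟩ := exists_TF_bound
  refine ⟨n0, M + 3, by linarith, ?_⟩
  intro α _ _ hn
  obtain ⟨k, hg⟩ := hgood _ hn
  exact card_nonKR_aux rfl hg M hM (fun W' _ _ => hTF α W')

end Pool.Agent.Lib.MP_a8cbfa_co
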