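import Pool.Agent.Lib.MP_a8cbfa_co.T2

set_option autoImplicit false
set_option linter.unusedSectionVars false

open Finset

namespace Pool.Agent.Lib.MP_a8cbfa_co

/-- A partial order, as a Boolean relation (same wording as the frozen statement). -/
def IsPo {α : Type*} (r : α → α → Bool) : Prop :=
  (∀ x, r x x = true) ∧
    (∀ x y, r x y = true → r y x = true → x = y) ∧
    (∀ x y z, r x y = true → r y z = true → r x z = true)

/-- `F` is an antichain of `r`. -/
def IsAnti {α : Type*} (r : α → α → Bool) (F : Finset α) : Prop :=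
  ∀ x ∈ F, ∀ y ∈ F, r x y = true → x = y

/-- The number of partial orders on `Fin n`. -/
noncomputable def pNum (n : ℕ) : ℝ := (Nat.card {r : Fin n → Fin n → Bool // IsPo r} : ℝ)

/-- The number of pairs (partial order on `Fin n`, antichain of it). -/
noncomputable def sNum (n : ℕ) : ℝ :=
  (Nat.card {p : (Fin n → Fin n → Bool) × Finset (Fin n) // IsPo p.1 ∧ IsAnti p.1 p.2} : ℝ)

/-- The main term for `pNum`. -/
noncomputable def TT (n : ℕ) : ℝ :=
  ∑ b ∈ range (n + 1), (n.choose b : ℝ) * 2 ^ (n - b) * 2 ^ (b * (n - b))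

/-- The main term for `sNum`. -/
noncomputable def TA (n : ℕ) : ℝ :=
  ∑ b ∈ range (n + 1), (n.choose b : ℝ) * 2 ^ n * 2 ^ (b * (n - b))

end Pool.Agent.Lib.MP_a8cbfa_co
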