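import Mathlib

section
set_option autoImplicit false
set_option linter.unusedSectionVars false

open Finset

namespace Pool.Agent.Lib.MP_a8cbfa_co

/-! ### Powers of two with real exponents -/

/-- Two to a real power. -/
noncomputable def pw (x : ℝ) : ℝ := (2 : ℝ) ^ x

lemma pw_pos (x : ℝ) : 0 < pw x := Real.rpow_pos_of_pos (by norm_num) x

lemma pw_nonneg (x : ℝ) : 0 ≤ pw x := (pw_pos x).le

lemma pw_add (x y : ℝ) : pw (x + y) = pw x * pw y := Real.rpow_add (by norm_num) x y

lemma pw_sub (x y : ℝ) : pw (x - y) = pw x / pw y := Real.rpow_sub (by norm_num) x y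

lemma pw_neg (x : ℝ) : pw (-x) = (pw x)⁻¹ := Real.rpow_neg (by norm_num) x

lemma pw_mono {x y : ℝ} (h : x ≤ y) : pw x ≤ pw y :=
  Real.rpow_le_rpow_of_exponent_le (by norm_num) h

lemma pw_zero : pw 0 = 1 := Real.rpow_zero 2

lemma pw_one : pw 1 = 2 := Real.rpow_one 2

lemma pw_nat (n : ℕ) : pw (n : ℝ) = 2 ^ n := Real.rpow_natCast 2 n

lemma one_le_pw {x : ℝ} (h : 0 ≤ x) : 1 ≤ pw x := by
  rw [← pw_zero]; exact pw_mono h

lemma pw_mul_nat (x : ℝ) (n : ℕ) : pw (x * n) = pw x ^ n := by
  unfold pw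
  rw [Real.rpow_mul (by norm_num), Real.rpow_natCast]

lemma pw_nat_mul (x : ℝ) (n : ℕ) : pw (n * x) = pw x ^ n := by
  rw [mul_comm, pw_mul_nat]

/-- `lg n = log₂ (n + 1)`. -/
noncomputable def lg (n : ℕ) : ℝ := Real.logb 2 ((n : ℝ) + 1)

lemma pw_lg (n : ℕ) : pw (lg n) = (n : ℝ) + 1 := by
  unfold pw lg
  exact Real.rpow_logb (by norm_num) (by norm_num) (by positivity)

lemma lg_nonneg (n : ℕ) : 0 ≤ lg n := by
  unfold lg
  apply Real.logb_nonneg (by norm_num)
  have : (0 : ℝ) ≤ n := Nat.cast_nonneg n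
  linarith

/-! ### Counting small subsets -/

variable {α : Type*} [DecidableEq α]

/-- Subsets of `W` with fewer than `d` elements. -/
def smallSets (W : Finset α) (d : ℕ) : Finset (Finset α) :=
  W.powerset.filter (fun S => S.card < d)

lemma mem_smallSets {W S : Finset α} {d : ℕ} : S ∈ smallSets W d ↔ S ⊆ W ∧ S.card < d := by
  simp [smallSets]

lemma sum_pow_le (n d : ℕ) : ∑ i ∈ range d, n ^ i ≤ (n + 1) ^ d := by
  induction d with
  | zero => simp
  | succ d ih =>
    rw [sum_range_succ, pow_succ]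
    have : n ^ d ≤ (n + 1) ^ d := Nat.pow_le_pow_left (Nat.le_succ n) d
    rcases Nat.eq_zero_or_pos n with h | h
    · subst h
      rcases Nat.eq_zero_or_pos d with h | h
      · subst h; simp
      · have h1 : ∑ i ∈ range d, 0 ^ i ≤ (0 + 1) ^ d := ih
        have h2 : (0 : ℕ) ^ d = 0 := Nat.zero_pow h
        rw [h2]
        simpa using h1
    · have h2 : (n + 1) ^ d ≤ (n + 1) ^ d * n := Nat.le_mul_of_pos_right _ h
      calc ∑ i ∈ range d, n ^ i + n ^ d ≤ (n + 1) ^ d + (n + 1) ^ d * n := by omega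
        _ = (n + 1) ^ d * (n + 1) := by ring

lemma card_smallSets_le (W : Finset α) (d : ℕ) :
    (smallSets W d).card ≤ (W.card + 1) ^ d := by
  have h1 : smallSets W d ⊆ (range d).biUnion (fun i => powersetCard i W) := by
    intro S hS
    rw [mem_smallSets] at hS
    rw [mem_biUnion]
    exact ⟨S.card, mem_range.mpr hS.2, mem_powersetCard.mpr ⟨hS.1, rfl⟩⟩
  calc (smallSets W d).card ≤ ((range d).biUnion (fun i => powersetCard i W)).card :=
        card_le_card h1
    _ ≤ ∑ i ∈ range d, (powersetCard i W).card := card_biUnion_le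
    _ ≤ ∑ i ∈ range d, W.card ^ i := by
        apply sum_le_sum
        intro i _
        rw [card_powersetCard]
        exact Nat.choose_le_pow _ _
    _ ≤ (W.card + 1) ^ d := sum_pow_le _ _

lemma card_smallSets_le_pw (W : Finset α) (d n : ℕ) (hW : W.card ≤ n) :
    ((smallSets W d).card : ℝ) ≤ pw (d * lg n) := by
  have h1 : ((smallSets W d).card : ℝ) ≤ ((W.card + 1 : ℕ) : ℝ) ^ d := by
    exact_mod_cast card_smallSets_le W d
  have h2 : (((W.card + 1 : ℕ) : ℝ)) ^ d ≤ ((n : ℝ) + 1) ^ d := by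
    apply pow_le_pow_left₀ (by positivity)
    push_cast
    have : (W.card : ℝ) ≤ n := by exact_mod_cast hW
    linarith
  rw [pw_nat_mul, pw_lg]
  exact h1.trans h2

lemma card_powersetCard_le_pw (W : Finset α) (d n : ℕ) (hW : W.card ≤ n) :
    ((powersetCard d W).card : ℝ) ≤ pw (d * lg n) := by
  rw [card_powersetCard, pw_nat_mul, pw_lg]
  have h1 : (W.card.choose d : ℝ) ≤ (W.card : ℝ) ^ d := by
    exact_mod_cast Nat.choose_le_pow _ _
  have h2 : (W.card : ℝ) ≤ (n : ℝ) + 1 := by
    have : (W.card : ℝ) ≤ n := by exact_mod_cast hW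
    linarith
  exact h1.trans (pow_le_pow_left₀ (by positivity) h2 d)

/-- Chernoff-type bound for the number of subsets with few elements. -/
lemma card_frac_le (W : Finset α) (c m : ℕ) (hc : 1 ≤ c) :
    ((W.powerset.filter (fun S => c * S.card < m)).card : ℝ) ≤
      (c : ℝ) ^ ((m : ℝ) / c) * (1 + 1 / (c : ℝ)) ^ W.card := by
  have hc0 : (0 : ℝ) < c := by exact_mod_cast hc
  have hc1 : (1 : ℝ) ≤ c := by exact_mod_cast hc
  have h1 : ((W.powerset.filter (fun S => c * S.card < m)).card : ℝ) ≤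
      ∑ S ∈ W.powerset.filter (fun S => c * S.card < m),
        (c : ℝ) ^ ((m : ℝ) / c) * (1 / (c : ℝ)) ^ S.card := by
    rw [card_eq_sum_ones]
    push_cast
    apply sum_le_sum
    intro S hS
    rw [mem_filter] at hS
    have h2 : (S.card : ℝ) ≤ (m : ℝ) / c := by
      rw [le_div_iff₀ hc0]
      have : ((c * S.card : ℕ) : ℝ) < (m : ℝ) := by exact_mod_cast hS.2
      push_cast at this
      linarith
    have h3 : (c : ℝ) ^ (S.card : ℝ) ≤ (c : ℝ) ^ ((m : ℝ) / c) :=
      Real.rpow_le_rpow_of_exponent_le hc1 h2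
    rw [Real.rpow_natCast] at h3
    rw [one_div, inv_pow]
    have h4 : (0 : ℝ) < (c : ℝ) ^ S.card := by positivity
    rw [← div_eq_mul_inv, le_div_iff₀ h4, one_mul]
    exact h3
  refine h1.trans ?_
  have h2 : ∑ S ∈ W.powerset.filter (fun S => c * S.card < m),
        (c : ℝ) ^ ((m : ℝ) / c) * (1 / (c : ℝ)) ^ S.card ≤
      ∑ S ∈ W.powerset, (c : ℝ) ^ ((m : ℝ) / c) * (1 / (c : ℝ)) ^ S.card := by
    apply sum_le_sum_of_subset_of_nonneg (filter_subset _ _)
    intro S _ _
    positivity
  refine h2.trans (le_of_eq ?_)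
  rw [← mul_sum]
  congr 1
  have h3 := Finset.sum_pow_mul_eq_add_pow (1 / (c : ℝ)) 1 W
  simp only [one_pow, mul_one] at h3
  rw [h3, add_comm]

/-- At most `2 ^ (|T| / 2)` subsets of `T` have fewer than `|T| / 16` elements. -/
lemma card_frac16 (T : Finset α) :
    ((T.powerset.filter (fun S => 16 * S.card < T.card)).card : ℝ) ≤ pw ((T.card : ℝ) / 2) := by
  refine (card_frac_le T 16 T.card (by norm_num)).trans ?_
  have h1 : ((16 : ℕ) : ℝ) ^ ((T.card : ℝ) / (16 : ℕ)) = pw ((T.card : ℝ) / 4) := by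
    have : ((16 : ℕ) : ℝ) = (2 : ℝ) ^ (4 : ℝ) := by norm_num
    rw [this, ← Real.rpow_mul (by norm_num)]
    unfold pw
    congr 1
    norm_num
    ring
  have h2 : (1 + 1 / ((16 : ℕ) : ℝ)) ^ T.card ≤ pw ((T.card : ℝ) / 4) := by
    have h3 : (1 + 1 / ((16 : ℕ) : ℝ)) ≤ pw (1 / 4) := by
      unfold pw
      have h4 : ((1 + 1 / ((16 : ℕ) : ℝ)) ^ (4 : ℕ)) ≤ 2 := by norm_num
      have h5 : (0 : ℝ) ≤ 1 + 1 / ((16 : ℕ) : ℝ) := by positivity
      calc (1 + 1 / ((16 : ℕ) : ℝ)) = ((1 + 1 / ((16 : ℕ) : ℝ)) ^ (4 : ℕ)) ^ ((1 : ℝ) / 4) := by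
            rw [← Real.rpow_natCast, ← Real.rpow_mul h5]
            norm_num
        _ ≤ 2 ^ ((1 : ℝ) / 4) := Real.rpow_le_rpow (by positivity) h4 (by norm_num)
    calc (1 + 1 / ((16 : ℕ) : ℝ)) ^ T.card ≤ (pw (1 / 4)) ^ T.card :=
          pow_le_pow_left₀ (by positivity) h3 _
      _ = pw ((T.card : ℝ) / 4) := by
          rw [← pw_mul_nat]
          congr 1
          ring
  rw [h1]
  calc pw ((T.card : ℝ) / 4) * (1 + 1 / ((16 : ℕ) : ℝ)) ^ T.card ≤
        pw ((T.card : ℝ) / 4) * pw ((T.card : ℝ) / 4) :=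
        mul_le_mul_of_nonneg_left h2 (pw_nonneg _)
    _ = pw ((T.card : ℝ) / 2) := by
        rw [← pw_add]
        congr 1
        ring

/-- At most `2 ^ (n / 8)` subsets of an at most `n`-element set have fewer than `n / 64`
elements. -/
lemma card_frac64 (W : Finset α) (n : ℕ) (hW : W.card ≤ n) :
    ((W.powerset.filter (fun S => 64 * S.card < n)).card : ℝ) ≤ pw ((n : ℝ) / 8) := by
  refine (card_frac_le W 64 n (by norm_num)).trans ?_
  have h1 : ((64 : ℕ) : ℝ) ^ ((n : ℝ) / (64 : ℕ)) = pw (6 * (n : ℝ) / 64) := by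
    have : ((64 : ℕ) : ℝ) = (2 : ℝ) ^ (6 : ℝ) := by norm_num
    rw [this, ← Real.rpow_mul (by norm_num)]
    unfold pw
    congr 1
    norm_num
    ring
  have h2 : (1 + 1 / ((64 : ℕ) : ℝ)) ^ W.card ≤ pw ((n : ℝ) / 32) := by
    have h3 : (1 + 1 / ((64 : ℕ) : ℝ)) ≤ pw (1 / 32) := by
      unfold pw
      have h4 : ((1 + 1 / ((64 : ℕ) : ℝ)) ^ (32 : ℕ)) ≤ 2 := by norm_num
      have h5 : (0 : ℝ) ≤ 1 + 1 / ((64 : ℕ) : ℝ) := by positivity
      calc (1 + 1 / ((64 : ℕ) : ℝ)) =
            ((1 + 1 / ((64 : ℕ) : ℝ)) ^ (32 : ℕ)) ^ ((1 : ℝ) / 32) := by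
            rw [← Real.rpow_natCast, ← Real.rpow_mul h5]
            norm_num
        _ ≤ 2 ^ ((1 : ℝ) / 32) := Real.rpow_le_rpow (by positivity) h4 (by norm_num)
    calc (1 + 1 / ((64 : ℕ) : ℝ)) ^ W.card ≤ (1 + 1 / ((64 : ℕ) : ℝ)) ^ n := by
          apply pow_le_pow_right₀ _ hW
          have : (0 : ℝ) ≤ 1 / ((64 : ℕ) : ℝ) := by positivity
          linarith
      _ ≤ (pw (1 / 32)) ^ n := pow_le_pow_left₀ (by positivity) h3 _
      _ = pw ((n : ℝ) / 32) := by
          rw [← pw_mul_nat]
          congr 1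
          ring
  rw [h1]
  calc pw (6 * (n : ℝ) / 64) * (1 + 1 / ((64 : ℕ) : ℝ)) ^ W.card ≤
        pw (6 * (n : ℝ) / 64) * pw ((n : ℝ) / 32) :=
        mul_le_mul_of_nonneg_left h2 (pw_nonneg _)
    _ = pw ((n : ℝ) / 8) := by
        rw [← pw_add]
        congr 1
        ring

end Pool.Agent.Lib.MP_a8cbfa_co
end

section
set_option autoImplicit false
set_option linter.unusedSectionVars false

open Finset Filter

namespace Pool.Agent.Lib.MP_a8cbfa_co

/-- Relation between the size `n` and the auxiliary parameter `k`. -/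
structure Good (C : ℝ) (n k : ℕ) : Prop where
  hl : C * lg n ≤ k
  hk3 : C * (k : ℝ) ^ 3 ≤ n
  hn : 1 ≤ n

lemma one_le_lg {n : ℕ} (h : 1 ≤ n) : 1 ≤ lg n := by
  unfold lg
  rw [Real.le_logb_iff_rpow_le (by norm_num) (by positivity)]
  have : (1 : ℝ) ≤ n := by exact_mod_cast h
  norm_num
  linarith

lemma tendsto_sqrt : Tendsto Nat.sqrt atTop atTop := by
  rw [tendsto_atTop]
  intro b
  filter_upwards [eventually_ge_atTop (b * b)] with n hn
  exact Nat.le_sqrt.mpr hn

lemma exists_good (C : ℝ) (hC : 1 ≤ C) : ∃ n0 : ℕ, ∀ n ≥ n0, ∃ k : ℕ, Good C n k := by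
  have h1 : Tendsto (fun n : ℕ => Nat.sqrt (Nat.sqrt n)) atTop atTop :=
    tendsto_sqrt.comp tendsto_sqrt
  -- the logarithm is eventually small
  have h2 : ∀ᶠ k : ℕ in atTop, 4 * C * Real.logb 2 ((k : ℝ) + 1) ≤ k := by
    have h3 : ∀ᶠ x : ℝ in atTop, |Real.log x| ≤ (Real.log 2 / (8 * C)) * |x| := by
      have := (Real.isLittleO_log_id_atTop).bound (c := Real.log 2 / (8 * C)) (by
        have := Real.log_pos (by norm_num : (1 : ℝ) < 2)
        positivity)
      simpa using this
    have h4 : Tendsto (fun k : ℕ => (k : ℝ) + 1) atTop atTop :=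
      tendsto_atTop_add_const_right _ _ tendsto_natCast_atTop_atTop
    filter_upwards [h4.eventually h3, eventually_ge_atTop 1] with k hk hk1
    have hlog2 := Real.log_pos (by norm_num : (1 : ℝ) < 2)
    have hk1' : (1 : ℝ) ≤ k := by exact_mod_cast hk1
    have h5 : Real.log ((k : ℝ) + 1) ≤ (Real.log 2 / (8 * C)) * ((k : ℝ) + 1) := by
      have := (le_abs_self _).trans hk
      rwa [abs_of_nonneg (by positivity : (0 : ℝ) ≤ (k : ℝ) + 1)] at this
    unfold Real.logb
    rw [← mul_div_assoc, div_le_iff₀ hlog2]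
    calc 4 * C * Real.log ((k : ℝ) + 1) ≤ 4 * C * ((Real.log 2 / (8 * C)) * ((k : ℝ) + 1)) := by
          apply mul_le_mul_of_nonneg_left h5
          positivity
      _ = Real.log 2 * (((k : ℝ) + 1) / 2) := by
          field_simp
          ring
      _ ≤ k * Real.log 2 := by nlinarith
  have h6 : ∀ᶠ n : ℕ in atTop, ∃ k : ℕ, Good C n k := by
    filter_upwards [h1.eventually h2, h1.eventually (eventually_ge_atTop ⌈C⌉₊),
      eventually_ge_atTop 1] with n hn1 hn2 hn3
    refine ⟨Nat.sqrt (Nat.sqrt n), ?_, ?_, hn3⟩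
    · -- n + 1 ≤ (k + 1) ^ 4
      set k := Nat.sqrt (Nat.sqrt n) with hk
      have e1 : Nat.sqrt n < (k + 1) * (k + 1) := Nat.lt_succ_sqrt (Nat.sqrt n)
      have e2 : n < (Nat.sqrt n + 1) * (Nat.sqrt n + 1) := Nat.lt_succ_sqrt n
      have e3 : n + 1 ≤ (k + 1) ^ 4 := by
        have e4 : Nat.sqrt n + 1 ≤ (k + 1) * (k + 1) := e1
        calc n + 1 ≤ (Nat.sqrt n + 1) * (Nat.sqrt n + 1) := e2
          _ ≤ ((k + 1) * (k + 1)) * ((k + 1) * (k + 1)) := Nat.mul_le_mul e4 e4
          _ = (k + 1) ^ 4 := by ring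
      have e5 : ((n : ℝ) + 1) ≤ ((k : ℝ) + 1) ^ 4 := by exact_mod_cast e3
      have e6 : lg n ≤ 4 * Real.logb 2 ((k : ℝ) + 1) := by
        unfold lg
        rw [← Nat.cast_ofNat (R := ℝ) (n := 4), ← Real.logb_pow]
        exact Real.logb_le_logb_of_le (by norm_num) (by positivity) e5
      calc C * lg n ≤ C * (4 * Real.logb 2 ((k : ℝ) + 1)) :=
            mul_le_mul_of_nonneg_left e6 (by linarith)
        _ = 4 * C * Real.logb 2 ((k : ℝ) + 1) := by ring
        _ ≤ k := hn1
    · set k := Nat.sqrt (Nat.sqrt n) with hk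
      have e1 : k * k ≤ Nat.sqrt n := Nat.sqrt_le (Nat.sqrt n)
      have e2 : Nat.sqrt n * Nat.sqrt n ≤ n := Nat.sqrt_le n
      have e3 : k ^ 4 ≤ n := by
        calc k ^ 4 = (k * k) * (k * k) := by ring
          _ ≤ Nat.sqrt n * Nat.sqrt n := Nat.mul_le_mul e1 e1
          _ ≤ n := e2
      have e4 : (C : ℝ) ≤ k := (Nat.le_ceil C).trans (by exact_mod_cast hn2)
      have e5 : ((k : ℝ)) ^ 4 ≤ n := by exact_mod_cast e3
      calc C * (k : ℝ) ^ 3 ≤ k * (k : ℝ) ^ 3 := by
            apply mul_le_mul_of_nonneg_right e4 (by positivity)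
        _ = (k : ℝ) ^ 4 := by ring
        _ ≤ n := e5
  obtain ⟨n0, hn0⟩ := eventually_atTop.mp h6
  exact ⟨n0, hn0⟩

/-- The atomic inequalities used in all exponent estimates. -/
structure Atoms (C K X L : ℝ) : Prop where
  C1 : 1 ≤ C
  hL : 1 ≤ L
  hK : C ≤ K
  hKL : C * L ≤ K
  hX : C * K ^ 3 ≤ X
  a1 : C * (K ^ 2 * L) ≤ X
  a2 : C * (K * L) ≤ X
  a3 : C * L ≤ X
  a4 : C * K ^ 2 ≤ X
  a5 : C * K ≤ X
  a6 : C ≤ X
  a7 : C * X ≤ X * K
  a8 : C * (X * L) ≤ X * K

lemma Good.atoms {C : ℝ} {n k : ℕ} (h : Good C n k) (hC : 1 ≤ C) : Atoms C k n (lg n) := by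
  have hL := one_le_lg h.hn
  have hKL := h.hl
  have hX := h.hk3
  have hK : C ≤ (k : ℝ) := by nlinarith
  have hK1 : (1 : ℝ) ≤ k := hC.trans hK
  set K : ℝ := (k : ℝ)
  set X : ℝ := (n : ℝ)
  set L : ℝ := lg n
  have hLK : L ≤ K := by nlinarith
  have b1 : K ≤ K ^ 2 := by nlinarith
  have b2 : K ^ 2 ≤ K ^ 3 := by nlinarith [sq_nonneg K]
  have b3 : K ^ 2 * L ≤ K ^ 3 := by nlinarith [sq_nonneg K]
  have b4 : K * L ≤ K ^ 2 * L := by nlinarith
  have b5 : L ≤ K * L := by nlinarith
  have hX0 : 0 ≤ X := Nat.cast_nonneg n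
  exact
    { C1 := hC
      hL := hL
      hK := hK
      hKL := hKL
      hX := hX
      a1 := by nlinarith
      a2 := by nlinarith
      a3 := by nlinarith
      a4 := by nlinarith
      a5 := by nlinarith
      a6 := by nlinarith
      a7 := by nlinarith
      a8 := by nlinarith }

end Pool.Agent.Lib.MP_a8cbfa_co
end

section
set_option autoImplicit false
set_option linter.unusedSectionVars false

open Finset

namespace Pool.Agent.Lib.MP_a8cbfa_co

/-- Fibrewise bound with a real constant. -/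
lemma card_le_real {β γ : Type*} [DecidableEq γ] {s : Finset β} {t : Finset γ} (f : β → γ)
    (Hf : ∀ a ∈ s, f a ∈ t) (c : ℝ) (hn : ∀ b ∈ t, ((s.filter (fun a => f a = b)).card : ℝ) ≤ c) :
    (s.card : ℝ) ≤ c * t.card := by
  have h := card_eq_sum_card_fiberwise Hf
  rw [h]
  push_cast
  calc ∑ b ∈ t, ((s.filter (fun a => f a = b)).card : ℝ) ≤ ∑ _b ∈ t, c := sum_le_sum hn
    _ = c * t.card := by rw [sum_const, nsmul_eq_mul, mul_comm]

/-- Union bound. -/
lemma card_le_union {β γ : Type*} {s : Finset β} {t : Finset γ} (g : γ → Finset β)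
    (Hf : ∀ a ∈ s, ∃ b ∈ t, a ∈ g b) (c : ℝ) (hn : ∀ b ∈ t, ((g b).card : ℝ) ≤ c) :
    (s.card : ℝ) ≤ c * t.card := by
  classical
  have h1 : s ⊆ t.biUnion g := by
    intro a ha
    obtain ⟨b, hb, hab⟩ := Hf a ha
    exact mem_biUnion.mpr ⟨b, hb, hab⟩
  have h2 : s.card ≤ ∑ b ∈ t, (g b).card := (card_le_card h1).trans card_biUnion_le
  calc (s.card : ℝ) ≤ ((∑ b ∈ t, (g b).card : ℕ) : ℝ) := by exact_mod_cast h2
    _ = ∑ b ∈ t, ((g b).card : ℝ) := by push_cast; rfl
    _ ≤ ∑ _b ∈ t, c := sum_le_sum hn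
    _ = c * t.card := by rw [sum_const, nsmul_eq_mul, mul_comm]

variable {α : Type*} [Fintype α] [DecidableEq α]

/-- `N` is the neighbourhood function of a triangle-free graph with all edges inside `W`. -/
structure IsTF (W : Finset α) (N : α → Finset α) : Prop where
  symm : ∀ x y, y ∈ N x → x ∈ N y
  disj : ∀ x y, y ∈ N x → Disjoint (N x) (N y)
  supp : ∀ x, N x ⊆ W

open Classical in
/-- The triangle-free graphs with all edges inside `W`. -/
noncomputable def TF (W : Finset α) : Finset (α → Finset α) := univ.filter (fun N => IsTF W N)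

lemma mem_TF {W : Finset α} {N : α → Finset α} : N ∈ TF W ↔ IsTF W N := by
  simp [TF]

lemma IsTF.irrefl {W : Finset α} {N : α → Finset α} (h : IsTF W N) (x : α) : x ∉ N x := by
  intro hx
  have := h.disj x x hx
  rw [disjoint_self] at this
  rw [this] at hx
  simp at hx

lemma IsTF.mem_left {W : Finset α} {N : α → Finset α} (h : IsTF W N) {x y : α} (hy : y ∈ N x) :
    x ∈ W := h.supp y (h.symm x y hy)

lemma IsTF.eq_empty {W : Finset α} {N : α → Finset α} (h : IsTF W N) {x : α} (hx : x ∉ W) :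
    N x = ∅ := by
  rw [eq_empty_iff_forall_notMem]
  intro y hy
  exact hx (h.mem_left hy)

/-- Delete the vertices of `X`. -/
def del (N : α → Finset α) (X : Finset α) (x : α) : Finset α := if x ∈ X then ∅ else N x \ X

lemma mem_del {N : α → Finset α} {X : Finset α} {x y : α} :
    y ∈ del N X x ↔ x ∉ X ∧ y ∈ N x ∧ y ∉ X := by
  unfold del
  split_ifs with h <;> simp [h]

lemma del_subset (N : α → Finset α) (X : Finset α) (x : α) : del N X x ⊆ N x := by
  intro y hy
  exact (mem_del.mp hy).2.1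

lemma IsTF.del {W : Finset α} {N : α → Finset α} (h : IsTF W N) (X : Finset α) :
    IsTF (W \ X) (del N X) where
  symm x y hy := by
    rw [mem_del] at hy ⊢
    exact ⟨hy.2.2, h.symm x y hy.2.1, hy.1⟩
  disj x y hy := by
    have := h.disj x y (mem_del.mp hy).2.1
    exact disjoint_of_subset_left (del_subset N X x)
      (disjoint_of_subset_right (del_subset N X y) this)
  supp x y hy := by
    rw [mem_del] at hy
    rw [mem_sdiff]
    exact ⟨h.supp x hy.2.1, hy.2.2⟩

lemma del_del (N : α → Finset α) (X Y : Finset α) : del (del N X) Y = del N (X ∪ Y) := by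
  funext x
  ext y
  simp only [mem_del, mem_union]
  tauto

/-- A symmetric graph is determined by the deleted graph and the deleted neighbourhoods. -/
lemma eq_of_del {N N' : α → Finset α} (h : ∀ x y, y ∈ N x → x ∈ N y)
    (h' : ∀ x y, y ∈ N' x → x ∈ N' y) (X : Finset α) (hd : del N X = del N' X)
    (hX : ∀ x ∈ X, N x = N' x) : N = N' := by
  funext x
  ext y
  by_cases hx : x ∈ X
  · rw [hX x hx]
  · by_cases hy : y ∈ X
    · constructor
      · intro hy2
        apply h'
        rw [← hX y hy]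
        exact h _ _ hy2
      · intro hy2
        apply h
        rw [hX y hy]
        exact h' _ _ hy2
    · have : y ∈ del N X x ↔ y ∈ del N' X x := by rw [hd]
      simp only [mem_del, hx, hy, not_false_eq_true, true_and, and_true] at this
      exact this

/-- Product bound for the fibres of vertex deletion. -/
lemma fiber_card_le (𝒢 : Finset (α → Finset α)) (hsym : ∀ N ∈ 𝒢, ∀ x y, y ∈ N x → x ∈ N y)
    (X : Finset α) (H : α → Finset α) (F : α → Finset (Finset α))
    (h : ∀ N ∈ 𝒢, del N X = H → ∀ x ∈ X, N x ∈ F x) :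
    (𝒢.filter (fun N => del N X = H)).card ≤ ∏ x ∈ X, (F x).card := by
  classical
  have h1 : (𝒢.filter (fun N => del N X = H)).card ≤
      (Fintype.piFinset (fun x : X => F x.val)).card := by
    apply card_le_card_of_injOn (fun N (x : X) => N x.val)
    · intro N hN
      rw [coe_filter, Set.mem_ofPred_eq] at hN
      rw [mem_coe, Fintype.mem_piFinset]
      intro x
      exact h N hN.1 hN.2 x.val x.2
    · intro N hN N' hN' hNN'
      rw [coe_filter, Set.mem_ofPred_eq] at hN hN'
      apply eq_of_del (hsym N hN.1) (hsym N' hN'.1) X (hN.2.trans hN'.2.symm)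
      intro x hx
      exact congrFun hNN' ⟨x, hx⟩
  rw [Fintype.card_piFinset] at h1
  rwa [← prod_coe_sort X (fun x => (F x).card)]

/-- Constant bound for the fibres of vertex deletion. -/
lemma card_le_del (𝒢 : Finset (α → Finset α)) (hsym : ∀ N ∈ 𝒢, ∀ x y, y ∈ N x → x ∈ N y)
    (X : Finset α) (ℋ : Finset (α → Finset α)) (hmap : ∀ N ∈ 𝒢, del N X ∈ ℋ)
    (F : (α → Finset α) → α → Finset (Finset α)) (c : ℝ) (_hc : 0 ≤ c)
    (h : ∀ N ∈ 𝒢, ∀ x ∈ X, N x ∈ F (del N X) x)
    (hF : ∀ H ∈ ℋ, ∀ x ∈ X, ((F H x).card : ℝ) ≤ c) :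
    (𝒢.card : ℝ) ≤ c ^ X.card * ℋ.card := by
  classical
  apply card_le_real (fun N => del N X) hmap
  intro H hH
  have h1 := fiber_card_le 𝒢 hsym X H (F H) (by
    intro N hN hd x hx
    rw [← hd]
    exact h N hN x hx)
  calc ((𝒢.filter (fun N => del N X = H)).card : ℝ) ≤ ((∏ x ∈ X, (F H x).card : ℕ) : ℝ) := by
        exact_mod_cast h1
    _ = ∏ x ∈ X, ((F H x).card : ℝ) := by push_cast; rfl
    _ ≤ ∏ _x ∈ X, c := prod_le_prod (fun _ _ => Nat.cast_nonneg _) (fun x hx => hF H hH x hx)
    _ = c ^ X.card := by rw [prod_const]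

/-! ### Class A: many vertices of low degree -/

open Classical in
/-- Graphs with `k` vertices of degree less than `d`. -/
noncomputable def clsA (W : Finset α) (k d : ℕ) : Finset (α → Finset α) :=
  (TF W).filter (fun N => ∃ X ∈ powersetCard k W, ∀ x ∈ X, (N x).card < d)

lemma card_clsA (W : Finset α) (k d n : ℕ) (hn : W.card ≤ n) (fb : ℝ) (hfb0 : 0 ≤ fb)
    (hfb : ∀ X ∈ powersetCard k W, ((TF (W \ X)).card : ℝ) ≤ fb) :
    ((clsA W k d).card : ℝ) ≤ pw (d * lg n) ^ k * fb * pw (k * lg n) := by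
  classical
  have h1 : ((clsA W k d).card : ℝ) ≤ (pw (d * lg n) ^ k * fb) * (powersetCard k W).card := by
    apply card_le_union (fun X => (TF W).filter (fun N => ∀ x ∈ X, (N x).card < d))
    · intro N hN
      unfold clsA at hN
      rw [mem_filter] at hN
      obtain ⟨hN1, X, hX, hN2⟩ := hN
      exact ⟨X, hX, mem_filter.mpr ⟨hN1, hN2⟩⟩
    · intro X hX
      have hXc := (mem_powersetCard.mp hX).2
      have h2 := card_le_del ((TF W).filter (fun N => ∀ x ∈ X, (N x).card < d))
        (fun N hN => (mem_TF.mp (mem_filter.mp hN).1).symm) X (TF (W \ X))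
        (fun N hN => mem_TF.mpr ((mem_TF.mp (mem_filter.mp hN).1).del X))
        (fun _ _ => smallSets W d) (pw (d * lg n)) (pw_nonneg _)
        (by
          intro N hN x hx
          rw [mem_filter] at hN
          exact mem_smallSets.mpr ⟨(mem_TF.mp hN.1).supp x, hN.2 x hx⟩)
        (fun _ _ _ _ => card_smallSets_le_pw W d n hn)
      rw [hXc] at h2
      exact h2.trans (mul_le_mul_of_nonneg_left (hfb X hX) (pow_nonneg (pw_nonneg _) _))
  refine h1.trans ?_
  apply mul_le_mul_of_nonneg_left (card_powersetCard_le_pw W k n hn)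
  exact mul_nonneg (pow_nonneg (pw_nonneg _) _) hfb0

/-! ### Class B: a small set with few neighbours -/

open Classical in
/-- Graphs with a `k`-set of vertices having fewer than `b` neighbours in total. -/
noncomputable def clsB (W : Finset α) (k b : ℕ) : Finset (α → Finset α) :=
  (TF W).filter (fun N => ∃ Q ∈ powersetCard k W, (Q.biUnion N).card < b)

lemma card_clsB (W : Finset α) (k b n : ℕ) (hn : W.card ≤ n) (fb : ℝ) (hfb0 : 0 ≤ fb)
    (hfb : ∀ X ∈ powersetCard k W, ((TF (W \ X)).card : ℝ) ≤ fb) :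
    ((clsB W k b).card : ℝ) ≤ pw b ^ k * fb * pw n * pw (k * lg n) := by
  classical
  have h1 : ((clsB W k b).card : ℝ) ≤ (pw b ^ k * fb * pw n) * (powersetCard k W).card := by
    apply card_le_union (fun Q => (TF W).filter (fun N => (Q.biUnion N).card < b))
    · intro N hN
      unfold clsB at hN
      rw [mem_filter] at hN
      obtain ⟨hN1, X, hX, hN2⟩ := hN
      exact ⟨X, hX, mem_filter.mpr ⟨hN1, hN2⟩⟩
    · intro Q hQ
      have hQc := (mem_powersetCard.mp hQ).2
      have h2 : (((TF W).filter (fun N => (Q.biUnion N).card < b)).card : ℝ) ≤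
          (pw b ^ k * fb) * (W.powerset.filter (fun R => R.card < b)).card := by
        apply card_le_real (fun N => Q.biUnion N)
        · intro N hN
          rw [mem_filter] at hN
          rw [mem_filter, mem_powerset]
          refine ⟨?_, hN.2⟩
          intro y hy
          rw [mem_biUnion] at hy
          obtain ⟨q, _, hq⟩ := hy
          exact (mem_TF.mp hN.1).supp q hq
        · intro R hR
          rw [mem_filter] at hR
          have h3 := card_le_del (((TF W).filter (fun N => (Q.biUnion N).card < b)).filter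
              (fun N => Q.biUnion N = R))
            (fun N hN => (mem_TF.mp (mem_filter.mp (mem_filter.mp hN).1).1).symm) Q (TF (W \ Q))
            (fun N hN => mem_TF.mpr ((mem_TF.mp (mem_filter.mp (mem_filter.mp hN).1).1).del Q))
            (fun _ _ => R.powerset) (pw b) (pw_nonneg _)
            (by
              intro N hN x hx
              rw [mem_filter] at hN
              rw [mem_powerset, ← hN.2]
              exact subset_biUnion_of_mem N hx)
            (by
              intro _ _ _ _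
              rw [card_powerset]
              push_cast
              rw [← pw_nat]
              apply pw_mono
              exact_mod_cast hR.2.le)
          rw [hQc] at h3
          exact h3.trans (mul_le_mul_of_nonneg_left (hfb Q hQ) (pow_nonneg (pw_nonneg _) _))
      refine h2.trans ?_
      apply mul_le_mul_of_nonneg_left
      · have h4 : (W.powerset.filter (fun R => R.card < b)).card ≤ 2 ^ W.card := by
          rw [← card_powerset]
          exact card_filter_le _ _
        calc ((W.powerset.filter (fun R => R.card < b)).card : ℝ) ≤ ((2 ^ W.card : ℕ) : ℝ) := by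
              exact_mod_cast h4
          _ = pw W.card := by rw [pw_nat]; push_cast; rfl
          _ ≤ pw n := pw_mono (by exact_mod_cast hn)
      · exact mul_nonneg (pow_nonneg (pw_nonneg _) _) hfb0
  refine h1.trans ?_
  apply mul_le_mul_of_nonneg_left (card_powersetCard_le_pw W k n hn)
  exact mul_nonneg (mul_nonneg (pow_nonneg (pw_nonneg _) _) hfb0) (pw_nonneg _)

end Pool.Agent.Lib.MP_a8cbfa_co
end

section
set_option autoImplicit false
set_option linter.unusedSectionVars false

open Finset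

namespace Pool.Agent.Lib.MP_a8cbfa_co

variable {α : Type*} [Fintype α] [DecidableEq α]

/-- The number of disjoint pairs `(S, T)` of subsets of `W` avoiding `A` and `B`. -/
lemma card_pairs_le (W A B : Finset α) (hA : A ⊆ W) (hB : B ⊆ W) :
    (((W.powerset ×ˢ W.powerset).filter (fun p => Disjoint p.1 A ∧ Disjoint p.2 B ∧
      Disjoint p.1 p.2)).card : ℝ) ≤
      3 ^ W.card * (2 / 3) ^ A.card * (2 / 3) ^ B.card * (3 / 4) ^ (A ∩ B).card := by
  classical
  let O : α → Finset (Fin 3) := fun v =>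
    {0} ∪ (if v ∈ A then ∅ else {1}) ∪ (if v ∈ B then ∅ else {2})
  have h1 : ((W.powerset ×ˢ W.powerset).filter (fun p => Disjoint p.1 A ∧ Disjoint p.2 B ∧
      Disjoint p.1 p.2)).card ≤ (Fintype.piFinset (fun v : W => O v.val)).card := by
    apply card_le_card_of_injOn (fun p (v : W) => if v.val ∈ p.1 then (1 : Fin 3)
      else if v.val ∈ p.2 then 2 else 0)
    · intro p hp
      rw [coe_filter, Set.mem_ofPred_eq] at hp
      rw [mem_coe, Fintype.mem_piFinset]
      obtain ⟨_, h2, h3, h4⟩ := hp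
      intro v
      simp only [O]
      by_cases hv1 : v.val ∈ p.1
      · have : v.val ∉ A := fun h => (disjoint_left.mp h2) hv1 h
        simp [hv1, this]
      · by_cases hv2 : v.val ∈ p.2
        · have : v.val ∉ B := fun h => (disjoint_left.mp h3) hv2 h
          simp [hv1, hv2, this]
        · simp [hv1, hv2]
    · intro p hp q hq hpq
      rw [coe_filter, Set.mem_ofPred_eq, mem_product, mem_powerset, mem_powerset] at hp hq
      obtain ⟨⟨hp1, hp2⟩, _, _, hp3⟩ := hp
      obtain ⟨⟨hq1, hq2⟩, _, _, hq3⟩ := hq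
      have key : ∀ v ∈ W, (v ∈ p.1 ↔ v ∈ q.1) ∧ (v ∈ p.2 ↔ v ∈ q.2) := by
        intro v hv
        have h5 := congrFun hpq ⟨v, hv⟩
        simp only at h5
        have h6 : v ∈ p.1 → v ∉ p.2 := fun h h' => (disjoint_left.mp hp3) h h'
        have h7 : v ∈ q.1 → v ∉ q.2 := fun h h' => (disjoint_left.mp hq3) h h'
        by_cases a1 : v ∈ p.1 <;> by_cases a2 : v ∈ p.2 <;> by_cases a3 : v ∈ q.1 <;>
          by_cases a4 : v ∈ q.2 <;> simp [a1, a2, a3, a4] at h5 h6 h7 ⊢
      apply Prod.ext
      · ext v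
        constructor
        · intro h; exact ((key v (hp1 h)).1).mp h
        · intro h; exact ((key v (hq1 h)).1).mpr h
      · ext v
        constructor
        · intro h; exact ((key v (hp2 h)).2).mp h
        · intro h; exact ((key v (hq2 h)).2).mpr h
  have h2 : ((Fintype.piFinset (fun v : W => O v.val)).card : ℝ) =
      3 ^ W.card * (2 / 3) ^ A.card * (2 / 3) ^ B.card * (3 / 4) ^ (A ∩ B).card := by
    rw [Fintype.card_piFinset, prod_coe_sort W (fun v => (O v).card)]
    push_cast
    have h3 : ∀ v ∈ W, ((O v).card : ℝ) = 3 * (if v ∈ A then 2 / 3 else 1) *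
        (if v ∈ B then 2 / 3 else 1) * (if v ∈ A ∩ B then 3 / 4 else 1) := by
      intro v _
      simp only [O, mem_inter]
      by_cases a1 : v ∈ A <;> by_cases a2 : v ∈ B
      · simp only [a1, a2, if_true, and_self]
        norm_num
      · simp only [a1, a2, if_true, if_false, and_false]
        have : ({0} ∪ ∅ ∪ {2} : Finset (Fin 3)).card = 2 := by decide
        rw [this]; norm_num
      · simp only [a1, a2, if_true, if_false, false_and]
        have : ({0} ∪ {1} ∪ ∅ : Finset (Fin 3)).card = 2 := by decide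
        rw [this]; norm_num
      · simp only [a1, a2, if_false, false_and]
        have : ({0} ∪ {1} ∪ {2} : Finset (Fin 3)).card = 3 := by decide
        rw [this]; norm_num
    rw [prod_congr rfl h3]
    have hpow : ∀ (D : Finset α) (c : ℝ), D ⊆ W →
        ∏ v ∈ W, (if v ∈ D then c else 1) = c ^ D.card := by
      intro D c hD
      rw [prod_ite, prod_const_one, mul_one, prod_const, filter_mem_eq_inter,
        inter_eq_right.mpr hD]
    rw [prod_mul_distrib, prod_mul_distrib, prod_mul_distrib, prod_const,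
      hpow A _ hA, hpow B _ hB, hpow (A ∩ B) _ (inter_subset_left.trans hA)]
  calc _ ≤ ((Fintype.piFinset (fun v : W => O v.val)).card : ℝ) := by exact_mod_cast h1
    _ = _ := h2

/-- An edge `x y` with sets `P ⊆ N x`, `Q ⊆ N y` whose neighbourhoods are large and have a large
intersection. -/
structure PairCond (N : α → Finset α) (k a i : ℕ) (x y : α) (P Q : Finset α) : Prop where
  adj : y ∈ N x
  hP : P ⊆ N x
  hQ : Q ⊆ N y
  cP : P.card = k
  cQ : Q.card = k
  hA : a ≤ (P.biUnion (del N {x, y})).card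
  hB : a ≤ (Q.biUnion (del N {x, y})).card
  hI : i ≤ (P.biUnion (del N {x, y}) ∩ Q.biUnion (del N {x, y})).card

/-- Graphs from which `j` pairs as in `PairCond` can be removed successively. -/
noncomputable def clsD (k a i : ℕ) : ℕ → Finset α → Finset (α → Finset α)
  | 0, W => TF W
  | j + 1, W => @Finset.filter _ (fun N => ∃ x ∈ W, ∃ y ∈ W, ∃ P ∈ powersetCard k W,
      ∃ Q ∈ powersetCard k W, PairCond N k a i x y P Q ∧
        del N {x, y} ∈ clsD k a i j (W \ {x, y})) (Classical.decPred _) (TF W)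

lemma mem_clsD_succ {k a i j : ℕ} {W : Finset α} {N : α → Finset α} :
    N ∈ clsD k a i (j + 1) W ↔ N ∈ TF W ∧ ∃ x ∈ W, ∃ y ∈ W, ∃ P ∈ powersetCard k W,
      ∃ Q ∈ powersetCard k W, PairCond N k a i x y P Q ∧
        del N {x, y} ∈ clsD k a i j (W \ {x, y}) := by
  classical
  rw [clsD]
  exact @mem_filter _ _ (Classical.decPred _) _ _

lemma clsD_subset (k a i j : ℕ) (W : Finset α) : clsD k a i j W ⊆ TF W := by
  cases j with
  | zero => exact fun _ h => h
  | succ j => exact fun _ h => (mem_clsD_succ.mp h).1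

/-- One step of the recursion. -/
lemma card_clsD_succ (W : Finset α) (k a i j n : ℕ) (hn : W.card ≤ n) (fb : ℝ) (hfb0 : 0 ≤ fb)
    (hfb : ∀ x ∈ W, ∀ y ∈ W, x ≠ y → ((clsD k a i j (W \ {x, y})).card : ℝ) ≤ fb) :
    ((clsD k a i (j + 1) W).card : ℝ) ≤
      (3 ^ W.card * (2 / 3) ^ a * (2 / 3) ^ a * (3 / 4) ^ i) * fb * pw (2 * (k + 1) * lg n) := by
  classical
  set R : ℝ := 3 ^ W.card * (2 / 3) ^ a * (2 / 3) ^ a * (3 / 4) ^ i with hR
  have hR0 : 0 ≤ R := by positivity
  set T := W ×ˢ W ×ˢ powersetCard k W ×ˢ powersetCard k W with hT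
  have h1 : ((clsD k a i (j + 1) W).card : ℝ) ≤ (R * fb) * T.card := by
    apply card_le_union (fun b : α × α × Finset α × Finset α => (TF W).filter (fun N =>
      PairCond N k a i b.1 b.2.1 b.2.2.1 b.2.2.2 ∧
        del N {b.1, b.2.1} ∈ clsD k a i j (W \ {b.1, b.2.1})))
    · intro N hN
      rw [mem_clsD_succ] at hN
      obtain ⟨hN1, x, hx, y, hy, P, hP, Q, hQ, hc⟩ := hN
      refine ⟨(x, y, P, Q), ?_, mem_filter.mpr ⟨hN1, hc⟩⟩
      rw [hT, mem_product, mem_product, mem_product]
      exact ⟨hx, hy, hP, hQ⟩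
    · rintro ⟨x, y, P, Q⟩ hb
      rw [hT, mem_product, mem_product, mem_product] at hb
      obtain ⟨hx, hy, hP, hQ⟩ := hb
      simp only at hx hy hP hQ ⊢
      by_cases hxy : x = y
      · have : (TF W).filter (fun N => PairCond N k a i x y P Q ∧
            del N {x, y} ∈ clsD k a i j (W \ {x, y})) = ∅ := by
          rw [filter_eq_empty_iff]
          rintro N hN ⟨hc, _⟩
          subst hxy
          exact (mem_TF.mp hN).irrefl x hc.adj
        rw [this]
        simp only [card_empty, Nat.cast_zero]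
        exact mul_nonneg hR0 hfb0
      · have h2 : (((TF W).filter (fun N => PairCond N k a i x y P Q ∧
            del N {x, y} ∈ clsD k a i j (W \ {x, y}))).card : ℝ) ≤
            R * (clsD k a i j (W \ {x, y})).card := by
          apply card_le_real (fun N => del N {x, y})
          · intro N hN
            exact (mem_filter.mp hN).2.2
          · intro H hH
            -- the fibre embeds into the pairs of disjoint sets
            by_cases hcond : a ≤ (P.biUnion H).card ∧ a ≤ (Q.biUnion H).card ∧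
                i ≤ (P.biUnion H ∩ Q.biUnion H).card
            · obtain ⟨hc1, hc2, hc3⟩ := hcond
              have hHT : IsTF (W \ {x, y}) H := mem_TF.mp (clsD_subset _ _ _ _ _ hH)
              have hsub : ∀ Z : Finset α, Z.biUnion H ⊆ W := by
                intro Z v hv
                rw [mem_biUnion] at hv
                obtain ⟨z, _, hz⟩ := hv
                exact (mem_sdiff.mp (hHT.supp z hz)).1
              have h3 : (((TF W).filter (fun N => PairCond N k a i x y P Q ∧
                  del N {x, y} ∈ clsD k a i j (W \ {x, y}))).filter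
                    (fun N => del N {x, y} = H)).card ≤
                  ((W.powerset ×ˢ W.powerset).filter (fun p => Disjoint p.1 (P.biUnion H) ∧
                    Disjoint p.2 (Q.biUnion H) ∧ Disjoint p.1 p.2)).card := by
                apply card_le_card_of_injOn (fun N => (N x, N y))
                · intro N hN
                  rw [coe_filter, Set.mem_ofPred_eq, mem_filter] at hN
                  obtain ⟨⟨hN1, hN2, _⟩, hN3⟩ := hN
                  have hTF := mem_TF.mp hN1
                  rw [coe_filter, Set.mem_ofPred_eq, mem_product, mem_powerset, mem_powerset]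
                  refine ⟨⟨hTF.supp x, hTF.supp y⟩, ?_, ?_, hTF.disj x y hN2.adj⟩
                  · rw [disjoint_left]
                    intro v hv hv2
                    rw [mem_biUnion] at hv2
                    obtain ⟨q, hq, hvq⟩ := hv2
                    rw [← hN3, mem_del] at hvq
                    have h4 := hTF.disj x q (hN2.hP hq)
                    exact (disjoint_left.mp h4) hv hvq.2.1
                  · rw [disjoint_left]
                    intro v hv hv2
                    rw [mem_biUnion] at hv2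
                    obtain ⟨q, hq, hvq⟩ := hv2
                    rw [← hN3, mem_del] at hvq
                    have h4 := hTF.disj y q (hN2.hQ hq)
                    exact (disjoint_left.mp h4) hv hvq.2.1
                · intro N hN N' hN' hNN'
                  rw [coe_filter, Set.mem_ofPred_eq, mem_filter] at hN hN'
                  have e1 : N x = N' x := congrArg Prod.fst hNN'
                  have e2 : N y = N' y := congrArg Prod.snd hNN'
                  apply eq_of_del (mem_TF.mp hN.1.1).symm (mem_TF.mp hN'.1.1).symm {x, y}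
                    (hN.2.trans hN'.2.symm)
                  intro z hz
                  rw [mem_insert, mem_singleton] at hz
                  rcases hz with rfl | rfl
                  · exact e1
                  · exact e2
              have h4 := card_pairs_le W (P.biUnion H) (Q.biUnion H) (hsub P) (hsub Q)
              have h5 : (3 : ℝ) ^ W.card * (2 / 3) ^ (P.biUnion H).card *
                  (2 / 3) ^ (Q.biUnion H).card * (3 / 4) ^ (P.biUnion H ∩ Q.biUnion H).card ≤
                  R := by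
                rw [hR]
                have g1 : ((2 : ℝ) / 3) ^ (P.biUnion H).card ≤ (2 / 3) ^ a :=
                  pow_le_pow_of_le_one (by norm_num) (by norm_num) hc1
                have g2 : ((2 : ℝ) / 3) ^ (Q.biUnion H).card ≤ (2 / 3) ^ a :=
                  pow_le_pow_of_le_one (by norm_num) (by norm_num) hc2
                have g3 : ((3 : ℝ) / 4) ^ (P.biUnion H ∩ Q.biUnion H).card ≤ (3 / 4) ^ i :=
                  pow_le_pow_of_le_one (by norm_num) (by norm_num) hc3
                gcongr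
              calc _ ≤ (((W.powerset ×ˢ W.powerset).filter (fun p =>
                    Disjoint p.1 (P.biUnion H) ∧ Disjoint p.2 (Q.biUnion H) ∧
                      Disjoint p.1 p.2)).card : ℝ) := by exact_mod_cast h3
                _ ≤ _ := h4
                _ ≤ R := h5
            · have h3 : (((TF W).filter (fun N => PairCond N k a i x y P Q ∧
                  del N {x, y} ∈ clsD k a i j (W \ {x, y}))).filter
                    (fun N => del N {x, y} = H)) = ∅ := by
                rw [filter_eq_empty_iff]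
                intro N hN hN2
                rw [mem_filter] at hN
                apply hcond
                rw [← hN2]
                exact ⟨hN.2.1.hA, hN.2.1.hB, hN.2.1.hI⟩
              rw [h3]
              simpa using hR0
        exact h2.trans (mul_le_mul_of_nonneg_left (hfb x hx y hy hxy) hR0)
  refine h1.trans ?_
  apply mul_le_mul_of_nonneg_left _ (mul_nonneg hR0 hfb0)
  have hW : (W.card : ℝ) ≤ pw (lg n) := by
    rw [pw_lg]
    have : (W.card : ℝ) ≤ n := by exact_mod_cast hn
    linarith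
  have hP := card_powersetCard_le_pw W k n hn
  rw [hT, card_product, card_product, card_product]
  push_cast
  calc (W.card : ℝ) * (W.card * ((powersetCard k W).card * (powersetCard k W).card)) ≤
      pw (lg n) * (pw (lg n) * (pw (k * lg n) * pw (k * lg n))) := by
        gcongr
        · exact pw_nonneg _
        · exact pw_nonneg _
        · exact pw_nonneg _
    _ = pw (2 * (k + 1) * lg n) := by
        rw [← pw_add, ← pw_add, ← pw_add]
        congr 1
        ring

/-- Iterating. -/
lemma card_clsD_le (k a i n : ℕ) (M : ℝ) (hM : 0 ≤ M) (ρ : ℝ) (hρ0 : 0 ≤ ρ)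
    (hρ : (3 / 2 : ℝ) ^ n * (2 / 3) ^ a * (2 / 3) ^ a * (3 / 4) ^ i ≤ ρ) (j : ℕ) (W : Finset α)
    (hn : W.card ≤ n)
    (hTF : ∀ W' ⊆ W, ((TF W').card : ℝ) ≤ M * pw ((W'.card : ℝ) ^ 2 / 4 + 2 * W'.card)) :
    ((clsD k a i j W).card : ℝ) ≤
      (ρ * pw (2 * (k + 1) * lg n)) ^ j * (M * pw ((W.card : ℝ) ^ 2 / 4 + 2 * W.card)) := by
  induction j generalizing W with
  | zero =>
    simp only [pow_zero, one_mul]
    exact hTF W Subset.rfl
  | succ j ih =>
    set κ := pw (2 * (k + 1) * lg n) with hκ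
    have hκ0 : 0 ≤ κ := pw_nonneg _
    have hstep := card_clsD_succ W k a i j n hn
      ((ρ * κ) ^ j * (M * pw (((W.card : ℝ) - 2) ^ 2 / 4 + 2 * ((W.card : ℝ) - 2))))
      (by have := pw_nonneg (((W.card : ℝ) - 2) ^ 2 / 4 + 2 * ((W.card : ℝ) - 2)); positivity) (by
        intro x hx y hy hxy
        have hsub : ({x, y} : Finset α) ⊆ W := by
          intro z hz
          rw [mem_insert, mem_singleton] at hz
          rcases hz with rfl | rfl <;> assumption
        have hc2 : ({x, y} : Finset α).card = 2 := card_pair hxy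
        have hcard : ((W \ {x, y}).card : ℝ) = (W.card : ℝ) - 2 := by
          rw [card_sdiff_of_subset hsub, hc2, Nat.cast_sub (by rw [← hc2]; exact card_le_card hsub)]
          norm_num
        have := ih (W \ {x, y}) ((card_le_card sdiff_subset).trans hn)
          (fun W' hW' => hTF W' (hW'.trans sdiff_subset))
        rwa [hcard] at this)
    refine hstep.trans ?_
    have e1 : (3 : ℝ) ^ W.card = 2 ^ W.card * (3 / 2) ^ W.card := by
      rw [← mul_pow]; norm_num
    have e2 : (3 / 2 : ℝ) ^ W.card ≤ (3 / 2) ^ n := pow_le_pow_right₀ (by norm_num) hn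
    have e3 : (3 : ℝ) ^ W.card * (2 / 3) ^ a * (2 / 3) ^ a * (3 / 4) ^ i ≤ 2 ^ W.card * ρ := by
      calc (3 : ℝ) ^ W.card * (2 / 3) ^ a * (2 / 3) ^ a * (3 / 4) ^ i =
          2 ^ W.card * ((3 / 2) ^ W.card * (2 / 3) ^ a * (2 / 3) ^ a * (3 / 4) ^ i) := by
            rw [e1]; ring
        _ ≤ 2 ^ W.card * ((3 / 2) ^ n * (2 / 3) ^ a * (2 / 3) ^ a * (3 / 4) ^ i) := by
            gcongr
        _ ≤ 2 ^ W.card * ρ := by gcongr
    set B := pw (((W.card : ℝ) - 2) ^ 2 / 4 + 2 * ((W.card : ℝ) - 2)) with hB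
    have hB0 : 0 ≤ B := pw_nonneg _
    have e4 : (2 : ℝ) ^ W.card * B ≤ pw ((W.card : ℝ) ^ 2 / 4 + 2 * W.card) := by
      rw [← pw_nat, hB, ← pw_add]
      apply pw_mono
      nlinarith
    calc (3 : ℝ) ^ W.card * (2 / 3) ^ a * (2 / 3) ^ a * (3 / 4) ^ i * ((ρ * κ) ^ j * (M * B)) * κ ≤
        2 ^ W.card * ρ * ((ρ * κ) ^ j * (M * B)) * κ := by gcongr
      _ = (ρ * κ) ^ (j + 1) * (M * (2 ^ W.card * B)) := by ring
      _ ≤ (ρ * κ) ^ (j + 1) * (M * pw ((W.card : ℝ) ^ 2 / 4 + 2 * W.card)) := by gcongr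

end Pool.Agent.Lib.MP_a8cbfa_co
end

section
set_option autoImplicit false
set_option linter.unusedSectionVars false

open Finset

namespace Pool.Agent.Lib.MP_a8cbfa_co

variable {α : Type*} [Fintype α] [DecidableEq α]

/-- Symmetric-difference distance. -/
def sd (A B : Finset α) : ℕ := (symmDiff A B).card

lemma sd_comm (A B : Finset α) : sd A B = sd B A := by
  unfold sd; rw [symmDiff_comm]

lemma sd_triangle (A B C : Finset α) : sd A C ≤ sd A B + sd B C := by
  unfold sd
  have h : symmDiff A C ⊆ symmDiff A B ∪ symmDiff B C := symmDiff_triangle A B C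
  exact (card_le_card h).trans (card_union_le _ _)

lemma sd_compl {W A B : Finset α} (hA : A ⊆ W) (hB : B ⊆ W) : sd (W \ A) (W \ B) = sd A B := by
  unfold sd
  congr 1
  ext x
  simp only [mem_symmDiff, mem_sdiff]
  have h1 := @hA x
  have h2 := @hB x
  tauto

lemma sd_compl_left {W A B : Finset α} (hA : A ⊆ W) (hB : B ⊆ W) :
    sd (W \ A) B = sd A (W \ B) := by
  unfold sd
  congr 1
  ext x
  simp only [mem_symmDiff, mem_sdiff]
  have h1 := @hA x
  have h2 := @hB x
  tauto

lemma sd_self_compl {W A : Finset α} (hA : A ⊆ W) : sd A (W \ A) = W.card := by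
  unfold sd
  congr 1
  ext x
  simp only [mem_symmDiff, mem_sdiff]
  have h1 := @hA x
  tauto

lemma inter_card_le_sd {W A B : Finset α} : (A ∩ B).card ≤ sd A (W \ B) := by
  unfold sd
  apply card_le_card
  intro x
  simp only [mem_symmDiff, mem_sdiff, mem_inter]
  tauto

lemma sd_le_of_inter {W A B : Finset α} (hA : A ⊆ W) (hB : B ⊆ W) (i b ε : ℕ)
    (hi : (A ∩ B).card ≤ i) (hbA : b ≤ A.card) (hbB : b ≤ B.card)
    (hε : W.card + 2 * i ≤ ε + 2 * b) : sd A (W \ B) ≤ ε := by
  unfold sd
  have h1 : symmDiff A (W \ B) = (A ∩ B) ∪ (W \ (A ∪ B)) := by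
    ext x
    simp only [mem_symmDiff, mem_sdiff, mem_inter, mem_union]
    have h1 := @hA x
    have h2 := @hB x
    tauto
  rw [h1]
  have h2 : (A ∪ B).card + (A ∩ B).card = A.card + B.card := card_union_add_card_inter A B
  have h3 : (W \ (A ∪ B)).card = W.card - (A ∪ B).card :=
    card_sdiff_of_subset (union_subset hA hB)
  have h4 := card_union_le (A ∩ B) (W \ (A ∪ B))
  have h5 : (A ∪ B).card ≤ W.card := card_le_card (union_subset hA hB)
  omega

/-- No edge satisfies the pair condition. -/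
def NoPair (N : α → Finset α) (k a i : ℕ) : Prop :=
  ∀ x y P Q, ¬ PairCond N k a i x y P Q

lemma del_empty (N : α → Finset α) : del N ∅ = N := by
  funext x
  ext y
  simp [mem_del]

lemma clsD_or_noPair (k a i j : ℕ) (W : Finset α) (N : α → Finset α) (hN : IsTF W N) :
    N ∈ clsD k a i j W ∨ ∃ X ⊆ W, X.card ≤ 2 * j ∧ NoPair (del N X) k a i := by
  induction j generalizing W N with
  | zero => exact Or.inl (mem_TF.mpr hN)
  | succ j ih =>
    by_cases h : NoPair N k a i
    · right
      exact ⟨∅, empty_subset _, by simp, by rw [del_empty]; exact h⟩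
    · unfold NoPair at h
      push Not at h
      obtain ⟨x, y, P, Q, hc⟩ := h
      have hxW : x ∈ W := hN.mem_left hc.adj
      have hyW : y ∈ W := hN.supp x hc.adj
      have hsub : ({x, y} : Finset α) ⊆ W := by
        intro z hz
        rw [mem_insert, mem_singleton] at hz
        rcases hz with rfl | rfl <;> assumption
      rcases ih (W \ {x, y}) (del N {x, y}) (hN.del _) with h1 | ⟨X, hX, hXc, hXn⟩
      · left
        rw [mem_clsD_succ]
        refine ⟨mem_TF.mpr hN, x, hxW, y, hyW, P, ?_, Q, ?_, hc, h1⟩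
        · exact mem_powersetCard.mpr ⟨hc.hP.trans (hN.supp x), hc.cP⟩
        · exact mem_powersetCard.mpr ⟨hc.hQ.trans (hN.supp y), hc.cQ⟩
      · right
        refine ⟨{x, y} ∪ X, union_subset hsub (hX.trans sdiff_subset), ?_, ?_⟩
        · have h2 := card_union_le {x, y} X
          have h3 : ({x, y} : Finset α).card ≤ 2 := card_le_two
          omega
        · rw [← del_del]; exact hXn

/-- The core argument producing a bipartition. -/
lemma bip_abstract (W : Finset α) (H : α → Finset α) (hH : IsTF W H) (k b i ε : ℕ)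
    (hdeg : ∀ y ∈ W, 2 * k + 2 ≤ (H y).card)
    (hexp : ∀ Q ⊆ W, Q.card = k → b ≤ (Q.biUnion H).card)
    (hpair : ∀ y z P Q, z ∈ H y → P ⊆ (H y).erase z → Q ⊆ (H z).erase y → P.card = k →
      Q.card = k → (P.biUnion H ∩ Q.biUnion H).card ≤ i)
    (h1 : W.card + 2 * i ≤ ε + 2 * b) (h2 : 45 * ε < W.card) (h3 : 5 * ε + W.card < 3 * b) :
    ∃ U V : Finset α, U ∪ V = W ∧ Disjoint U V ∧ (∀ u ∈ U, Disjoint (H u) U) ∧
      (∀ v ∈ V, Disjoint (H v) V) := by
  classical
  have hbi : ∀ Q : Finset α, Q.biUnion H ⊆ W := by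
    intro Q v hv
    rw [mem_biUnion] at hv
    obtain ⟨q, _, hq⟩ := hv
    exact hH.supp q hq
  have hHW : ∀ y, H y ⊆ W := hH.supp
  -- choosing k-subsets
  have hchoose : ∀ (S : Finset α), k ≤ S.card → ∃ Q ⊆ S, Q.card = k := fun S hS =>
    exists_subset_card_eq hS
  -- basic estimate
  have hbase : ∀ y z P Q, z ∈ H y → P ⊆ (H y).erase z → Q ⊆ (H z).erase y → P.card = k →
      Q.card = k → sd (P.biUnion H) (W \ Q.biUnion H) ≤ ε := by
    intro y z P Q hz hP hQ hPc hQc
    apply sd_le_of_inter (hbi P) (hbi Q) i b ε (hpair y z P Q hz hP hQ hPc hQc) _ _ h1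
    · exact hexp P (hP.trans ((erase_subset _ _).trans (hHW y))) hPc
    · exact hexp Q (hQ.trans ((erase_subset _ _).trans (hHW z))) hQc
  have hE : ∀ y z, y ∈ W → ∃ Q ⊆ (H y).erase z, Q.card = k := by
    intro y z hy
    apply hchoose
    have := hdeg y hy
    have h4 := pred_card_le_card_erase (s := H y) (a := z)
    omega
  -- (a) two choices at the same vertex
  have ha : ∀ y P P', y ∈ W → P ⊆ H y → P' ⊆ H y → P.card = k → P'.card = k →
      sd (P.biUnion H) (P'.biUnion H) ≤ 2 * ε := by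
    intro y P P' hy hP hP' hPc hPc'
    have hd := hdeg y hy
    obtain ⟨z, hz, hz2⟩ : ∃ z ∈ H y, z ∉ P ∪ P' := by
      by_contra hcon
      push Not at hcon
      have := card_le_card (show H y ⊆ P ∪ P' from hcon)
      have h5 := card_union_le P P'
      omega
    rw [mem_union, not_or] at hz2
    obtain ⟨Q, hQ, hQc⟩ := hE z y (hHW y hz)
    have e1 := hbase y z P Q hz (subset_erase.mpr ⟨hP, hz2.1⟩) hQ hPc hQc
    have e2 := hbase y z P' Q hz (subset_erase.mpr ⟨hP', hz2.2⟩) hQ hPc' hQc
    have e3 := sd_triangle (P.biUnion H) (W \ Q.biUnion H) (P'.biUnion H)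
    rw [sd_comm (W \ Q.biUnion H)] at e3
    omega
  -- (b) arbitrary choices on an edge
  have hb : ∀ y z P Q, z ∈ H y → P ⊆ H y → Q ⊆ H z → P.card = k → Q.card = k →
      sd (P.biUnion H) (W \ Q.biUnion H) ≤ 5 * ε := by
    intro y z P Q hz hP hQ hPc hQc
    have hyW : y ∈ W := hH.mem_left hz
    have hzW : z ∈ W := hHW y hz
    obtain ⟨P', hP', hPc'⟩ := hE y z hyW
    obtain ⟨Q', hQ', hQc'⟩ := hE z y hzW
    have e1 := ha y P P' hyW hP (hP'.trans (erase_subset _ _)) hPc hPc'
    have e2 := hbase y z P' Q' hz hP' hQ' hPc' hQc'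
    have e3 := ha z Q' Q hzW (hQ'.trans (erase_subset _ _)) hQ hQc' hQc
    have e4 := sd_triangle (P.biUnion H) (P'.biUnion H) (W \ Q.biUnion H)
    have e5 := sd_triangle (P'.biUnion H) (W \ Q'.biUnion H) (W \ Q.biUnion H)
    rw [sd_compl (hbi Q') (hbi Q)] at e5
    omega
  rcases W.eq_empty_or_nonempty with hW | ⟨x0, hx0⟩
  · exact ⟨∅, ∅, by simp [hW], by simp, by simp, by simp⟩
  -- a fixed choice at every vertex
  have hch : ∀ y, ∃ Q, y ∈ W → (Q ⊆ H y ∧ Q.card = k) := by
    intro y
    by_cases hy : y ∈ W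
    · obtain ⟨Q, hQ, hQc⟩ := hchoose (H y) (by have := hdeg y hy; omega)
      exact ⟨Q, fun _ => ⟨hQ, hQc⟩⟩
    · exact ⟨∅, fun h => absurd h hy⟩
  choose Q hQ using hch
  set R : α → Finset α := fun y => (Q y).biUnion H with hR
  have hRW : ∀ y, R y ⊆ W := fun y => hbi _
  have hRb : ∀ y ∈ W, b ≤ (R y).card := fun y hy =>
    hexp (Q y) ((hQ y hy).1.trans (hHW y)) (hQ y hy).2
  have hadj : ∀ y z, z ∈ H y → sd (R y) (W \ R z) ≤ 5 * ε := by
    intro y z hz
    have hyW : y ∈ W := hH.mem_left hz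
    have hzW : z ∈ W := hHW y hz
    exact hb y z (Q y) (Q z) hz (hQ y hyW).1 (hQ z hzW).1 (hQ y hyW).2 (hQ z hzW).2
  have hc : ∀ y v, y ∈ W → v ∈ R y → sd (R y) (R v) ≤ 10 * ε := by
    intro y v hy hv
    rw [hR] at hv
    simp only [mem_biUnion] at hv
    obtain ⟨q, hq, hvq⟩ := hv
    have e1 := hadj y q ((hQ y hy).1 hq)
    have e2 := hadj q v hvq
    have e3 := sd_triangle (R y) (W \ R q) (R v)
    rw [sd_compl_left (hRW q) (hRW v)] at e3
    omega
  refine ⟨W.filter (fun y => (R y ∩ R x0).Nonempty), W.filter (fun y => ¬ (R y ∩ R x0).Nonempty),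
    filter_union_filter_not_eq _ _, disjoint_filter_filter_not _ _ _, ?_, ?_⟩
  · intro y hy
    rw [disjoint_left]
    intro z hz hz2
    rw [mem_filter] at hy hz2
    have near : ∀ w ∈ W, (R w ∩ R x0).Nonempty → sd (R w) (R x0) ≤ 20 * ε := by
      rintro w hw ⟨v, hv⟩
      rw [mem_inter] at hv
      have e1 := hc w v hw hv.1
      have e2 := hc x0 v hx0 hv.2
      have e3 := sd_triangle (R w) (R v) (R x0)
      rw [sd_comm (R v)] at e3
      omega
    have e1 := near y hy.1 hy.2
    have e2 := near z hz2.1 hz2.2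
    have e3 := hadj y z hz
    have e4 := sd_triangle (R z) (R x0) (R y)
    have e5 := sd_triangle (R z) (R y) (W \ R z)
    rw [sd_comm (R x0)] at e4
    have e6 := sd_self_compl (hRW z)
    omega
  · intro y hy
    rw [disjoint_left]
    intro z hz hz2
    rw [mem_filter, not_nonempty_iff_eq_empty] at hy hz2
    have e3 := hadj y z hz
    have e4 : (R y ∩ R z).card ≤ sd (R y) (W \ R z) := inter_card_le_sd
    have sub : ∀ w, R w ∩ R x0 = ∅ → R w ⊆ W \ R x0 := by
      intro w hw v hv
      rw [mem_sdiff]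
      refine ⟨hRW w hv, fun h => ?_⟩
      have : v ∈ R w ∩ R x0 := mem_inter.mpr ⟨hv, h⟩
      rw [hw] at this
      simp at this
    have e5 : (R y ∪ R z).card ≤ (W \ R x0).card :=
      card_le_card (union_subset (sub y hy.2) (sub z hz2.2))
    have e6 : (W \ R x0).card = W.card - (R x0).card := card_sdiff_of_subset (hRW x0)
    have e7 := card_union_add_card_inter (R y) (R z)
    have e8 := hRb y hy.1
    have e9 := hRb z hz2.1
    have e10 := hRb x0 hx0
    have e11 : (R x0).card ≤ W.card := card_le_card (hRW x0)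
    omega

end Pool.Agent.Lib.MP_a8cbfa_co
end

section
set_option autoImplicit false
set_option linter.unusedSectionVars false

open Finset

namespace Pool.Agent.Lib.MP_a8cbfa_co

variable {α : Type*} [Fintype α] [DecidableEq α]

/-- Graphs outside the classes A, B, D are bipartite up to at most `3 k` vertices. -/
lemma structure_of_not (W : Finset α) (N : α → Finset α) (k d b a i ε : ℕ) (hN : IsTF W N)
    (hA : N ∉ clsA W k d) (hB : N ∉ clsB W k b) (hD : N ∉ clsD k a i k W)
    (hd : 5 * k + 2 ≤ d) (hab : a + 3 * k + 2 ≤ b)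
    (h1 : W.card + 2 * (i + 2) + 6 * k ≤ ε + 2 * b) (h2 : 45 * ε + 3 * k < W.card)
    (h3 : 5 * ε + W.card + 9 * k < 3 * b) (h4 : 5 * k ≤ W.card) :
    ∃ E U V : Finset α, E ⊆ W ∧ E.card ≤ 3 * k ∧ U ∪ V = W \ E ∧ Disjoint U V ∧
      (∀ u ∈ U, Disjoint (N u) U) ∧ (∀ v ∈ V, Disjoint (N v) V) ∧ b ≤ U.card + 3 * k ∧
      b ≤ V.card + 3 * k := by
  classical
  -- low-degree vertices
  set low := W.filter (fun x => (N x).card < d) with hlow
  have hlowc : low.card < k := by
    by_contra hcon
    push Not at hcon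
    obtain ⟨X, hX, hXc⟩ := exists_subset_card_eq hcon
    apply hA
    unfold clsA
    rw [mem_filter]
    refine ⟨mem_TF.mpr hN, X, mem_powersetCard.mpr ⟨hX.trans (filter_subset _ _), hXc⟩, ?_⟩
    intro x hx
    exact (mem_filter.mp (hX hx)).2
  obtain ⟨X, hXW, hXc, hXn⟩ : ∃ X ⊆ W, X.card ≤ 2 * k ∧ NoPair (del N X) k a i := by
    rcases clsD_or_noPair k a i k W N hN with h | h
    · exact absurd h hD
    · exact h
  set E := X ∪ low with hE
  have hEW : E ⊆ W := union_subset hXW (filter_subset _ _)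
  have hEc : E.card ≤ 3 * k := by
    have := card_union_le X low
    rw [hE]
    omega
  set H := del N E with hHdef
  have hH : IsTF (W \ E) H := hN.del E
  have hcardWE : (W \ E).card = W.card - E.card := card_sdiff_of_subset hEW
  have hEW' : E.card ≤ W.card := card_le_card hEW
  -- the removal of a set costs at most its cardinality
  have hrem : ∀ (S : Finset α), S.card - E.card ≤ (S \ E).card := fun S => le_card_sdiff E S
  have hdeg : ∀ y ∈ W \ E, 2 * k + 2 ≤ (H y).card := by
    intro y hy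
    rw [mem_sdiff] at hy
    have h4 : H y = N y \ E := by
      rw [hHdef]; unfold del; rw [if_neg hy.2]
    have h5 : d ≤ (N y).card := by
      by_contra hcon
      push Not at hcon
      apply hy.2
      rw [hE, mem_union]
      right
      rw [hlow, mem_filter]
      exact ⟨hy.1, hcon⟩
    have h6 := hrem (N y)
    rw [h4]
    omega
  have hexp : ∀ Q ⊆ W \ E, Q.card = k → b - 3 * k ≤ (Q.biUnion H).card := by
    intro Q hQ hQc
    have hQW : Q ∈ powersetCard k W := mem_powersetCard.mpr ⟨hQ.trans sdiff_subset, hQc⟩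
    have h4 : b ≤ (Q.biUnion N).card := by
      by_contra hcon
      push Not at hcon
      apply hB
      unfold clsB
      rw [mem_filter]
      exact ⟨mem_TF.mpr hN, Q, hQW, hcon⟩
    have h5 : Q.biUnion N \ E ⊆ Q.biUnion H := by
      intro v hv
      rw [mem_sdiff, mem_biUnion] at hv
      obtain ⟨⟨q, hq, hvq⟩, hvE⟩ := hv
      rw [mem_biUnion]
      exact ⟨q, hq, mem_del.mpr ⟨(mem_sdiff.mp (hQ hq)).2, hvq, hvE⟩⟩
    have h6 := hrem (Q.biUnion N)
    have h7 := card_le_card h5
    omega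
  have hpair : ∀ y z P Q, z ∈ H y → P ⊆ (H y).erase z → Q ⊆ (H z).erase y → P.card = k →
      Q.card = k → (P.biUnion H ∩ Q.biUnion H).card ≤ i + 2 := by
    intro y z P Q hz hP hQ hPc hQc
    have hyW : y ∈ W \ E := hH.mem_left hz
    have hzW : z ∈ W \ E := hH.supp y hz
    -- H is a subgraph of `del N X`
    have hHN : ∀ u, H u ⊆ del N X u := by
      intro u v hv
      rw [hHdef, mem_del] at hv
      rw [mem_del]
      exact ⟨fun h => hv.1 (mem_union_left _ h), hv.2.1, fun h => hv.2.2 (mem_union_left _ h)⟩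
    have key : ∀ (y z : α) (P : Finset α), P ⊆ (H y).erase z → y ∉ H y →
        P.biUnion H \ {y, z} ⊆ P.biUnion (del (del N X) {y, z}) := by
      intro y z P hP hyy v hv
      rw [mem_sdiff, mem_biUnion] at hv
      obtain ⟨⟨p, hp, hvp⟩, hv2⟩ := hv
      rw [mem_biUnion]
      refine ⟨p, hp, mem_del.mpr ⟨?_, hHN p hvp, hv2⟩⟩
      have := hP hp
      rw [mem_erase] at this
      rw [mem_insert, mem_singleton, not_or]
      exact ⟨fun e => hyy (e ▸ this.2), this.1⟩
    have k1 := key y z P hP (hH.irrefl y)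
    have k2 := key z y Q hQ (hH.irrefl z)
    rw [pair_comm z y] at k2
    have hpc : ({y, z} : Finset α).card ≤ 2 := card_le_two
    have s1 : (P.biUnion H).card - 2 ≤ (P.biUnion (del (del N X) {y, z})).card := by
      have := le_card_sdiff {y, z} (P.biUnion H)
      have := card_le_card k1
      omega
    have s2 : (Q.biUnion H).card - 2 ≤ (Q.biUnion (del (del N X) {y, z})).card := by
      have := le_card_sdiff {y, z} (Q.biUnion H)
      have := card_le_card k2
      omega
    have e1 := hexp P (hP.trans ((erase_subset _ _).trans (hH.supp y))) hPc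
    have e2 := hexp Q (hQ.trans ((erase_subset _ _).trans (hH.supp z))) hQc
    have hno := hXn y z P Q
    by_contra hcon
    push Not at hcon
    apply hno
    refine ⟨hHN y hz, hP.trans ((erase_subset _ _).trans (hHN y)),
      hQ.trans ((erase_subset _ _).trans (hHN z)), hPc, hQc, by omega, by omega, ?_⟩
    have s3 : (P.biUnion H ∩ Q.biUnion H) \ {y, z} ⊆
        P.biUnion (del (del N X) {y, z}) ∩ Q.biUnion (del (del N X) {y, z}) := by
      intro v hv
      rw [mem_sdiff, mem_inter] at hv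
      rw [mem_inter]
      exact ⟨k1 (mem_sdiff.mpr ⟨hv.1.1, hv.2⟩), k2 (mem_sdiff.mpr ⟨hv.1.2, hv.2⟩)⟩
    have s4 := card_le_card s3
    have s5 := le_card_sdiff {y, z} (P.biUnion H ∩ Q.biUnion H)
    omega
  obtain ⟨U, V, hUV, hdisj, hU, hV⟩ := bip_abstract (W \ E) H hH k (b - 3 * k) (i + 2) ε hdeg hexp
    hpair (by omega) (by omega) (by omega)
  have hback : ∀ S ⊆ W \ E, ∀ u ∈ S, Disjoint (H u) S → Disjoint (N u) S := by
    intro S hS u hu hd
    rw [disjoint_left] at hd ⊢
    intro v hv hvS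
    apply hd (a := v) _ hvS
    rw [hHdef, mem_del]
    exact ⟨(mem_sdiff.mp (hS hu)).2, hv, (mem_sdiff.mp (hS hvS)).2⟩
  have hU' : ∀ u ∈ U, Disjoint (N u) U := fun u hu =>
    hback U (hUV ▸ subset_union_left) u hu (hU u hu)
  have hV' : ∀ v ∈ V, Disjoint (N v) V := fun v hv =>
    hback V (hUV ▸ subset_union_right) v hv (hV v hv)
  -- a part with at least `k` elements forces the other part to be large
  have hbig : ∀ A B : Finset α, A ∪ B = W \ E → (∀ a ∈ A, Disjoint (N a) A) → k ≤ A.card →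
      b ≤ B.card + 3 * k := by
    intro A B hAB hA hk
    obtain ⟨Q, hQ, hQc⟩ := exists_subset_card_eq hk
    have hAW : A ⊆ W := (hAB ▸ subset_union_left : A ⊆ W \ E).trans sdiff_subset
    have e1 : b ≤ (Q.biUnion N).card := by
      by_contra hcon
      push Not at hcon
      apply hB
      unfold clsB
      rw [mem_filter]
      exact ⟨mem_TF.mpr hN, Q, mem_powersetCard.mpr ⟨hQ.trans hAW, hQc⟩, hcon⟩
    have e2 : Q.biUnion N ⊆ B ∪ E := by
      intro v hv
      rw [mem_biUnion] at hv
      obtain ⟨q, hq, hvq⟩ := hv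
      have hvW : v ∈ W := hN.supp q hvq
      have hvA : v ∉ A := disjoint_left.mp (hA q (hQ hq)) hvq
      rw [mem_union]
      by_cases hvE : v ∈ E
      · exact Or.inr hvE
      · left
        have : v ∈ A ∪ B := by rw [hAB, mem_sdiff]; exact ⟨hvW, hvE⟩
        rcases mem_union.mp this with h | h
        · exact absurd h hvA
        · exact h
    have e3 := (card_le_card e2).trans (card_union_le _ _)
    omega
  have hsum : U.card + V.card + E.card = W.card := by
    rw [← card_union_of_disjoint hdisj, hUV]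
    omega
  have hUk : k ≤ U.card ∨ k ≤ V.card := by omega
  have hVU : V ∪ U = W \ E := by rw [union_comm]; exact hUV
  have hboth : k ≤ U.card ∧ k ≤ V.card := by
    rcases hUk with h | h
    · have := hbig U V hUV hU' h
      exact ⟨h, by omega⟩
    · have := hbig V U hVU hV' h
      exact ⟨by omega, h⟩
  exact ⟨E, U, V, hEW, hEc, hUV, hdisj, hU', hV', hbig V U hVU hV' hboth.2,
    hbig U V hUV hU' hboth.1⟩

end Pool.Agent.Lib.MP_a8cbfa_co
end

section
set_option autoImplicit false
set_option linter.unusedSectionVars false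

open Finset

namespace Pool.Agent.Lib.MP_a8cbfa_co

variable {α : Type*} [Fintype α] [DecidableEq α]

/-- `N` is a triangle-free graph on `W`, bipartite with parts `U`, `V` outside `E`. -/
structure BipOn (W E U V : Finset α) (N : α → Finset α) : Prop where
  tf : IsTF W N
  hE : E ⊆ W
  union : U ∪ V = W \ E
  disj : Disjoint U V
  hU : ∀ u ∈ U, Disjoint (N u) U
  hV : ∀ v ∈ V, Disjoint (N v) V

/-- Expansion property: every set `T ⊆ V` with at least `s` elements is seen by all but fewer
than `k1` vertices of `U`. -/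
def Exp (N : α → Finset α) (U V : Finset α) (k1 s : ℕ) : Prop :=
  ∀ T ⊆ V, s ≤ T.card → (U.filter (fun u => 16 * (N u ∩ T).card < T.card)).card < k1

lemma BipOn.mem_cases {W E U V : Finset α} {N : α → Finset α} (h : BipOn W E U V N) {x : α}
    (hx : x ∈ W) : x ∈ E ∨ x ∈ U ∨ x ∈ V := by
  by_cases hE : x ∈ E
  · exact Or.inl hE
  · right
    have : x ∈ U ∪ V := by rw [h.union, mem_sdiff]; exact ⟨hx, hE⟩
    exact mem_union.mp this

lemma BipOn.eq_of_code {W E U V : Finset α} {N N' : α → Finset α} (h : BipOn W E U V N)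
    (h' : BipOn W E U V N') (hE : ∀ x ∈ E, N x = N' x) (hU : ∀ u ∈ U, N u ∩ V = N' u ∩ V) :
    N = N' := by
  -- one inclusion suffices by symmetry
  have main : ∀ {N N' : α → Finset α}, BipOn W E U V N → BipOn W E U V N' →
      (∀ x ∈ E, N x = N' x) → (∀ u ∈ U, N u ∩ V = N' u ∩ V) → ∀ x y, y ∈ N x → y ∈ N' x := by
    intro N N' h h' hE hU x y hy
    have hx : x ∈ W := h.tf.mem_left hy
    have hy' : y ∈ W := h.tf.supp x hy
    have hyx : x ∈ N y := h.tf.symm x y hy
    rcases h.mem_cases hx with hx1 | hx1 | hx1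
    · rw [← hE x hx1]; exact hy
    · rcases h.mem_cases hy' with hy1 | hy1 | hy1
      · apply h'.tf.symm
        rw [← hE y hy1]; exact hyx
      · exact absurd hy1 (disjoint_left.mp (h.hU x hx1) hy)
      · have : y ∈ N x ∩ V := mem_inter.mpr ⟨hy, hy1⟩
        rw [hU x hx1] at this
        exact (mem_inter.mp this).1
    · rcases h.mem_cases hy' with hy1 | hy1 | hy1
      · apply h'.tf.symm
        rw [← hE y hy1]; exact hyx
      · apply h'.tf.symm
        have : x ∈ N y ∩ V := mem_inter.mpr ⟨hyx, hx1⟩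
        rw [hU y hy1] at this
        exact (mem_inter.mp this).1
      · exact absurd hy1 (disjoint_left.mp (h.hV x hx1) hy)
  funext x
  ext y
  exact ⟨main h h' hE hU x y, main h' h (fun x hx => (hE x hx).symm) (fun u hu => (hU u hu).symm) x y⟩

/-- Product bound for graphs that are bipartite outside `E`. -/
lemma card_bip_le (W E U V : Finset α) (𝒢 : Finset (α → Finset α))
    (hbip : ∀ N ∈ 𝒢, BipOn W E U V N)
    (FU FE : α → Finset (Finset α)) (hFU : ∀ N ∈ 𝒢, ∀ u ∈ U, N u ∩ V ∈ FU u)
    (hFE : ∀ N ∈ 𝒢, ∀ x ∈ E, N x ∈ FE x) :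
    (𝒢.card : ℝ) ≤ (∏ u ∈ U, ((FU u).card : ℝ)) * ∏ x ∈ E, ((FE x).card : ℝ) := by
  classical
  have h1 : 𝒢.card ≤ ((Fintype.piFinset (fun u : U => FU u.val)) ×ˢ
      (Fintype.piFinset (fun x : E => FE x.val))).card := by
    apply card_le_card_of_injOn (fun N => ((fun u : U => N u.val ∩ V), (fun x : E => N x.val)))
    · intro N hN
      rw [mem_coe, mem_product, Fintype.mem_piFinset, Fintype.mem_piFinset]
      exact ⟨fun u => hFU N hN u.val u.2, fun x => hFE N hN x.val x.2⟩
    · intro N hN N' hN' hNN'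
      apply (hbip N hN).eq_of_code (hbip N' hN')
      · intro x hx
        exact congrFun (congrArg Prod.snd hNN') ⟨x, hx⟩
      · intro u hu
        exact congrFun (congrArg Prod.fst hNN') ⟨u, hu⟩
  rw [card_product, Fintype.card_piFinset, Fintype.card_piFinset,
    prod_coe_sort U (fun u => (FU u).card), prod_coe_sort E (fun x => (FE x).card)] at h1
  have h2 : (𝒢.card : ℝ) ≤ (((∏ u ∈ U, (FU u).card) * ∏ x ∈ E, (FE x).card : ℕ) : ℝ) := by
    exact_mod_cast h1
  push_cast at h2
  exact h2

/-- Subsets of `V` that meet `T` in a small part. -/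
lemma card_meet_small (V T : Finset α) (hT : T ⊆ V) :
    ((V.powerset.filter (fun S => 16 * (S ∩ T).card < T.card)).card : ℝ) ≤
      pw ((V.card : ℝ) - (T.card : ℝ) / 2) := by
  classical
  have h1 : (V.powerset.filter (fun S => 16 * (S ∩ T).card < T.card)).card ≤
      ((V \ T).powerset ×ˢ (T.powerset.filter (fun S => 16 * S.card < T.card))).card := by
    apply card_le_card_of_injOn (fun S => (S \ T, S ∩ T))
    · intro S hS
      rw [coe_filter, Set.mem_ofPred_eq, mem_powerset] at hS
      rw [mem_coe, mem_product, mem_powerset, mem_filter, mem_powerset]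
      exact ⟨sdiff_subset_sdiff hS.1 Subset.rfl, inter_subset_right, hS.2⟩
    · intro S _ S' _ h
      have e1 : S \ T = S' \ T := congrArg Prod.fst h
      have e2 : S ∩ T = S' ∩ T := congrArg Prod.snd h
      rw [← sdiff_union_inter S T, e1, e2, sdiff_union_inter]
  rw [card_product, card_powerset] at h1
  have h2 := card_frac16 T
  have h3 : ((V \ T).card : ℝ) = (V.card : ℝ) - T.card := by
    rw [card_sdiff_of_subset hT, Nat.cast_sub (card_le_card hT)]
  calc ((V.powerset.filter (fun S => 16 * (S ∩ T).card < T.card)).card : ℝ) ≤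
      ((2 ^ (V \ T).card * (T.powerset.filter (fun S => 16 * S.card < T.card)).card : ℕ) : ℝ) := by
        exact_mod_cast h1
    _ = pw ((V \ T).card) * (T.powerset.filter (fun S => 16 * S.card < T.card)).card := by
        rw [pw_nat]; push_cast; rfl
    _ ≤ pw ((V \ T).card) * pw ((T.card : ℝ) / 2) :=
        mul_le_mul_of_nonneg_left h2 (pw_nonneg _)
    _ = pw ((V.card : ℝ) - (T.card : ℝ) / 2) := by
        rw [← pw_add, h3]
        congr 1
        ring

open Classical in
/-- Graphs, bipartite outside `E`, for which expansion from `U` to `V` fails. -/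
noncomputable def failExp (W E U V : Finset α) (k1 s : ℕ) : Finset (α → Finset α) :=
  univ.filter (fun N => BipOn W E U V N ∧ ¬ Exp N U V k1 s)

lemma card_failExp (W E U V : Finset α) (k1 s n e : ℕ) (hn : W.card ≤ n) (he : E.card ≤ e)
    (hUW : U ⊆ W) (hVW : V ⊆ W) :
    ((failExp W E U V k1 s).card : ℝ) ≤
      pw ((U.card : ℝ) * V.card - (k1 : ℝ) * s / 2 + n * e + n + k1 * lg n) := by
  classical
  have hUn : U.card ≤ n := (card_le_card hUW).trans hn
  have hVn : V.card ≤ n := (card_le_card hVW).trans hn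
  set 𝒯 := (V.powerset.filter (fun T => s ≤ T.card)) ×ˢ powersetCard k1 U with h𝒯
  set c := pw ((U.card : ℝ) * V.card - (k1 : ℝ) * s / 2 + n * e) with hc
  have h1 : ((failExp W E U V k1 s).card : ℝ) ≤ c * 𝒯.card := by
    apply card_le_union (fun b => (failExp W E U V k1 s).filter (fun N =>
      ∀ u ∈ b.2, 16 * (N u ∩ b.1).card < b.1.card))
    · intro N hN
      have hN2 := hN
      unfold failExp at hN2
      rw [mem_filter] at hN2
      obtain ⟨_, hb, hx⟩ := hN2
      unfold Exp at hx
      push Not at hx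
      obtain ⟨T, hT, hs, hk⟩ := hx
      obtain ⟨Q, hQ, hQc⟩ := exists_subset_card_eq hk
      refine ⟨(T, Q), ?_, ?_⟩
      · rw [h𝒯, mem_product, mem_filter, mem_powerset, mem_powersetCard]
        exact ⟨⟨hT, hs⟩, hQ.trans (filter_subset _ _), hQc⟩
      · rw [mem_filter]
        exact ⟨hN, fun u hu => (mem_filter.mp (hQ hu)).2⟩
    · rintro ⟨T, Q⟩ hb
      rw [h𝒯, mem_product, mem_filter, mem_powerset, mem_powersetCard] at hb
      obtain ⟨⟨hT, hs⟩, hQ, hQc⟩ := hb
      simp only at hT hs hQ hQc ⊢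
      have h2 := card_bip_le W E U V ((failExp W E U V k1 s).filter (fun N =>
          ∀ u ∈ Q, 16 * (N u ∩ T).card < T.card))
        (by
          intro N hN
          rw [mem_filter] at hN
          have := hN.1
          unfold failExp at this
          exact (mem_filter.mp this).2.1)
        (fun u => if u ∈ Q then V.powerset.filter (fun S => 16 * (S ∩ T).card < T.card)
          else V.powerset)
        (fun _ => W.powerset)
        (by
          intro N hN u _
          rw [mem_filter] at hN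
          by_cases huQ : u ∈ Q
          · rw [if_pos huQ, mem_filter, mem_powerset]
            refine ⟨inter_subset_right, ?_⟩
            rw [inter_assoc, inter_eq_right.mpr hT]
            exact hN.2 u huQ
          · rw [if_neg huQ, mem_powerset]
            exact inter_subset_right)
        (by
          intro N hN x _
          rw [mem_filter] at hN
          have := hN.1
          unfold failExp at this
          rw [mem_powerset]
          exact (mem_filter.mp this).2.1.tf.supp x)
      refine h2.trans ?_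
      have h3 : ∏ u ∈ U, (((if u ∈ Q then V.powerset.filter (fun S => 16 * (S ∩ T).card < T.card)
          else V.powerset) : Finset (Finset α)).card : ℝ) ≤
          pw ((U.card : ℝ) * V.card - (k1 : ℝ) * s / 2) := by
        have h4 : ∀ u ∈ U, (((if u ∈ Q then V.powerset.filter (fun S =>
            16 * (S ∩ T).card < T.card) else V.powerset) : Finset (Finset α)).card : ℝ) ≤
            pw V.card * (if u ∈ Q then pw (-(s : ℝ) / 2) else 1) := by
          intro u _
          by_cases huQ : u ∈ Q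
          · rw [if_pos huQ, if_pos huQ, ← pw_add]
            refine (card_meet_small V T hT).trans (pw_mono ?_)
            have : (s : ℝ) ≤ T.card := by exact_mod_cast hs
            linarith
          · rw [if_neg huQ, if_neg huQ, card_powerset, mul_one, pw_nat]
            push_cast
            exact le_rfl
        refine (prod_le_prod (fun _ _ => Nat.cast_nonneg _) h4).trans (le_of_eq ?_)
        rw [prod_mul_distrib, prod_const, prod_ite, prod_const_one, mul_one, prod_const,
          filter_mem_eq_inter, inter_eq_right.mpr hQ, hQc, ← pw_mul_nat, ← pw_mul_nat, ← pw_add]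
        congr 1
        ring
      have h5 : ∏ x ∈ E, (((fun _ => W.powerset : α → Finset (Finset α)) x).card : ℝ) ≤
          pw ((n : ℝ) * e) := by
        simp only [card_powerset, prod_const]
        push_cast
        rw [← pow_mul, ← Nat.cast_ofNat (R := ℝ) (n := 2)]
        have h6 : ((2 : ℕ) : ℝ) ^ (W.card * E.card) = pw ((W.card * E.card : ℕ) : ℝ) := by
          rw [pw_nat]; push_cast; rfl
        rw [h6]
        apply pw_mono
        have h7 : W.card * E.card ≤ n * e := Nat.mul_le_mul hn he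
        exact_mod_cast h7
      calc _ ≤ pw ((U.card : ℝ) * V.card - (k1 : ℝ) * s / 2) * pw ((n : ℝ) * e) := by
            apply mul_le_mul h3 h5 _ (pw_nonneg _)
            exact prod_nonneg (fun _ _ => Nat.cast_nonneg _)
        _ = c := by rw [← pw_add]
  refine h1.trans ?_
  have h2 : (𝒯.card : ℝ) ≤ pw n * pw (k1 * lg n) := by
    rw [h𝒯, card_product]
    push_cast
    apply mul_le_mul _ (card_powersetCard_le_pw U k1 n hUn) (Nat.cast_nonneg _) (pw_nonneg _)
    have h4 : (V.powerset.filter (fun T => s ≤ T.card)).card ≤ 2 ^ V.card := by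
      rw [← card_powerset]
      exact card_filter_le _ _
    calc ((V.powerset.filter (fun T => s ≤ T.card)).card : ℝ) ≤ ((2 ^ V.card : ℕ) : ℝ) := by
          exact_mod_cast h4
      _ = pw V.card := by rw [pw_nat]; push_cast; rfl
      _ ≤ pw n := pw_mono (by exact_mod_cast hVn)
  calc c * 𝒯.card ≤ c * (pw n * pw (k1 * lg n)) := mul_le_mul_of_nonneg_left h2 (pw_nonneg _)
    _ = _ := by
      rw [hc, ← pw_add, ← pw_add]
      congr 1
      ring

end Pool.Agent.Lib.MP_a8cbfa_co
end

section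
set_option autoImplicit false
set_option linter.unusedSectionVars false

open Finset

namespace Pool.Agent.Lib.MP_a8cbfa_co

variable {α : Type*} [Fintype α] [DecidableEq α]

/-- Possible neighbourhoods of exceptional vertices. -/
def attSet (W U V : Finset α) (k1 s : ℕ) : Finset (Finset α) :=
  W.powerset.filter (fun Z => (Z ∩ U).card < k1 ∨ (Z ∩ V).card < k1 ∨
    ((Z ∩ U).card < s ∧ (Z ∩ V).card < s))

lemma card_inter_lt_le (W E U V : Finset α) (k1 n e : ℕ) (hn : W.card ≤ n)
    (he : E.card ≤ e) (hUV : U ∪ V = W \ E) :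
    ((W.powerset.filter (fun Z => (Z ∩ U).card < k1)).card : ℝ) ≤
      pw (e + k1 * lg n + V.card) := by
  classical
  have hUW : U ⊆ W := (hUV ▸ subset_union_left : U ⊆ W \ E).trans sdiff_subset
  have h1 : (W.powerset.filter (fun Z => (Z ∩ U).card < k1)).card ≤
      (E.powerset ×ˢ smallSets U k1 ×ˢ V.powerset).card := by
    apply card_le_card_of_injOn (fun Z => (Z ∩ E, Z ∩ U, Z ∩ V))
    · intro Z hZ
      rw [coe_filter, Set.mem_ofPred_eq, mem_powerset] at hZ
      rw [mem_coe, mem_product, mem_product, mem_powerset, mem_powerset, mem_smallSets]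
      exact ⟨inter_subset_right, ⟨inter_subset_right, hZ.2⟩, inter_subset_right⟩
    · intro Z hZ Z' hZ' h
      rw [coe_filter, Set.mem_ofPred_eq, mem_powerset] at hZ hZ'
      have e1 : Z ∩ E = Z' ∩ E := congrArg Prod.fst h
      have e2 : Z ∩ U = Z' ∩ U := congrArg (fun p => p.2.1) h
      have e3 : Z ∩ V = Z' ∩ V := congrArg (fun p => p.2.2) h
      have key : ∀ Y ⊆ W, Y = (Y ∩ E) ∪ (Y ∩ U) ∪ (Y ∩ V) := by
        intro Y hY
        ext y
        simp only [mem_union, mem_inter]
        constructor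
        · intro hy
          by_cases hyE : y ∈ E
          · tauto
          · have : y ∈ U ∪ V := by rw [hUV, mem_sdiff]; exact ⟨hY hy, hyE⟩
            rw [mem_union] at this
            tauto
        · tauto
      rw [key Z hZ.1, key Z' hZ'.1, e1, e2, e3]
  rw [card_product, card_product, card_powerset, card_powerset] at h1
  have h2 := card_smallSets_le_pw U k1 n ((card_le_card hUW).trans hn)
  calc ((W.powerset.filter (fun Z => (Z ∩ U).card < k1)).card : ℝ) ≤
      ((2 ^ E.card * ((smallSets U k1).card * 2 ^ V.card) : ℕ) : ℝ) := by exact_mod_cast h1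
    _ = pw E.card * ((smallSets U k1).card * pw V.card) := by
        rw [pw_nat, pw_nat]; push_cast; rfl
    _ ≤ pw e * (pw (k1 * lg n) * pw V.card) := by
        have h3 : pw (E.card : ℝ) ≤ pw (e : ℝ) := pw_mono (by exact_mod_cast he)
        have h4 := pw_nonneg (V.card : ℝ)
        have h5 := pw_nonneg (e : ℝ)
        gcongr
    _ = pw (e + k1 * lg n + V.card) := by
        rw [← pw_add, ← pw_add]
        congr 1
        ring

lemma card_inter_lt_both (W E U V : Finset α) (s n e : ℕ) (hn : W.card ≤ n)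
    (he : E.card ≤ e) (hUV : U ∪ V = W \ E) (hs : 64 * s ≤ n) :
    ((W.powerset.filter (fun Z => (Z ∩ U).card < s ∧ (Z ∩ V).card < s)).card : ℝ) ≤
      pw (e + n / 4) := by
  classical
  have hUW : U ⊆ W := (hUV ▸ subset_union_left : U ⊆ W \ E).trans sdiff_subset
  have hVW : V ⊆ W := (hUV ▸ subset_union_right : V ⊆ W \ E).trans sdiff_subset
  have h1 : (W.powerset.filter (fun Z => (Z ∩ U).card < s ∧ (Z ∩ V).card < s)).card ≤
      (E.powerset ×ˢ (U.powerset.filter (fun S => 64 * S.card < n)) ×ˢ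
        (V.powerset.filter (fun S => 64 * S.card < n))).card := by
    apply card_le_card_of_injOn (fun Z => (Z ∩ E, Z ∩ U, Z ∩ V))
    · intro Z hZ
      rw [coe_filter, Set.mem_ofPred_eq, mem_powerset] at hZ
      rw [mem_coe, mem_product, mem_product, mem_powerset, mem_filter, mem_filter, mem_powerset,
        mem_powerset]
      refine ⟨inter_subset_right, ⟨inter_subset_right, ?_⟩, inter_subset_right, ?_⟩
      · have := hZ.2.1
        simp only
        omega
      · have := hZ.2.2
        simp only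
        omega
    · intro Z hZ Z' hZ' h
      rw [coe_filter, Set.mem_ofPred_eq, mem_powerset] at hZ hZ'
      have e1 : Z ∩ E = Z' ∩ E := congrArg Prod.fst h
      have e2 : Z ∩ U = Z' ∩ U := congrArg (fun p => p.2.1) h
      have e3 : Z ∩ V = Z' ∩ V := congrArg (fun p => p.2.2) h
      have key : ∀ Y ⊆ W, Y = (Y ∩ E) ∪ (Y ∩ U) ∪ (Y ∩ V) := by
        intro Y hY
        ext y
        simp only [mem_union, mem_inter]
        constructor
        · intro hy
          by_cases hyE : y ∈ E
          · tauto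
          · have : y ∈ U ∪ V := by rw [hUV, mem_sdiff]; exact ⟨hY hy, hyE⟩
            rw [mem_union] at this
            tauto
        · tauto
      rw [key Z hZ.1, key Z' hZ'.1, e1, e2, e3]
  rw [card_product, card_product, card_powerset] at h1
  have h2 := card_frac64 U n ((card_le_card hUW).trans hn)
  have h3 := card_frac64 V n ((card_le_card hVW).trans hn)
  calc ((W.powerset.filter (fun Z => (Z ∩ U).card < s ∧ (Z ∩ V).card < s)).card : ℝ) ≤
      ((2 ^ E.card * ((U.powerset.filter (fun S => 64 * S.card < n)).card *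
        (V.powerset.filter (fun S => 64 * S.card < n)).card) : ℕ) : ℝ) := by exact_mod_cast h1
    _ = pw E.card * ((U.powerset.filter (fun S => 64 * S.card < n)).card *
        (V.powerset.filter (fun S => 64 * S.card < n)).card) := by
        rw [pw_nat]; push_cast; rfl
    _ ≤ pw e * (pw ((n : ℝ) / 8) * pw ((n : ℝ) / 8)) := by
        have h3 : pw (E.card : ℝ) ≤ pw (e : ℝ) := pw_mono (by exact_mod_cast he)
        have h4 := pw_nonneg ((n : ℝ) / 8)
        have h5 := pw_nonneg (e : ℝ)
        gcongr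
    _ = pw (e + n / 4) := by
        rw [← pw_add, ← pw_add]
        congr 1
        ring

/-- Bound for the number of possible neighbourhoods of an exceptional vertex. -/
lemma card_attSet (W E U V : Finset α) (k1 s n e : ℕ) (m : ℝ) (hn : W.card ≤ n)
    (he : E.card ≤ e) (hUV : U ∪ V = W \ E) (hs : 64 * s ≤ n) (hU : (U.card : ℝ) ≤ m)
    (hV : (V.card : ℝ) ≤ m) (hm : (n : ℝ) / 4 ≤ m) :
    ((attSet W U V k1 s).card : ℝ) ≤ pw (e + 2 + k1 * lg n + m) := by
  classical
  have hsub : attSet W U V k1 s ⊆ (W.powerset.filter (fun Z => (Z ∩ U).card < k1)) ∪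
      ((W.powerset.filter (fun Z => (Z ∩ V).card < k1)) ∪
      (W.powerset.filter (fun Z => (Z ∩ U).card < s ∧ (Z ∩ V).card < s))) := by
    intro Z hZ
    unfold attSet at hZ
    simp only [mem_union, mem_filter] at hZ ⊢
    tauto
  have h1 := card_inter_lt_le W E U V k1 n e hn he hUV
  have h2 := card_inter_lt_le W E V U k1 n e hn he (by rw [union_comm]; exact hUV)
  have h3 := card_inter_lt_both W E U V s n e hn he hUV hs
  have h4 : ((attSet W U V k1 s).card : ℝ) ≤
      (W.powerset.filter (fun Z => (Z ∩ U).card < k1)).card +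
      ((W.powerset.filter (fun Z => (Z ∩ V).card < k1)).card +
      (W.powerset.filter (fun Z => (Z ∩ U).card < s ∧ (Z ∩ V).card < s)).card) := by
    have := (card_le_card hsub).trans ((card_union_le _ _).trans
      (Nat.add_le_add_left (card_union_le _ _) _))
    exact_mod_cast this
  have hlg := lg_nonneg n
  have hk : 0 ≤ (k1 : ℝ) * lg n := by positivity
  have e1 : pw (e + k1 * lg n + V.card) ≤ pw (e + k1 * lg n + m) := pw_mono (by linarith)
  have e2 : pw (e + k1 * lg n + U.card) ≤ pw (e + k1 * lg n + m) := pw_mono (by linarith)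
  have e3 : pw (e + n / 4) ≤ pw (e + k1 * lg n + m) := pw_mono (by linarith)
  have e4 : pw (e + 2 + k1 * lg n + m) = 4 * pw (e + k1 * lg n + m) := by
    have : (4 : ℝ) = pw 2 := by unfold pw; norm_num
    rw [this, ← pw_add]
    congr 1
    ring
  rw [e4]
  have := pw_nonneg (e + k1 * lg n + m)
  linarith

/-- In a graph with the expansion property the neighbourhood of every vertex is in `attSet`. -/
lemma mem_attSet {W U V : Finset α} {N : α → Finset α} {k1 s : ℕ} (hN : IsTF W N)
    (hs : 1 ≤ s) (h1 : Exp N U V k1 s) (h2 : Exp N V U k1 s) (x : α) :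
    N x ∈ attSet W U V k1 s := by
  classical
  unfold attSet
  rw [mem_filter, mem_powerset]
  refine ⟨hN.supp x, ?_⟩
  have key : ∀ A B : Finset α, Exp N A B k1 s → (N x ∩ A).card < k1 ∨ (N x ∩ B).card < s := by
    intro A B hE
    by_contra hcon
    push Not at hcon
    obtain ⟨hA, hB⟩ := hcon
    have h3 := hE (N x ∩ B) inter_subset_right hB
    obtain ⟨u, hu, hu2⟩ : ∃ u ∈ N x ∩ A, u ∉ A.filter (fun u =>
        16 * (N u ∩ (N x ∩ B)).card < (N x ∩ B).card) := by
      by_contra hcon
      push Not at hcon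
      have := card_le_card (show N x ∩ A ⊆ _ from hcon)
      omega
    rw [mem_inter] at hu
    rw [mem_filter, not_and] at hu2
    have h4 := hu2 hu.2
    push Not at h4
    have h5 : 0 < (N u ∩ (N x ∩ B)).card := by omega
    obtain ⟨v, hv⟩ := card_pos.mp h5
    rw [mem_inter, mem_inter] at hv
    exact (disjoint_left.mp (hN.disj x u hu.1)) hv.2.1 hv.1
  have h3 := key U V h1
  have h4 := key V U h2
  tauto

open Classical in
/-- Graphs, bipartite outside `E`, with the expansion property in both directions. -/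
noncomputable def niceSet (W E U V : Finset α) (k1 s : ℕ) : Finset (α → Finset α) :=
  univ.filter (fun N => BipOn W E U V N ∧ Exp N U V k1 s ∧ Exp N V U k1 s)

lemma card_niceSet (W E U V : Finset α) (k1 s n e : ℕ) (hn : W.card = n)
    (he : E.card ≤ e) (hUV : U ∪ V = W \ E) (hdisj : Disjoint U V) (hEW : E ⊆ W)
    (hs : 64 * s ≤ n) (hs1 : 1 ≤ s) (hen : 2 * e ≤ n) :
    ((niceSet W E U V k1 s).card : ℝ) ≤
      pw ((n : ℝ) ^ 2 / 4 + e * (e + 2 + k1 * lg n)) := by
  classical
  have hcard : U.card + V.card + E.card = n := by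
    rw [← card_union_of_disjoint hdisj, hUV, card_sdiff_of_subset hEW, hn]
    have := card_le_card hEW
    omega
  have hcardR : (U.card : ℝ) + V.card + E.card = n := by exact_mod_cast hcard
  set m : ℝ := max (U.card : ℝ) V.card with hm
  have hUm : (U.card : ℝ) ≤ m := le_max_left _ _
  have hVm : (V.card : ℝ) ≤ m := le_max_right _ _
  have heR : (E.card : ℝ) ≤ e := by exact_mod_cast he
  have henR : 2 * (e : ℝ) ≤ n := by exact_mod_cast hen
  have hm4 : (n : ℝ) / 4 ≤ m := by linarith
  have h1 := card_bip_le W E U V (niceSet W E U V k1 s)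
    (by
      intro N hN
      unfold niceSet at hN
      exact (mem_filter.mp hN).2.1)
    (fun _ => V.powerset) (fun _ => attSet W U V k1 s)
    (fun N _ u _ => mem_powerset.mpr inter_subset_right)
    (by
      intro N hN x _
      unfold niceSet at hN
      obtain ⟨_, hb, h1, h2⟩ := mem_filter.mp hN
      exact mem_attSet hb.tf hs1 h1 h2 x)
  refine h1.trans ?_
  simp only [card_powerset, prod_const]
  have h2 := card_attSet W E U V k1 s n e m hn.le he hUV hs hUm hVm hm4
  have hlg := lg_nonneg n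
  have h3 : ((attSet W U V k1 s).card : ℝ) ^ E.card ≤ pw (e + 2 + k1 * lg n + m) ^ E.card :=
    pow_le_pow_left₀ (Nat.cast_nonneg _) h2 _
  have h4 : (((2 ^ V.card : ℕ) : ℝ)) ^ U.card = pw ((U.card : ℝ) * V.card) := by
    rw [pw_nat_mul, pw_nat]
    push_cast
    rfl
  rw [h4]
  calc pw ((U.card : ℝ) * V.card) * ((attSet W U V k1 s).card : ℝ) ^ E.card ≤
      pw ((U.card : ℝ) * V.card) * pw (e + 2 + k1 * lg n + m) ^ E.card :=
        mul_le_mul_of_nonneg_left h3 (pw_nonneg _)
    _ = pw ((U.card : ℝ) * V.card + (e + 2 + k1 * lg n + m) * E.card) := by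
        rw [← pw_mul_nat, ← pw_add]
    _ ≤ pw ((n : ℝ) ^ 2 / 4 + e * (e + 2 + k1 * lg n)) := by
        apply pw_mono
        have h5 : (U.card : ℝ) * V.card + m * E.card ≤ (n : ℝ) ^ 2 / 4 := by
          rw [hm, ← hcardR]
          rcases le_total (U.card : ℝ) V.card with h | h
          · rw [max_eq_right h]
            nlinarith [sq_nonneg ((U.card : ℝ) + E.card - V.card)]
          · rw [max_eq_left h]
            nlinarith [sq_nonneg ((V.card : ℝ) + E.card - U.card)]
        have h6 : (e + 2 + k1 * lg n) * (E.card : ℝ) ≤ (e + 2 + k1 * lg n) * e := by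
          apply mul_le_mul_of_nonneg_left heR
          positivity
        nlinarith

end Pool.Agent.Lib.MP_a8cbfa_co
end

section
set_option autoImplicit false
set_option linter.unusedSectionVars false

open Finset

namespace Pool.Agent.Lib.MP_a8cbfa_co

/-! ### Parameters -/

def pd (k : ℕ) : ℕ := 5 * k + 2
def pin (n : ℕ) : ℕ := n / 1000
def pb (n : ℕ) : ℕ := (n - n / 4000) / 2
def pa (n k : ℕ) : ℕ := pb n - 3 * k - 2
def pe (n k : ℕ) : ℕ := n + 2 * (pin n + 2) + 6 * k - 2 * pb n
def pk1 (k : ℕ) : ℕ := 2 ^ 22 * k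
def ps (n : ℕ) : ℕ := n / 262144

lemma three_halves_le : (3 / 2 : ℝ) ≤ pw (3 / 5) := by
  unfold pw
  have h4 : ((3 / 2 : ℝ) ^ (5 : ℕ)) ≤ 2 ^ (3 : ℕ) := by norm_num
  calc (3 / 2 : ℝ) = ((3 / 2 : ℝ) ^ (5 : ℕ)) ^ ((1 : ℝ) / 5) := by
        rw [← Real.rpow_natCast, ← Real.rpow_mul (by norm_num)]
        norm_num
    _ ≤ ((2 : ℝ) ^ (3 : ℕ)) ^ ((1 : ℝ) / 5) := Real.rpow_le_rpow (by positivity) h4 (by norm_num)
    _ = 2 ^ ((3 : ℝ) / 5) := by
        rw [← Real.rpow_natCast, ← Real.rpow_mul (by norm_num)]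
        norm_num

lemma three_quarters_le : (3 / 4 : ℝ) ≤ pw (-(2 / 5)) := by
  rw [pw_neg]
  unfold pw
  have h4 : (2 : ℝ) ^ (2 : ℕ) ≤ (4 / 3 : ℝ) ^ (5 : ℕ) := by norm_num
  have h5 : (2 : ℝ) ^ ((2 : ℝ) / 5) ≤ 4 / 3 := by
    calc (2 : ℝ) ^ ((2 : ℝ) / 5) = ((2 : ℝ) ^ (2 : ℕ)) ^ ((1 : ℝ) / 5) := by
          rw [← Real.rpow_natCast, ← Real.rpow_mul (by norm_num)]
          norm_num
      _ ≤ ((4 / 3 : ℝ) ^ (5 : ℕ)) ^ ((1 : ℝ) / 5) :=
          Real.rpow_le_rpow (by positivity) h4 (by norm_num)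
      _ = 4 / 3 := by
          rw [← Real.rpow_natCast, ← Real.rpow_mul (by norm_num)]
          norm_num
  have h6 : (0 : ℝ) < (2 : ℝ) ^ ((2 : ℝ) / 5) := Real.rpow_pos_of_pos (by norm_num) _
  rw [← inv_inv (3 / 4 : ℝ)]
  apply inv_anti₀ h6
  refine h5.trans (by norm_num)

/-- The constant in `Good`. -/
noncomputable def CC : ℝ := 10 ^ 12

lemma one_le_CC : 1 ≤ CC := by unfold CC; norm_num

variable {α : Type*} [Fintype α] [DecidableEq α]

/-- A nice graph: bipartite outside at most `3k` vertices, with expansion. -/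
def NiceG (W : Finset α) (k : ℕ) (N : α → Finset α) (E U V : Finset α) : Prop :=
  BipOn W E U V N ∧ E.card ≤ 3 * k ∧ Exp N U V (pk1 k) (ps W.card) ∧
    Exp N V U (pk1 k) (ps W.card) ∧ W.card ≤ 3 * U.card ∧ W.card ≤ 3 * V.card

open Classical in
noncomputable def niceTF (W : Finset α) (k : ℕ) : Finset (α → Finset α) :=
  univ.filter (fun N => ∃ E U V, NiceG W k N E U V)

open Classical in
noncomputable def badTF (W : Finset α) (k : ℕ) : Finset (α → Finset α) :=
  univ.filter (fun N => IsTF W N ∧ ¬ ∃ E U V, NiceG W k N E U V)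

/-- Index set for the pairs `(E, U)`. -/
def idx (W : Finset α) (k : ℕ) : Finset (Finset α × Finset α) :=
  smallSets W (3 * k + 1) ×ˢ W.powerset

lemma card_idx (W : Finset α) (k n : ℕ) (hn : W.card ≤ n) :
    ((idx W k).card : ℝ) ≤ pw ((3 * k + 1) * lg n + n) := by
  unfold idx
  rw [card_product, card_powerset]
  push_cast
  have h1 := card_smallSets_le_pw W (3 * k + 1) n hn
  have h2 : (2 : ℝ) ^ W.card ≤ pw n := by
    rw [← pw_nat]; exact pw_mono (by exact_mod_cast hn)
  calc ((smallSets W (3 * k + 1)).card : ℝ) * 2 ^ W.card ≤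
      pw ((3 * k + 1 : ℕ) * lg n) * pw n := by
        apply mul_le_mul h1 h2 (by positivity) (pw_nonneg _)
    _ = pw ((3 * k + 1) * lg n + n) := by
        rw [← pw_add]; push_cast; rfl

lemma nat_facts (n : ℕ) : (4000 * (n / 4000 : ℕ) : ℝ) ≤ n ∧ (n : ℝ) ≤ 4000 * (n / 4000 : ℕ) + 4000 ∧
    (1000 * (pin n) : ℝ) ≤ n ∧ (n : ℝ) ≤ 1000 * (pin n) + 1000 ∧
    (262144 * (ps n) : ℝ) ≤ n ∧ (n : ℝ) ≤ 262144 * (ps n) + 262144 ∧
    (2 * (pb n) : ℝ) + (n / 4000 : ℕ) ≤ n ∧ (n : ℝ) ≤ 2 * (pb n) + (n / 4000 : ℕ) + 1 := by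
  unfold pin ps pb
  refine ⟨?_, ?_, ?_, ?_, ?_, ?_, ?_, ?_⟩ <;> norm_cast <;> omega

/-- Bound for nice graphs. -/
lemma card_niceTF (W : Finset α) (n k : ℕ) (hn : W.card = n) (hg : Good CC n k) :
    ((niceTF W k).card : ℝ) ≤ pw ((n : ℝ) ^ 2 / 4 + 3 * n / 2 - n / 4) := by
  classical
  have hat := hg.atoms one_le_CC
  obtain ⟨f1, f2, f3, f4, f5, f6, f7, f8⟩ := nat_facts n
  have hC : CC = 10 ^ 12 := rfl
  have hk3 : 2 * (3 * k) ≤ n := by
    have := hat.a5
    rw [hC] at this
    have h2 : 2 * (3 * (k : ℝ)) ≤ n := by nlinarith [hat.hK, hat.C1]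
    exact_mod_cast h2
  have hs1 : 1 ≤ ps n := by
    have := hat.a6
    rw [hC] at this
    have h2 : (1 : ℝ) ≤ ps n := by linarith
    exact_mod_cast h2
  have hs64 : 64 * ps n ≤ n := by unfold ps; omega
  have h1 : ((niceTF W k).card : ℝ) ≤
      pw ((n : ℝ) ^ 2 / 4 + (3 * k : ℕ) * ((3 * k : ℕ) + 2 + (pk1 k) * lg n)) * (idx W k).card := by
    apply card_le_union (fun b => if b.2 ⊆ W \ b.1 ∧ b.1 ⊆ W ∧ b.1.card ≤ 3 * k then
      niceSet W b.1 b.2 ((W \ b.1) \ b.2) (pk1 k) (ps n) else ∅)
    · intro N hN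
      unfold niceTF at hN
      rw [mem_filter] at hN
      obtain ⟨_, E, U, V, hb, hE, h1, h2, _, _⟩ := hN
      have hUsub : U ⊆ W \ E := hb.union ▸ subset_union_left
      have hV : (W \ E) \ U = V := by
        rw [← hb.union, union_sdiff_left, sdiff_eq_self_of_disjoint hb.disj.symm]
      refine ⟨(E, U), ?_, ?_⟩
      · unfold idx
        rw [mem_product, mem_smallSets, mem_powerset]
        exact ⟨⟨hb.hE, by simp only; omega⟩, hUsub.trans sdiff_subset⟩
      · simp only
        rw [if_pos ⟨hUsub, hb.hE, hE⟩, hV]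
        unfold niceSet
        rw [mem_filter]
        rw [hn] at h1 h2
        exact ⟨mem_univ _, hb, h1, h2⟩
    · rintro ⟨E, U⟩ _
      simp only
      split_ifs with hc
      · obtain ⟨h1, h2, h3⟩ := hc
        apply card_niceSet W E U _ (pk1 k) (ps n) n (3 * k) hn h3 _ _ h2 hs64 hs1 hk3
        · exact union_sdiff_of_subset h1
        · exact disjoint_sdiff
      · simp only [card_empty, Nat.cast_zero]
        exact pw_nonneg _
  refine h1.trans ?_
  have h2 := card_idx W k n hn.le
  refine (mul_le_mul_of_nonneg_left h2 (pw_nonneg _)).trans ?_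
  rw [← pw_add]
  apply pw_mono
  unfold pk1
  push_cast
  have a1 := hat.a1
  have a2 := hat.a2
  have a3 := hat.a3
  have a4 := hat.a4
  have a5 := hat.a5
  rw [hC] at a1 a2 a3 a4 a5
  nlinarith

/-- Inductive hypothesis. -/
def IH (M : ℝ) (W : Finset α) : Prop :=
  ∀ W' ⊆ W, W'.card < W.card → ((TF W').card : ℝ) ≤ M * pw ((W'.card : ℝ) ^ 2 / 4 + 2 * W'.card)

lemma IH.sdiff {M : ℝ} {W : Finset α} (h : IH M W) (k n : ℕ) (hn : W.card = n) (hk : 1 ≤ k)
    (X : Finset α) (hX : X ∈ powersetCard k W) :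
    ((TF (W \ X)).card : ℝ) ≤ M * pw (((n : ℝ) - k) ^ 2 / 4 + 2 * ((n : ℝ) - k)) := by
  rw [mem_powersetCard] at hX
  have h1 : (W \ X).card = W.card - k := by rw [card_sdiff_of_subset hX.1, hX.2]
  have h2 : k ≤ W.card := by rw [← hX.2]; exact card_le_card hX.1
  have h3 := h (W \ X) sdiff_subset (by omega)
  rw [h1, hn, Nat.cast_sub (by omega)] at h3
  exact h3

lemma card_clsA_bound (W : Finset α) (n k : ℕ) (hn : W.card = n) (hg : Good CC n k) (hk : 1 ≤ k)
    (M : ℝ) (hM : 1 ≤ M) (hIH : IH M W) :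
    ((clsA W k (pd k)).card : ℝ) ≤
      M * pw ((n : ℝ) ^ 2 / 4 + 2 * n - (n : ℝ) * k / 10000) := by
  have hat := hg.atoms one_le_CC
  have hC : CC = 10 ^ 12 := rfl
  have h1 := card_clsA W k (pd k) n hn.le
    (M * pw (((n : ℝ) - k) ^ 2 / 4 + 2 * ((n : ℝ) - k)))
    (mul_nonneg (by linarith) (pw_nonneg _)) (hIH.sdiff k n hn hk)
  refine h1.trans ?_
  rw [← pw_mul_nat]
  generalize he : ((n : ℝ) - k) ^ 2 / 4 + 2 * ((n : ℝ) - k) = e
  calc pw ((pd k : ℝ) * lg n * k) * (M * pw e) * pw (k * lg n) =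
      M * pw ((pd k : ℝ) * lg n * k + e + k * lg n) := by
        rw [pw_add, pw_add]; ring
    _ ≤ M * pw ((n : ℝ) ^ 2 / 4 + 2 * n - (n : ℝ) * k / 10000) := by
        apply mul_le_mul_of_nonneg_left _ (by linarith)
        apply pw_mono
        rw [← he]
        unfold pd
        push_cast
        have a1 := hat.a1
        have a2 := hat.a2
        have a4 := hat.a4
        have a5 := hat.a5
        have a7 := hat.a7
        have a6 := hat.a6
        rw [hC] at a1 a2 a4 a5 a7 a6
        nlinarith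

lemma card_clsB_bound (W : Finset α) (n k : ℕ) (hn : W.card = n) (hg : Good CC n k) (hk : 1 ≤ k)
    (M : ℝ) (hM : 1 ≤ M) (hIH : IH M W) :
    ((clsB W k (pb n)).card : ℝ) ≤
      M * pw ((n : ℝ) ^ 2 / 4 + 2 * n - (n : ℝ) * k / 10000) := by
  have hat := hg.atoms one_le_CC
  have hC : CC = 10 ^ 12 := rfl
  obtain ⟨f1, f2, f3, f4, f5, f6, f7, f8⟩ := nat_facts n
  have h1 := card_clsB W k (pb n) n hn.le
    (M * pw (((n : ℝ) - k) ^ 2 / 4 + 2 * ((n : ℝ) - k)))
    (mul_nonneg (by linarith) (pw_nonneg _)) (hIH.sdiff k n hn hk)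
  refine h1.trans ?_
  rw [← pw_mul_nat]
  generalize he : ((n : ℝ) - k) ^ 2 / 4 + 2 * ((n : ℝ) - k) = e
  calc pw ((pb n : ℝ) * k) * (M * pw e) * pw n * pw (k * lg n) =
      M * pw ((pb n : ℝ) * k + e + n + k * lg n) := by
        rw [pw_add, pw_add, pw_add]; ring
    _ ≤ M * pw ((n : ℝ) ^ 2 / 4 + 2 * n - (n : ℝ) * k / 10000) := by
        apply mul_le_mul_of_nonneg_left _ (by linarith)
        apply pw_mono
        rw [← he]
        have a2 := hat.a2
        have a4 := hat.a4
        have a5 := hat.a5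
        have a7 := hat.a7
        have a6 := hat.a6
        rw [hC] at a2 a4 a5 a7 a6
        have hk0 : (0 : ℝ) ≤ k := Nat.cast_nonneg k
        have hb : (pb n : ℝ) ≤ n / 2 - n / 8000 + 1 / 2 := by linarith
        have hb2 : (pb n : ℝ) * k ≤ (n / 2 - n / 8000 + 1 / 2) * k :=
          mul_le_mul_of_nonneg_right hb hk0
        nlinarith

lemma card_clsD_bound (W : Finset α) (n k : ℕ) (hn : W.card = n) (hg : Good CC n k) (hk : 1 ≤ k)
    (M : ℝ) (hM : 1 ≤ M) (hIH : IH M W) :
    ((clsD k (pa n k) (pin n) k W).card : ℝ) ≤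
      M * pw ((n : ℝ) ^ 2 / 4 + 2 * n - (n : ℝ) * k / 10000) := by
  classical
  have hat := hg.atoms one_le_CC
  have hC : CC = 10 ^ 12 := rfl
  obtain ⟨f1, f2, f3, f4, f5, f6, f7, f8⟩ := nat_facts n
  have a1 := hat.a1
  have a2 := hat.a2
  have a3 := hat.a3
  have a4 := hat.a4
  have a5 := hat.a5
  have a7 := hat.a7
  have a6 := hat.a6
  rw [hC] at a1 a2 a3 a4 a5 a7 a6
  have hk0 : (0 : ℝ) ≤ k := Nat.cast_nonneg k
  have hn0 : (0 : ℝ) ≤ n := Nat.cast_nonneg n
  -- natural-number facts about `a`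
  have hab : 3 * k + 2 ≤ pb n := by
    have : 3 * (k : ℝ) + 2 ≤ pb n := by nlinarith
    exact_mod_cast this
  have ha : (pa n k : ℝ) = pb n - 3 * k - 2 := by
    unfold pa
    rw [Nat.sub_sub, Nat.cast_sub hab]
    push_cast
    ring
  have h2a : 2 * pa n k ≤ n := by
    have : 2 * (pa n k : ℝ) ≤ n := by rw [ha]; nlinarith
    exact_mod_cast this
  set ρ := pw (3 / 5 * ((n : ℝ) - 2 * pa n k) - 2 / 5 * pin n) with hρ
  have hρ1 : (3 / 2 : ℝ) ^ n * (2 / 3) ^ (pa n k) * (2 / 3) ^ (pa n k) * (3 / 4) ^ (pin n) ≤ ρ := by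
    have e1 : (3 / 2 : ℝ) ^ n * (2 / 3) ^ (pa n k) * (2 / 3) ^ (pa n k) =
        (3 / 2 : ℝ) ^ (n - 2 * pa n k) := by
      have e2 : (3 / 2 : ℝ) ^ (pa n k) * (2 / 3) ^ (pa n k) = 1 := by
        rw [← mul_pow]; norm_num
      have e5 : (3 / 2 : ℝ) ^ n = (3 / 2 : ℝ) ^ (n - 2 * pa n k) * (3 / 2) ^ (pa n k) *
          (3 / 2) ^ (pa n k) := by
        rw [← pow_add, ← pow_add]
        congr 1
        omega
      calc (3 / 2 : ℝ) ^ n * (2 / 3) ^ (pa n k) * (2 / 3) ^ (pa n k) =
          (3 / 2 : ℝ) ^ (n - 2 * pa n k) * ((3 / 2) ^ (pa n k) * (2 / 3) ^ (pa n k)) *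
            ((3 / 2) ^ (pa n k) * (2 / 3) ^ (pa n k)) := by rw [e5]; ring
        _ = _ := by rw [e2]; ring
    rw [e1]
    have e3 : (3 / 2 : ℝ) ^ (n - 2 * pa n k) ≤ pw (3 / 5 * ((n : ℝ) - 2 * pa n k)) := by
      calc (3 / 2 : ℝ) ^ (n - 2 * pa n k) ≤ (pw (3 / 5)) ^ (n - 2 * pa n k) :=
            pow_le_pow_left₀ (by norm_num) three_halves_le _
        _ = pw (3 / 5 * ((n - 2 * pa n k : ℕ) : ℝ)) := by rw [pw_mul_nat]
        _ = pw (3 / 5 * ((n : ℝ) - 2 * pa n k)) := by
            rw [Nat.cast_sub h2a]; push_cast; rfl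
    have e4 : (3 / 4 : ℝ) ^ (pin n) ≤ pw (-(2 / 5) * pin n) := by
      rw [pw_mul_nat]
      exact pow_le_pow_left₀ (by norm_num) three_quarters_le _
    calc (3 / 2 : ℝ) ^ (n - 2 * pa n k) * (3 / 4) ^ (pin n) ≤
        pw (3 / 5 * ((n : ℝ) - 2 * pa n k)) * pw (-(2 / 5) * pin n) :=
          mul_le_mul e3 e4 (by positivity) (pw_nonneg _)
      _ = ρ := by rw [← pw_add, hρ]; congr 1; ring
  -- first step by hand, since the hypothesis is only about proper subsets
  obtain ⟨j, rfl⟩ : ∃ j, k = j + 1 := ⟨k - 1, by omega⟩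
  set k := j + 1 with hk'
  have hρ0 : 0 ≤ ρ := pw_nonneg _
  set κ := pw (2 * (k + 1) * lg n) with hκ
  have hκ0 : 0 ≤ κ := pw_nonneg _
  have hstep := card_clsD_succ W k (pa n k) (pin n) j n hn.le
    ((ρ * κ) ^ j * (M * pw (((n : ℝ) - 2) ^ 2 / 4 + 2 * ((n : ℝ) - 2))))
    (by have := pw_nonneg (((n : ℝ) - 2) ^ 2 / 4 + 2 * ((n : ℝ) - 2)); positivity) (by
      intro x hx y hy hxy
      have hsub : ({x, y} : Finset α) ⊆ W := by
        intro z hz
        rw [mem_insert, mem_singleton] at hz
        rcases hz with rfl | rfl <;> assumption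
      have hc2 : ({x, y} : Finset α).card = 2 := card_pair hxy
      have hle : 2 ≤ W.card := by rw [← hc2]; exact card_le_card hsub
      have hcardN : (W \ {x, y}).card = W.card - 2 := by
        rw [card_sdiff_of_subset hsub, hc2]
      have hcard : ((W \ {x, y}).card : ℝ) = (n : ℝ) - 2 := by
        rw [hcardN, hn, Nat.cast_sub (by omega)]
        norm_num
      have := card_clsD_le k (pa n k) (pin n) n M (by linarith) ρ hρ0 hρ1 j (W \ {x, y})
        ((card_le_card sdiff_subset).trans hn.le)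
        (fun W' hW' => hIH W' (hW'.trans sdiff_subset) (by
          have := card_le_card hW'
          omega))
      rwa [hcard] at this)
  refine hstep.trans ?_
  have e3 : (3 : ℝ) ^ W.card * (2 / 3) ^ (pa n k) * (2 / 3) ^ (pa n k) * (3 / 4) ^ (pin n) ≤
      2 ^ n * ρ := by
    have e1 : (3 : ℝ) ^ n = 2 ^ n * (3 / 2) ^ n := by
      rw [← mul_pow]; norm_num
    rw [hn]
    calc (3 : ℝ) ^ n * (2 / 3) ^ (pa n k) * (2 / 3) ^ (pa n k) * (3 / 4) ^ (pin n) =
        2 ^ n * ((3 / 2) ^ n * (2 / 3) ^ (pa n k) * (2 / 3) ^ (pa n k) * (3 / 4) ^ (pin n)) := by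
          rw [e1]; ring
      _ ≤ 2 ^ n * ρ := by gcongr
  set B := pw (((n : ℝ) - 2) ^ 2 / 4 + 2 * ((n : ℝ) - 2)) with hB
  have hB0 : 0 ≤ B := pw_nonneg _
  have hM0 : 0 ≤ M := by linarith
  calc (3 : ℝ) ^ W.card * (2 / 3) ^ (pa n k) * (2 / 3) ^ (pa n k) * (3 / 4) ^ (pin n) *
        ((ρ * κ) ^ j * (M * B)) * κ ≤ 2 ^ n * ρ * ((ρ * κ) ^ j * (M * B)) * κ := by gcongr
    _ = M * (2 ^ n * B * (ρ * κ) ^ k) := by rw [hk', pow_succ (ρ * κ) j]; ring
    _ ≤ M * pw ((n : ℝ) ^ 2 / 4 + 2 * n - (n : ℝ) * k / 10000) := by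
        apply mul_le_mul_of_nonneg_left _ hM0
        rw [hρ, hκ, ← pw_add, ← pw_nat, hB, ← pw_mul_nat, ← pw_add, ← pw_add]
        apply pw_mono
        have ha' : (pa n k : ℝ) = pb n - 3 * k - 2 := ha
        have hx : 3 / 5 * ((n : ℝ) - 2 * pa n k) - 2 / 5 * pin n ≤
            -(n : ℝ) / 4000 + 4 * k + 4 := by
          rw [ha']
          linarith
        have hx2 : (3 / 5 * ((n : ℝ) - 2 * pa n k) - 2 / 5 * pin n + 2 * (k + 1) * lg n) * k ≤
            (-(n : ℝ) / 4000 + 4 * k + 4 + 2 * (k + 1) * lg n) * k := by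
          apply mul_le_mul_of_nonneg_right _ hk0
          linarith
        nlinarith

end Pool.Agent.Lib.MP_a8cbfa_co
end

section
set_option autoImplicit false
set_option linter.unusedSectionVars false

open Finset

namespace Pool.Agent.Lib.MP_a8cbfa_co

variable {α : Type*} [Fintype α] [DecidableEq α]

lemma BipOn.swap {W E U V : Finset α} {N : α → Finset α} (h : BipOn W E U V N) :
    BipOn W E V U N where
  tf := h.tf
  hE := h.hE
  union := by rw [union_comm]; exact h.union
  disj := h.disj.symm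
  hU := h.hV
  hV := h.hU

open Classical in
/-- Graphs failing expansion for some `(E, U, V)`. -/
noncomputable def failTF (W : Finset α) (k : ℕ) : Finset (α → Finset α) :=
  univ.filter (fun N => ∃ E U V, BipOn W E U V N ∧ E.card ≤ 3 * k ∧
    ¬ Exp N U V (pk1 k) (ps W.card))

lemma card_failTF (W : Finset α) (n k : ℕ) (hn : W.card = n) (hg : Good CC n k) :
    ((failTF W k).card : ℝ) ≤ pw ((n : ℝ) ^ 2 / 4 + 2 * n - (n : ℝ) * k / 10000) := by
  classical
  have hat := hg.atoms one_le_CC
  obtain ⟨f1, f2, f3, f4, f5, f6, f7, f8⟩ := nat_facts n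
  have hC : CC = 10 ^ 12 := rfl
  have h1 : ((failTF W k).card : ℝ) ≤
      pw ((n : ℝ) ^ 2 / 4 - (pk1 k : ℝ) * (ps n) / 2 + n * (3 * k : ℕ) + n + (pk1 k) * lg n) *
        (idx W k).card := by
    apply card_le_union (fun b => if b.1.card ≤ 3 * k then
      failExp W b.1 b.2 ((W \ b.1) \ b.2) (pk1 k) (ps n) else ∅)
    · intro N hN
      unfold failTF at hN
      rw [mem_filter] at hN
      obtain ⟨_, E, U, V, hb, hE, h1⟩ := hN
      have hUsub : U ⊆ W \ E := hb.union ▸ subset_union_left
      have hV : (W \ E) \ U = V := by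
        rw [← hb.union, union_sdiff_left, sdiff_eq_self_of_disjoint hb.disj.symm]
      refine ⟨(E, U), ?_, ?_⟩
      · unfold idx
        rw [mem_product, mem_smallSets, mem_powerset]
        exact ⟨⟨hb.hE, by simp only; omega⟩, hUsub.trans sdiff_subset⟩
      · simp only
        rw [if_pos hE, hV]
        unfold failExp
        rw [mem_filter]
        rw [hn] at h1
        exact ⟨mem_univ _, hb, h1⟩
    · rintro ⟨E, U⟩ hb
      simp only
      unfold idx at hb
      rw [mem_product, mem_smallSets, mem_powerset] at hb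
      split_ifs with hc
      · have hVW : (W \ E) \ U ⊆ W := sdiff_subset.trans sdiff_subset
        refine (card_failExp W E U ((W \ E) \ U) (pk1 k) (ps n) n (3 * k) hn.le hc hb.2 hVW).trans ?_
        apply pw_mono
        have h2 : U.card + ((W \ E) \ U).card ≤ n := by
          rw [← card_union_of_disjoint disjoint_sdiff, ← hn]
          exact card_le_card (union_subset hb.2 hVW)
        have h3 : (U.card : ℝ) + ((W \ E) \ U).card ≤ n := by exact_mod_cast h2
        have h4 : (U.card : ℝ) * ((W \ E) \ U).card ≤ (n : ℝ) ^ 2 / 4 := by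
          have h5 : (0 : ℝ) ≤ U.card := Nat.cast_nonneg _
          have h6 : (0 : ℝ) ≤ ((W \ E) \ U).card := Nat.cast_nonneg _
          nlinarith [sq_nonneg ((U.card : ℝ) - ((W \ E) \ U).card)]
        linarith
      · simp only [card_empty, Nat.cast_zero]
        exact pw_nonneg _
  refine h1.trans ?_
  have h2 := card_idx W k n hn.le
  refine (mul_le_mul_of_nonneg_left h2 (pw_nonneg _)).trans ?_
  rw [← pw_add]
  apply pw_mono
  unfold pk1
  push_cast
  have a1 := hat.a1
  have a2 := hat.a2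
  have a3 := hat.a3
  have a4 := hat.a4
  have a5 := hat.a5
  have a7 := hat.a7
  have a6 := hat.a6
  rw [hC] at a1 a2 a3 a4 a5 a7 a6
  have hk0 : (0 : ℝ) ≤ k := Nat.cast_nonneg k
  have h3 : (2 ^ 22 * (k : ℝ)) * (ps n) / 2 ≥ 8 * n * k - 2 ^ 21 * k := by
    have : (ps n : ℝ) ≥ n / 262144 - 1 := by linarith
    nlinarith
  nlinarith

/-- Bad graphs are in one of the exceptional classes. -/
lemma badTF_subset (W : Finset α) (n k : ℕ) (hn : W.card = n) (hg : Good CC n k) :
    badTF W k ⊆ clsA W k (pd k) ∪ (clsB W k (pb n) ∪ (clsD k (pa n k) (pin n) k W ∪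
      failTF W k)) := by
  classical
  have hat := hg.atoms one_le_CC
  obtain ⟨f1, f2, f3, f4, f5, f6, f7, f8⟩ := nat_facts n
  have hC : CC = 10 ^ 12 := rfl
  have a5 := hat.a5
  have a6 := hat.a6
  have hK := hat.hK
  rw [hC] at a5 a6 hK
  have hk0 : (0 : ℝ) ≤ k := Nat.cast_nonneg k
  -- numeric facts in naturals
  have g1 : 3 * k + 2 ≤ pb n := by
    have : 3 * (k : ℝ) + 2 ≤ pb n := by linarith
    exact_mod_cast this
  have g2 : 2 * pb n ≤ n := by unfold pb; omega
  have g3 : 45 * pe n k + 3 * k < n := by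
    have e1 : (pe n k : ℝ) = n + 2 * (pin n + 2) + 6 * k - 2 * pb n := by
      unfold pe
      rw [Nat.cast_sub (by omega)]
      push_cast
      ring
    have : 45 * (pe n k : ℝ) + 3 * k < n := by rw [e1]; linarith
    exact_mod_cast this
  have g4 : 5 * pe n k + n + 9 * k < 3 * pb n := by
    have e1 : (pe n k : ℝ) = n + 2 * (pin n + 2) + 6 * k - 2 * pb n := by
      unfold pe
      rw [Nat.cast_sub (by omega)]
      push_cast
      ring
    have : 5 * (pe n k : ℝ) + n + 9 * k < 3 * pb n := by rw [e1]; linarith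
    exact_mod_cast this
  intro N hN
  unfold badTF at hN
  rw [mem_filter] at hN
  obtain ⟨_, hTF, hno⟩ := hN
  by_contra hcon
  simp only [mem_union, not_or] at hcon
  obtain ⟨hA, hB, hD, hF⟩ := hcon
  obtain ⟨E, U, V, hEW, hEc, hUV, hdisj, hU, hV, hUb, hVb⟩ := structure_of_not W N k (pd k) (pb n)
    (pa n k) (pin n) (pe n k) hTF hA hB hD (by unfold pd; omega) (by unfold pa; omega)
    (by unfold pe; omega) (by omega) (by omega) (by omega)
  have hb : BipOn W E U V N := ⟨hTF, hEW, hUV, hdisj, hU, hV⟩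
  apply hno
  refine ⟨E, U, V, hb, hEc, ?_, ?_, by omega, by omega⟩
  · by_contra h
    apply hF
    unfold failTF
    rw [mem_filter]
    exact ⟨mem_univ _, E, U, V, hb, hEc, h⟩
  · by_contra h
    apply hF
    unfold failTF
    rw [mem_filter]
    exact ⟨mem_univ _, E, V, U, hb.swap, hEc, h⟩

lemma card_badTF (W : Finset α) (n k : ℕ) (hn : W.card = n) (hg : Good CC n k)
    (M : ℝ) (hM : 1 ≤ M) (hIH : IH M W) :
    ((badTF W k).card : ℝ) ≤ M * pw ((n : ℝ) ^ 2 / 4 + 2 * n - (n : ℝ) * k / 20000) := by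
  classical
  have hat := hg.atoms one_le_CC
  have hC : CC = 10 ^ 12 := rfl
  have hK := hat.hK
  rw [hC] at hK
  have hk : 1 ≤ k := by
    have : (1 : ℝ) ≤ k := by linarith
    exact_mod_cast this
  have h1 := card_clsA_bound W n k hn hg hk M hM hIH
  have h2 := card_clsB_bound W n k hn hg hk M hM hIH
  have h3 := card_clsD_bound W n k hn hg hk M hM hIH
  have h4 := card_failTF W n k hn hg
  set P := pw ((n : ℝ) ^ 2 / 4 + 2 * n - (n : ℝ) * k / 10000) with hP
  have hP0 : 0 ≤ P := pw_nonneg _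
  have h5 : ((badTF W k).card : ℝ) ≤ (clsA W k (pd k)).card + ((clsB W k (pb n)).card +
      ((clsD k (pa n k) (pin n) k W).card + (failTF W k).card)) := by
    have := (card_le_card (badTF_subset W n k hn hg)).trans ((card_union_le _ _).trans
      (Nat.add_le_add_left ((card_union_le _ _).trans
        (Nat.add_le_add_left (card_union_le _ _) _)) _))
    exact_mod_cast this
  have h6 : ((badTF W k).card : ℝ) ≤ M * (4 * P) := by nlinarith
  refine h6.trans ?_
  apply mul_le_mul_of_nonneg_left _ (by linarith)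
  have e4 : (4 : ℝ) * P = pw (2 + ((n : ℝ) ^ 2 / 4 + 2 * n - (n : ℝ) * k / 10000)) := by
    rw [pw_add, hP]
    congr 1
    unfold pw
    norm_num
  rw [e4]
  apply pw_mono
  have hn1 : (1 : ℝ) ≤ n := by exact_mod_cast hg.hn
  nlinarith

lemma TF_subset (W : Finset α) (k : ℕ) : TF W ⊆ badTF W k ∪ niceTF W k := by
  classical
  intro N hN
  rw [mem_TF] at hN
  rw [mem_union]
  unfold badTF niceTF
  rw [mem_filter, mem_filter]
  by_cases h : ∃ E U V, NiceG W k N E U V
  · exact Or.inr ⟨mem_univ _, h⟩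
  · exact Or.inl ⟨mem_univ _, hN, h⟩

/-- Trivial bound. -/
lemma card_TF_trivial (W : Finset α) : ((TF W).card : ℝ) ≤ pw ((W.card : ℝ) ^ 2) := by
  classical
  have h1 : (TF W).card ≤ (Fintype.piFinset (fun _ : W => W.powerset)).card := by
    apply card_le_card_of_injOn (fun N (x : W) => N x.val)
    · intro N hN
      rw [mem_coe, mem_TF] at hN
      rw [mem_coe, Fintype.mem_piFinset]
      intro x
      exact mem_powerset.mpr (hN.supp x.val)
    · intro N hN N' hN' h
      rw [mem_coe, mem_TF] at hN hN'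
      funext x
      by_cases hx : x ∈ W
      · exact congrFun h ⟨x, hx⟩
      · rw [hN.eq_empty hx, hN'.eq_empty hx]
  rw [Fintype.card_piFinset, prod_const, card_powerset, card_univ, Fintype.card_coe] at h1
  have h2 : ((TF W).card : ℝ) ≤ (((2 ^ W.card) ^ W.card : ℕ) : ℝ) := by exact_mod_cast h1
  refine h2.trans (le_of_eq ?_)
  rw [← pow_mul, sq, ← Nat.cast_mul, pw_nat]
  push_cast
  rfl

/-- The bound for the number of triangle-free graphs. -/
theorem exists_TF_bound : ∃ (n0 : ℕ) (M : ℝ), 1 ≤ M ∧ (∀ n ≥ n0, ∃ k, Good CC n k) ∧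
    ∀ (α : Type) [Fintype α] [DecidableEq α] (W : Finset α),
      ((TF W).card : ℝ) ≤ M * pw ((W.card : ℝ) ^ 2 / 4 + 2 * W.card) := by
  obtain ⟨n0, hn0⟩ := exists_good CC one_le_CC
  set n1 := max n0 100 with hn1
  refine ⟨n0, pw ((n1 : ℝ) ^ 2), one_le_pw (by positivity), hn0, ?_⟩
  intro α _ _
  have main : ∀ (n : ℕ) (W : Finset α), W.card = n →
      ((TF W).card : ℝ) ≤ pw ((n1 : ℝ) ^ 2) * pw ((W.card : ℝ) ^ 2 / 4 + 2 * W.card) := by
    intro n
    induction n using Nat.strong_induction_on with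
    | _ n ih =>
      intro W hW
      set M := pw ((n1 : ℝ) ^ 2) with hM
      have hM1 : 1 ≤ M := one_le_pw (by positivity)
      by_cases hsmall : n ≤ n1
      · have h1 := card_TF_trivial W
        have h2 : pw ((W.card : ℝ) ^ 2) ≤ M := by
          apply pw_mono
          rw [hW]
          have : (n : ℝ) ≤ n1 := by exact_mod_cast hsmall
          have h0 : (0 : ℝ) ≤ n := Nat.cast_nonneg n
          nlinarith
        have h3 : 1 ≤ pw ((W.card : ℝ) ^ 2 / 4 + 2 * W.card) := one_le_pw (by positivity)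
        calc ((TF W).card : ℝ) ≤ M := h1.trans h2
          _ = M * 1 := by ring
          _ ≤ M * pw ((W.card : ℝ) ^ 2 / 4 + 2 * W.card) :=
            mul_le_mul_of_nonneg_left h3 (by linarith)
      · push Not at hsmall
        obtain ⟨k, hg⟩ := hn0 n (by omega)
        have hIH : IH M W := by
          intro W' _ hlt
          exact ih W'.card (by omega) W' rfl
        have h1 := card_badTF W n k hW hg M hM1 hIH
        have h2 := card_niceTF W n k hW hg
        have h3 : ((TF W).card : ℝ) ≤ (badTF W k).card + (niceTF W k).card := by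
          have := (card_le_card (TF_subset W k)).trans (card_union_le _ _)
          exact_mod_cast this
        rw [hW]
        have hn100 : (100 : ℝ) ≤ n := by
          have : 100 ≤ n := by omega
          exact_mod_cast this
        have hat := hg.atoms one_le_CC
        have hC : CC = 10 ^ 12 := rfl
        have hK := hat.hK
        rw [hC] at hK
        have hhalf : pw (-1) = 1 / 2 := by unfold pw; rw [Real.rpow_neg_one]; norm_num
        have e1 : pw ((n : ℝ) ^ 2 / 4 + 2 * n - (n : ℝ) * k / 20000) ≤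
            1 / 2 * pw ((n : ℝ) ^ 2 / 4 + 2 * n) := by
          rw [← hhalf, ← pw_add]
          apply pw_mono
          nlinarith
        have e2 : pw ((n : ℝ) ^ 2 / 4 + 3 * n / 2 - n / 4) ≤
            1 / 2 * pw ((n : ℝ) ^ 2 / 4 + 2 * n) := by
          rw [← hhalf, ← pw_add]
          apply pw_mono
          nlinarith
        have h0 := pw_nonneg ((n : ℝ) ^ 2 / 4 + 2 * n)
        have e3 : M * pw ((n : ℝ) ^ 2 / 4 + 2 * n - (n : ℝ) * k / 20000) ≤
            M * (1 / 2 * pw ((n : ℝ) ^ 2 / 4 + 2 * n)) :=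
          mul_le_mul_of_nonneg_left e1 (by linarith)
        nlinarith
  intro W
  exact main W.card W rfl

end Pool.Agent.Lib.MP_a8cbfa_co
end
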