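import Pool.Agent.Lib.MP_a8cbfa_co.PoDef
import Pool.Agent.Lib.MP_a8cbfa_co.T2

set_option autoImplicit false
set_option linter.unusedSectionVars false

open Finset

namespace Pool.Agent.Lib.MP_a8cbfa_co

variable {α : Type*} [Fintype α] [DecidableEq α]

/-- Strict order. -/
def slt (r : α → α → Bool) (x y : α) : Prop := r x y = true ∧ x ≠ y

/-- `y` covers `x`. -/
def cov (r : α → α → Bool) (x y : α) : Prop := slt r x y ∧ ∀ z, slt r x z → ¬ slt r z y

lemma IsPo.strans {r : α → α → Bool} (h : IsPo r) {x y z : α} (h1 : slt r x y) (h2 : slt r y z) :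
    slt r x z := by
  refine ⟨h.2.2 x y z h1.1 h2.1, ?_⟩
  rintro rfl
  exact h1.2 (h.2.1 x y h1.1 h2.1)

lemma IsPo.sirrefl {r : α → α → Bool} {x : α} (h1 : slt r x x) : False := h1.2 rfl

lemma IsPo.sasymm {r : α → α → Bool} (h : IsPo r) {x y : α} (h1 : slt r x y) (h2 : slt r y x) :
    False := IsPo.sirrefl (h.strans h1 h2)

open Classical in
/-- Upper covers. -/
noncomputable def upN (r : α → α → Bool) (x : α) : Finset α := univ.filter (fun y => cov r x y)

open Classical in
/-- Lower covers. -/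
noncomputable def dnN (r : α → α → Bool) (x : α) : Finset α := univ.filter (fun y => cov r y x)

/-- Neighbours in the cover graph. -/
noncomputable def nb (r : α → α → Bool) (x : α) : Finset α := upN r x ∪ dnN r x

lemma mem_upN {r : α → α → Bool} {x y : α} : y ∈ upN r x ↔ cov r x y := by
  simp [upN]

lemma mem_dnN {r : α → α → Bool} {x y : α} : y ∈ dnN r x ↔ cov r y x := by
  simp [dnN]

lemma mem_nb {r : α → α → Bool} {x y : α} : y ∈ nb r x ↔ cov r x y ∨ cov r y x := by
  rw [nb, mem_union, mem_upN, mem_dnN]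

lemma nb_symm {r : α → α → Bool} {x y : α} (h : y ∈ nb r x) : x ∈ nb r y := by
  rw [mem_nb] at h ⊢
  exact h.symm

lemma upN_subset (r : α → α → Bool) (x : α) : upN r x ⊆ nb r x := subset_union_left

lemma dnN_subset (r : α → α → Bool) (x : α) : dnN r x ⊆ nb r x := subset_union_right

/-- A vertex adjacent to both ends of a strict inequality lies between them. -/
lemma IsPo.between {r : α → α → Bool} (h : IsPo r) {w z v : α} (hwz : slt r w z)
    (h1 : v ∈ nb r w) (h2 : v ∈ nb r z) : cov r w v ∧ cov r v z := by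
  rw [mem_nb] at h1 h2
  rcases h1 with h1 | h1
  · rcases h2 with h2 | h2
    · exact absurd h2.1 (fun h3 => h1.2 z hwz h3)
    · exact ⟨h1, h2⟩
  · rcases h2 with h2 | h2
    · exact absurd (h.strans (h.strans h2.1 h1.1) hwz) IsPo.sirrefl
    · exact absurd hwz (h2.2 w h1.1)

lemma IsPo.cov_asymm {r : α → α → Bool} (h : IsPo r) {x y : α} (h1 : cov r x y) (h2 : cov r y x) :
    False := h.sasymm h1.1 h2.1

lemma IsPo.mem_nb_not_cov {r : α → α → Bool} {x y : α} (h1 : y ∈ nb r x)
    (h2 : ¬ cov r x y) : cov r y x := by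
  rw [mem_nb] at h1
  tauto

/-- The cover graph is triangle-free. -/
lemma IsPo.isTF {r : α → α → Bool} (h : IsPo r) : IsTF univ (nb r) where
  symm x y hy := nb_symm hy
  disj x y hy := by
    rw [disjoint_left]
    intro v hv1 hv2
    have h1 := hy
    rw [mem_nb] at h1
    rcases h1 with h1 | h1
    · obtain ⟨h2, h3⟩ := h.between h1.1 hv1 hv2
      exact h1.2 v h2.1 h3.1
    · obtain ⟨h2, h3⟩ := h.between h1.1 hv2 hv1
      exact h1.2 v h2.1 h3.1
  supp x := subset_univ _

open Classical in
/-- Open interval. -/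
noncomputable def ivl (r : α → α → Bool) (x y : α) : Finset α :=
  univ.filter (fun z => slt r x z ∧ slt r z y)

lemma mem_ivl {r : α → α → Bool} {x y z : α} : z ∈ ivl r x y ↔ slt r x z ∧ slt r z y := by
  simp [ivl]

lemma IsPo.le_of_cov {r r' : α → α → Bool} (h : IsPo r) (h' : IsPo r')
    (hc : ∀ x y, cov r x y → cov r' x y) : ∀ (m : ℕ) (x y : α), (ivl r x y).card ≤ m →
      slt r x y → r' x y = true := by
  intro m
  induction m with
  | zero =>
    intro x y hm hxy
    have : cov r x y := by
      refine ⟨hxy, ?_⟩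
      intro z h1 h2
      have : z ∈ ivl r x y := mem_ivl.mpr ⟨h1, h2⟩
      have := card_pos.mpr ⟨z, this⟩
      omega
    exact (hc x y this).1.1
  | succ m ih =>
    intro x y hm hxy
    by_cases hcov : cov r x y
    · exact (hc x y hcov).1.1
    · unfold cov at hcov
      push Not at hcov
      obtain ⟨z, h1, h2⟩ := hcov hxy
      have hz : z ∈ ivl r x y := mem_ivl.mpr ⟨h1, h2⟩
      have c1 : (ivl r x z).card < (ivl r x y).card := by
        apply card_lt_card
        rw [ssubset_iff_of_subset]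
        · refine ⟨z, hz, ?_⟩
          intro hcon
          rw [mem_ivl] at hcon
          exact IsPo.sirrefl hcon.2
        · intro w hw
          rw [mem_ivl] at hw ⊢
          exact ⟨hw.1, h.strans hw.2 h2⟩
      have c2 : (ivl r z y).card < (ivl r x y).card := by
        apply card_lt_card
        rw [ssubset_iff_of_subset]
        · refine ⟨z, hz, ?_⟩
          intro hcon
          rw [mem_ivl] at hcon
          exact IsPo.sirrefl hcon.1
        · intro w hw
          rw [mem_ivl] at hw ⊢
          exact ⟨h.strans h1 hw.1, hw.2⟩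
      exact h'.2.2 x z y (ih x z (by omega) h1) (ih z y (by omega) h2)

/-- A finite partial order is determined by its cover relation. -/
lemma IsPo.eq_of_cov {r r' : α → α → Bool} (h : IsPo r) (h' : IsPo r')
    (hc : ∀ x y, cov r x y ↔ cov r' x y) : r = r' := by
  funext x y
  rw [Bool.eq_iff_iff]
  constructor
  · intro hxy
    by_cases he : x = y
    · subst he; exact h'.1 x
    · exact h.le_of_cov h' (fun x y => (hc x y).mp) _ x y le_rfl ⟨hxy, he⟩
  · intro hxy
    by_cases he : x = y
    · subst he; exact h.1 x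
    · exact h'.le_of_cov h (fun x y => (hc x y).mpr) _ x y le_rfl ⟨hxy, he⟩

open Classical in
/-- Height-like function. -/
noncomputable def ht (r : α → α → Bool) (x : α) : ℕ := (univ.filter (fun z => slt r z x)).card

lemma IsPo.ht_lt {r : α → α → Bool} (h : IsPo r) {x y : α} (hxy : slt r x y) :
    ht r x < ht r y := by
  classical
  unfold ht
  apply card_lt_card
  rw [ssubset_iff_of_subset]
  · refine ⟨x, ?_, ?_⟩
    · rw [mem_filter]; exact ⟨mem_univ _, hxy⟩
    · rw [mem_filter]; intro hcon; exact IsPo.sirrefl hcon.2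
  · intro w hw
    rw [mem_filter] at hw ⊢
    exact ⟨mem_univ _, h.strans hw.2 hxy⟩

lemma ht_lt_card (r : α → α → Bool) (x : α) : ht r x < Fintype.card α + 1 := by
  classical
  unfold ht
  have := card_filter_le (univ : Finset α) (fun z => slt r z x)
  rw [card_univ] at this
  omega

/-- The number of posets whose cover graph is in a given family. -/
lemma card_posets_le (𝒬 : Finset (α → α → Bool)) (h𝒬 : ∀ r ∈ 𝒬, IsPo r)
    (𝓕 : Finset (α → Finset α)) (hF : ∀ r ∈ 𝒬, nb r ∈ 𝓕) :
    (𝒬.card : ℝ) ≤ (𝓕.card : ℝ) * pw (Fintype.card α * lg (Fintype.card α)) := by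
  classical
  have h1 : 𝒬.card ≤ (𝓕 ×ˢ (Fintype.piFinset (fun _ : α => range (Fintype.card α + 1)))).card := by
    apply card_le_card_of_injOn (fun r => (nb r, ht r))
    · intro r hr
      rw [mem_coe, mem_product, Fintype.mem_piFinset]
      exact ⟨hF r hr, fun x => mem_range.mpr (ht_lt_card r x)⟩
    · intro r hr r' hr' hrr
      have e1 : nb r = nb r' := congrArg Prod.fst hrr
      have e2 : ht r = ht r' := congrArg Prod.snd hrr
      have key : ∀ (r r' : α → α → Bool), IsPo r → IsPo r' → nb r = nb r' → ht r = ht r' →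
          ∀ x y, cov r x y → cov r' x y := by
        intro r r' h h' e1 e2 x y hc
        have h1 : y ∈ nb r' x := by rw [← e1, mem_nb]; exact Or.inl hc
        rw [mem_nb] at h1
        rcases h1 with h1 | h1
        · exact h1
        · have h2 := h'.ht_lt h1.1
          have h3 := h.ht_lt hc.1
          rw [e2] at h3
          omega
      exact (h𝒬 r hr).eq_of_cov (h𝒬 r' hr') (fun x y => ⟨key r r' (h𝒬 r hr) (h𝒬 r' hr') e1 e2 x y,
        key r' r (h𝒬 r' hr') (h𝒬 r hr) e1.symm e2.symm x y⟩)
  rw [card_product, Fintype.card_piFinset, prod_const, card_range, card_univ] at h1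
  have h2 : (𝒬.card : ℝ) ≤ ((𝓕.card * (Fintype.card α + 1) ^ Fintype.card α : ℕ) : ℝ) := by
    exact_mod_cast h1
  rw [pw_nat_mul, pw_lg]
  push_cast at h2
  exact h2

/-- The opposite order. -/
def rop (r : α → α → Bool) : α → α → Bool := fun x y => r y x

lemma rop_rop (r : α → α → Bool) : rop (rop r) = r := rfl

lemma IsPo.rop {r : α → α → Bool} (h : IsPo r) : IsPo (rop r) :=
  ⟨fun x => h.1 x, fun x y h1 h2 => h.2.1 x y h2 h1, fun x y z h1 h2 => h.2.2 z y x h2 h1⟩

lemma slt_rop {r : α → α → Bool} {x y : α} : slt (rop r) x y ↔ slt r y x := by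
  unfold slt Pool.Agent.Lib.MP_a8cbfa_co.rop
  rw [ne_comm]

lemma cov_rop {r : α → α → Bool} {x y : α} : cov (rop r) x y ↔ cov r y x := by
  unfold cov
  simp only [slt_rop]
  constructor
  · rintro ⟨h1, h2⟩
    exact ⟨h1, fun z h3 h4 => h2 z h4 h3⟩
  · rintro ⟨h1, h2⟩
    exact ⟨h1, fun z h3 h4 => h2 z h4 h3⟩

lemma nb_rop (r : α → α → Bool) : nb (rop r) = nb r := by
  funext x
  ext y
  rw [mem_nb, mem_nb, cov_rop, cov_rop]
  tauto

lemma upN_rop (r : α → α → Bool) (x : α) : upN (rop r) x = dnN r x := by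
  ext y
  rw [mem_upN, mem_dnN, cov_rop]

lemma dnN_rop (r : α → α → Bool) (x : α) : dnN (rop r) x = upN r x := by
  ext y
  rw [mem_upN, mem_dnN, cov_rop]

end Pool.Agent.Lib.MP_a8cbfa_co
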