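import Pool.Agent.Lib.MP_a8cbfa_co.Poset

set_option autoImplicit false
set_option linter.unusedSectionVars false

open Finset

namespace Pool.Agent.Lib.MP_a8cbfa_co

variable {α : Type*} [Fintype α] [DecidableEq α]

/-- Preliminary structure of a nice poset. -/
structure Pre (r : α → α → Bool) (E U V : Finset α) (k1 s g : ℕ) : Prop where
  po : IsPo r
  bip : BipOn univ E U V (nb r)
  expU : Exp (nb r) U V k1 s
  expV : Exp (nb r) V U k1 s
  degU : ∀ u ∈ U, g ≤ (nb r u ∩ V).card
  degV : ∀ v ∈ V, g ≤ (nb r v ∩ U).card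

/-- Full structure: the orientation of the bipartite part is determined by `X` and `Y`. -/
structure Str (r : α → α → Bool) (E U V X Y : Finset α) (k1 s g : ℕ) : Prop
    extends Pre r E U V k1 s g where
  ori : ∀ u ∈ U, ∀ v ∈ V, v ∈ nb r u → (cov r v u ↔ (u ∈ X ∨ v ∈ Y))

lemma Pre.swap {r : α → α → Bool} {E U V : Finset α} {k1 s g : ℕ} (h : Pre r E U V k1 s g) :
    Pre r E V U k1 s g :=
  ⟨h.po, h.bip.swap, h.expV, h.expU, h.degV, h.degU⟩

lemma Pre.rop {r : α → α → Bool} {E U V : Finset α} {k1 s g : ℕ} (h : Pre r E U V k1 s g) :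
    Pre (rop r) E U V k1 s g := by
  refine ⟨h.po.rop, ?_, ?_, ?_, ?_, ?_⟩
  · rw [nb_rop]; exact h.bip
  · rw [nb_rop]; exact h.expU
  · rw [nb_rop]; exact h.expV
  · rw [nb_rop]; exact h.degU
  · rw [nb_rop]; exact h.degV

lemma Exp.mono {N : α → Finset α} {U V U' V' : Finset α} {k1 s : ℕ} (h : Exp N U V k1 s)
    (hU : U' ⊆ U) (hV : V' ⊆ V) : Exp N U' V' k1 s := by
  intro T hT hs
  refine lt_of_le_of_lt (card_le_card ?_) (h T (hT.trans hV) hs)
  exact filter_subset_filter _ hU

/-- Among `k1` vertices one sees a given large set well. -/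
lemma Exp.exists_mem {N : α → Finset α} {U V : Finset α} {k1 s : ℕ} (h : Exp N U V k1 s)
    {T Z : Finset α} (hT : T ⊆ V) (hs : s ≤ T.card) (hZ : Z ⊆ U) (hk : k1 ≤ Z.card) :
    ∃ z ∈ Z, T.card ≤ 16 * (N z ∩ T).card := by
  classical
  by_contra hcon
  push Not at hcon
  have h1 : Z ⊆ U.filter (fun u => 16 * (N u ∩ T).card < T.card) := by
    intro z hz
    rw [mem_filter]
    exact ⟨hZ hz, hcon z hz⟩
  have h2 := card_le_card h1
  have h3 := h T hT hs
  omega

/-- Version producing an adjacent pair. -/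
lemma Exp.exists_adj {N : α → Finset α} {U V : Finset α} {k1 s : ℕ} (h : Exp N U V k1 s)
    {T Z : Finset α} (hT : T ⊆ V) (hs : s ≤ T.card) (hs1 : 1 ≤ s) (hZ : Z ⊆ U)
    (hk : k1 ≤ Z.card) : ∃ z ∈ Z, ∃ t ∈ T, t ∈ N z := by
  obtain ⟨z, hz, h1⟩ := h.exists_mem hT hs hZ hk
  have : 0 < (N z ∩ T).card := by omega
  obtain ⟨t, ht⟩ := card_pos.mp this
  rw [mem_inter] at ht
  exact ⟨z, hz, t, ht.2, ht.1⟩

/-- Moving vertices to the exceptional set. -/
lemma BipOn.move {E U V U' V' : Finset α} {N : α → Finset α} (h : BipOn univ E U V N)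
    (hU : U' ⊆ U) (hV : V' ⊆ V) : BipOn univ (E ∪ (U \ U') ∪ (V \ V')) U' V' N where
  tf := h.tf
  hE := subset_univ _
  union := by
    ext x
    have h1 : x ∈ U ∪ V ↔ x ∈ univ \ E := by rw [h.union]
    have h2 := h.disj
    rw [disjoint_left] at h2
    simp only [mem_union, mem_sdiff, mem_univ, true_and] at h1 ⊢
    have h3 := @h2 x
    have h4 := @hU x
    have h5 := @hV x
    tauto
  disj := disjoint_of_subset_left hU (disjoint_of_subset_right hV h.disj)
  hU u hu := disjoint_of_subset_right hU (h.hU u (hU hu))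
  hV v hv := disjoint_of_subset_right hV (h.hV v (hV hv))

lemma card_inter_sdiff_ge (A V V' : Finset α) (c : ℕ) (h : (V \ V').card ≤ c) :
    (A ∩ V).card ≤ (A ∩ V').card + c := by
  have h1 : A ∩ V ⊆ (A ∩ V') ∪ (V \ V') := by
    intro x hx
    rw [mem_inter] at hx
    rw [mem_union, mem_inter, mem_sdiff]
    tauto
  have h2 := (card_le_card h1).trans (card_union_le _ _)
  omega

/-- Remove vertices of low degree. -/
lemma exists_pre {r : α → α → Bool} {E U V : Finset α} {k1 s g : ℕ} (hpo : IsPo r)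
    (hb : BipOn univ E U V (nb r)) (h1 : Exp (nb r) U V k1 s) (h2 : Exp (nb r) V U k1 s)
    (hsU : s ≤ U.card) (hsV : s ≤ V.card) (hgU : 16 * (g + k1) ≤ U.card)
    (hgV : 16 * (g + k1) ≤ V.card) :
    ∃ E' U' V' : Finset α, Pre r E' U' V' k1 s g ∧ E'.card ≤ E.card + 2 * k1 ∧
      U.card ≤ U'.card + k1 ∧ V.card ≤ V'.card + k1 := by
  classical
  set U0 := U.filter (fun u => 16 * (nb r u ∩ V).card < V.card) with hU0
  set V0 := V.filter (fun v => 16 * (nb r v ∩ U).card < U.card) with hV0
  have c1 : U0.card < k1 := h1 V Subset.rfl hsV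
  have c2 : V0.card < k1 := h2 U Subset.rfl hsU
  have s1 : U0 ⊆ U := filter_subset _ _
  have s2 : V0 ⊆ V := filter_subset _ _
  have e1 : U \ (U \ U0) = U0 := Finset.sdiff_sdiff_eq_self s1
  have e2 : V \ (V \ V0) = V0 := Finset.sdiff_sdiff_eq_self s2
  have hb' := hb.move (sdiff_subset : U \ U0 ⊆ U) (sdiff_subset : V \ V0 ⊆ V)
  refine ⟨_, U \ U0, V \ V0, ⟨hpo, hb', h1.mono sdiff_subset sdiff_subset,
    h2.mono sdiff_subset sdiff_subset, ?_, ?_⟩, ?_, ?_, ?_⟩
  · intro u hu
    rw [mem_sdiff, hU0, mem_filter, not_and, not_lt] at hu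
    have h3 := hu.2 hu.1
    have h4 := card_inter_sdiff_ge (nb r u) V (V \ V0) k1 (by rw [e2]; omega)
    omega
  · intro v hv
    rw [mem_sdiff, hV0, mem_filter, not_and, not_lt] at hv
    have h3 := hv.2 hv.1
    have h4 := card_inter_sdiff_ge (nb r v) U (U \ U0) k1 (by rw [e1]; omega)
    omega
  · rw [e1, e2]
    have h3 := card_union_le (E ∪ U0) V0
    have h4 := card_union_le E U0
    omega
  · rw [card_sdiff_of_subset s1]
    omega
  · rw [card_sdiff_of_subset s2]
    omega

/-! ### Case I -/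

/-- If some vertex of `U` has many lower and many upper neighbours in `V`, then after removing few
vertices the orientation is determined by the vertices of `V`. -/
lemma Pre.caseI {r : α → α → Bool} {E U V : Finset α} {k1 s g : ℕ} (h : Pre r E U V k1 s g)
    (hs1 : 1 ≤ s) (x0 : α) (hD : 16 * s ≤ (dnN r x0 ∩ V).card)
    (hP : 16 * s ≤ (upN r x0 ∩ V).card) (hg : 4 * k1 ≤ g) :
    ∃ E' U' Y : Finset α, Str r E' U' V ∅ Y k1 s (g - 2 * k1) ∧ Y ⊆ V ∧
      E'.card ≤ E.card + 2 * k1 ∧ U.card ≤ U'.card + 2 * k1 := by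
  classical
  set D := dnN r x0 ∩ V with hDdef
  set P := upN r x0 ∩ V with hPdef
  have sD : D ⊆ V := inter_subset_right
  have sP : P ⊆ V := inter_subset_right
  set B1 := U.filter (fun u => 16 * (nb r u ∩ D).card < D.card) with hB1
  set B2 := U.filter (fun u => 16 * (nb r u ∩ P).card < P.card) with hB2
  have c1 : B1.card < k1 := h.expU D sD (by omega)
  have c2 : B2.card < k1 := h.expU P sP (by omega)
  have s1 : B1 ∪ B2 ⊆ U := union_subset (filter_subset _ _) (filter_subset _ _)
  have c3 : (B1 ∪ B2).card ≤ 2 * k1 := by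
    have := card_union_le B1 B2
    omega
  set U' := U \ (B1 ∪ B2) with hU'
  have sU' : U' ⊆ U := sdiff_subset
  have e1 : U \ U' = B1 ∪ B2 := Finset.sdiff_sdiff_eq_self s1
  have hb' := h.bip.move sU' (Subset.refl V)
  have hDx : ∀ d ∈ D, cov r d x0 := by
    intro d hd
    exact mem_dnN.mp (mem_inter.mp hd).1
  have hPx : ∀ p ∈ P, cov r x0 p := by
    intro p hp
    exact mem_upN.mp (mem_inter.mp hp).1
  have good : ∀ u ∈ U', D.card ≤ 16 * (nb r u ∩ D).card ∧ P.card ≤ 16 * (nb r u ∩ P).card := by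
    intro u hu
    rw [hU', mem_sdiff, mem_union, not_or, hB1, hB2, mem_filter, mem_filter, not_and, not_lt,
      not_and, not_lt] at hu
    exact ⟨hu.2.1 hu.1, hu.2.2 hu.1⟩
  -- vertices of `D` are below their neighbours in `U'`
  have key : ∀ u ∈ U', ∀ w ∈ D, w ∈ nb r u → cov r w u := by
    intro u hu w hw hwu
    obtain ⟨_, h2⟩ := good u hu
    have : 0 < (nb r u ∩ P).card := by omega
    obtain ⟨p, hp⟩ := card_pos.mp this
    rw [mem_inter] at hp
    have h3 : slt r w p := h.po.strans (hDx w hw).1 (hPx p hp.2).1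
    exact (h.po.between h3 (nb_symm hwu) (nb_symm hp.1)).1
  have hdeg : ∀ v ∈ V, g - 2 * k1 ≤ (nb r v ∩ U').card := by
    intro v hv
    have h1 := h.degV v hv
    have h2 := card_inter_sdiff_ge (nb r v) U U' (2 * k1) (by rw [e1]; exact c3)
    omega
  refine ⟨_, U', V.filter (fun v => ∃ u ∈ U', cov r v u), ⟨⟨h.po, hb', h.expU.mono sU' Subset.rfl,
    h.expV.mono Subset.rfl sU', ?_, hdeg⟩, ?_⟩, filter_subset _ _, ?_, ?_⟩
  · intro u hu
    have := h.degU u (sU' hu)
    omega
  · intro u hu v hv hvu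
    constructor
    · intro hc
      right
      rw [mem_filter]
      exact ⟨hv, u, hu, hc⟩
    · rintro (hc | hc)
      · simp at hc
      · rw [mem_filter] at hc
        obtain ⟨_, u1, hu1, hc1⟩ := hc
        by_contra hcon
        have hc2 : cov r u v := IsPo.mem_nb_not_cov (nb_symm hvu) hcon
        have hsplit : (nb r v ∩ U').card ≤ (upN r v ∩ U').card + (dnN r v ∩ U').card := by
          unfold nb
          rw [union_inter_distrib_right]
          exact card_union_le _ _
        have hd := hdeg v hv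
        have hor : k1 ≤ (upN r v ∩ U').card ∨ k1 ≤ (dnN r v ∩ U').card := by omega
        rcases hor with hor | hor
        · obtain ⟨z, hz, t, ht, htz⟩ := h.expU.exists_adj (T := nb r u ∩ D)
            (inter_subset_right.trans sD) (by have := (good u hu).1; omega) hs1
            (inter_subset_right.trans sU') hor
          rw [mem_inter] at hz ht
          have h4 : cov r v z := mem_upN.mp hz.1
          have h5 : slt r u z := h.po.strans hc2.1 h4.1
          have h6 := (h.po.between h5 ht.1 htz).1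
          exact h.po.cov_asymm h6 (key u hu t ht.2 ht.1)
        · obtain ⟨z, hz, t, ht, htz⟩ := h.expU.exists_adj (T := nb r u1 ∩ D)
            (inter_subset_right.trans sD) (by have := (good u1 hu1).1; omega) hs1
            (inter_subset_right.trans sU') hor
          rw [mem_inter] at hz ht
          have h4 : cov r z v := mem_dnN.mp hz.1
          have h5 : slt r z u1 := h.po.strans h4.1 hc1.1
          have h6 := (h.po.between h5 htz ht.1).1
          exact h.po.cov_asymm h6 (key z hz.2 t ht.2 htz)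
  · rw [e1]
    have h3 := card_union_le (E ∪ (B1 ∪ B2)) (V \ V)
    have h4 := card_union_le E (B1 ∪ B2)
    rw [Finset.sdiff_self, card_empty] at h3
    rw [Finset.sdiff_self]
    omega
  · have := card_inter_sdiff_ge U U U' (2 * k1) (by rw [e1]; exact c3)
    rw [inter_self, inter_eq_right.mpr sU'] at this
    exact this

/-! ### Case II -/

lemma card_nb_le (r : α → α → Bool) (x : α) (A : Finset α) :
    (nb r x ∩ A).card ≤ (upN r x ∩ A).card + (dnN r x ∩ A).card := by
  unfold nb
  rw [union_inter_distrib_right]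
  exact card_union_le _ _

/-- Two sets of vertices with few upper neighbours in each other cannot both be large. -/
lemma Pre.dense {r : α → α → Bool} {E U V : Finset α} {k1 s g : ℕ} (h : Pre r E U V k1 s g)
    (q m : ℕ) (HU HV : Finset α) (hHU : HU ⊆ U) (hHV : HV ⊆ V)
    (h1 : ∀ u ∈ HU, (upN r u ∩ V).card ≤ q) (h2 : ∀ v ∈ HV, (upN r v ∩ U).card ≤ q)
    (hs : s ≤ m) (hmV : m ≤ HV.card) (hmU : m ≤ HU.card) (hq : 32 * q + k1 < m) : False := by
  classical
  set B := HU.filter (fun u => 16 * (nb r u ∩ HV).card < HV.card) with hB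
  have hBc : B.card < k1 := by
    refine lt_of_le_of_lt (card_le_card ?_) (h.expU HV hHV (hs.trans hmV))
    exact filter_subset_filter _ hHU
  -- lower bound
  have l1 : ∀ u ∈ HU \ B, HV.card ≤ 16 * (dnN r u ∩ HV).card + 16 * q := by
    intro u hu
    rw [mem_sdiff, hB, mem_filter, not_and, not_lt] at hu
    have h3 := hu.2 hu.1
    have h4 := card_nb_le r u HV
    have h5 : (upN r u ∩ HV).card ≤ q :=
      (card_le_card (inter_subset_inter Subset.rfl hHV)).trans (h1 u hu.1)
    omega
  have l2 : (HU \ B).card * HV.card ≤ ∑ u ∈ HU, 16 * (dnN r u ∩ HV).card +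
      (HU \ B).card * (16 * q) := by
    calc (HU \ B).card * HV.card = ∑ _u ∈ HU \ B, HV.card := by
          rw [sum_const, smul_eq_mul]
      _ ≤ ∑ u ∈ HU \ B, (16 * (dnN r u ∩ HV).card + 16 * q) := sum_le_sum l1
      _ = ∑ u ∈ HU \ B, 16 * (dnN r u ∩ HV).card + (HU \ B).card * (16 * q) := by
          rw [sum_add_distrib, sum_const, smul_eq_mul]
      _ ≤ ∑ u ∈ HU, 16 * (dnN r u ∩ HV).card + (HU \ B).card * (16 * q) := by
          apply Nat.add_le_add_right
          exact sum_le_sum_of_subset sdiff_subset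
  have l3 : ∑ u ∈ HU, (dnN r u ∩ HV).card = ∑ v ∈ HV, (upN r v ∩ HU).card := by
    have := Finset.sum_card_bipartiteAbove_eq_sum_card_bipartiteBelow (s := HU) (t := HV)
      (fun u v => cov r v u)
    have e1 : ∀ u, bipartiteAbove (fun u v => cov r v u) HV u = dnN r u ∩ HV := by
      intro u
      ext v
      rw [mem_bipartiteAbove, mem_inter, mem_dnN]
      tauto
    have e2 : ∀ v, bipartiteBelow (fun u v => cov r v u) HU v = upN r v ∩ HU := by
      intro v
      ext u
      rw [mem_bipartiteBelow, mem_inter, mem_upN]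
      tauto
    simp only [e1, e2] at this
    exact this
  have l4 : ∑ v ∈ HV, (upN r v ∩ HU).card ≤ HV.card * q := by
    calc ∑ v ∈ HV, (upN r v ∩ HU).card ≤ ∑ _v ∈ HV, q := by
          apply sum_le_sum
          intro v hv
          exact (card_le_card (inter_subset_inter Subset.rfl hHU)).trans (h2 v hv)
      _ = HV.card * q := by rw [sum_const, smul_eq_mul]
  rw [← mul_sum, l3] at l2
  have l5 : (HU \ B).card + k1 ≥ HU.card := by
    have hBsub : B ⊆ HU := filter_subset _ _
    rw [card_sdiff_of_subset hBsub]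
    omega
  -- arithmetic
  have l6 : (HU \ B).card * HV.card ≤ 16 * (HV.card * q) + (HU \ B).card * (16 * q) := by
    omega
  set a := (HU \ B).card
  set b := HV.card
  have l7 : a > 32 * q := by omega
  have l8 : b > 32 * q := by omega
  nlinarith

/-- No vertex has both many lower and many upper neighbours on the other side. -/
def NoMid (r : α → α → Bool) (U V : Finset α) (q : ℕ) : Prop :=
  ∀ u ∈ U, (dnN r u ∩ V).card < q ∨ (upN r u ∩ V).card < q

open Classical in
/-- Vertices with few upper neighbours. -/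
noncomputable def hi (r : α → α → Bool) (U V : Finset α) (q : ℕ) : Finset α :=
  U.filter (fun u => (upN r u ∩ V).card < q)

lemma mem_hi {r : α → α → Bool} {U V : Finset α} {q : ℕ} {x : α} :
    x ∈ hi r U V q ↔ x ∈ U ∧ (upN r x ∩ V).card < q := by
  simp [hi]

lemma Pre.caseII_core {r : α → α → Bool} {E U V : Finset α} {k1 s g : ℕ}
    (h : Pre r E U V k1 s g) (hs1 : 1 ≤ s) (q m : ℕ) (hmU : NoMid r U V q) (hmV : NoMid r V U q)
    (hX : (hi r U V q).card < m) (hY : (V \ hi r V U q).card < m) (hq : 17 * q ≤ g)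
    (hsq : s + q ≤ g) (hm : m + q + k1 ≤ g) :
    Str r E U V (hi r U V q) (V \ hi r V U q) k1 s g := by
  classical
  have dU : ∀ u ∈ U, u ∉ hi r U V q → g ≤ (upN r u ∩ V).card + q := by
    intro u hu hu2
    rw [mem_hi, not_and, not_lt] at hu2
    have h1 := hu2 hu
    have h2 := hmU u hu
    have h3 := card_nb_le r u V
    have h4 := h.degU u hu
    omega
  have uU : ∀ u ∈ hi r U V q, g ≤ (dnN r u ∩ V).card + q := by
    intro u hu
    rw [mem_hi] at hu
    have h3 := card_nb_le r u V
    have h4 := h.degU u hu.1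
    omega
  have dV : ∀ v ∈ V, v ∉ hi r V U q → g ≤ (upN r v ∩ U).card + q := by
    intro v hv hv2
    rw [mem_hi, not_and, not_lt] at hv2
    have h1 := hv2 hv
    have h2 := hmV v hv
    have h3 := card_nb_le r v U
    have h4 := h.degV v hv
    omega
  have uV : ∀ v ∈ hi r V U q, g ≤ (dnN r v ∩ U).card + q := by
    intro v hv
    rw [mem_hi] at hv
    have h3 := card_nb_le r v U
    have h4 := h.degV v hv.1
    omega
  -- adjacency contradiction: two comparable vertices with a vertex in between are not adjacent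
  have nadj : ∀ a b c : α, slt r a b → slt r b c → c ∈ nb r a → False := by
    intro a b c hab hbc hc
    rw [mem_nb] at hc
    rcases hc with hc | hc
    · exact hc.2 b hab hbc
    · exact h.po.sasymm hc.1 (h.po.strans hab hbc)
  refine ⟨h, ?_⟩
  intro u hu v hv hvu
  constructor
  · intro hc
    by_contra hcon
    rw [not_or, mem_sdiff, not_and, not_not] at hcon
    obtain ⟨hu2, hv2⟩ := hcon
    have hv2 := hv2 hv
    -- `v ⋖ u`, `u` low, `v` high
    have h1 := dU u hu hu2
    have h2 := uV v hv2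
    obtain ⟨z, hz, t, ht, htz⟩ := h.expU.exists_adj (T := upN r u ∩ V) inter_subset_right
      (by omega) hs1 (Z := dnN r v ∩ U) inter_subset_right (by omega)
    rw [mem_inter] at hz ht
    have e1 : cov r z v := mem_dnN.mp hz.1
    have e2 : cov r u t := mem_upN.mp ht.1
    exact nadj z v t e1.1 (h.po.strans hc.1 e2.1) htz
  · intro hor
    by_contra hcon
    have hc : cov r u v := IsPo.mem_nb_not_cov (nb_symm hvu) hcon
    by_cases hu2 : u ∈ hi r U V q
    · have h1 := uU u hu2
      by_cases hv2 : v ∈ hi r V U q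
      · have h2 := uV v hv2
        set D := dnN r u ∩ V with hD
        have hDc : s ≤ D.card := by omega
        have h3 : (dnN r v ∩ U) ⊆ hi r U V q ∪
            (U.filter (fun z => 16 * (nb r z ∩ D).card < D.card)) := by
          intro z hz
          rw [mem_inter, mem_dnN] at hz
          rw [mem_union]
          by_contra hcon2
          rw [not_or, mem_filter, not_and, not_lt] at hcon2
          have h4 := hcon2.2 hz.2
          have h5 : nb r z ∩ D ⊆ dnN r z ∩ V := by
            intro d hd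
            rw [mem_inter] at hd
            have hd2 := hd.2
            rw [hD, mem_inter, mem_dnN] at hd2
            rw [mem_inter, mem_dnN]
            refine ⟨?_, hd2.2⟩
            have h6 : slt r d v := h.po.strans hd2.1.1 hc.1
            exact (h.po.between h6 (nb_symm hd.1) (mem_nb.mpr (Or.inr hz.1))).1
          have h6 := card_le_card h5
          have h7 := hcon2.1
          rw [mem_hi, not_and, not_lt] at h7
          have h8 := h7 hz.2
          have h9 := hmU z hz.2
          omega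
        have h4 := (card_le_card h3).trans (card_union_le _ _)
        have h5 := h.expU D inter_subset_right hDc
        omega
      · have h2 := dV v hv hv2
        obtain ⟨z, hz, t, ht, htz⟩ := h.expU.exists_adj (T := dnN r u ∩ V) inter_subset_right
          (by omega) hs1 (Z := upN r v ∩ U) inter_subset_right (by omega)
        rw [mem_inter] at hz ht
        have e1 : cov r v z := mem_upN.mp hz.1
        have e2 : cov r t u := mem_dnN.mp ht.1
        exact nadj t u z e2.1 (h.po.strans hc.1 e1.1) (nb_symm htz)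
    · have hv2 : v ∉ hi r V U q := by
        rcases hor with hor | hor
        · exact absurd hor hu2
        · exact (mem_sdiff.mp hor).2
      have h1 := dU u hu hu2
      have h2 := dV v hv hv2
      set P := upN r v ∩ U with hP
      have hPc : s ≤ P.card := by omega
      have h3 : (upN r u ∩ V) ⊆ (V \ hi r V U q) ∪
          (V.filter (fun z => 16 * (nb r z ∩ P).card < P.card)) := by
        intro z hz
        rw [mem_inter, mem_upN] at hz
        rw [mem_union]
        by_contra hcon2
        rw [not_or, mem_filter, not_and, not_lt, mem_sdiff, not_and, not_not] at hcon2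
        have h4 := hcon2.2 hz.2
        have h5 : nb r z ∩ P ⊆ upN r z ∩ U := by
          intro p hp
          rw [mem_inter] at hp
          have hp2 := hp.2
          rw [hP, mem_inter, mem_upN] at hp2
          rw [mem_inter, mem_upN]
          refine ⟨?_, hp2.2⟩
          have h6 : slt r u p := h.po.strans hc.1 hp2.1.1
          exact (h.po.between h6 (mem_nb.mpr (Or.inl hz.1)) (nb_symm hp.1)).2
        have h6 := card_le_card h5
        have h7 := hcon2.1 hz.2
        rw [mem_hi] at h7
        omega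
      have h4 := (card_le_card h3).trans (card_union_le _ _)
      have h5 := h.expV P inter_subset_right hPc
      omega

lemma Pre.mono_g {r : α → α → Bool} {E U V : Finset α} {k1 s g g' : ℕ} (h : Pre r E U V k1 s g)
    (hg : g' ≤ g) : Pre r E U V k1 s g' :=
  ⟨h.po, h.bip, h.expU, h.expV, fun u hu => hg.trans (h.degU u hu),
    fun v hv => hg.trans (h.degV v hv)⟩

lemma Str.mono_g {r : α → α → Bool} {E U V X Y : Finset α} {k1 s g g' : ℕ}
    (h : Str r E U V X Y k1 s g) (hg : g' ≤ g) : Str r E U V X Y k1 s g' :=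
  ⟨h.toPre.mono_g hg, h.ori⟩

/-- The two possible forms of the orientation data. -/
def XYok (n : ℕ) (U V X Y : Finset α) : Prop :=
  (X = ∅ ∧ Y ⊆ V) ∨ (X ⊆ U ∧ Y ⊆ V ∧ 64 * X.card < n ∧ 64 * Y.card < n)

/-- Every nice poset has a full structure. -/
lemma exists_str_nat {n k k1 : ℕ} (hk1 : 200000 * k1 ≤ n) (hn0 : 10 ^ 6 ≤ n)
    {r : α → α → Bool} (hpo : IsPo r) {E U V : Finset α}
    (hb : BipOn univ E U V (nb r)) (hE : E.card ≤ 3 * k)
    (h1 : Exp (nb r) U V k1 (ps n)) (h2 : Exp (nb r) V U k1 (ps n))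
    (hU : n ≤ 3 * U.card) (hV : n ≤ 3 * V.card) :
    ∃ E' U' V' X Y : Finset α, Str r E' U' V' X Y k1 (ps n) (n / 60) ∧
      E'.card ≤ 3 * k + 4 * k1 ∧ n ≤ 4 * U'.card ∧ n ≤ 4 * V'.card ∧ XYok n U' V' X Y := by
  classical
  unfold ps at h1 h2 ⊢
  obtain ⟨E1, U1, V1, hpre, hE1, hU1, hV1⟩ := exists_pre (g := n / 50) hpo hb h1 h2
    (by omega) (by omega) (by omega) (by omega)
  have hs1 : 1 ≤ n / 262144 := by omega
  have hX : ∀ (U V : Finset α), (∃ x0 ∈ U, ¬ ((dnN r x0 ∩ V).card < 16 * (n / 262144) ∨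
      (upN r x0 ∩ V).card < 16 * (n / 262144))) ∨ NoMid r U V (16 * (n / 262144)) := by
    intro U V
    by_cases h : NoMid r U V (16 * (n / 262144))
    · exact Or.inr h
    · left
      unfold NoMid at h
      push Not at h
      obtain ⟨x0, hx0, h3, h4⟩ := h
      exact ⟨x0, hx0, by omega⟩
  rcases hX U1 V1 with ⟨x0, _, hx0⟩ | hmU
  · rw [not_or, not_lt, not_lt] at hx0
    obtain ⟨E', U', Y, hs, hY, hE', hU'⟩ := hpre.caseI hs1 x0 hx0.1 hx0.2 (by omega)
    exact ⟨E', U', V1, ∅, Y, hs.mono_g (by omega), by omega, by omega, by omega,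
      Or.inl ⟨rfl, hY⟩⟩
  rcases hX V1 U1 with ⟨x0, _, hx0⟩ | hmV
  · rw [not_or, not_lt, not_lt] at hx0
    obtain ⟨E', U', Y, hs, hY, hE', hU'⟩ := hpre.swap.caseI hs1 x0 hx0.1 hx0.2 (by omega)
    exact ⟨E', U', U1, ∅, Y, hs.mono_g (by omega), by omega, by omega, by omega,
      Or.inl ⟨rfl, hY⟩⟩
  -- Case II
  set q := 16 * (n / 262144) with hq
  set m := (n + 63) / 64 with hm
  have d1 : (hi r U1 V1 q).card < m ∨ (hi r V1 U1 q).card < m := by
    by_contra hcon
    rw [not_or, not_lt, not_lt] at hcon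
    exact hpre.dense q m (hi r U1 V1 q) (hi r V1 U1 q) (fun x hx => (mem_hi.mp hx).1)
      (fun x hx => (mem_hi.mp hx).1) (fun x hx => (mem_hi.mp hx).2.le)
      (fun x hx => (mem_hi.mp hx).2.le) (by omega) hcon.2 hcon.1 (by omega)
  have d2 : (U1 \ hi r U1 V1 q).card < m ∨ (V1 \ hi r V1 U1 q).card < m := by
    by_contra hcon
    rw [not_or, not_lt, not_lt] at hcon
    refine hpre.rop.dense q m (U1 \ hi r U1 V1 q) (V1 \ hi r V1 U1 q) sdiff_subset
      sdiff_subset ?_ ?_ (by omega) hcon.2 hcon.1 (by omega)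
    · intro x hx
      rw [mem_sdiff, mem_hi, not_and, not_lt] at hx
      have h3 := hx.2 hx.1
      have h4 := hmU x hx.1
      rw [upN_rop]
      omega
    · intro x hx
      rw [mem_sdiff, mem_hi, not_and, not_lt] at hx
      have h3 := hx.2 hx.1
      have h4 := hmV x hx.1
      rw [upN_rop]
      omega
  have cU : U1.card ≤ (hi r U1 V1 q).card + (U1 \ hi r U1 V1 q).card := by
    have h3 : hi r U1 V1 q ⊆ U1 := fun x hx => (mem_hi.mp hx).1
    rw [card_sdiff_of_subset h3]
    omega
  have cV : V1.card ≤ (hi r V1 U1 q).card + (V1 \ hi r V1 U1 q).card := by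
    have h3 : hi r V1 U1 q ⊆ V1 := fun x hx => (mem_hi.mp hx).1
    rw [card_sdiff_of_subset h3]
    omega
  have hor : ((hi r U1 V1 q).card < m ∧ (V1 \ hi r V1 U1 q).card < m) ∨
      ((hi r V1 U1 q).card < m ∧ (U1 \ hi r U1 V1 q).card < m) := by
    rcases d1 with d1 | d1 <;> rcases d2 with d2 | d2
    · exfalso; omega
    · exact Or.inl ⟨d1, d2⟩
    · exact Or.inr ⟨d1, d2⟩
    · exfalso; omega
  rcases hor with ⟨e1, e2⟩ | ⟨e1, e2⟩
  · refine ⟨E1, U1, V1, _, _, (hpre.caseII_core hs1 q m hmU hmV e1 e2 (by omega) (by omega)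
      (by omega)).mono_g (by omega), by omega, by omega, by omega, Or.inr ⟨?_, ?_, ?_, ?_⟩⟩
    · exact fun x hx => (mem_hi.mp hx).1
    · exact sdiff_subset
    · omega
    · omega
  · refine ⟨E1, V1, U1, _, _, (hpre.swap.caseII_core hs1 q m hmV hmU e1 e2 (by omega) (by omega)
      (by omega)).mono_g (by omega), by omega, by omega, by omega, Or.inr ⟨?_, ?_, ?_, ?_⟩⟩
    · exact fun x hx => (mem_hi.mp hx).1
    · exact sdiff_subset
    · omega
    · omega

lemma exists_str {n k : ℕ} (hg : Good CC n k) (hn : Fintype.card α = n)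
    {r : α → α → Bool} (hpo : IsPo r) {E U V : Finset α} (h : NiceG univ k (nb r) E U V) :
    ∃ E' U' V' X Y : Finset α, Str r E' U' V' X Y (pk1 k) (ps n) (n / 60) ∧
      E'.card ≤ 3 * k + 4 * pk1 k ∧ n ≤ 4 * U'.card ∧ n ≤ 4 * V'.card ∧ XYok n U' V' X Y := by
  obtain ⟨hb, hE, h1, h2, hU, hV⟩ := h
  rw [card_univ, hn] at h1 h2 hU hV
  have hat := hg.atoms one_le_CC
  have hC : CC = 10 ^ 12 := rfl
  have a5 := hat.a5
  have a6 := hat.a6
  rw [hC] at a5 a6
  apply exists_str_nat _ _ hpo hb hE h1 h2 hU hV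
  · have : 200000 * (pk1 k : ℝ) ≤ n := by
      unfold pk1
      push_cast
      have hk0 : (0 : ℝ) ≤ k := Nat.cast_nonneg k
      nlinarith
    exact_mod_cast this
  · have : (10 : ℝ) ^ 6 ≤ n := by linarith
    exact_mod_cast this

end Pool.Agent.Lib.MP_a8cbfa_co
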